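import Pool.Agent.MTC.StA

/-!
# MTC: module ADD, adding a tuple to the base
-/

set_option autoImplicit false
set_option linter.unusedVariables false

namespace Pool.Agent.MTC

open FirstOrder.Language Set
open scoped FirstOrder
open Pool.Agent.WOM (tp Mon IsEl IsoM CtU Fx Orb Isd)
open Pool.Agent.PMC (Sm Md NPf)
open Pool.Agent.MNO (Dp FE Sq Nx SmN FE1 FinN)
open Pool.Agent.TPC (Bq Pq Sub Fcp Lin Fre Iv Kl Inr Lab Clu Rgd Ist Cpt)

namespace ADDx

variable {L : FirstOrder.Language.{0, 0}} {U : Type} [L.Structure U]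

/-- the atom with `u` added in front -/
def sh {m : ℕ} (u : Fin m → U) (δ : Atm U) : Atm U :=
  ⟨m + δ.1, δ.2.1, Sum.elim (Fin.append u fun a => δ.2.2 (Sum.inl a)) fun a => δ.2.2 (Sum.inr a)⟩

/-- the subgroup -/
def GG (L : FirstOrder.Language.{0, 0}) {U : Type} [L.Structure U] (A : Set U) {m : ℕ} (u : Fin m → U)
    (g : U ≃[L] U) : Prop := Nx L A g ∧ ∀ i, g (u i) = u i

theorem cj_iff {A : Set U} {m : ℕ} (u : Fin m → U) {l k : ℕ} (s : Fin l ⊕ Fin k → U) (p : Fin l → U)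
    (q : Fin k → U) : Cj L (GG L A u) s (Sum.elim p q) ↔
      Cj L (Nx L A) (Sum.elim (Fin.append u fun a => s (Sum.inl a)) fun a => s (Sum.inr a))
        (Sum.elim (Fin.append u p) q) := by
  constructor
  · rintro ⟨g, ⟨h1, h2⟩, h3⟩
    refine ⟨g, h1, ?_⟩
    rintro (a | b)
    · refine Fin.addCases (fun a => ?_) (fun a => ?_) a
      · simp only [Sum.elim_inl, Fin.append_left]
        exact h2 a
      · simp only [Sum.elim_inl, Fin.append_right]
        exact h3 (Sum.inl a)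
    · exact h3 (Sum.inr b)
  · rintro ⟨g, h1, h3⟩
    refine ⟨g, ⟨h1, fun a => ?_⟩, ?_⟩
    · have h4 := h3 (Sum.inl (Fin.castAdd l a))
      simpa only [Sum.elim_inl, Fin.append_left] using h4
    · rintro (a | b)
      · have h4 := h3 (Sum.inl (Fin.natAdd m a))
        simpa only [Sum.elim_inl, Fin.append_right] using h4
      · exact h3 (Sum.inr b)

theorem range_app {m l : ℕ} (u : Fin m → U) (p : Fin l → U) :
    range (Fin.append u p) = range u ∪ range p := by
  ext x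
  constructor
  · rintro ⟨a, rfl⟩
    refine Fin.addCases (fun a => ?_) (fun a => ?_) a
    · rw [Fin.append_left]
      exact Or.inl ⟨a, rfl⟩
    · rw [Fin.append_right]
      exact Or.inr ⟨a, rfl⟩
  · rintro (⟨a, rfl⟩ | ⟨a, rfl⟩)
    · exact ⟨Fin.castAdd l a, Fin.append_left _ _ _⟩
    · exact ⟨Fin.natAdd m a, Fin.append_right _ _ _⟩

theorem app_comp {α : Type} {m l : ℕ} (u : Fin m → U) (v : α → U) (i : Fin l → α) :
    (fun a => Sum.elim u v (Fin.append (Sum.inl : Fin m → Fin m ⊕ α) (fun b => Sum.inr (i b)) a)) =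
      Fin.append u fun b => v (i b) := by
  funext a
  refine Fin.addCases (fun a => ?_) (fun a => ?_) a
  · rw [Fin.append_left, Fin.append_left, Sum.elim_inl]
  · rw [Fin.append_right, Fin.append_right, Sum.elim_inr]

theorem at_of {A : Set U} {m : ℕ} (u : Fin m → U) {Δ : Set (Atm U)} {α : Type} {v w : α → U}
    (h : At L (Nx L A) A (sh u '' Δ) (Sum.elim u v) (Sum.elim u w)) :
    At L (GG L A u) (A ∪ range u) Δ v w := by
  rintro ⟨l, k, s⟩ hδ i j
  dsimp only at i j ⊢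
  have h1 : ∀ j' : Fin k → α, (Cj L (Nx L A) (Sum.elim (Fin.append u fun a => s (Sum.inl a)) fun a => s (Sum.inr a))
      (Sum.elim (fun a => Sum.elim u v (Fin.append (Sum.inl : Fin m → Fin m ⊕ α)
        (fun b => Sum.inr (i b)) a)) fun a => v (j a)) ↔
      Cj L (Nx L A) (Sum.elim (Fin.append u fun a => s (Sum.inl a)) fun a => s (Sum.inr a))
      (Sum.elim (fun a => Sum.elim u w (Fin.append (Sum.inl : Fin m → Fin m ⊕ α)
        (fun b => Sum.inr (i b)) a)) fun a => w (j a))) ∧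
      (Cj L (Nx L A) (Sum.elim (Fin.append u fun a => s (Sum.inl a)) fun a => s (Sum.inr a))
      (Sum.elim (fun a => Sum.elim u v (Fin.append (Sum.inl : Fin m → Fin m ⊕ α)
        (fun b => Sum.inr (i b)) a)) fun a => v (j a)) →
      Cj L (Nx L A) (Sum.elim (Fin.append u fun a => s (Sum.inl a)) fun a => s (Sum.inr a))
      (Sum.elim (fun a => Sum.elim u v (Fin.append (Sum.inl : Fin m → Fin m ⊕ α)
        (fun b => Sum.inr (i b)) a)) fun a => v (j' a)) →
      (Cj L (Nx L (A ∪ range fun a => Sum.elim u v (Fin.append (Sum.inl : Fin m → Fin m ⊕ α)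
        (fun b => Sum.inr (i b)) a))) (fun a => v (j a)) (fun a => v (j' a)) ↔
       Cj L (Nx L (A ∪ range fun a => Sum.elim u w (Fin.append (Sum.inl : Fin m → Fin m ⊕ α)
        (fun b => Sum.inr (i b)) a))) (fun a => w (j a)) (fun a => w (j' a)))) := by
    intro j'
    have h2 := h (sh u ⟨l, k, s⟩) ⟨⟨l, k, s⟩, hδ, rfl⟩ (Fin.append Sum.inl fun b => Sum.inr (i b))
      (fun a => Sum.inr (j a))
    exact ⟨h2.1, h2.2 (fun a => Sum.inr (j' a))⟩
  simp only [app_comp, ← cj_iff, range_app, ← union_assoc] at h1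
  exact ⟨(h1 j).1, fun j' => (h1 j').2⟩

/-- the atom of one element -/
def one (x : U) : Atm U := ⟨0, 1, Sum.elim Fin.elim0 fun _ => x⟩

theorem cj1_iff (G : (U ≃[L] U) → Prop) (x y : U) {α : Type} (v : α → U) (i : Fin 0 → α) :
    Cj L G (one x).2.2 (Sum.elim (fun a => v (i a)) fun _ : Fin 1 => y) ↔ Cj1 L G x y := by
  constructor
  · rintro ⟨g, h1, h2⟩
    exact ⟨g, h1, h2 (Sum.inr (0 : Fin 1))⟩
  · rintro ⟨g, h1, h2⟩
    refine ⟨g, h1, ?_⟩
    rintro (a | b)
    · exact a.elim0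
    · exact h2

/-- reindexing -/
def rx {m : ℕ} {α : Type} : Fin m ⊕ Option α → Option (Fin m ⊕ α)
  | Sum.inl a => some (Sum.inl a)
  | Sum.inr none => none
  | Sum.inr (some b) => some (Sum.inr b)

theorem ov_rx {m : ℕ} {α : Type} (u : Fin m → U) (v : α → U) (x : U) :
    (fun b => ov (Sum.elim u v) x (rx b)) = Sum.elim u (ov v x) := by
  funext b
  rcases b with a | b
  · rfl
  · cases b <;> rfl

theorem main (hGEQ : St_GEQ) {A : Set U} {m : ℕ} (u : Fin m → U) {Δ : Set (Atm U)} {D X Y : Set U}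
    (hD : ∀ x ∈ D, one x ∈ Δ) : ∀ (n : ℕ) (α : Type) (v w : α → U),
    Eg L (Nx L A) A (sh u '' Δ) D n (Fin m ⊕ α) X (Sum.elim u v) Y (Sum.elim u w) →
    Eg L (GG L A u) (A ∪ range u) Δ D n α X v Y w := by
  intro n
  induction n with
  | zero =>
    intro α v w h
    exact at_of u h
  | succ n ih =>
    intro α v w h
    obtain ⟨h1, h2, h3⟩ := h
    have key : ∀ x y : U, Eg L (Nx L A) A (sh u '' Δ) D n (Option (Fin m ⊕ α)) X
        (ov (Sum.elim u v) x) Y (ov (Sum.elim u w) y) →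
        Eg L (GG L A u) (A ∪ range u) Δ D n (Option α) X (ov v x) Y (ov w y) := by
      intro x y h4
      apply ih
      have h5 := (hGEQ L U (Nx L A) A (sh u '' Δ) D n (Option (Fin m ⊕ α))).2.2.2.2.1
        (Fin m ⊕ Option α) rx X Y _ _ h4
      rw [ov_rx, ov_rx] at h5
      exact h5
    have hone : ∀ u₀ ∈ D, ∀ x y : U, Eg L (GG L A u) (A ∪ range u) Δ D n (Option α) X (ov v x) Y
        (ov w y) → (Cj1 L (GG L A u) u₀ x ↔ Cj1 L (GG L A u) u₀ y) := by
      intro u₀ h4 x y h5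
      have h6 := (hGEQ L U (GG L A u) (A ∪ range u) Δ D n (Option α)).2.2.2.2.2 X Y _ _ h5
      have h7 := (h6 (one u₀) (hD u₀ h4) (Fin.elim0 : Fin 0 → Option α) (fun _ => none)).1
      exact (cj1_iff (GG L A u) u₀ x (ov v x) _).symm.trans
        (h7.trans (cj1_iff (GG L A u) u₀ y (ov w y) _))
    refine ⟨at_of u h1, fun u₀ hu x hx h4 => ?_, fun u₀ hu y hy h4 => ?_⟩
    · obtain ⟨g, hg, hgx⟩ := h4
      obtain ⟨y, hy, -, h5⟩ := h2 u₀ hu x hx ⟨g, hg.1, hgx⟩
      have h6 := key x y h5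
      exact ⟨y, hy, (hone u₀ hu x y h6).1 ⟨g, hg, hgx⟩, h6⟩
    · obtain ⟨g, hg, hgx⟩ := h4
      obtain ⟨x, hx, -, h5⟩ := h3 u₀ hu y hy ⟨g, hg.1, hgx⟩
      have h6 := key x y h5
      exact ⟨x, hx, (hone u₀ hu x y h6).2 ⟨g, hg, hgx⟩, h6⟩

end ADDx

open ADDx in
theorem thm_ADD (hGEQ : St_GEQ) (hGRP : St_GRP) (hLMG : St_LMG) : St_ADD := by
  intro L U _ hM hF A m u X Y hA h
  have hG := hGRP L U hM A hA
  obtain ⟨g, hg, h2⟩ := hLMG L U hM hF (GG L A u) (A ∪ range u) (hG.2.2.1 m u)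
    (fun b hb => hG.2.2.2.2.1 m u b hb) X Y (by
      intro Δ D n hΔ hD
      have hfin : (Δ ∪ one '' D).Finite := hΔ.union (hD.image _)
      have h3 := h (sh u '' (Δ ∪ one '' D)) D n (hfin.image _) hD
      have h4 := (hGEQ L U (Nx L A) A (sh u '' (Δ ∪ one '' D)) D n (Fin m)).2.2.2.2.1
        (Fin m ⊕ Empty) (Sum.elim id Empty.elim) X Y _ _ h3
      have h5 : (fun b : Fin m ⊕ Empty => u (Sum.elim id Empty.elim b)) =
          Sum.elim u (Empty.elim : Empty → U) := by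
        funext b
        rcases b with a | b
        · rfl
        · exact b.elim
      rw [h5] at h4
      have h6 := main hGEQ u (fun x hx => Or.inr ⟨x, hx, rfl⟩) n Empty _ _ h4
      exact (hGEQ L U (GG L A u) (A ∪ range u) Δ D n Empty).2.2.2.1 (Δ ∪ one '' D) D n
        subset_union_left le_rfl le_rfl X Y _ _ h6)
  exact ⟨g, hg.1, hg.2, h2⟩

end Pool.Agent.MTC
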