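import Pool.Agent.MTC.StB
import Pool.Agent.MNO.BAF

/-!
# MTC, [ATK]: atomic clusters (helper6)
-/

set_option autoImplicit false
set_option linter.unusedVariables false

namespace Pool.Agent.MTC

open FirstOrder.Language Set
open scoped FirstOrder
open Pool.Agent.WOM (tp Mon IsEl IsoM CtU Fx Orb Isd)
open Pool.Agent.PMC (Sm Md NPf)
open Pool.Agent.MNO (Dp FE Sq Nx SmN FE1 FinN nx_refl nx_symm nx_comp nx_mono)
open Pool.Agent.TPC (Bq Pq Sub Fcp Lin Fre Iv Kl Inr Lab Clu Rgd Ist Cpt)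

/-- one step: an automorphism `g` of `Nx A` with `g p = p'` which maps the finite part `F` of an atomic
set `K` into the model `M'` may be changed outside of `F` and `p` such that it maps `b` into `M'` -/
theorem ATK_step {L : FirstOrder.Language.{0, 0}} {U : Type} [L.Structure U] (hM : Mon L U)
    (hF : FinN L U) {A K M' : Set U} (hA : A.Finite) (hK : AtC L A K) (hM' : Md L A M')
    {g : U ≃[L] U} (hg : Nx L A g) {F : Set U} (hFf : F.Finite) (hFK : F ⊆ K)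
    (hFM : ∀ x ∈ F, g x ∈ M') {b : U} (hb : b ∈ K) :
    ∃ h : U ≃[L] U, Nx L A h ∧ (∀ x ∈ F, h x = g x) ∧ h b ∈ M' := by
  classical
  have _ : Finite F := hFf
  obtain ⟨m, ⟨e⟩⟩ := Finite.exists_equiv_fin F
  obtain ⟨t, ht⟩ : ∃ t : Fin m → U, t = fun i => ((e.symm i : F) : U) := ⟨_, rfl⟩
  have htm : ∀ i, t i ∈ F := fun i => by rw [ht]; exact (e.symm i).2
  have htr : ∀ c ∈ F, c ∈ range t := by
    intro c hc
    refine ⟨e ⟨c, hc⟩, ?_⟩
    rw [ht]
    show ((e.symm (e ⟨c, hc⟩) : F) : U) = c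
    rw [e.symm_apply_apply]
  have h1 := hK (m + 1) (fun i => Sum.elim t (fun _ : Fin 1 => b) (finSumFinEquiv.symm i)) (by
    intro i
    rcases finSumFinEquiv.symm i with j | j
    · exact hFK (htm j)
    · exact hb)
  have h2 : Ist L A (Sum.elim t (fun _ : Fin 1 => b)) := by
    have h3 := Pool.Agent.MNO.dp_sub h1 (finSumFinEquiv.symm : Fin (m + 1) → Fin m ⊕ Fin 1)
    refine Pool.Agent.MNO.dp_congr h3 fun v => ?_
    constructor
    · rintro ⟨k, hk, hkv⟩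
      exact ⟨k, hk, fun i => hkv _⟩
    · rintro ⟨k, hk, hkv⟩
      refine ⟨k, hk, fun j => ?_⟩
      have h4 := hkv (finSumFinEquiv j)
      dsimp only at h4
      rw [Equiv.symm_apply_apply] at h4
      exact h4
  obtain ⟨-, -, -, i4, -⟩ := TPC.z_IST L U hM hF A hA
  have h5 := ((i4 m 1 t (fun _ => b)).1 h2).2
  have hB : (A ∪ range t).Finite := hA.union (finite_range t)
  obtain ⟨-, -, -, -, -, -, i7, -, -⟩ := TPC.z_IST L U hM hF (A ∪ range t) hB
  have h6 := (i7 1 (fun _ => b) g).1 h5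
  have hB' : (g '' (A ∪ range t)).Finite := hB.image _
  obtain ⟨-, i2, -⟩ := TPC.z_IST L U hM hF _ hB'
  obtain ⟨k, hk, hkM⟩ := i2 1 (fun _ => g b) M' h6 ⟨hM'.1, by
    rintro _ ⟨x, hx | ⟨i, rfl⟩, rfl⟩
    · rw [hg.1 x hx]
      exact hM'.2 hx
    · exact hFM _ (htm i)⟩
  have hAB : A ⊆ g '' (A ∪ range t) := fun a ha => ⟨a, Or.inl ha, hg.1 a ha⟩
  have hkA : Nx L A k := nx_mono hAB hk
  refine ⟨k.comp g, nx_comp hkA hg, fun x hx => ?_, hkM 0⟩
  exact hk.1 (g x) ⟨x, Or.inr (htr x hx), rfl⟩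

/-- [ATK] -/
theorem thm_ATK (hKLB : St_KLB) : St_ATK := by
  classical
  intro L U _ hX A E P cl hF hP hPE M M' p p' hMd hMd' hpM hpP hpM' hpP' hpp hAt hAt'
  have hM := hX.mon
  have _ := hM.ctb
  have hA := hF.fin
  obtain ⟨g0, hg0, hg0p⟩ := hpp
  have hpK : p ∈ Kl P cl M p := ⟨hpM, hpP, hF.rfl p (hPE hpP)⟩
  have hpK' : p' ∈ Kl P cl M' p' := ⟨hpM', hpP', hF.rfl p' (hPE hpP')⟩
  refine Pool.Agent.MNO.thm_BAF Pool.Agent.MNO.thm_BAG L U A (Kl P cl M p) (Kl P cl M' p')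
    (fun s => ∃ g : U ≃[L] U, Nx L A g ∧ g p = p' ∧ ∀ c ∈ s, g c.1 = c.2 ∧ c.1 ∈ Kl P cl M p ∧
      c.2 ∈ Kl P cl M' p') (Set.to_countable _) (Set.to_countable _) ?_ ?_ ?_ ?_
  · exact ⟨g0, hg0, hg0p, fun c hc => absurd hc (Set.notMem_empty c)⟩
  · rintro s hs ⟨g, hg, hgp, hgs⟩ b hb
    have hFf : (insert p (Prod.fst '' s)).Finite := (hs.image _).insert _
    obtain ⟨h, hh, hhF, hhb⟩ := ATK_step hM hX.fin hA hAt hMd' hg hFf (by
      rintro x (rfl | ⟨c, hc, rfl⟩)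
      · exact hpK
      · exact (hgs c hc).2.1) (by
      rintro x (rfl | ⟨c, hc, rfl⟩)
      · rw [hgp]; exact hpM'
      · rw [(hgs c hc).1]; exact (hgs c hc).2.2.1) hb
    have hhp : h p = p' := by rw [hhF p (mem_insert _ _), hgp]
    have hbK' : h b ∈ Kl P cl M' p' := by
      refine ⟨hhb, (hP.inv h hh b).2 hb.2.1, ?_⟩
      rw [← hhp]
      exact (hF.fxc h hh.1 p (hPE hpP) b (hPE hb.2.1)).2 hb.2.2
    refine ⟨h b, hbK', h, hh, hhp, ?_⟩
    rintro c (rfl | hc)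
    · exact ⟨rfl, hb, hbK'⟩
    · refine ⟨?_, (hgs c hc).2⟩
      rw [hhF c.1 (mem_insert_of_mem _ ⟨c, hc, rfl⟩), (hgs c hc).1]
  · rintro s hs ⟨g, hg, hgp, hgs⟩ b hb
    have hFf : (insert p' (Prod.snd '' s)).Finite := (hs.image _).insert _
    have hgp' : g.symm p' = p := by rw [← hgp]; exact g.symm_apply_apply p
    have hgs' : ∀ c ∈ s, g.symm c.2 = c.1 := by
      intro c hc
      rw [← (hgs c hc).1]
      exact g.symm_apply_apply c.1
    obtain ⟨h, hh, hhF, hhb⟩ := ATK_step hM hX.fin hA hAt' hMd (nx_symm hg) hFf (by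
      rintro x (rfl | ⟨c, hc, rfl⟩)
      · exact hpK'
      · exact (hgs c hc).2.2) (by
      rintro x (rfl | ⟨c, hc, rfl⟩)
      · rw [hgp']; exact hpM
      · rw [hgs' c hc]; exact (hgs c hc).2.1.1) hb
    have hhp : h p' = p := by rw [hhF p' (mem_insert _ _), hgp']
    have hbK : h b ∈ Kl P cl M p := by
      refine ⟨hhb, (hP.inv h hh b).2 hb.2.1, ?_⟩
      rw [← hhp]
      exact (hF.fxc h hh.1 p' (hPE hpP') b (hPE hb.2.1)).2 hb.2.2
    refine ⟨h b, hbK, h.symm, nx_symm hh, by rw [← hhp]; exact h.symm_apply_apply p', ?_⟩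
    rintro c (rfl | hc)
    · exact ⟨h.symm_apply_apply b, hbK, hb⟩
    · refine ⟨?_, (hgs c hc).2⟩
      have e1 : h c.2 = c.1 := by
        rw [hhF c.2 (mem_insert_of_mem _ ⟨c, hc, rfl⟩), hgs' c hc]
      rw [← e1]
      exact h.symm_apply_apply c.2
  · rintro s hs ⟨g, hg, -, hgs⟩
    exact ⟨g, hg, fun c hc => (hgs c hc).1⟩

end Pool.Agent.MTC
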