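import Pool.Agent.MTC.StV

/-!
# MTC, module B1W (proof of helper56; a port of `TPY/B1V.lean`): ended pieces which are big
-/

set_option autoImplicit false
set_option linter.unusedVariables false

namespace Pool.Agent.MTC

open FirstOrder.Language Set
open scoped FirstOrder
open Pool.Agent.WOM (tp Mon IsEl IsoM CtU Fx Orb Isd)
open Pool.Agent.PMC (Sm Md NPf)
open Pool.Agent.MNO (Dp FE Sq Nx SmN FE1 FinN)
open Pool.Agent.TPC (Bq Pq Sub Lin Fre Inr Rgd Ist Cpt)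
open Pool.Agent.TPY (Cz Tq Pc s1 Emb IsoV IsoP LinV FreV InrV Edd emb_ext im_congr pq_pre pq_eq pc_emb
  lin_of fre_of inr_of)

private theorem b1w_lin {L : FirstOrder.Language.{0, 0}} {U V : Type} [L.Structure U] [L.Structure V]
    (hC : Cz L V) (hM : Mon L U) (hN : NPf L U) (hF : FinN L U)
    {j : U → V} (hj : Emb L j) {B1 : Set U} (hB1 : B1.Finite) {z1 : U} {H E : Set V} {lt : V → V → Prop}
    {y : V} (hL : LinV L H E lt) (hy : y ∈ E)
    (hcl : ∀ v ∈ Pc L (j '' B1) (j z1), v ∈ E ∧ ¬ lt y v ∧ ¬ lt v y) : Rgd L B1 z1 := by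
  obtain ⟨m, b, hb⟩ := Pool.Agent.MNO.exists_enum (hL.fin.insert y)
  obtain ⟨j2, hj2, hj2a, hj2b⟩ := emb_ext hC hj hM (hB1.insert z1) b
  have hr : insert y H ⊆ range j2 := by
    rw [← hb]
    rintro _ ⟨k, rfl⟩
    exact hj2b k
  obtain ⟨y', hy'⟩ := hr (mem_insert _ _)
  have hHr : H ⊆ range j2 := fun c hc => hr (mem_insert_of_mem _ hc)
  have hH0 : j2 '' (j2 ⁻¹' H) = H := image_preimage_eq_of_subset hHr
  have hjB : j2 '' B1 = j '' B1 := im_congr fun a ha => hj2a a (mem_insert_of_mem _ ha)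
  have hjz : j2 z1 = j z1 := hj2a z1 (mem_insert _ _)
  have hL' : LinV L (j2 '' (j2 ⁻¹' H)) E lt := by
    rw [hH0]
    exact hL
  have hyE : y' ∈ j2 ⁻¹' E := by
    show j2 y' ∈ E
    rw [hy']
    exact hy
  refine Pool.Agent.TPC.z_LRG L U hM hN hF (j2 ⁻¹' H) (j2 ⁻¹' E) _ y' (lin_of hC hj2 hM hL') hyE B1 z1 hB1 fun v hv => ?_
  rw [pq_pre hC hj2 hM hB1, hjB, hjz] at hv
  obtain ⟨h1, h2, h3⟩ := hcl (j2 v) hv
  refine ⟨h1, ?_, ?_⟩
  · show ¬ lt (j2 y') (j2 v)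
    rw [hy']
    exact h2
  · show ¬ lt (j2 v) (j2 y')
    rw [hy']
    exact h3

private theorem nic_of {L : FirstOrder.Language.{0, 0}} {U V : Type} [L.Structure U] [L.Structure V] {i : U → V}
    (hC : Cz L V) (hi : Emb L i) (hM : Mon L U) (n : ℕ) : ∀ {A : Set U}, A.Finite → ∀ {x : U},
    NiceW L n (i '' A) (i x) → Nic L n A x := by
  induction n with
  | zero =>
    intro A hA x h
    rcases h with h | ⟨lt, h⟩
    · left
      rw [pq_pre hC hi hM hA, h]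
      ext y
      exact ⟨fun h1 => hi.inj h1, fun h1 => congrArg i h1⟩
    · right
      rw [pq_pre hC hi hM hA]
      exact ⟨_, lin_of hC hi hM h⟩
  | succ n ih =>
    intro A hA x h
    rcases h with h | h
    · exact Or.inl (ih hA h)
    · right
      intro y hy z hz
      rw [pq_pre hC hi hM hA] at hy hz
      rcases h (i y) hy (i z) hz with h1 | h1
      · exact Or.inl (inr_of hC hi hM hA h1)
      · right
        rw [← image_insert_eq] at h1
        exact ih (hA.insert y) h1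

/-- [B1W] -/
theorem thm_B1W (hMCA : St_MCA) (hNIM : St_NIM) : St_B1W := by
  intro L U V _ _ i hC hi hX A z hA hO hB
  have hM : Mon L U := hX.mon
  obtain ⟨m1, m2, m3, m4, m5⟩ := hMCA L U hX
  obtain ⟨j, A', z0, hj, hA', hjA, hjz, B1, z1, hB1, hAB, hz1, hn⟩ := hB
  subst hjA
  subst hjz
  have hz1' : j z1 ∈ Pc L (j '' A') (j z0) := by
    rw [pq_eq hM hA'] at hz1
    exact (pc_emb hC hj hM hA' z0 z1).2 hz1
  rcases hO (j '' B1) (hB1.image j) (image_mono hAB) (j z1) hz1' with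
    ⟨n, h⟩ | ⟨E, cl, h⟩ | h | ⟨H, E, lt, y, hL, hy, hcl⟩ | ⟨E, cl, b, hFr, hE, ⟨b1, hb1, rfl⟩, hbE, hzE, hcl⟩
  · exact absurd (hNIM L U hX n B1 z1 hB1 (nic_of hC hj hM n hB1 h)) hn
  · exact ⟨j, B1, z1, hj, hB1, image_mono hAB, hz1', hn, Or.inr ⟨E, cl, h⟩⟩
  · refine absurd ?_ hn
    have h1 : Pq L B1 z1 = {z1} := by
      rw [pq_pre hC hj hM hB1, h]
      ext y
      exact ⟨fun h1 => hj.inj h1, fun h1 => congrArg j h1⟩
    rw [h1]
    exact m3 B1 z1 hB1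
  · exact absurd (m4 B1 z1 hB1 (b1w_lin hC hM hX.npf hX.fin hj hB1 hL hy hcl)) hn
  · exact ⟨j, B1, z1, hj, hB1, image_mono hAB, hz1', hn, Or.inl ⟨b1, E, cl, hFr, hE, hb1, hbE, hzE, hcl⟩⟩

end Pool.Agent.MTC
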