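import Pool.Agent.MTC.StB

/-!
# MTC, [B3M]: isolated tuples (helper64)
-/

set_option autoImplicit false
set_option linter.unusedVariables false

namespace Pool.Agent.MTC

open FirstOrder.Language Set
open scoped FirstOrder
open Pool.Agent.WOM (tp Mon IsEl IsoM CtU Fx Orb Isd)
open Pool.Agent.PMC (Sm Md NPf)
open Pool.Agent.MNO (Dp FE Sq Nx SmN FE1 FinN nx_mono nx_comp nx_symm)
open Pool.Agent.TPC (Bq Pq Sub Fcp Lin Fre Iv Kl Inr Lab Clu Rgd Ist Cpt)

/-- [B3M] -/
theorem thm_B3M (hSTP : St_STP) (hMCA : St_MCA) (hBGM : St_BGM) : St_B3M := by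
  classical
  intro L U _ hX A z n u hA hBig hIst
  have hM := hX.mon
  obtain ⟨B, z0, hB, hAB, hz0, hnc⟩ := hBig
  by_contra hcon
  push Not at hcon
  obtain ⟨-, -, i3, -⟩ := TPC.z_IST L U hM hX.fin A hA
  obtain ⟨k, hk, hk'⟩ := i3 n u B hIst hB hAB
  obtain ⟨-, i2, -, -, -, -, -, i8, -⟩ := TPC.z_IST L U hM hX.fin B hB
  obtain ⟨-, -, -, -, b5, -, -, -, -, -⟩ := TPC.q_ALQ L U hM B hB
  obtain ⟨-, -, -, -, a5, -, -, a8, -, a10⟩ := TPC.q_ALQ L U hM A hA
  obtain ⟨m1, m2, -⟩ := hMCA L U hX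
  have hRA : Pq L B z0 ⊆ Pq L A z := by
    have h := a10 B hB hAB z0
    rwa [a8 z z0 hz0] at h
  have hBR : Bq L B (Pq L B z0) := (b5 z0).1
  have claim : ∀ g : U ≃[L] U, Nx L B g → ∀ z' ∈ Pq L B z0,
      Mar L (B ∪ range (fun i => g (k (u i)))) (Pq L (B ∪ range (fun i => g (k (u i)))) z') := by
    intro g hg z' hz'
    have hC : (B ∪ range (fun i => g (k (u i)))).Finite := hB.union (finite_range _)
    have hh : Nx L A (g.comp k) := nx_comp (nx_mono hAB hg) hk
    have hz1 : (g.comp k).symm z' ∈ Pq L A z :=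
      ((a5 z).1.inv _ (nx_symm hh) z').2 (hRA hz')
    have hA1 : (A ∪ range (fun i => g (k (u i)))).Finite := hA.union (finite_range _)
    obtain ⟨-, g2, -, g4, -⟩ := hBGM L U hX (A ∪ range (fun i => g (k (u i)))) z' hA1
    obtain ⟨-, -, -, -, g5, -⟩ := hBGM L U hX (B ∪ range (fun i => g (k (u i)))) z' hC
    refine g5 fun hbig => ?_
    obtain ⟨-, -, -, -, d5, -, -, -, -, -⟩ := TPC.q_ALQ L U hM _ hA1
    have hbig' := g2 _ hC (union_subset_union_left _ hAB) z' (d5 z').2 hbig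
    have h4 := g4 (g.comp k).symm hbig'
    have e : (g.comp k).symm '' (A ∪ range (fun i => g (k (u i)))) = A ∪ range u := by
      rw [image_union]
      congr 1
      · exact Pool.Agent.MNO.fx_img A (nx_symm hh).1
      · rw [← range_comp]
        congr 1
        funext i
        exact (g.comp k).symm_apply_apply (u i)
    rw [e] at h4
    exact hcon _ hz1 h4
  let e := (Fintype.equivFin {i : Fin n // k (u i) ∈ Pq L B z0}).symm
  let v : Fin (Fintype.card {i : Fin n // k (u i) ∈ Pq L B z0}) → U := fun j => k (u (e j).1)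
  have hv : ∀ j, v j ∈ Pq L B z0 := fun j => (e j).2
  have hvI : Ist L B v := i8 _ n (fun i => k (u i)) (fun j => (e j).1) hk'
  refine hnc fun M M' hMd hMd' hE => hSTP L U hX B (Pq L B z0) _ v hB hBR (fun t ht htR => ?_) M M'
    hMd hMd' hE ?_
  · obtain ⟨g, hg, hgt⟩ := ht
    have hBt : (B ∪ range t).Finite := hB.union (finite_range _)
    have hBtR : Bq L (B ∪ range t) (Pq L B z0) :=
      (TPC.q_OFQ L U hM B (Pq L B z0) hB hBR).2.2 _ hBt subset_union_left
    have hC : (B ∪ range (fun i => g (k (u i)))).Finite := hB.union (finite_range _)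
    refine m2 (B ∪ range t) ((fun i => g (k (u i))) '' {i | k (u i) ∉ Pq L B z0}) _ hBt
      ((toFinite _).image _) hBtR ?_ ?_
    · rw [Set.disjoint_left]
      rintro _ ⟨i, hi, rfl⟩ hx
      exact hi ((hBR.inv g hg _).1 hx)
    · have hEq : B ∪ range t ∪ (fun i => g (k (u i))) '' {i | k (u i) ∉ Pq L B z0} =
          B ∪ range (fun i => g (k (u i))) := by
        ext x
        constructor
        · rintro ((hx | ⟨j, rfl⟩) | ⟨i, -, rfl⟩)
          · exact Or.inl hx
          · exact Or.inr ⟨(e j).1, hgt j⟩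
          · exact Or.inr ⟨i, rfl⟩
        · rintro (hx | ⟨i, rfl⟩)
          · exact Or.inl (Or.inl hx)
          · by_cases hi : k (u i) ∈ Pq L B z0
            · refine Or.inl (Or.inr ⟨e.symm ⟨i, hi⟩, ?_⟩)
              rw [← hgt]
              show g (k (u (e (e.symm ⟨i, hi⟩)).1)) = _
              rw [Equiv.apply_symm_apply]
            · exact Or.inr ⟨i, hi, rfl⟩
      rw [hEq]
      exact m1 _ _ hC ((TPC.q_OFQ L U hM B (Pq L B z0) hB hBR).2.2 _ hC subset_union_left)
        (claim g hg)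
  · obtain ⟨g, hg, hgM⟩ := i2 _ v M hvI hMd
    exact ⟨fun i => g (v i), ⟨g, hg, fun _ => rfl⟩, fun i => ⟨hgM i, (hBR.inv g hg _).2 (hv i)⟩⟩

end Pool.Agent.MTC
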