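import Pool.Agent.MTC.StB
import Pool.Agent.TPC.API

/-!
MTC [BGM]: calculus of `BigM` (after `Pool/Agent/TPC/BGC.lean`).
-/

set_option autoImplicit false
set_option linter.unusedVariables false

namespace Pool.Agent.MTC

open FirstOrder.Language Set
open scoped FirstOrder
open Pool.Agent.WOM (tp Mon IsEl IsoM CtU Fx Orb Isd)
open Pool.Agent.PMC (Sm Md NPf)
open Pool.Agent.MNO (Dp FE Sq Nx SmN FE1 FinN nx_refl nx_fx)
open Pool.Agent.TPC (Bq Pq Sub Fcp Lin Fre Iv Kl Inr Lab Clu Rgd Ist Cpt)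

section bgm

variable {L : FirstOrder.Language.{0, 0}} {U : Type} [L.Structure U]

private theorem BGM_symm_img (g : U ≃[L] U) (X : Set U) : g.symm '' (g '' X) = X := by
  ext x
  constructor
  · rintro ⟨_, ⟨y, hy, rfl⟩, rfl⟩
    rw [g.symm_apply_apply]
    exact hy
  · intro hx
    exact ⟨g x, ⟨x, hx, rfl⟩, g.symm_apply_apply x⟩

/-- the piece of a base point -/
private theorem BGM_sgl (hM : Mon L U) {A : Set U} (hA : A.Finite) {z : U} (hz : z ∈ A) :
    Pq L A z = {z} := by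
  have hbq : Bq L A {z} := by
    constructor
    · intro g hg x
      have hgz : g z = z := nx_fx hg z hz
      constructor
      · intro h
        have h1 : g x = z := h
        have h2 : g x = g z := h1.trans hgz.symm
        exact g.injective h2
      · intro h
        have h1 : x = z := h
        show g x = z
        rw [h1, hgz]
    · intro g hg
      refine ⟨FirstOrder.Language.Equiv.refl L U, nx_refl A, ?_, fun x _ => rfl⟩
      intro x hx
      have h1 : x = z := hx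
      rw [h1]
      exact (nx_fx hg z hz).symm
  have hAL := TPC.q_ALQ L U hM A hA
  apply Set.Subset.antisymm
  · exact hAL.2.2.2.2.2.1 z {z} hbq rfl
  · intro x hx
    have h1 : x = z := hx
    rw [h1]
    exact (hAL.2.2.2.2.1 z).2

end bgm

/-- [BGM] -/
theorem thm_BGM (hMCA : St_MCA) : St_BGM := by
  intro L U _ hX A z hA
  have hM := hX.mon
  have hq := TPC.q_ALQ L U hM
  have hC := hMCA L U hX
  refine ⟨?_, ?_, ?_, ?_, ?_, ?_⟩
  · rintro z' hz' ⟨B, z1, hB, hAB, hz1, hc⟩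
    refine ⟨B, z1, hB, hAB, ?_, hc⟩
    rw [(hq A hA).2.2.2.2.2.2.2.1 z z' hz']
    exact hz1
  · rintro A' hA' hAA z' hz' ⟨B, z1, hB, hAB, hz1, hc⟩
    refine ⟨B, z1, hB, hAA.trans hAB, ?_, hc⟩
    have h1 := (hq A hA).2.2.2.2.2.2.2.2.2 A' hA' hAA z' hz1
    rw [(hq A hA).2.2.2.2.2.2.2.1 z z' hz'] at h1
    exact h1
  · rintro W hW hd ⟨B, z1, hB, hAB, hz1, hc⟩
    have h1 : Pq L B z1 ⊆ Pq L A z := by
      have h2 := (hq A hA).2.2.2.2.2.2.2.2.2 B hB hAB z1
      rw [(hq A hA).2.2.2.2.2.2.2.1 z z1 hz1] at h2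
      exact h2
    have hd1 : Disjoint W (Pq L B z1) := hd.mono_right h1
    have h3 := TPC.q_NNQ L U hM B W z1 hB hW hd1
    refine ⟨B ∪ W, z1, hB.union hW, union_subset_union_left W hAB, ?_, ?_⟩
    · rw [TPC.q_NNQ L U hM A W z hA hW hd]
      exact hz1
    · rw [h3]
      exact fun h => hc (hC.2.1 B W _ hB hW ((hq B hB).2.2.2.2.1 z1).1 hd1 h)
  · rintro g ⟨B, z1, hB, hAB, hz1, hc⟩
    refine ⟨g '' B, g z1, hB.image _, image_mono hAB, ?_, fun h => hc ?_⟩
    · rw [← (TPC.q_IMQ L U hM A hA).2.1 g z]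
      exact mem_image_of_mem _ hz1
    · rw [← (TPC.q_IMQ L U hM B hB).2.1 g z1] at h
      have h1 := hC.2.2.2.2 (g '' B) (g '' Pq L B z1) g.symm (hB.image _) h
      rw [BGM_symm_img, BGM_symm_img] at h1
      exact h1
  · intro hn
    by_contra h
    exact hn ⟨A, z, hA, Set.Subset.refl A, ((hq A hA).2.2.2.2.1 z).2, h⟩
  · rintro hz ⟨B, z1, hB, hAB, hz1, hc⟩
    rw [BGM_sgl hM hA hz] at hz1
    have h1 : z1 = z := hz1
    apply hc
    rw [h1, BGM_sgl hM hB (hAB hz)]
    exact hC.2.2.1 B z hB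

end Pool.Agent.MTC
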