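import Pool.Agent.MTC.StV

/-!
# MTC/BGW (helper23, after `TPY/BGH.lean`): NOBIG for `BigW`
-/

set_option autoImplicit false
set_option linter.unusedVariables false

namespace Pool.Agent.MTC

open FirstOrder.Language Set
open scoped FirstOrder
open Pool.Agent.MNO
open Pool.Agent.TPY

section

variable {L : FirstOrder.Language.{0, 0}} {V : Type} [L.Structure V] {A₀ : Set V} {big : Set V → V → Prop}

/-- the axioms of the (Z) chapter -/
theorem bgw_of (hC : Cz L V) (hA₀ : A₀.Finite) (h : BigW L A₀ big) : Bg L A₀ big ∧ B3 L A₀ big := by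
  refine ⟨⟨hA₀, ?_, fun A z z' hA hAf hz hb => h.pc A z z' hAf hA hz hb, ?_,
    fun A z hA hAf hz => h.b1 A z hAf hA hz, ?_, ?_⟩, ?_⟩
  · intro γ _ a a' z z' hs hb
    obtain ⟨m, c, hc⟩ := exists_enum hA₀
    obtain ⟨n, ⟨e⟩⟩ := Finite.exists_equiv_fin γ
    let σ : Fin (m + n) → Fin m ⊕ Fin n := finSumFinEquiv.symm
    let D : (γ → V) → Fin (m + n) → V := fun a k => Sum.elim c (fun l => a (e.symm l)) (σ k)
    have hr : ∀ a : γ → V, range (D a) = A₀ ∪ range a := by
      intro a
      rw [← hc]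
      ext x
      constructor
      · rintro ⟨k, rfl⟩
        show Sum.elim c (fun l => a (e.symm l)) (σ k) ∈ _
        rcases σ k with l | l
        · exact Or.inl ⟨l, rfl⟩
        · exact Or.inr ⟨_, rfl⟩
      · rintro (⟨l, rfl⟩ | ⟨k, rfl⟩)
        · refine ⟨finSumFinEquiv (Sum.inl l), ?_⟩
          show Sum.elim c (fun l => a (e.symm l)) (finSumFinEquiv.symm (finSumFinEquiv (Sum.inl l))) = c l
          rw [Equiv.symm_apply_apply]
          rfl
        · refine ⟨finSumFinEquiv (Sum.inr (e k)), ?_⟩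
          show Sum.elim c (fun l => a (e.symm l)) (finSumFinEquiv.symm (finSumFinEquiv (Sum.inr (e k)))) = a k
          rw [Equiv.symm_apply_apply]
          exact congrArg a (e.symm_apply_apply k)
    have hs' : Tq L A₀ (Sum.elim a (s1 z)) (Sum.elim a' (s1 z')) := hs
    have h1 : Tq L A₀ (Sum.elim (Sum.elim a (s1 z)) c) (Sum.elim (Sum.elim a' (s1 z')) c) := by
      refine tq_add hs' c fun k => ?_
      rw [← hc]
      exact ⟨k, rfl⟩
    let f : Fin (m + n) ⊕ Fin 1 → (γ ⊕ Fin 1) ⊕ Fin m :=
      Sum.elim (fun k => Sum.elim (fun l => Sum.inr l) (fun l => Sum.inl (Sum.inl (e.symm l))) (σ k))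
        (fun l => Sum.inl (Sum.inr l))
    have hf : ∀ (a : γ → V) (z : V), (fun k => Sum.elim (Sum.elim a (s1 z)) c (f k)) =
        Sum.elim (D a) (s1 z) := by
      intro a z
      funext k
      rcases k with k | k
      · show Sum.elim (Sum.elim a (s1 z)) c (Sum.elim (fun l => Sum.inr l)
          (fun l => Sum.inl (Sum.inl (e.symm l))) (σ k)) = Sum.elim c (fun l => a (e.symm l)) (σ k)
        rcases σ k with l | l <;> rfl
      · rfl
    let d : Fin (m + n) → V := D a
    let d' : Fin (m + n) → V := D a'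
    have h2 := h.inv (m + n) d d' z z' (by
      show A₀ ⊆ range (D a)
      rw [hr]
      exact subset_union_left) (by
      have h3 := tq_sub h1 f
      rw [hf, hf] at h3
      exact h3)
    have h4 : range d = A₀ ∪ range a := hr a
    have h5 : range d' = A₀ ∪ range a' := hr a'
    rw [h4, h5] at h2
    exact h2 hb
  · intro A z hA hAf hb hz
    exact h.b0 A z hAf hA hz hb
  · intro A B z hA hAB hBf hb
    exact h.b4 A B z z hBf hA hAB (fun Q _ hz => hz) hb
  · intro A B z hA hAB hBf hw hb
    have h1 := h.b5 A B z (hBf.subset hAB) hA hBf (disjoint_left.2 hw) hb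
    rwa [union_eq_self_of_subset_left hAB] at h1
  · intro A z γ _ u hA hAf hb hu hi
    obtain ⟨n, ⟨e⟩⟩ := Finite.exists_equiv_fin γ
    have h1 : IsoV L A (fun k => u (e.symm k)) := by
      obtain ⟨P, hP, hPu, hPt⟩ := hi
      refine ⟨fun w => P (fun k => w (e k)), dp_sub hP e, ?_, fun w hw => ?_⟩
      · show P (fun k => u (e.symm (e k)))
        simp only [Equiv.symm_apply_apply]
        exact hPu
      · have h2 := hPt _ hw
        intro Q hQ hQu
        have h3 := h2 (fun v => Q (fun k => v (e.symm k))) (dp_sub hQ e.symm) hQu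
        simp only [Equiv.apply_symm_apply] at h3
        exact h3
    obtain ⟨z', hz', hb'⟩ := h.b3 A z n (fun k => u (e.symm k)) hAf hA (fun k => hu _) h1 hb
    refine ⟨z', hz', ?_⟩
    have h2 : range (fun k => u (e.symm k)) = range u := by
      ext x
      constructor
      · rintro ⟨k, rfl⟩
        exact ⟨_, rfl⟩
      · rintro ⟨k, rfl⟩
        exact ⟨e k, by simp only [Equiv.symm_apply_apply]⟩
    rw [h2] at hb'
    exact hb'

end

theorem thm_BGW : St_BGW := by
  intro L V _ hC hI A₀ big hA₀ h A z hA hA₀A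
  obtain ⟨h1, h2⟩ := bgw_of hC hA₀ h
  exact m_RNB L V hC hI A₀ big h1 h2 A z hA₀A hA

end Pool.Agent.MTC
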