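import Pool.Agent.MTC.StV

/-!
# MTC, module BMV (proof of helper56; a port of `TPY/BGV.lean`): calculus of `BigMV`
-/

set_option autoImplicit false
set_option linter.unusedVariables false

namespace Pool.Agent.MTC

open FirstOrder.Language Set
open scoped FirstOrder
open Pool.Agent.WOM (tp Mon IsEl IsoM CtU Fx Orb Isd)
open Pool.Agent.PMC (Sm Md NPf)
open Pool.Agent.MNO (Dp FE Sq Nx SmN FE1 FinN)
open Pool.Agent.TPC (Bq Pq Sub Lin Fre Ist Cpt)
open Pool.Agent.TPY (Cz Tq Pc s1 Emb IsoV IsoP emb_ext im_congr tq_sub pq_pre)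

/-- finitely many points may be assumed to be in the range -/
private theorem bmv_ext {L : FirstOrder.Language.{0, 0}} {U V : Type} [L.Structure U] [L.Structure V]
    (hC : Cz L V) (hM : Mon L U) {A : Set V} {z : V} (h : BigMV L U A z) {n : ℕ} (b : Fin n → V) :
    ∃ (j : U → V) (A1 : Set U) (z1 : U), Emb L j ∧ A1.Finite ∧ j '' A1 = A ∧ j z1 = z ∧ BigM L A1 z1 ∧
      ∀ k, b k ∈ range j := by
  obtain ⟨j, A1, z1, hj, hA1, hjA, hjz, hB⟩ := h
  obtain ⟨j2, hj2, h2, h3⟩ := emb_ext hC hj hM (hA1.insert z1) b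
  refine ⟨j2, A1, z1, hj2, hA1, ?_, ?_, hB, h3⟩
  · rw [← hjA]
    exact im_congr fun a ha => h2 a (mem_insert_of_mem _ ha)
  · rw [← hjz]
    exact h2 z1 (mem_insert _ _)

/-- [BMV] -/
theorem thm_BMV (hBGM : St_BGM) (hB3M : St_B3M) : St_BMV := by
  intro L U V _ _ i hC hi hX
  have hM : Mon L U := hX.mon
  obtain ⟨-, -, -, -, -, e6, e7⟩ := Pool.Agent.TPY.w_EMV L U V i hC hi hM
  refine ⟨?_, ?_, ?_, ?_, ?_, ?_, ?_⟩
  · -- (1)
    intro j A z hj hA
    constructor
    · rintro ⟨j1, A1, z1, hj1, hA1, hjA, hjz, hB⟩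
      obtain ⟨n, b, hb⟩ := Pool.Agent.MNO.exists_enum hA
      have h1 : ∀ k, ∃ c ∈ A1, j1 c = j (b k) := by
        intro k
        have h2 : j (b k) ∈ j1 '' A1 := by
          rw [hjA]
          exact ⟨b k, hb ▸ mem_range_self k, rfl⟩
        exact h2
      choose c hc1 hc2 using h1
      obtain ⟨g, hg⟩ := e6 j1 j hj1 hj (n + 1) (Fin.cons z1 c) (Fin.cons z b) (by
        intro k
        refine Fin.cases ?_ (fun k => ?_) k
        · exact hjz
        · exact hc2 k)
      have hgz : g z1 = z := hg 0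
      have hgc : ∀ k, g (c k) = b k := fun k => hg k.succ
      have hgA : g '' A1 = A := by
        ext a
        constructor
        · rintro ⟨a1, ha1, rfl⟩
          have h2 : j1 a1 ∈ j '' A := by
            rw [← hjA]
            exact ⟨a1, ha1, rfl⟩
          obtain ⟨a2, ha2, h3⟩ := h2
          rw [← hb] at ha2
          obtain ⟨k, rfl⟩ := ha2
          have h4 : a1 = c k := hj1.inj (by rw [← h3, hc2 k])
          rw [h4, hgc, ← hb]
          exact mem_range_self k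
        · intro ha
          rw [← hb] at ha
          obtain ⟨k, rfl⟩ := ha
          exact ⟨c k, hc1 k, hgc k⟩
      have h5 := (hBGM L U hX A1 z1 hA1).2.2.2.1 g hB
      rw [hgA, hgz] at h5
      exact h5
    · intro h
      exact ⟨j, A, z, hj, hA, rfl, rfl, h⟩
  · -- (2)
    rintro n a a' z z' hT ⟨j, A1, z1, hj, hA1, hjA, hjz, hB⟩
    have hT' := tq_sub hT (finSumFinEquiv (m := n) (n := 1)).symm
    obtain ⟨j', hj', h1⟩ := e7 (n + 1) _ _ hT' j hj (by
      intro k
      rcases (finSumFinEquiv (m := n) (n := 1)).symm k with k | k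
      · have h2 : a k ∈ j '' A1 := by
          rw [hjA]
          exact mem_range_self k
        exact image_subset_range j A1 h2
      · exact ⟨z1, hjz⟩)
    have h2 : ∀ (u : U) (k : Fin n), j u = a k → j' u = a' k := by
      intro u k hu
      have h3 := h1 u (finSumFinEquiv (Sum.inl k))
      rw [Equiv.symm_apply_apply] at h3
      exact h3 hu
    have h3 : j' z1 = z' := by
      have h3 := h1 z1 (finSumFinEquiv (m := n) (n := 1) (Sum.inr 0))
      rw [Equiv.symm_apply_apply] at h3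
      exact h3 hjz
    refine ⟨j', A1, z1, hj', hA1, ?_, h3, hB⟩
    ext v
    constructor
    · rintro ⟨u, hu, rfl⟩
      have h4 : j u ∈ range a := by
        rw [← hjA]
        exact ⟨u, hu, rfl⟩
      obtain ⟨k, hk⟩ := h4
      rw [h2 u k hk.symm]
      exact mem_range_self k
    · rintro ⟨k, rfl⟩
      have h4 : a k ∈ j '' A1 := by
        rw [hjA]
        exact mem_range_self k
      obtain ⟨u, hu, h5⟩ := h4
      exact ⟨u, hu, h2 u k h5⟩
  · -- (3)
    intro A z z' hA hz' hB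
    obtain ⟨j, A1, z1, hj, hA1, rfl, rfl, hB1, hr⟩ := bmv_ext hC hM hB (fun _ : Fin 1 => z')
    obtain ⟨y, rfl⟩ := hr 0
    refine ⟨j, A1, y, hj, hA1, rfl, rfl, (hBGM L U hX A1 z1 hA1).1 y ?_ hB1⟩
    rw [pq_pre hC hj hM hA1]
    exact hz'
  · -- (4)
    intro A A' z z' hA' hAA hz' hB
    obtain ⟨j, A1, z1, hj, hA1, rfl, rfl, hB1, hr⟩ := bmv_ext hC hM hB (fun _ : Fin 1 => z)
    obtain ⟨y, rfl⟩ := hr 0
    have h1 : j ⁻¹' A ⊆ A1 := by
      intro u hu
      obtain ⟨u', hu', h2⟩ := hAA hu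
      rwa [← hj.inj h2]
    have hA0 : (j ⁻¹' A).Finite := hA1.subset h1
    have h2 : j '' (j ⁻¹' A) = A := by
      refine image_preimage_eq_of_subset ?_
      exact hAA.trans (image_subset_range _ _)
    refine ⟨j, j ⁻¹' A, y, hj, hA0, h2, rfl, ?_⟩
    refine (hBGM L U hX (j ⁻¹' A) y hA0).2.1 A1 hA1 h1 z1 ?_ hB1
    rw [pq_pre hC hj hM hA0, h2]
    exact hz'
  · -- (5)
    intro A W z hA hW hd hB
    obtain ⟨n, b, hb⟩ := Pool.Agent.MNO.exists_enum hW
    obtain ⟨j, A1, z1, hj, hA1, rfl, rfl, hB1, hr⟩ := bmv_ext hC hM hB b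
    have hWr : W ⊆ range j := by
      rw [← hb]
      rintro _ ⟨k, rfl⟩
      exact hr k
    have h2 : j '' (j ⁻¹' W) = W := image_preimage_eq_of_subset hWr
    have hW0 : (j ⁻¹' W).Finite := hW.preimage hj.inj.injOn
    refine ⟨j, A1 ∪ j ⁻¹' W, z1, hj, hA1.union hW0, ?_, rfl, ?_⟩
    · rw [image_union, h2]
    · refine (hBGM L U hX A1 z1 hA1).2.2.1 _ hW0 ?_ hB1
      rw [pq_pre hC hj hM hA1]
      exact hd.preimage j
  · -- (6)
    intro A z n u hA hu hB
    obtain ⟨j, A1, z1, hj, hA1, rfl, rfl, hB1, hr⟩ := bmv_ext hC hM hB u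
    choose u0 hu0 using hr
    have h1 : Ist L A1 u0 := by
      refine ((Pool.Agent.TPY.w_ISV L U V i hC hi hM).1 j A1 n u0 hj hA1).mp ?_
      have h2 : (fun k => j (u0 k)) = u := funext hu0
      rw [h2]
      exact hu
    obtain ⟨z2, hz2, hB2⟩ := hB3M L U hX A1 z1 n u0 hA1 hB1 h1
    refine ⟨j z2, ?_, j, A1 ∪ range u0, z2, hj, hA1.union (finite_range _), ?_, rfl, hB2⟩
    · rw [pq_pre hC hj hM hA1] at hz2
      exact hz2
    · rw [image_union, ← range_comp]
      congr 2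
      exact funext hu0
  · -- (7)
    rintro A z hA hz ⟨j, A1, z1, hj, hA1, hjA, hjz, hB⟩
    rw [← hjA, ← hjz] at hz
    obtain ⟨y, hy, h1⟩ := hz
    have h2 : y = z1 := hj.inj h1
    rw [h2] at hy
    exact (hBGM L U hX A1 z1 hA1).2.2.2.2.2 hy hB

end Pool.Agent.MTC
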