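import Pool.Agent.MTC.StV

/-!
# MTC/CXT (helper23): the context
-/

set_option autoImplicit false
set_option linter.unusedVariables false

namespace Pool.Agent.MTC

open FirstOrder.Language Set
open scoped FirstOrder
open Pool.Agent.WOM (tp Mon IsEl IsoM CtU Fx Orb Isd)
open Pool.Agent.PMC (Sm Md NPf)
open Pool.Agent.MNO (Dp FE Sq Nx SmN FE1 FinN)
open Pool.Agent.TPC (Pq Bq Cpt Big)
open Pool.Agent.TPY (Cz Emb IsoP NBV BigH BigV)

/-- no piece over `∅` is big -/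
theorem cxt_nb {L : FirstOrder.Language.{0, 0}} {U V : Type} [L.Structure U] [L.Structure V]
    {i : U → V} (hC : Cz L V) (hE : Emb L i) (hM : Mon L U) (hN : NPf L U) (hNB : NBV L V)
    (hF : FinN L U) (z : U) : ¬ Big L (∅ : Set U) z := by
  obtain ⟨c1, c2, c3, c4, c5, c6⟩ := Pool.Agent.TPY.w_BGV L U V i hC hE hM hN
  have hH : BigH L (∅ : Set V) (BigV L U) := by
    refine ⟨?_, ?_, ?_, ?_, ?_, ?_⟩
    · intro n a a' z z' _ hs hb
      exact c2 n a a' z z' hs hb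
    · intro A z z' hA _ hz hb
      exact c3 A z z' hA hz hb
    · intro A z hA _ hO hb
      obtain ⟨j, B1, z1, b1, E, cl, hj, hB1, hAB, hz1, hnC, hFr, hEt, hb1, hbE, hzE, hcl⟩ :=
        Pool.Agent.TPY.w_B1V L U V i hC hE hM hN hF A z hA hO hb
      have hbig : Big L B1 z1 := ⟨B1, z1, hB1, subset_rfl, fun Q hQ => Iff.rfl, hnC⟩
      have hbv : BigV L U (j '' B1) (j z1) := (c1 j B1 z1 hj hB1).2 hbig
      exact Pool.Agent.TPY.w_RU2 L U V i hC hE hM hN hF hNB A E cl (j b1) hFr hbE (j '' B1) (j z1)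
        (hB1.image j) (insert_subset ⟨b1, hb1, rfl⟩ hAB) hzE hcl hbv
    · intro A z n u hA _ _ hI hb
      exact c6 hF A z n u hA hI hb
    · intro A A' z z' hA' _ hAA hz hb
      exact c4 A A' z z' hA' hAA hz hb
    · intro A W z hA _ hW hd hb
      exact c5 A W z hA hW hd hb
  intro hz
  have h1 : BigV L U (i '' (∅ : Set U)) (i z) := (c1 i ∅ z hE finite_empty).2 hz
  rw [image_empty] at h1
  exact hNB ∅ (BigV L U) finite_empty hH ∅ (i z) finite_empty subset_rfl h1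

theorem thm_CXT : St_CXT := by
  intro L U V _ _ i hC hE hM hN
  have hI : IsoP L V := (Pool.Agent.TPY.w_ISV L U V i hC hE hM).2 hN
  have hNB : NBV L V := Pool.Agent.TPY.nbv_of hC
    (fun A z hA h => Pool.Agent.TPY.thm_OUT hC hA h) (Pool.Agent.TPY.m_RNB L V hC hI)
  have hF : FinN L U := Pool.Agent.TPY.w_RU1 L U V i hC hE hM hN hNB
  refine ⟨⟨hM, hN, hF, fun B Q hB hQ => ?_⟩, hI⟩
  refine (Pool.Agent.TPC.q_CPT L U hM B Q hB).2.2.1 hQ ?_ ?_
  · exact Pool.Agent.TPC.q_NRQ L U hM hN hF B hB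
  · intro z hz
    right
    by_contra hc
    exact cxt_nb hC hE hM hN hNB hF z ⟨B, z, hB, empty_subset _, fun Q hQ => Iff.rfl, hc⟩

end Pool.Agent.MTC
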