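import Pool.Agent.MTC.StA

/-!
# MTC: module DEP (helper45)
-/

set_option autoImplicit false
set_option linter.unusedVariables false

namespace Pool.Agent.MTC

open FirstOrder.Language Set
open scoped FirstOrder
open Pool.Agent.WOM (tp Mon IsEl IsoM CtU Fx Orb Isd)
open Pool.Agent.PMC (Sm Md NPf)
open Pool.Agent.MNO (Dp FE Sq Nx SmN FE1 FinN)

section

variable {L : FirstOrder.Language.{0, 0}} {U : Type} [L.Structure U]

theorem dep_fx_symm {C : Set U} {g : U ≃[L] U} (hg : Fx L C g) : Fx L C g.symm := fun a ha => by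
  calc g.symm a = g.symm (g a) := by rw [hg a ha]
    _ = a := g.symm_apply_apply a

theorem dep_cj_trans {C : Set U} {α : Type} {s t r : α → U} (h : Cj L (Nx L C) s t)
    (h' : Cj L (Nx L C) t r) : Cj L (Nx L C) s r := by
  obtain ⟨g, hg, e⟩ := h
  obtain ⟨g', hg', e'⟩ := h'
  refine ⟨g'.comp g, MNO.nx_comp hg' hg, fun i => ?_⟩
  show g' (g (s i)) = r i
  rw [e i, e' i]

theorem dep_cj_symm {C : Set U} {α : Type} {s t : α → U} (h : Cj L (Nx L C) s t) :
    Cj L (Nx L C) t s := by
  obtain ⟨g, hg, e⟩ := h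
  refine ⟨g.symm, MNO.nx_symm hg, fun i => ?_⟩
  rw [← e i]
  exact g.symm_apply_apply _

/-- conjugate both tuples by `g` -/
theorem dep_cj_conj (hM : Mon L U) {C : Set U} {α : Type} {s t : α → U} (g : U ≃[L] U)
    (h : Cj L (Nx L C) s t) :
    Cj L (Nx L (g '' C)) (fun i => g (s i)) (fun i => g (t i)) := by
  obtain ⟨k, hk, e⟩ := h
  refine ⟨g.comp (k.comp g.symm), MNO.nx_conj hM g hk, fun i => ?_⟩
  show g (k (g.symm (g (s i)))) = g (t i)
  rw [g.symm_apply_apply, e i]

theorem dep_img_symm (g : U ≃[L] U) (C : Set U) : g.symm '' (g '' C) = C := by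
  rw [← image_comp]
  have : (g.symm ∘ g : U → U) = id := funext fun x => g.symm_apply_apply x
  rw [this, image_id]

theorem dep_cj_iff (hM : Mon L U) {C : Set U} {α : Type} {s t : α → U} (g : U ≃[L] U) :
    Cj L (Nx L (g '' C)) (fun i => g (s i)) (fun i => g (t i)) ↔ Cj L (Nx L C) s t := by
  constructor
  · intro h
    have h1 := dep_cj_conj hM g.symm h
    rw [dep_img_symm] at h1
    have e1 : (fun i => g.symm (g (s i))) = s := funext fun i => g.symm_apply_apply _
    have e2 : (fun i => g.symm (g (t i))) = t := funext fun i => g.symm_apply_apply _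
    rw [e1, e2] at h1
    exact h1
  · exact dep_cj_conj hM g

theorem dep_fx_img {C : Set U} {g : U ≃[L] U} (hg : Fx L C g) : g '' C = C := by
  ext x
  constructor
  · rintro ⟨y, hy, rfl⟩
    rw [hg y hy]
    exact hy
  · intro hx
    exact ⟨x, hx, hg x hx⟩

theorem dep_elim {α : Type} (g : U ≃[L] U) (v : α → U) {β γ : Type} (i : β → α) (j : γ → α) :
    (Sum.elim (fun a => g (v (i a))) fun a => g (v (j a))) =
      fun k => g ((Sum.elim (fun a => v (i a)) fun a => v (j a)) k) := by
  funext k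
  cases k <;> rfl

theorem dep_ov {α : Type} (g : U ≃[L] U) (v : α → U) (x : U) :
    ov (fun a => g (v a)) (g x) = fun o => g (ov v x o) := by
  funext o
  cases o <;> rfl

end

theorem thm_DEP : St_DEP := by
  intro L U _ hM C Δ D g hg hΔ hD
  -- atoms
  have key : ∀ δ ∈ Δ, ∀ t : Fin δ.1 ⊕ Fin δ.2.1 → U,
      Cj L (Nx L C) δ.2.2 t ↔ Cj L (Nx L C) δ.2.2 (fun i => g (t i)) := by
    intro δ hδ t
    have e := dep_fx_img hg
    constructor
    · intro h
      have h1 := dep_cj_conj hM g h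
      rw [e] at h1
      exact dep_cj_trans (hΔ δ hδ) h1
    · intro h
      have h1 := dep_cj_trans (dep_cj_symm (hΔ δ hδ)) h
      rw [← e] at h1
      exact (dep_cj_iff hM g).1 h1
  have hat : ∀ (α : Type) (v : α → U), At L (Nx L C) C Δ v (fun a => g (v a)) := by
    intro α v δ hδ i j
    refine ⟨?_, fun j' _ _ => ?_⟩
    · rw [dep_elim g v i j]
      exact key δ hδ _
    · have e : C ∪ range (fun a => g (v (i a))) = g '' (C ∪ range fun a => v (i a)) := by
        rw [image_union, dep_fx_img hg, ← range_comp]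
        rfl
      rw [e]
      exact (dep_cj_iff hM g).symm
  have hu : ∀ u ∈ D, ∀ x, Cj1 L (Nx L C) u x ↔ Cj1 L (Nx L C) u (g x) := by
    intro u hu x
    obtain ⟨k, hk, ek⟩ := hD u hu
    constructor
    · rintro ⟨h, hh, e⟩
      refine ⟨(g.comp (h.comp g.symm)).comp k, MNO.nx_comp (MNO.nx_conj_fx hM hg hh) hk, ?_⟩
      show g (h (g.symm (k u))) = g x
      rw [ek, g.symm_apply_apply, e]
    · rintro ⟨h, hh, e⟩
      refine ⟨(g.symm.comp ((h.comp k.symm).comp g.symm.symm)),
        MNO.nx_conj_fx hM (dep_fx_symm hg) (MNO.nx_comp hh (MNO.nx_symm hk)), ?_⟩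
      show g.symm (h (k.symm (g u))) = x
      rw [← ek, k.symm_apply_apply, e, g.symm_apply_apply]
  intro n
  induction n with
  | zero => exact fun α X v => hat α v
  | succ n ih =>
    intro α X v
    refine ⟨hat α v, ?_, ?_⟩
    · intro u hu' x hx h
      refine ⟨g x, ⟨x, hx, rfl⟩, (hu u hu' x).1 h, ?_⟩
      rw [dep_ov]
      exact ih _ X _
    · rintro u hu' _ ⟨x, hx, rfl⟩ h
      refine ⟨x, hx, (hu u hu' x).2 h, ?_⟩
      rw [dep_ov]
      exact ih _ X _

end Pool.Agent.MTC
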