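import Pool.Agent.MTC.StL
import Pool.Agent.TPC.ALLZ

/-!
# MTC, module EQF (helper47): the second kind of atoms is first order
-/

set_option autoImplicit false
set_option linter.unusedVariables false

namespace Pool.Agent.MTC

open FirstOrder.Language Set
open scoped FirstOrder
open Pool.Agent.WOM (tp Mon IsEl IsoM CtU Fx Orb Isd)
open Pool.Agent.MNO (Dp FE Sq Nx SmN FE1 FinN nx_comp nx_symm nx_fx nx_mono nx_conj nx_sq dp_form0)

/-- [EQF] the second kind of atoms is first order. -/
theorem thm_EQF (hGRP : St_GRP) (hFNS : St_FNS) : St_EQF := by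
  intro L U _ hM hF l m s
  let a : Fin l → U := fun i => s (Sum.inl i)
  let b : Fin m → U := fun j => s (Sum.inr j)
  obtain ⟨F, hFE, hFb⟩ := Pool.Agent.TPC.z_FNT L U hM hF (range a) m b (finite_range a)
  obtain ⟨φ, hφ⟩ := dp_form0 hFE.dfn
  let ρ : (Fin m ⊕ Fin m) ⊕ Fin l → (Fin l ⊕ Fin m) ⊕ Fin m :=
    Sum.elim (Sum.elim (fun k => Sum.inl (Sum.inr k)) fun k => Sum.inr k) fun i => Sum.inl (Sum.inl i)
  refine ⟨φ.relabel ρ, fun v w w' hw hw' => ?_⟩
  have h1 : (φ.relabel ρ).Realize (Sum.elim (Sum.elim v w) w') ↔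
      φ.Realize (Sum.elim (Sum.elim w w') v) := by
    rw [FirstOrder.Language.Formula.realize_relabel]
    apply iff_of_eq
    congr 1
    funext i
    rcases i with (i | i) | i <;> rfl
  rw [h1]
  obtain ⟨g, hg, hgs⟩ := hw
  obtain ⟨g', hg', hgs'⟩ := hw'
  have hga : ∀ i, g (a i) = v i := fun i => hgs (Sum.inl i)
  have hgb : ∀ j, g (b j) = w j := fun j => hgs (Sum.inr j)
  have hga' : ∀ i, g' (a i) = v i := fun i => hgs' (Sum.inl i)
  have hgb' : ∀ j, g' (b j) = w' j := fun j => hgs' (Sum.inr j)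
  have h2 : φ.Realize (Sum.elim (Sum.elim w w') v) ↔ F b (fun j => g.symm (w' j)) := by
    have h3 := hφ (Sum.elim b fun j => g.symm (w' j))
    have h5 : φ.Realize (g ∘ Sum.elim (Sum.elim b fun j => g.symm (w' j)) a) ↔
        φ.Realize (Sum.elim (Sum.elim b fun j => g.symm (w' j)) a) :=
      FirstOrder.Language.StrongHomClass.realize_formula g φ
    refine Iff.trans ?_ (h5.trans h3.symm)
    apply iff_of_eq
    congr 1
    funext i
    rcases i with (i | i) | i
    · exact (hgb i).symm
    · exact (g.apply_symm_apply (w' i)).symm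
    · exact (hga i).symm
  rw [h2]
  have hr : g '' range a = ∅ ∪ range v := by
    rw [empty_union, ← range_comp]
    exact congrArg range (funext hga)
  have hr' : g.symm '' (∅ ∪ range v) = range a := by
    rw [← hr]
    ext x
    constructor
    · rintro ⟨_, ⟨y, hy, rfl⟩, rfl⟩
      rw [g.symm_apply_apply]
      exact hy
    · intro hx
      exact ⟨g x, ⟨x, hx, rfl⟩, g.symm_apply_apply x⟩
  constructor
  · intro h3
    obtain ⟨k, hk, hkb⟩ := hFb (fun j => g.symm (w' j)) ⟨g.symm.comp g', by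
      rintro _ ⟨i, rfl⟩
      show g.symm (g' (a i)) = a i
      rw [hga' i, ← hga i, g.symm_apply_apply], fun j => by
      show g.symm (g' (b j)) = g.symm (w' j)
      rw [hgb' j]⟩ h3
    have h4 := nx_conj hM g hk
    rw [hr] at h4
    refine ⟨_, h4, fun j => ?_⟩
    show g (k (g.symm (w j))) = w' j
    rw [← hgb j, g.symm_apply_apply, hkb j, g.apply_symm_apply]
  · rintro ⟨k, hk, hkw⟩
    have h4 := nx_conj hM g.symm hk
    rw [hr'] at h4
    have h5 := nx_sq h4 b
    have h6 : (fun j => (g.symm.comp (k.comp g.symm.symm)) (b j)) = fun j => g.symm (w' j) := by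
      funext j
      show g.symm (k (g (b j))) = g.symm (w' j)
      rw [hgb j, hkw j]
    rw [h6] at h5
    exact h5 F hFE

end Pool.Agent.MTC
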