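import Pool.Agent.MTC.StA

/-!
MTC, module FCL: finitely many classes of games.
-/

set_option autoImplicit false
set_option linter.unusedVariables false

namespace Pool.Agent.MTC

open FirstOrder.Language Set
open scoped FirstOrder
open Pool.Agent.WOM (tp Mon IsEl IsoM CtU Fx Orb Isd)
open Pool.Agent.PMC (Sm Md NPf)
open Pool.Agent.MNO (Dp FE Sq Nx SmN FE1 FinN)
open Pool.Agent.TPC (Bq Pq Sub Fcp Lin Fre Iv Kl Inr Lab Clu Rgd Ist Cpt)

section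

variable (L : FirstOrder.Language.{0, 0}) {U : Type} [L.Structure U]

private theorem FCL_at (G : (U ≃[L] U) → Prop) (C : Set U) (Δ : Set (Atm U)) (hΔ : Δ.Finite)
    (α : Type) (hα : Finite α) :
    ∃ (T : Type) (Φ : (α → U) → T), Finite T ∧ ∀ v w : α → U, Φ v = Φ w → At L G C Δ v w := by
  have h1 : Finite Δ := hΔ
  refine ⟨((δ : Δ) → (Fin δ.1.1 → α) → (Fin δ.1.2.1 → α) → Prop) ×
      ((δ : Δ) → (Fin δ.1.1 → α) → (Fin δ.1.2.1 → α) → (Fin δ.1.2.1 → α) → Prop),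
    fun v => (fun δ i j => Cj L G δ.1.2.2 (Sum.elim (fun a => v (i a)) fun a => v (j a)),
      fun δ i j j' => Cj L (Nx L (C ∪ range fun a => v (i a))) (fun a => v (j a)) (fun a => v (j' a))),
    inferInstance, ?_⟩
  intro v w h δ hδ i j
  have h2 := (Prod.ext_iff.1 h).1
  have h3 := (Prod.ext_iff.1 h).2
  constructor
  · have h4 := congrFun (congrFun (congrFun h2 ⟨δ, hδ⟩) i) j
    exact Eq.to_iff h4
  · intro j' _ _
    have h4 := congrFun (congrFun (congrFun (congrFun h3 ⟨δ, hδ⟩) i) j) j'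
    exact Eq.to_iff h4

end

/-- [FCL] -/
theorem thm_FCL : St_FCL := by
  intro L U _ G C Δ D hΔ hD n
  have hDf : Finite D := hD
  induction n with
  | zero =>
    intro α hα
    obtain ⟨T, Φ, hT, hΦ⟩ := FCL_at L G C Δ hΔ α hα
    exact ⟨T, fun _ v => Φ v, hT, fun X Y v w h => hΦ v w h⟩
  | succ n ih =>
    intro α hα
    obtain ⟨T₀, Φ₀, hT₀, hΦ₀⟩ := FCL_at L G C Δ hΔ α hα
    obtain ⟨T, Φ, hT, hΦ⟩ := ih (Option α) inferInstance
    refine ⟨T₀ × (D → Set T), fun X v => (Φ₀ v, fun u => {t | ∃ x ∈ X, Cj1 L G u.1 x ∧ Φ X (ov v x) = t}),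
      inferInstance, ?_⟩
    intro X Y v w h
    have h1 := (Prod.ext_iff.1 h).1
    have h2 := (Prod.ext_iff.1 h).2
    refine ⟨hΦ₀ v w h1, ?_, ?_⟩
    · intro u hu x hx hux
      have h3 : Φ X (ov v x) ∈ {t | ∃ x ∈ X, Cj1 L G u x ∧ Φ X (ov v x) = t} := ⟨x, hx, hux, rfl⟩
      have h4 : {t | ∃ x ∈ X, Cj1 L G u x ∧ Φ X (ov v x) = t} =
        {t | ∃ x ∈ Y, Cj1 L G u x ∧ Φ Y (ov w x) = t} := congrFun h2 ⟨u, hu⟩
      rw [h4] at h3
      obtain ⟨y, hy, huy, he⟩ := h3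
      exact ⟨y, hy, huy, hΦ X Y _ _ he.symm⟩
    · intro u hu y hy huy
      have h3 : Φ Y (ov w y) ∈ {t | ∃ x ∈ Y, Cj1 L G u x ∧ Φ Y (ov w x) = t} := ⟨y, hy, huy, rfl⟩
      have h4 : {t | ∃ x ∈ X, Cj1 L G u x ∧ Φ X (ov v x) = t} =
        {t | ∃ x ∈ Y, Cj1 L G u x ∧ Φ Y (ov w x) = t} := congrFun h2 ⟨u, hu⟩
      rw [← h4] at h3
      obtain ⟨x, hx, hux, he⟩ := h3
      exact ⟨x, hx, hux, hΦ X Y _ _ he⟩

end Pool.Agent.MTC
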