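import Pool.Agent.MTC.StB
import Pool.Agent.MNO.SMN

/-!
# MTC, [FGL]: gluing of clusters (helper24)
-/

set_option autoImplicit false
set_option linter.unusedVariables false

namespace Pool.Agent.MTC

open FirstOrder.Language Set
open scoped FirstOrder
open Pool.Agent.WOM (tp Mon IsEl IsoM CtU Fx Orb Isd)
open Pool.Agent.PMC (Sm Md NPf)
open Pool.Agent.MNO (Dp FE Sq Nx SmN FE1 FinN)
open Pool.Agent.MNO.SMNP (sn_refl sn_symm sn_trans)
open Pool.Agent.TPC (Bq Pq Sub Fcp Lin Fre Iv Kl Inr Lab Clu Rgd Ist Cpt)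

section

variable (L : FirstOrder.Language.{0, 0}) {U : Type} [L.Structure U]

/-- the clusters of `M` -/
private def FGL_C (P : Set U) (cl : U → U → Prop) (M : Set U) : Set (Set U) :=
  {K | ∃ z ∈ M, z ∈ P ∧ K = Kl P cl M z}

/-- the clusters of `M` and `M'` -/
private def FGL_K (P : Set U) (cl : U → U → Prop) (M M' : Set U) : Type :=
  {K : Set U // K ∈ FGL_C P cl M ∨ K ∈ FGL_C P cl M'}

/-- similarity of clusters -/
private def FGL_S (A P : Set U) (cl : U → U → Prop) (M M' : Set U) : Setoid (FGL_K P cl M M') where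
  r K K' := SmN L A K.1 K'.1
  iseqv := ⟨fun K => sn_refl A K.1, fun h => sn_symm h, fun h h' => sn_trans h h'⟩

/-- the labels -/
private def FGL_Q (A P : Set U) (cl : U → U → Prop) (M M' : Set U) : Type :=
  Quotient (FGL_S L A P cl M M')

/-- a representative of a label -/
private noncomputable def FGL_out {A P : Set U} {cl : U → U → Prop} {M M' : Set U}
    (q : FGL_Q L A P cl M M') : Set U :=
  (Quotient.out (s := FGL_S L A P cl M M') q).1

end

section

variable {L : FirstOrder.Language.{0, 0}} {U : Type} [L.Structure U] {A E P : Set U}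
  {cl : U → U → Prop} {M M' : Set U}

private theorem FGL_out_sim (K : FGL_K P cl M M') :
    SmN L A (FGL_out L (Quotient.mk (FGL_S L A P cl M M') K)) K.1 :=
  Quotient.mk_out (s := FGL_S L A P cl M M') K

private theorem FGL_out_inj {q q' : FGL_Q L A P cl M M'}
    (h : SmN L A (FGL_out L q) (FGL_out L q')) : q = q' := by
  have h1 : Quotient.mk (FGL_S L A P cl M M') (Quotient.out (s := FGL_S L A P cl M M') q) =
      Quotient.mk (FGL_S L A P cl M M') (Quotient.out (s := FGL_S L A P cl M M') q') :=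
    Quotient.sound (s := FGL_S L A P cl M M') h
  exact (Quotient.out_eq (s := FGL_S L A P cl M M') q).symm.trans
    (h1.trans (Quotient.out_eq (s := FGL_S L A P cl M M') q'))

/-- equal multiplicities give a bijection of the clusters -/
private theorem FGL_bij
    (h : ∀ q : FGL_Q L A P cl M M',
      Nonempty (Lab L A P cl M (FGL_out L q) ≃ Lab L A P cl M' (FGL_out L q))) :
    ∃ σ : FGL_C P cl M ≃ FGL_C P cl M', ∀ K, SmN L A K.1 (σ K).1 := by
  have key : ∀ (N : Set U), (∀ K, K ∈ FGL_C P cl N → K ∈ FGL_C P cl M ∨ K ∈ FGL_C P cl M') →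
      ∃ f : (Σ q : FGL_Q L A P cl M M', Lab L A P cl N (FGL_out L q)) ≃
      FGL_C P cl N, ∀ x, (f x).1 = x.2.1 := by
    intro N hN
    let F : (Σ q : FGL_Q L A P cl M M', Lab L A P cl N (FGL_out L q)) → FGL_C P cl N := fun x =>
      ⟨x.2.1, by
        obtain ⟨z, hz, hzE, h1, -⟩ := x.2.2
        exact ⟨z, hz, hzE, h1⟩⟩
    have hF : Function.Bijective F := by
      constructor
      · rintro ⟨q, K, hK⟩ ⟨q', K', hK'⟩ h1
        have h2 : K = K' := congrArg Subtype.val h1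
        subst h2
        have h3 : q = q' := by
          obtain ⟨-, -, -, -, h4⟩ := hK
          obtain ⟨-, -, -, -, h5⟩ := hK'
          exact FGL_out_inj (sn_trans h4 (sn_symm h5))
        subst h3
        rfl
      · rintro ⟨K, hK⟩
        have hK' := hK
        obtain ⟨z, hz, hzE, hKz⟩ := hK'
        exact ⟨⟨Quotient.mk (FGL_S L A P cl M M') ⟨K, hN K hK⟩, K, z, hz, hzE, hKz,
          FGL_out_sim _⟩, rfl⟩
    exact ⟨Equiv.ofBijective F hF, fun x => rfl⟩
  obtain ⟨f, hf⟩ := key M fun K hK => Or.inl hK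
  obtain ⟨f', hf'⟩ := key M' fun K hK => Or.inr hK
  refine ⟨f.symm.trans ((Equiv.sigmaCongrRight fun q => (h q).some).trans f'), fun K => ?_⟩
  obtain ⟨x, rfl⟩ := f.surjective K
  rw [Equiv.trans_apply, Equiv.trans_apply, Equiv.symm_apply_apply, hf, hf']
  obtain ⟨q, K⟩ := x
  obtain ⟨-, -, -, -, h4⟩ := K.2
  obtain ⟨-, -, -, -, h5⟩ := ((h q).some K).2
  exact sn_trans (sn_symm h4) h5

/-- clusters are equal if they have a common point -/
private theorem FGL_eq (hF : Fre L A E cl) (hP : P ⊆ E) {M : Set U} {x y : U} (hx : x ∈ P)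
    (hy : y ∈ P) (h : cl x y) : Kl P cl M x = Kl P cl M y := by
  ext z
  constructor
  · rintro ⟨h1, h2, h3⟩
    exact ⟨h1, h2, hF.tra y (hP hy) x (hP hx) z (hP h2) (hF.sym x (hP hx) y (hP hy) h) h3⟩
  · rintro ⟨h1, h2, h3⟩
    exact ⟨h1, h2, hF.tra x (hP hx) y (hP hy) z (hP h2) h h3⟩

/-- the points of `M ∩ P` and the clusters -/
private theorem FGL_pts (hF : Fre L A E cl) (hP : P ⊆ E) (M : Set U) :
    ∃ f : (Σ K : FGL_C P cl M, (K.1 : Set U)) ≃ (M ∩ P : Set U),
      (∀ x, (f x).1 = x.2.1) ∧ ∀ x, (f.symm x).1.1 = Kl P cl M x := by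
  have hK : ∀ (K : Set U), K ∈ FGL_C P cl M → ∀ x ∈ K, x ∈ M ∩ P ∧ K = Kl P cl M x := by
    rintro _ ⟨z, hz, hzE, rfl⟩ x ⟨h1, h2, h3⟩
    exact ⟨⟨h1, h2⟩, FGL_eq hF hP hzE h2 h3⟩
  let F : (Σ K : FGL_C P cl M, (K.1 : Set U)) → (M ∩ P : Set U) := fun x =>
    ⟨x.2.1, (hK x.1.1 x.1.2 x.2.1 x.2.2).1⟩
  have hFb : Function.Bijective F := by
    constructor
    · rintro ⟨⟨K, hKm⟩, x, hx⟩ ⟨⟨K', hKm'⟩, x', hx'⟩ h1
      have h2 : x = x' := congrArg Subtype.val h1
      subst h2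
      have h3 : K = K' := by
        rw [(hK K hKm x hx).2, (hK K' hKm' x hx').2]
      subst h3
      rfl
    · rintro ⟨x, hx, hxE⟩
      exact ⟨⟨⟨Kl P cl M x, x, hx, hxE, rfl⟩, x, hx, hxE, hF.rfl x (hP hxE)⟩, rfl⟩
  refine ⟨Equiv.ofBijective F hFb, fun x => rfl, fun x => ?_⟩
  obtain ⟨y, rfl⟩ := (Equiv.ofBijective F hFb).surjective x
  rw [Equiv.symm_apply_apply]
  exact (hK y.1.1 y.1.2 y.2.1 y.2.2).2

/-- similar clusters give similar parts -/
private theorem FGL_sim (hM : Mon L U) (hF : Fre L A E cl) (hP : P ⊆ E)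
    (σ : FGL_C P cl M ≃ FGL_C P cl M') (h : ∀ K, SmN L A K.1 (σ K).1) :
    SmN L A (M ∩ P) (M' ∩ P) := by
  classical
  obtain ⟨f, hf1, hf2⟩ := FGL_pts hF hP M
  obtain ⟨f', hf1', hf2'⟩ := FGL_pts hF hP M'
  choose e he using h
  let b : (M ∩ P : Set U) ≃ (M' ∩ P : Set U) :=
    f.symm.trans ((Equiv.sigmaCongr σ e).trans f')
  have hb1 : ∀ x : (M ∩ P : Set U), (b x : U) = e (f.symm x).1 (f.symm x).2 := by
    intro x
    change ((f' ((Equiv.sigmaCongr σ e) (f.symm x)) : (M' ∩ P : Set U)) : U) = _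
    rw [hf1']
    rfl
  have hb2 : ∀ x : (M ∩ P : Set U), Kl P cl M' (b x) = (σ (f.symm x).1).1 := by
    intro x
    rw [← hf2' (b x)]
    have h1 : f'.symm (b x) = (Equiv.sigmaCongr σ e) (f.symm x) := by
      change f'.symm (f' ((Equiv.sigmaCongr σ e) (f.symm x))) = _
      rw [Equiv.symm_apply_apply]
    rw [h1]
    rfl
  refine ⟨b, fun s hs => ?_⟩
  let t : U → U := fun x => if hx : x ∈ M ∩ P then (b ⟨x, hx⟩ : U) else x
  have ht : ∀ x (hx : x ∈ M ∩ P), t x = b ⟨x, hx⟩ := fun x hx => dif_pos hx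
  obtain ⟨-, -, -, h4, -⟩ := TPC.q_FOB L U hM A E cl hF
  obtain ⟨g, hg, hgt⟩ := h4 ((fun x : (M ∩ P : Set U) => (x : U)) '' s) t (hs.image _)
    (by
      rintro _ ⟨x, -, rfl⟩
      exact hP x.2.2)
    (by
      rintro _ ⟨x, -, rfl⟩
      rw [ht _ x.2]
      exact hP (b _).2.2)
    (by
      rintro _ ⟨x, -, rfl⟩ _ ⟨y, -, rfl⟩ hxy
      rw [ht _ x.2, ht _ y.2] at hxy
      have h5 : Kl P cl M' (b x) = Kl P cl M' (b y) := FGL_eq hF hP (b x).2.2 (b y).2.2 hxy
      rw [hb2, hb2] at h5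
      have h6 : (f.symm x).1 = (f.symm y).1 := σ.injective (Subtype.ext h5)
      have h7 : Kl P cl M (x : U) = Kl P cl M (y : U) := by
        rw [← hf2 x, ← hf2 y, h6]
      have h8 : (y : U) ∈ Kl P cl M (x : U) := by
        rw [h7]
        exact ⟨y.2.1, y.2.2, hF.rfl _ (hP y.2.2)⟩
      exact h8.2.2)
    (by
      rintro _ ⟨x, -, rfl⟩
      have hS : ((fun y : ((f.symm x).1.1 : Set U) => (y : U)) ⁻¹'
          ((fun x : (M ∩ P : Set U) => (x : U)) '' s)).Finite :=
        (hs.image _).preimage Subtype.val_injective.injOn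
      obtain ⟨g, hg, hgy⟩ := he (f.symm x).1 _ hS
      refine ⟨g, hg, ?_⟩
      rintro _ ⟨y, hy, rfl⟩ hxy
      have h5 : Kl P cl M (x : U) = Kl P cl M (y : U) := FGL_eq hF hP x.2.2 y.2.2 hxy
      have h6 : (f.symm x).1 = (f.symm y).1 := Subtype.ext (by rw [hf2 x, hf2 y, h5])
      rw [ht _ y.2]
      change g (y : U) = b y
      rw [hb1]
      have h7 : ∀ K (hK : K = (f.symm y).1) (g : U ≃[L] U), (∀ z : (K.1 : Set U),
          (z : U) = y → g z = e K z) → g (y : U) = e (f.symm y).1 (f.symm y).2 := by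
        rintro _ rfl g hgz
        have h8 : ((f.symm y).2 : U) = y := by
          rw [← hf1 (f.symm y), Equiv.apply_symm_apply]
        rw [← hgz (f.symm y).2 h8, h8]
      refine h7 _ h6 g (fun z hz => hgy z ?_)
      change (z : U) ∈ (fun x : (M ∩ P : Set U) => (x : U)) '' s
      rw [hz]
      exact ⟨y, hy, rfl⟩)
  refine ⟨g, hg, fun x hx => ?_⟩
  rw [hgt _ ⟨x, hx, rfl⟩, ht _ x.2]

/-- countable sets of the same cardinality -/
private theorem FGL_equiv {α : Type} {s t : Set α} (hs : s.Countable) (ht : t.Countable)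
    (h : s.encard = t.encard) : Nonempty (s ≃ t) := by
  rw [← Cardinal.eq]
  refine Cardinal.toENat_injOn (Cardinal.mk_le_aleph0_iff.2 hs) (Cardinal.mk_le_aleph0_iff.2 ht) ?_
  exact h

end

theorem thm_FGL : St_FGL := by
  intro L U _ hM A E P cl hF hBq hP M M' h1 h2
  have hU := hM.ctb
  have hct : ∀ (N K : Set U), (Lab L A P cl N K).Countable := by
    intro N K
    refine (countable_range fun z : U => Kl P cl N z).mono ?_
    rintro K ⟨z, -, -, rfl, -⟩
    exact ⟨z, rfl⟩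
  have h4 : ∀ q : FGL_Q L A P cl M M', (Lab L A P cl M (FGL_out L q)).encard =
      (Lab L A P cl M' (FGL_out L q)).encard := by
    intro q
    rcases (Quotient.out (s := FGL_S L A P cl M M') q).2 with ⟨z, hz, hzP, hK⟩ | ⟨z, hz, hzP, hK⟩
    · have h5 : FGL_out L q = Kl P cl M z := hK
      rw [h5]
      exact h1 z hz hzP
    · have h5 : FGL_out L q = Kl P cl M' z := hK
      rw [h5]
      exact h2 z hz hzP
  obtain ⟨σ, hσ⟩ := FGL_bij fun q => FGL_equiv (hct M _) (hct M' _) (h4 q)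
  exact FGL_sim hM hF hP σ hσ

end Pool.Agent.MTC
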