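import Pool.Agent.MTC.StB

/-!
# MTC: finitely many labels are not atomic (helper81)
-/

set_option autoImplicit false
set_option linter.unusedVariables false

namespace Pool.Agent.MTC

open FirstOrder.Language Set
open scoped FirstOrder
open Pool.Agent.WOM (tp Mon IsEl IsoM CtU Fx Orb Isd)
open Pool.Agent.PMC (Sm Md NPf)
open Pool.Agent.MNO (Dp FE Sq Nx SmN FE1 FinN nx_refl nx_symm nx_comp)
open Pool.Agent.TPC (Bq Pq Sub Fcp Lin Fre Iv Kl Inr Lab Clu Rgd Ist Cpt q_SMQ z_IST z_PMT)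

/-- finitely many representatives or an infinite sequence of inequivalent elements -/
theorem fnl_alt (W : Type) (R : W → W → Prop) (h1 : ∀ x, R x x) (h2 : ∀ x y, R x y → R y x)
    (h3 : ∀ x y z, R x y → R y z → R x z) :
    (∃ (r : ℕ) (f : Fin r → W), (∀ i j, i ≠ j → ¬ R (f i) (f j)) ∧ ∀ w, ∃ j, R (f j) w) ∨
      ∃ f : ℕ → W, ∀ i j, i ≠ j → ¬ R (f i) (f j) := by
  let S : Setoid W := ⟨R, ⟨h1, fun h => h2 _ _ h, fun h h' => h3 _ _ _ h h'⟩⟩
  have hout : ∀ q q' : Quotient S, R q.out q'.out → q = q' := by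
    intro q q' h
    rw [← Quotient.out_eq q, ← Quotient.out_eq q']
    exact Quotient.sound h
  rcases finite_or_infinite (Quotient S) with hf | hi
  · left
    obtain ⟨r, ⟨e⟩⟩ := Finite.exists_equiv_fin (Quotient S)
    refine ⟨r, fun i => (e.symm i).out, fun i j hij h => ?_, fun w => ?_⟩
    · exact hij (e.symm.injective (hout _ _ h))
    · refine ⟨e (Quotient.mk S w), ?_⟩
      change R (e.symm (e (Quotient.mk S w))).out w
      rw [e.symm_apply_apply]
      exact Quotient.exact (Quotient.out_eq (Quotient.mk S w))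
  · right
    refine ⟨fun i => (Infinite.natEmbedding (Quotient S) i).out, fun i j hij h => ?_⟩
    exact hij ((Infinite.natEmbedding (Quotient S)).injective (hout _ _ h))

theorem fnl_atc {L : FirstOrder.Language.{0, 0}} {U : Type} [L.Structure U] (hM : Mon L U)
    (hF : FinN L U) {A K K' : Set U} (hA : A.Finite) (h : SmN L A K K')
    (h' : ∀ (n : ℕ) (t : Fin n → U), (∀ i, t i ∈ K') → Ist L A t) : AtC L A K := by
  intro n t ht
  obtain ⟨e, he⟩ := h
  obtain ⟨g, hg, hgt⟩ := he (range fun i => (⟨t i, ht i⟩ : K)) (finite_range _)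
  have h1 : Ist L A (fun i => g (t i)) := by
    apply h'
    intro i
    have h2 := hgt ⟨t i, ht i⟩ ⟨i, rfl⟩
    change g (t i) = _ at h2
    rw [h2]
    exact (e ⟨t i, ht i⟩).2
  have h2 : g '' A = A := by
    ext x
    constructor
    · rintro ⟨a, ha, rfl⟩
      rw [hg.1 a ha]
      exact ha
    · intro hx
      exact ⟨x, hx, hg.1 x hx⟩
  obtain ⟨-, -, -, -, -, -, i7, -⟩ := z_IST L U hM hF A hA
  rw [i7 n t g, h2]
  exact h1

theorem thm_FNL (hFPF : St_FPF) : St_FNL := by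
  intro L U _ hX A E P cl hFre hBP hPE
  have hA : A.Finite := hFre.fin
  have hM := hX.mon
  obtain ⟨s1, s2, s3, -⟩ := q_SMQ L U hM
  let W : Type := {x : Set U × U // Md L A x.1 ∧ x.2 ∈ x.1 ∧ x.2 ∈ P ∧ ¬ AtC L A (Kl P cl x.1 x.2)}
  rcases fnl_alt W (fun x y => SmN L A (Kl P cl x.1.1 x.1.2) (Kl P cl y.1.1 y.1.2))
    (fun x => s1 A _) (fun x y h => s2 A _ _ h) (fun x y z h h' => s3 A _ _ _ h h') with
    ⟨r, f, h1, h2⟩ | ⟨f, h1⟩
  · refine ⟨r, fun j => (f j).1.1, fun j => (f j).1.2, fun j => (f j).2, h1, fun M q hMd hq hqP => ?_⟩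
    by_cases h : AtC L A (Kl P cl M q)
    · exact Or.inl h
    · exact Or.inr (h2 ⟨(M, q), hMd, hq, hqP, h⟩)
  · exfalso
    obtain ⟨M0, hM0, hat⟩ := z_PMT L U hM A hA
    refine hFPF L U hX A E P cl hFre hBP hPE M0 hM0 (fun n => (f n).1.1) (fun n => (f n).1.2)
      (fun n => ⟨(f n).2.1, (f n).2.2.1, (f n).2.2.2.1⟩) h1 (fun n => ?_)
    have hemp : Lab L A P cl M0 (Kl P cl (f n).1.1 (f n).1.2) = ∅ := by
      rw [eq_empty_iff_forall_notMem]
      rintro K' ⟨z, hz, hzP, rfl, hS⟩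
      apply (f n).2.2.2.2
      exact fnl_atc hM hX.fin hA hS fun m t ht => hat m t fun i => (ht i).1
    rw [hemp]
    exact finite_empty

end Pool.Agent.MTC
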