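import Pool.Agent.MTC.StL

/-!
# MTC/FNM (helper23): the theory of a submodel determines it
-/

set_option autoImplicit false
set_option linter.unusedVariables false

namespace Pool.Agent.MTC

open FirstOrder.Language Set
open scoped FirstOrder
open Pool.Agent.WOM (tp Mon IsEl IsoM CtU Fx Orb Isd)
open Pool.Agent.PMC (Sm Md NPf)
open Pool.Agent.MNO (Dp FE Sq Nx SmN FE1 FinN)
open Pool.Agent.TPC (Bq Pq)

/-- `IsoM` is transitive -/
theorem isoM_trans {L : FirstOrder.Language.{0, 0}} {U : Type} [L.Structure U] {X Y Z : Set U}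
    (h : IsoM L X Y) (h' : IsoM L Y Z) : IsoM L X Z := by
  obtain ⟨e, he⟩ := h
  obtain ⟨e', he'⟩ := h'
  exact ⟨e.trans e', fun n a => (he n a).trans (he' n fun i => e (a i))⟩

/-- the image under an automorphism -/
theorem isoM_img {L : FirstOrder.Language.{0, 0}} {U : Type} [L.Structure U] (g : U ≃[L] U)
    (X : Set U) : IsoM L (g '' X) X := by
  let e : (g '' X : Set U) ≃ X := (Equiv.Set.image g X g.injective).symm
  refine ⟨e, fun n a => ?_⟩
  have h1 : ∀ i, ((a i : (g '' X : Set U)) : U) = g (e (a i) : U) := by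
    intro i
    have h2 : (Equiv.Set.image g X g.injective) (e (a i)) = a i := Equiv.apply_symm_apply _ _
    exact (congrArg Subtype.val h2).symm
  have h3 : (fun i => ((a i : (g '' X : Set U)) : U)) = g ∘ (fun i => (e (a i) : U)) :=
    funext h1
  rw [h3]
  ext φ
  exact FirstOrder.Language.StrongHomClass.realize_formula g φ

theorem thm_FNM (hGRP : St_GRP) (hLMG : St_LMG) (hMCA : St_MCA) (hBGM : St_BGM) (hGEQ : St_GEQ) :
    St_FNM := by
  intro L U _ hX hB M M' hM hM' hE
  obtain ⟨r1, r2, r3, r4, r5, r6⟩ := hGRP L U hX.mon ∅ finite_empty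
  obtain ⟨g, hg, hE'⟩ := hLMG L U hX.mon hX.fin (Fx L (∅ : Set U)) ∅ r2 r6 M M' hE
  have hALQ := Pool.Agent.TPC.q_ALQ L U hX.mon ∅ finite_empty
  have hmar : Mar L (∅ : Set U) univ := (hMCA L U hX).1 ∅ univ finite_empty hALQ.1.2
    fun z _ => (hBGM L U hX ∅ z finite_empty).2.2.2.2.1 (hB z)
  obtain ⟨s1, s2, s3, s4, s5, s6, s7, s8, s9⟩ := Pool.Agent.TPC.q_SMQ L U hX.mon
  have hsm : Sm L (∅ : Set U) M' (g '' M') :=
    ⟨Equiv.Set.image g M' g.injective, fun s hs => ⟨g, hg, fun x hx => rfl⟩⟩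
  have hgM : Md L (∅ : Set U) (g '' M') := s8 ∅ M' (g '' M') finite_empty (empty_subset _) hsm hM'
  have h1 := hmar M (g '' M') ⟨hM, empty_subset _⟩ hgM (by rw [inter_univ, inter_univ]; exact hE')
  rw [inter_univ, inter_univ] at h1
  exact isoM_trans (s7 _ _ h1) (isoM_img g M')

end Pool.Agent.MTC
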