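import Pool.Agent.MTC.StA

/-!
# MTC: module FNS (finite multiplicity of tuples)
-/

set_option autoImplicit false
set_option linter.unusedVariables false

namespace Pool.Agent.MTC

open FirstOrder.Language Set
open scoped FirstOrder
open Pool.Agent.WOM (tp Mon IsEl IsoM CtU Fx Orb Isd)
open Pool.Agent.PMC (Sm Md NPf)
open Pool.Agent.MNO (Dp FE Sq Nx SmN FE1 FinN nx_conj_fx dp_fx)
open Pool.Agent.TPC (Bq Pq Sub Fcp Lin Fre Iv Kl Inr Lab Clu Rgd Ist Cpt)

private theorem fns_fx {L : FirstOrder.Language.{0, 0}} {U : Type} [L.Structure U] {A : Set U}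
    {α : Type} {F : (α → U) → (α → U) → Prop} (hF : FE L A F) {h : U ≃[L] U} (hh : Fx L A h)
    (x y : α → U) : F (fun i => h (x i)) (fun i => h (y i)) ↔ F x y := by
  have h1 := dp_fx hF.dfn hh (Sum.elim x y)
  exact h1

/-- the case of tuples indexed by `Fin n` -/
private theorem fns_fin (L : FirstOrder.Language.{0, 0}) (U : Type) [L.Structure U]
    (hM : Mon L U) (hN : FinN L U) (A : Set U) (n : ℕ) (t : Fin n → U) (hA : A.Finite) :
    ∃ S : Set (Fin n → U), S.Finite ∧ (∀ s ∈ S, Cj L (Fx L A) t s) ∧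
      ∀ s, Cj L (Fx L A) t s → ∃ s' ∈ S, Cj L (Nx L A) s' s := by
  classical
  obtain ⟨F, hF, hFt⟩ := TPC.z_FNT L U hM hN A n t hA
  have key : ∀ s₁ s₂ : Fin n → U, Cj L (Fx L A) t s₁ → Cj L (Fx L A) t s₂ → F s₁ s₂ →
      Cj L (Nx L A) s₁ s₂ := by
    rintro s₁ s₂ ⟨h, hh, hhs⟩ ⟨k, hk, hks⟩ hF12
    have hsymm : Fx L A h.symm := by
      intro a ha
      have h1 := hh a ha
      calc h.symm a = h.symm (h a) := by rw [h1]
        _ = a := h.symm_apply_apply a
    have e1 : (fun i => h.symm (s₁ i)) = t := by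
      funext i
      rw [← hhs i]
      exact h.symm_apply_apply _
    have h2 : F t (fun i => h.symm (s₂ i)) := by
      have h3 := (fns_fx hF hsymm s₁ s₂).mpr hF12
      rw [e1] at h3
      exact h3
    obtain ⟨g, hg, hgs⟩ := hFt (fun i => h.symm (s₂ i)) ⟨h.symm.comp k, by
      intro a ha
      change h.symm (k a) = a
      rw [hk a ha, hsymm a ha], by
      intro i
      change h.symm (k (t i)) = _
      rw [hks i]⟩ h2
    refine ⟨_, nx_conj_fx hM hh hg, ?_⟩
    intro i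
    change h (g (h.symm (s₁ i))) = s₂ i
    have h4 : h.symm (s₁ i) = t i := congrFun e1 i
    rw [h4, hgs i]
    exact h.apply_symm_apply _
  obtain ⟨r, hr, hrc⟩ := hF.fin
  have htt : Cj L (Fx L A) t t := ⟨FirstOrder.Language.Equiv.refl L U, fun a _ => rfl, fun _ => rfl⟩
  let c : (Fin n → U) → (Fin n → U) := fun y =>
    if h : ∃ x, Cj L (Fx L A) t x ∧ F x y then Classical.choose h else t
  refine ⟨c '' r, hr.image c, ?_, ?_⟩
  · rintro _ ⟨y, hy, rfl⟩
    by_cases h : ∃ x, Cj L (Fx L A) t x ∧ F x y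
    · simp only [c, dif_pos h]
      exact (Classical.choose_spec h).1
    · simp only [c, dif_neg h]
      exact htt
  · intro s hs
    obtain ⟨y, hy, hsy⟩ := hrc s
    have h : ∃ x, Cj L (Fx L A) t x ∧ F x y := ⟨s, hs, hsy⟩
    refine ⟨c y, ⟨y, hy, rfl⟩, ?_⟩
    have h1 : c y = Classical.choose h := by simp only [c, dif_pos h]
    rw [h1]
    obtain ⟨h2, h3⟩ := Classical.choose_spec h
    exact key _ _ h2 hs (hF.eqv.trans h3 (hF.eqv.symm hsy))

theorem thm_FNS : St_FNS := by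
  intro L U _ hM hN A α t hA hα
  obtain ⟨n, ⟨e⟩⟩ := Finite.exists_equiv_fin α
  obtain ⟨S, hS, hS1, hS2⟩ := fns_fin L U hM hN A n (fun i => t (e.symm i)) hA
  refine ⟨(fun s : Fin n → U => fun a => s (e a)) '' S, hS.image _, ?_, ?_⟩
  · rintro _ ⟨s, hs, rfl⟩
    obtain ⟨g, hg, hgs⟩ := hS1 s hs
    refine ⟨g, hg, fun a => ?_⟩
    have := hgs (e a)
    simpa using this
  · rintro s ⟨g, hg, hgs⟩
    obtain ⟨s', hs', k, hk, hks⟩ := hS2 (fun i => s (e.symm i)) ⟨g, hg, fun i => hgs (e.symm i)⟩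
    refine ⟨_, ⟨s', hs', rfl⟩, k, hk, fun a => ?_⟩
    have := hks (e a)
    simpa using this

end Pool.Agent.MTC
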