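import Pool.Agent.MTC.StB

/-!
# MTC, [FPF]: infinitely many labels do not all have finite multiplicity, for the parts in `P` (helper24)
-/

set_option autoImplicit false
set_option linter.unusedVariables false

namespace Pool.Agent.MTC

open FirstOrder.Language Set
open scoped FirstOrder
open Pool.Agent.WOM (tp Mon IsEl IsoM CtU Fx Orb Isd)
open Pool.Agent.PMC (Sm Md NPf)
open Pool.Agent.MNO (Dp FE Sq Nx SmN FE1 FinN)
open Pool.Agent.TPC (Bq Pq Sub Fcp Lin Fre Iv Kl Inr Lab Clu Rgd Ist Cpt)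

theorem thm_FPF : St_FPF := by
  classical
  intro L U _ hX A E P cl hF hBq hP M0 hM0 N p hNp hns hfin
  have hA := hF.fin
  have hFcp : Fcp L A := TPC.q_FCP L U hX.mon hX.npf A hA
  obtain ⟨-, -, -, hS4, -⟩ := TPC.q_SMQ L U hX.mon
  -- the model which agrees with `N` on `P` and is everything outside
  have hmod : ∀ N : Set U, Md L A N → Md L A {z | z ∈ P → z ∈ N} := by
    intro N hN
    have h1 := TPC.q_UNQ L U hX.mon A hA hFcp (fun z => if z ∈ P then N else univ)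
      (fun z => by
        by_cases hz : z ∈ P
        · simp only [if_pos hz]
          exact hN
        · simp only [if_neg hz]
          exact ⟨fun s _ hn => by rw [inter_univ]; exact hn, subset_univ A⟩)
      (fun z y hy => by
        have h2 : z ∈ P ↔ y ∈ P := hy P hBq
        by_cases hz : z ∈ P
        · simp only [if_pos hz, if_pos (h2.1 hz)]
        · simp only [if_neg hz, if_neg (fun h => hz (h2.2 h))])
    have h3 : {z | z ∈ (fun z => if z ∈ P then N else univ) z} = {z | z ∈ P → z ∈ N} := by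
      ext z
      by_cases hz : z ∈ P
      · simp [hz]
      · simp [hz]
    rw [← h3]
    exact h1
  have hK : ∀ (N : Set U) (q : U), Kl E cl {z | z ∈ P → z ∈ N} q ∩ P = Kl P cl N q := by
    intro N q
    ext z
    constructor
    · rintro ⟨⟨h1, h2, h3⟩, h4⟩
      exact ⟨h1 h4, h4, h3⟩
    · rintro ⟨h1, h2, h3⟩
      exact ⟨⟨fun _ => h1, hP h2, h3⟩, h2⟩
  have hres : ∀ X Y : Set U, SmN L A X Y → SmN L A (X ∩ P) (Y ∩ P) := fun X Y h =>
    hS4 A X Y P (fun g hg x => hBq.inv g hg x) h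
  have hEq : ∀ (X : Set U) (x y : U), x ∈ E → y ∈ E → cl x y → Kl E cl X x = Kl E cl X y := by
    intro X x y hx hy h
    ext z
    constructor
    · rintro ⟨h1, h2, h3⟩
      exact ⟨h1, h2, hF.tra y hy x hx z h2 (hF.sym x hx y hy h) h3⟩
    · rintro ⟨h1, h2, h3⟩
      exact ⟨h1, h2, hF.tra x hx y hy z h2 h h3⟩
  refine TPC.q_FIF L U hX.mon hX.npf A E cl hF {z | z ∈ P → z ∈ M0} (hmod M0 hM0)
    (fun n => {z | z ∈ P → z ∈ N n}) p
    (fun n => ⟨hmod _ (hNp n).1, fun _ => (hNp n).2.1, hP (hNp n).2.2⟩) ?_ ?_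
  · intro n m hnm hs
    have h1 := hres _ _ hs
    rw [hK, hK] at h1
    exact hns n m hnm h1
  · intro n
    -- a cluster similar to that of `p n` meets `P`
    have key : ∀ K' ∈ Lab L A E cl {z | z ∈ P → z ∈ M0} (Kl E cl {z | z ∈ P → z ∈ N n} (p n)),
        ∃ z' ∈ K' ∩ P, z' ∈ M0 ∧ K' = Kl E cl {z | z ∈ P → z ∈ M0} z' ∧
          K' ∩ P ∈ Lab L A P cl M0 (Kl P cl (N n) (p n)) := by
      rintro K' ⟨z, hz, hzE, rfl, hs⟩
      have h1 := hres _ _ hs
      rw [hK] at h1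
      have h1' := h1
      obtain ⟨e, -⟩ := h1
      have hpn : p n ∈ Kl P cl (N n) (p n) :=
        ⟨(hNp n).2.1, (hNp n).2.2, hF.rfl _ (hP (hNp n).2.2)⟩
      obtain ⟨w, h2⟩ : ∃ w, w ∈ Kl E cl {z | z ∈ P → z ∈ M0} z ∩ P := ⟨_, (e ⟨p n, hpn⟩).2⟩
      have h3 : cl z w := h2.1.2.2
      have h4 : w ∈ P := h2.2
      have h5 : w ∈ M0 := h2.1.1 h4
      have h6 : Kl E cl {z | z ∈ P → z ∈ M0} z = Kl E cl {z | z ∈ P → z ∈ M0} w :=
        hEq _ _ _ hzE (hP h4) h3
      refine ⟨w, h2, h5, h6, w, h5, h4, ?_, h1'⟩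
      rw [h6, hK]
    refine Set.Finite.of_injOn (f := fun K => K ∩ P) (fun K' hK' => (key K' hK').choose_spec.2.2.2)
      ?_ (hfin n)
    intro K1 h1 K2 h2 h12
    have h12' : K1 ∩ P = K2 ∩ P := h12
    obtain ⟨z, hz, hz0, hKz, -⟩ := key K1 h1
    obtain ⟨y, hy, hy0, hKy, -⟩ := key K2 h2
    have h3 : z ∈ K2 := by
      rw [h12'] at hz
      exact hz.1
    rw [hKy] at h3
    have h4 : cl y z := h3.2.2
    rw [hKz, hKy]
    exact (hEq _ _ _ (hP hy.2) (hP hz.2) h4).symm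

end Pool.Agent.MTC
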