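import Pool.Agent.MTC.StB

/-!
# MTC, [FRN]: free unions are determined by their theory (helper13)
-/

set_option autoImplicit false
set_option linter.unusedVariables false

namespace Pool.Agent.MTC

open FirstOrder.Language Set
open scoped FirstOrder
open Pool.Agent.WOM (tp Mon IsEl IsoM CtU Fx Orb Isd)
open Pool.Agent.PMC (Sm Md NPf)
open Pool.Agent.MNO (Dp FE Sq Nx SmN FE1 FinN)
open Pool.Agent.TPC (Bq Pq Sub Fcp Lin Fre Iv Kl Inr Lab Clu Rgd Ist Cpt)

section

variable {L : FirstOrder.Language.{0, 0}} {U : Type} [L.Structure U]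

/-- multiplicities in terms of tuples -/
private theorem FRN_card {A E P : Set U} {cl : U → U → Prop} (hF : Fre L A E cl) (hPE : P ⊆ E)
    (hK : ∀ (M : Set U), ∀ p ∈ P, ∀ q ∈ P, cl p q → Kl P cl M p = Kl P cl M q) (M K : Set U)
    (r : ℕ) : (r : ℕ∞) ≤ (Lab L A P cl M K).encard ↔
      ∃ q : Fin r → U, (∀ i, q i ∈ M ∧ q i ∈ P ∧ SmN L A K (Kl P cl M (q i))) ∧
        ∀ i j, i ≠ j → ¬ cl (q i) (q j) := by
  constructor
  · intro h
    obtain ⟨t, hts, htr⟩ := Set.exists_subset_encard_eq h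
    have hfin : t.Finite := Set.finite_of_encard_eq_coe htr
    have hcard : Nat.card t = r := by
      have h1 : t.ncard = r := by
        rw [Set.ncard_def, htr]
        rfl
      rwa [← Nat.card_coe_set_eq] at h1
    have : Finite t := hfin
    let e : Fin r ≃ t := (Finite.equivFinOfCardEq hcard).symm
    choose z hz1 hz2 hz3 hz4 using fun i : Fin r => hts (e i).2
    refine ⟨z, fun i => ⟨hz1 i, hz2 i, ?_⟩, fun i j hij hc => hij ?_⟩
    · rw [← hz3 i]; exact hz4 i
    · apply e.injective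
      apply Subtype.ext
      rw [hz3 i, hz3 j]
      exact hK M _ (hz2 i) _ (hz2 j) hc
  · rintro ⟨q, h1, h2⟩
    have hinj : Function.Injective fun i : Fin r => Kl P cl M (q i) := by
      intro i j hij
      by_contra hne
      refine h2 i j hne ?_
      have h3 : q j ∈ Kl P cl M (q j) := ⟨(h1 j).1, (h1 j).2.1, hF.rfl _ (hPE (h1 j).2.1)⟩
      have hij' : Kl P cl M (q i) = Kl P cl M (q j) := hij
      rw [← hij'] at h3
      exact h3.2.2
    have h4 : (range fun i : Fin r => Kl P cl M (q i)) ⊆ Lab L A P cl M K := by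
      rintro _ ⟨i, rfl⟩
      exact ⟨q i, (h1 i).1, (h1 i).2.1, rfl, (h1 i).2.2⟩
    have h5 : (range fun i : Fin r => Kl P cl M (q i)).encard = r := by
      rw [← Set.image_univ, hinj.encard_image, Set.encard_univ, ENat.card_eq_coe_fintype_card,
        Fintype.card_fin]
    rw [← h5]
    exact Set.encard_le_encard h4

end

/-- [FRN] -/
theorem thm_FRN (hGEQ : St_GEQ) (hMUL : St_MUL) (hFGL : St_FGL) (hKLB : St_KLB) : St_FRN := by
  intro L U _ hX A E P cl hF hP hPE hC M M' hM hM' hE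
  obtain ⟨-, -, hK, -⟩ := hKLB L U hX.mon A E P cl hF hP hPE
  obtain ⟨-, ssym, stra, -⟩ := TPC.q_SMQ L U hX.mon
  have key : ∀ N N' : Set U, Md L A N → Md L A N' → EqS L A (N ∩ P) (N' ∩ P) → ∀ p ∈ N, p ∈ P →
      (Lab L A P cl N (Kl P cl N p)).encard = (Lab L A P cl N' (Kl P cl N p)).encard := by
    intro N N' hN hN' hEq p hp hpP
    have hEq' : EqS L A (N' ∩ P) (N ∩ P) := fun Δ D n hΔ hD =>
      (hGEQ L U (Nx L A) A Δ D n Empty).2.1 _ _ _ _ (hEq Δ D n hΔ hD)
    have hle : ∀ r : ℕ, (r : ℕ∞) ≤ (Lab L A P cl N (Kl P cl N p)).encard ↔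
        (r : ℕ∞) ≤ (Lab L A P cl N' (Kl P cl N p)).encard := by
      intro r
      rw [FRN_card hF hPE hK, FRN_card hF hPE hK]
      constructor
      · rintro ⟨q, h1, h2⟩
        exact hMUL L U hX A E P cl hF hP hPE hC N N' hN hN' hEq p r q hp hpP h1 h2
      · rintro ⟨q', h1, h2⟩
        rcases Nat.eq_zero_or_pos r with rfl | hr
        · exact ⟨Fin.elim0, fun i => i.elim0, fun i => i.elim0⟩
        · have h0 := h1 ⟨0, hr⟩
          obtain ⟨q, h3, h4⟩ := hMUL L U hX A E P cl hF hP hPE hC N' N hN' hN hEq'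
            (q' ⟨0, hr⟩) r q' h0.1 h0.2.1
            (fun i => ⟨(h1 i).1, (h1 i).2.1, stra _ _ _ _ (ssym _ _ _ h0.2.2) (h1 i).2.2⟩) h2
          exact ⟨q, fun i => ⟨(h3 i).1, (h3 i).2.1, stra _ _ _ _ h0.2.2 (h3 i).2.2⟩, h4⟩
    refine le_antisymm ?_ ?_
    · exact ENat.forall_natCast_le_iff_le.1 fun r hr => (hle r).1 hr
    · exact ENat.forall_natCast_le_iff_le.1 fun r hr => (hle r).2 hr
  have hE' : EqS L A (M' ∩ P) (M ∩ P) := fun Δ D n hΔ hD =>
    (hGEQ L U (Nx L A) A Δ D n Empty).2.1 _ _ _ _ (hE Δ D n hΔ hD)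
  exact hFGL L U hX.mon A E P cl hF hP hPE M M' (fun p hp hpP => key M M' hM hM' hE p hp hpP)
    fun p hp hpP => (key M' M hM' hM hE' p hp hpP).symm

end Pool.Agent.MTC
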