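import Pool.Agent.MTC.DEP

/-!
# MTC: module GCJ (helper45)
-/

set_option autoImplicit false
set_option linter.unusedVariables false

namespace Pool.Agent.MTC

open FirstOrder.Language Set
open scoped FirstOrder
open Pool.Agent.WOM (tp Mon IsEl IsoM CtU Fx Orb Isd)
open Pool.Agent.PMC (Sm Md NPf)
open Pool.Agent.MNO (Dp FE Sq Nx SmN FE1 FinN)

section

variable {L : FirstOrder.Language.{0, 0}} {U : Type} [L.Structure U]

theorem gcj_cj (hM : Mon L U) {A : Set U} (g : U ≃[L] U) {α : Type} (s t : α → U) :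
    Cj L (Nx L (g '' A)) s (fun i => g (t i)) ↔ Cj L (Nx L A) (fun i => g.symm (s i)) t := by
  have e : s = fun i => g ((fun i => g.symm (s i)) i) := funext fun i => (g.apply_symm_apply _).symm
  constructor
  · intro h
    rw [e] at h
    exact (dep_cj_iff hM g).1 h
  · intro h
    rw [e]
    exact (dep_cj_iff hM g).2 h

theorem gcj_cj1 (hM : Mon L U) {A : Set U} (g : U ≃[L] U) (u x : U) :
    Cj1 L (Nx L (g '' A)) u (g x) ↔ Cj1 L (Nx L A) (g.symm u) x := by
  have h := gcj_cj hM (A := A) g (fun _ : Unit => u) (fun _ : Unit => x)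
  constructor
  · rintro ⟨k, hk, e⟩
    obtain ⟨k', hk', e'⟩ := h.1 ⟨k, hk, fun _ => e⟩
    exact ⟨k', hk', e' ()⟩
  · rintro ⟨k, hk, e⟩
    obtain ⟨k', hk', e'⟩ := h.2 ⟨k, hk, fun _ => e⟩
    exact ⟨k', hk', e' ()⟩

/-- the inverse image of an atom -/
def gcjA (g : U ≃[L] U) (δ : Atm U) : Atm U := ⟨δ.1, δ.2.1, fun i => g.symm (δ.2.2 i)⟩

end

theorem thm_GCJ : St_GCJ := by
  intro L U _ hM A X Y g h Δ' D' n hΔ' hD'
  have hat : ∀ (α : Type) (v w : α → U), At L (Nx L A) A (gcjA g '' Δ') v w →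
      At L (Nx L (g '' A)) (g '' A) Δ' (fun a => g (v a)) (fun a => g (w a)) := by
    intro α v w hvw δ hδ i j
    obtain ⟨h1, h2⟩ := hvw (gcjA g δ) ⟨δ, hδ, rfl⟩ i j
    have k : ∀ (v : α → U) (j : Fin δ.2.1 → α),
        Cj L (Nx L (g '' A)) δ.2.2 (Sum.elim (fun a => g (v (i a))) fun a => g (v (j a))) ↔
        Cj L (Nx L A) (fun i => g.symm (δ.2.2 i)) (Sum.elim (fun a => v (i a)) fun a => v (j a)) := by
      intro v j
      rw [dep_elim g v i j]
      exact gcj_cj hM g _ _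
    have e : ∀ v : α → U, g '' A ∪ range (fun a => g (v (i a))) = g '' (A ∪ range fun a => v (i a)) := by
      intro v
      rw [image_union, ← range_comp]
      rfl
    refine ⟨(k v j).trans (h1.trans (k w j).symm), fun j' ha hb => ?_⟩
    have h3 := h2 j' ((k v j).1 ha) ((k v j').1 hb)
    rw [e v, e w]
    exact (dep_cj_iff hM g).trans (h3.trans (dep_cj_iff hM g).symm)
  have main : ∀ (n : ℕ) (α : Type) (v w : α → U),
      Eg L (Nx L A) A (gcjA g '' Δ') (g.symm '' D') n α X v Y w →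
      Eg L (Nx L (g '' A)) (g '' A) Δ' D' n α (g '' X) (fun a => g (v a)) (g '' Y) (fun a => g (w a)) := by
    intro n
    induction n with
    | zero => exact fun α v w h => hat α v w h
    | succ n ih =>
      rintro α v w ⟨h0, h1, h2⟩
      refine ⟨hat α v w h0, ?_, ?_⟩
      · rintro u hu _ ⟨x, hx, rfl⟩ hc
        obtain ⟨y, hy, hc', h3⟩ := h1 (g.symm u) ⟨u, hu, rfl⟩ x hx ((gcj_cj1 hM g u x).1 hc)
        refine ⟨g y, ⟨y, hy, rfl⟩, (gcj_cj1 hM g u y).2 hc', ?_⟩
        have h4 := ih _ _ _ h3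
        rw [dep_ov, dep_ov]
        exact h4
      · rintro u hu _ ⟨y, hy, rfl⟩ hc
        obtain ⟨x, hx, hc', h3⟩ := h2 (g.symm u) ⟨u, hu, rfl⟩ y hy ((gcj_cj1 hM g u y).1 hc)
        refine ⟨g x, ⟨x, hx, rfl⟩, (gcj_cj1 hM g u x).2 hc', ?_⟩
        have h4 := ih _ _ _ h3
        rw [dep_ov, dep_ov]
        exact h4
  have h1 := main n Empty Empty.elim Empty.elim (h _ _ n (hΔ'.image _) (hD'.image _))
  have e : (fun a : Empty => g (Empty.elim a)) = (Empty.elim : Empty → U) := funext fun a => a.elim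
  rw [e] at h1
  exact h1

end Pool.Agent.MTC
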