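import Pool.Agent.MTC.StA

/-!
# MTC: module GIN (invariance, recognition of tuples, extension of tuples)
-/

set_option autoImplicit false
set_option linter.unusedVariables false

namespace Pool.Agent.MTC

open FirstOrder.Language Set
open scoped FirstOrder
open Pool.Agent.WOM (tp Mon IsEl IsoM CtU Fx Orb Isd)
open Pool.Agent.PMC (Sm Md NPf)
open Pool.Agent.MNO (Dp FE Sq Nx SmN FE1 FinN)

namespace GIN

variable {L : FirstOrder.Language.{0, 0}} {U : Type} [L.Structure U]

theorem comp_app (g h : U ≃[L] U) (x : U) : g.comp h x = g (h x) := rfl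

theorem sum_img {α β : Type} (g : U ≃[L] U) (s : α → U) (t : β → U) :
    (Sum.elim (fun a => g (s a)) fun a => g (t a)) = fun x => g (Sum.elim s t x) := by
  funext x
  cases x <;> rfl

theorem ov_img {α : Type} (g : U ≃[L] U) (v : α → U) (x : U) :
    (fun a => g (ov v x a)) = ov (fun a => g (v a)) (g x) := by
  funext a
  cases a <;> rfl

theorem cj_img {G : (U ≃[L] U) → Prop} {C : Set U} (hG : Gr L G C) {g : U ≃[L] U} (hg : G g)
    {α : Type} (s t : α → U) : Cj L G s (fun i => g (t i)) ↔ Cj L G s t := by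
  constructor
  · rintro ⟨k, hk, h⟩
    refine ⟨g.symm.comp k, hG.mul _ _ hk (hG.inv _ hg), fun i => ?_⟩
    rw [comp_app, h i, g.symm_apply_apply]
  · rintro ⟨k, hk, h⟩
    refine ⟨g.comp k, hG.mul _ _ hk hg, fun i => ?_⟩
    rw [comp_app, h i]

theorem cj1_img {G : (U ≃[L] U) → Prop} {C : Set U} (hG : Gr L G C) {g : U ≃[L] U} (hg : G g)
    (u x : U) : Cj1 L G u (g x) ↔ Cj1 L G u x := by
  constructor
  · rintro ⟨k, hk, h⟩
    refine ⟨g.symm.comp k, hG.mul _ _ hk (hG.inv _ hg), ?_⟩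
    rw [comp_app, h, g.symm_apply_apply]
  · rintro ⟨k, hk, h⟩
    refine ⟨g.comp k, hG.mul _ _ hk hg, ?_⟩
    rw [comp_app, h]

theorem nx_img1 (hM : Mon L U) {C : Set U} {g : U ≃[L] U} (hg : Fx L C g) {α β : Type}
    (t : β → U) (s s' : α → U) (h : Cj L (Nx L (C ∪ range t)) s s') :
    Cj L (Nx L (C ∪ range fun a => g (t a))) (fun a => g (s a)) (fun a => g (s' a)) := by
  obtain ⟨k, hk, hs⟩ := h
  have h1 := MNO.nx_conj hM g hk
  have e : g '' (C ∪ range t) = C ∪ range fun a => g (t a) := by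
    rw [image_union]
    congr 1
    · ext x
      constructor
      · rintro ⟨y, hy, rfl⟩
        rw [hg y hy]
        exact hy
      · intro hx
        exact ⟨x, hx, hg x hx⟩
    · rw [← range_comp]
      rfl
  rw [e] at h1
  refine ⟨_, h1, fun i => ?_⟩
  rw [comp_app, comp_app, g.symm_apply_apply, hs i]

theorem nx_img (hM : Mon L U) {G : (U ≃[L] U) → Prop} {C : Set U} (hG : Gr L G C)
    {g : U ≃[L] U} (hg : G g) {α β : Type} (t : β → U) (s s' : α → U) :
    Cj L (Nx L (C ∪ range fun a => g (t a))) (fun a => g (s a)) (fun a => g (s' a)) ↔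
      Cj L (Nx L (C ∪ range t)) s s' := by
  constructor
  · intro h
    have h1 := nx_img1 hM (hG.fx _ (hG.inv _ hg)) _ _ _ h
    simpa only [g.symm_apply_apply] using h1
  · exact nx_img1 hM (hG.fx _ hg) t s s'

theorem at_img (hM : Mon L U) {G : (U ≃[L] U) → Prop} {C : Set U} (hG : Gr L G C)
    {Δ : Set (Atm U)} {α : Type} {v w : α → U} {g h : U ≃[L] U} (hg : G g) (hh : G h)
    (hA : At L G C Δ v w) : At L G C Δ (fun a => g (v a)) (fun a => h (w a)) := by
  intro δ hδ i j
  obtain ⟨h1, h2⟩ := hA δ hδ i j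
  have e1 : ∀ j : Fin δ.2.1 → α,
      Cj L G δ.2.2 (Sum.elim (fun a => g (v (i a))) fun a => g (v (j a))) ↔
      Cj L G δ.2.2 (Sum.elim (fun a => v (i a)) fun a => v (j a)) := by
    intro j
    rw [sum_img g (fun a => v (i a)) (fun a => v (j a))]
    exact cj_img hG hg _ _
  have e2 : ∀ j : Fin δ.2.1 → α,
      Cj L G δ.2.2 (Sum.elim (fun a => h (w (i a))) fun a => h (w (j a))) ↔
      Cj L G δ.2.2 (Sum.elim (fun a => w (i a)) fun a => w (j a)) := by
    intro j
    rw [sum_img h (fun a => w (i a)) (fun a => w (j a))]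
    exact cj_img hG hh _ _
  refine ⟨(e1 j).trans (h1.trans (e2 j).symm), fun j' p q => ?_⟩
  exact (nx_img hM hG hg (fun a => v (i a)) (fun a => v (j a)) (fun a => v (j' a))).trans
    ((h2 j' ((e1 j).1 p) ((e1 j').1 q)).trans
      (nx_img hM hG hh (fun a => w (i a)) (fun a => w (j a)) (fun a => w (j' a))).symm)

theorem eg_img (hM : Mon L U) {G : (U ≃[L] U) → Prop} {C : Set U} (hG : Gr L G C)
    (Δ : Set (Atm U)) (D : Set U) {g h : U ≃[L] U} (hg : G g) (hh : G h) (X Y : Set U) (n : ℕ) :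
    ∀ (α : Type) (v w : α → U), Eg L G C Δ D n α X v Y w →
      Eg L G C Δ D n α (g '' X) (fun a => g (v a)) (h '' Y) (fun a => h (w a)) := by
  induction n with
  | zero =>
    intro α v w hE
    exact at_img hM hG hg hh hE
  | succ n ih =>
    rintro α v w ⟨h0, h1, h2⟩
    refine ⟨at_img hM hG hg hh h0, ?_, ?_⟩
    · rintro u hu _ ⟨x, hx, rfl⟩ hc
      obtain ⟨y, hy, hcy, he⟩ := h1 u hu x hx ((cj1_img hG hg u x).1 hc)
      refine ⟨h y, ⟨y, hy, rfl⟩, (cj1_img hG hh u y).2 hcy, ?_⟩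
      have h3 := ih _ _ _ he
      rw [ov_img, ov_img] at h3
      exact h3
    · rintro u hu _ ⟨y, hy, rfl⟩ hc
      obtain ⟨x, hx, hcx, he⟩ := h2 u hu y hy ((cj1_img hG hh u y).1 hc)
      refine ⟨g x, ⟨x, hx, rfl⟩, (cj1_img hG hg u x).2 hcx, ?_⟩
      have h3 := ih _ _ _ he
      rw [ov_img, ov_img] at h3
      exact h3

theorem eg_ext (hGEQ : St_GEQ) {G : (U ≃[L] U) → Prop} {C : Set U} (hG : Gr L G C)
    (Δ : Set (Atm U)) (D : Set U) (n : ℕ) (X Y : Set U) (m : ℕ) :
    ∀ (α : Type) (v w : α → U) (b : Fin m → U), (∀ i, b i ∈ X) →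
      (∀ i, ∃ u ∈ D, Cj1 L G u (b i)) → Eg L G C Δ D (n + m) α X v Y w →
      ∃ c : Fin m → U, (∀ i, c i ∈ Y) ∧ (∀ i, Cj1 L G (b i) (c i)) ∧
        Eg L G C Δ D n (α ⊕ Fin m) X (Sum.elim v b) Y (Sum.elim w c) := by
  induction m with
  | zero =>
    intro α v w b hb hu hE
    refine ⟨Fin.elim0, fun i => i.elim0, fun i => i.elim0, ?_⟩
    have h1 := (hGEQ L U G C Δ D n α).2.2.2.2.1 (α ⊕ Fin 0) (Sum.elim id Fin.elim0) X Y v w hE
    have e1 : (fun x : α ⊕ Fin 0 => v (Sum.elim id Fin.elim0 x)) = Sum.elim v b := by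
      funext x
      rcases x with a | i
      · rfl
      · exact i.elim0
    have e2 : (fun x : α ⊕ Fin 0 => w (Sum.elim id Fin.elim0 x)) = Sum.elim w Fin.elim0 := by
      funext x
      rcases x with a | i
      · rfl
      · exact i.elim0
    rw [e1, e2] at h1
    exact h1
  | succ m ih =>
    intro α v w b hb hu hE
    obtain ⟨u, huD, huc⟩ := hu 0
    obtain ⟨y, hy, hcy, he⟩ := hE.2.1 u huD (b 0) (hb 0) huc
    obtain ⟨c, hc1, hc2, hc3⟩ := ih (Option α) (ov v (b 0)) (ov w y) (fun i => b i.succ)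
      (fun i => hb i.succ) (fun i => hu i.succ) he
    refine ⟨Fin.cons y c, ?_, ?_, ?_⟩
    · intro i
      refine Fin.cases ?_ (fun i => ?_) i
      · exact hy
      · exact hc1 i
    · intro i
      refine Fin.cases ?_ (fun i => ?_) i
      · obtain ⟨k, hk, hk1⟩ := huc
        obtain ⟨l, hl, hl1⟩ := hcy
        refine ⟨l.comp k.symm, hG.mul _ _ (hG.inv _ hk) hl, ?_⟩
        rw [comp_app, ← hk1, k.symm_apply_apply, hl1]
        rfl
      · exact hc2 i
    · have h1 := (hGEQ L U G C Δ D n (Option α ⊕ Fin m)).2.2.2.2.1 (α ⊕ Fin (m + 1))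
        (Sum.elim (fun a => Sum.inl (some a))
          (Fin.cons (Sum.inl none) fun i => Sum.inr i)) X Y _ _ hc3
      have e1 : (fun x : α ⊕ Fin (m + 1) => Sum.elim (ov v (b 0)) (fun i : Fin m => b i.succ)
          ((Sum.elim (fun a => Sum.inl (some a))
          (Fin.cons (Sum.inl none) fun i => Sum.inr i) : α ⊕ Fin (m + 1) → Option α ⊕ Fin m) x)) =
          Sum.elim v b := by
        funext x
        rcases x with a | i
        · rfl
        · refine Fin.cases ?_ (fun i => ?_) i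
          · rfl
          · rfl
      have e2 : (fun x : α ⊕ Fin (m + 1) => Sum.elim (ov w y) c
          ((Sum.elim (fun a => Sum.inl (some a))
          (Fin.cons (Sum.inl none) fun i => Sum.inr i) : α ⊕ Fin (m + 1) → Option α ⊕ Fin m) x)) =
          Sum.elim w (Fin.cons y c) := by
        funext x
        rcases x with a | i
        · rfl
        · refine Fin.cases ?_ (fun i => ?_) i
          · rfl
          · rfl
      rw [e1, e2] at h1
      exact h1

end GIN

theorem thm_GIN (hGEQ : St_GEQ) : St_GIN := by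
  intro L U _ hM G C hG Δ D n α
  refine ⟨?_, ?_, ?_⟩
  · intro X Y v w g h hg hh hE
    exact GIN.eg_img hM hG Δ D hg hh X Y n α v w hE
  · intro X Y v w m s i hδ hE hc
    have hA := (hGEQ L U G C Δ D n α).2.2.2.2.2 X Y v w hE
    have h1 := (hA _ hδ i Fin.elim0).1
    have e : ∀ t : Fin m → U, ∀ q : Fin 0 → U,
        Cj L G (Sum.elim s Fin.elim0) (Sum.elim t q) ↔ Cj L G s t := by
      intro t q
      constructor
      · rintro ⟨g, hg, h⟩
        exact ⟨g, hg, fun i => h (Sum.inl i)⟩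
      · rintro ⟨g, hg, h⟩
        refine ⟨g, hg, fun x => ?_⟩
        rcases x with a | i
        · exact h a
        · exact i.elim0
    exact (e _ _).1 (h1.1 ((e _ _).2 hc))
  · intro m X Y v w b hb hu hE
    exact GIN.eg_ext hGEQ hG Δ D n X Y m α v w b hb hu hE

end Pool.Agent.MTC
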