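import Pool.Agent.MTC.StA

/-!
# MTC: module GRP (helper45)
-/

set_option autoImplicit false
set_option linter.unusedVariables false

namespace Pool.Agent.MTC

open FirstOrder.Language Set
open scoped FirstOrder
open Pool.Agent.WOM (tp Mon IsEl IsoM CtU Fx Orb Isd)
open Pool.Agent.PMC (Sm Md NPf)
open Pool.Agent.MNO (Dp FE Sq Nx SmN FE1 FinN)

theorem thm_GRP : St_GRP := by
  intro L U _ hM A hA
  refine ⟨?_, ?_, ?_, ?_, ?_, ?_⟩
  · exact
      { fin := hA
        nx := fun g hg => hg
        fx := fun g hg => MNO.nx_fx hg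
        mul := fun g h hg hh => MNO.nx_comp hh hg
        inv := fun g hg => MNO.nx_symm hg }
  · exact
      { fin := hA
        nx := fun g hg => MNO.nx_fx hg
        fx := fun g hg => hg
        mul := fun g h hg hh => fun a ha => by
          show h (g a) = a
          rw [hg a ha, hh a ha]
        inv := fun g hg => fun a ha => by
          have h1 := hg a ha
          calc g.symm a = g.symm (g a) := by rw [h1]
            _ = a := g.symm_apply_apply a }
  · intro m u
    exact
      { fin := hA.union (finite_range u)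
        nx := fun g hg => ⟨MNO.nx_mono subset_union_left hg, fun i => hg.1 _ (Or.inr ⟨i, rfl⟩)⟩
        fx := fun g hg => by
          rintro a (ha | ⟨i, rfl⟩)
          · exact hg.1.1 a ha
          · exact hg.2 i
        mul := fun g h hg hh => ⟨MNO.nx_comp hh.1 hg.1, fun i => by
          show h (g (u i)) = u i
          rw [hg.2 i, hh.2 i]⟩
        inv := fun g hg => ⟨MNO.nx_symm hg.1, fun i => by
          calc g.symm (u i) = g.symm (g (u i)) := by rw [hg.2 i]
            _ = u i := g.symm_apply_apply _⟩ }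
  · rintro α s t g hg ⟨h, hh, hst⟩
    refine ⟨g.comp (h.comp g.symm), MNO.nx_conj_fx hM hg hh, fun i => ?_⟩
    show g (h (g.symm (g (s i)))) = g (t i)
    rw [g.symm_apply_apply, hst i]
  · intro m u b hb
    refine ⟨⟨fun a ha => ?_, fun n x => ?_⟩, fun i => ?_⟩
    · obtain ⟨g, ⟨hg, -⟩, h, hh, e⟩ := hb 1 (fun _ => a)
      have e1 := e 0
      simp only at e1
      rw [← e1, hg.1 a ha, hh.1 a (Or.inl ha)]
    · obtain ⟨g, ⟨hg, -⟩, h, hh, e⟩ := hb n x
      have e1 : (fun i => b (x i)) = fun i => h (g (x i)) := funext fun i => (e i).symm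
      rw [e1]
      exact MNO.sq_trans (hg.2 n x) ((MNO.nx_mono subset_union_left hh).2 n (fun i => g (x i)))
    · obtain ⟨g, ⟨-, hg⟩, h, hh, e⟩ := hb m u
      have e1 : h (g (u i)) = b (u i) := e i
      rw [← e1, hg i]
      exact hh.1 _ (Or.inr ⟨i, rfl⟩)
  · intro b hb a ha
    obtain ⟨g, hg, h, hh, e⟩ := hb 1 (fun _ => a)
    have e1 := e 0
    simp only at e1
    rw [← e1, hg a ha, hh.1 a ha]

end Pool.Agent.MTC
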