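import Pool.Agent.MTC.StA
import Pool.Agent.TPC.API

/-!
MTC, module HEN: isolated theories of tuples (helper18).
-/

set_option autoImplicit false
set_option linter.unusedVariables false

namespace Pool.Agent.MTC

open FirstOrder.Language Set
open scoped FirstOrder
open Pool.Agent.WOM (tp Mon IsEl IsoM CtU Fx Orb Isd)
open Pool.Agent.PMC (Sm Md NPf fx_refl fx_comp fx_mono comp_apply')
open Pool.Agent.MNO (Dp FE Sq Nx SmN FE1 FinN nx_mono nx_fx nx_symm nx_refl)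
open Pool.Agent.TPC (Bq Pq Sub Fcp Lin Fre Iv Kl Inr Lab Clu Rgd Ist Cpt)

/-- the enumeration of the sets `Orb B' v ∩ Pq B v` -/
private theorem HEN_enum {L : FirstOrder.Language.{0, 0}} {U : Type} [L.Structure U] (hM : Mon L U)
    (B : Set U) : ∃ O : ℕ → Set U, ∀ (B' : Set U) (v : U), B'.Finite → ∃ i, O i = Orb L B' v ∩ Pq L B v := by
  have := hM.ctb
  have := hM.inf
  obtain ⟨u⟩ : Nonempty U := inferInstance
  have : Nonempty (Finset U × U) := ⟨(∅, u)⟩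
  obtain ⟨e, he⟩ := exists_surjective_nat (Finset U × U)
  refine ⟨fun i => Orb L (↑(e i).1) (e i).2 ∩ Pq L B (e i).2, fun B' v hB' => ?_⟩
  obtain ⟨i, hi⟩ := he (hB'.toFinset, v)
  refine ⟨i, ?_⟩
  simp only [hi]
  rw [hB'.coe_toFinset]

/-- the sequence of the construction, as a choice of steps -/
private theorem HEN_seq {β : Type} (P : β → Prop) (Q : ℕ → β → β → Prop) (b : β) (hb : P b)
    (h : ∀ j x, P x → ∃ y, P y ∧ Q j x y) : ∃ f : ℕ → β, f 0 = b ∧ (∀ j, P (f j)) ∧ ∀ j, Q j (f j) (f (j + 1)) := by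
  choose g hg using fun (j : ℕ) (x : {x : β // P x}) => h j x.1 x.2
  let F : ℕ → {x : β // P x} := fun n => Nat.rec ⟨b, hb⟩ (fun j x => ⟨g j x, (hg j x).1⟩) n
  exact ⟨fun j => (F j).1, rfl, fun j => (F j).2, fun j => (hg j (F j)).2⟩

theorem thm_HEN (hGEQ : St_GEQ) (hGIN : St_GIN) (hGRP : St_GRP) (hSNE : St_SNE) (hPRT : St_PRT)
    (hHN0 : St_HN0) (hHN1 : St_HN1) : St_HEN := by
  intro L U _ hX A R N N' m s hA hsR hB hR hN hN' hE
  have hM := hX.mon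
  obtain ⟨⟨Δ, D, hEx⟩, h0⟩ := hHN0 L U hM
  obtain ⟨h01, h02, h03, h04, h05, h06, h07, h08⟩ := h0 A Δ D hA hEx
  have hsf : (range s).Finite := Set.finite_range s
  have hBf : (A ∪ range s).Finite := hA.union hsf
  have hEX : EqS L A (N ∩ R) (N ∩ R) := (h08 _ _).2 fun k => h01 k ∅ _
  have hZX : Zc L A R s (N ∩ R) (N ∩ R) := ⟨⟨N, hN, rfl⟩, hEX⟩
  have hZR : ∀ Z, Zc L A R s (N ∩ R) Z → Z ⊆ R := by
    rintro Z ⟨⟨N₁, h, rfl⟩, _⟩
    exact inter_subset_right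
  have hZs : ∀ Z, Zc L A R s (N ∩ R) Z → range s ⊆ Z := by
    rintro Z ⟨⟨N₁, h, rfl⟩, _⟩ x hx
    refine ⟨h.2 (Or.inr hx), ?_⟩
    obtain ⟨i, rfl⟩ := hx
    exact hsR i
  -- the claim
  have hClaim : ∃ Z, Zc L A R s (N ∩ R) Z ∧ ∃ k, ∀ Z', Zc L A R s (N ∩ R) Z' →
      Ek L A Δ D k (range s) Z Z' → ∀ k', Ek L A Δ D k' (range s) Z Z' := by
    by_contra hcon
    have hNI : ∀ Z, Zc L A R s (N ∩ R) Z → ∀ k, ∃ Z', Zc L A R s (N ∩ R) Z' ∧
        Ek L A Δ D k (range s) Z Z' ∧ ∃ k', ¬ Ek L A Δ D k' (range s) Z Z' := by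
      intro Z hZ k
      by_contra hc
      refine hcon ⟨Z, hZ, k, fun Z' hZ' hk k' => ?_⟩
      by_contra hk'
      exact hc ⟨Z', hZ', hk, k', hk'⟩
    obtain ⟨c, hc1, hc2⟩ := hX.cpt (A ∪ range s) R hBf hB
    obtain ⟨O, hO⟩ := HEN_enum (L := L) hM (A ∪ range s)
    have hS1 := hHN1 L U hM A R (N ∩ R) m s Δ D hA hEx hsR hR hNI
    obtain ⟨f, hf0, hfP, hfQ⟩ := HEN_seq (β := Set U × Set U × ℕ)
      (fun p => Zc L A R s (N ∩ R) p.1 ∧ p.2.1.Finite ∧ range s ⊆ p.2.1 ∧ p.2.1 ⊆ p.1)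
      (fun j p q => p.2.1 ⊆ q.2.1 ∧ p.2.2 < q.2.2 ∧
        Ek L A Δ D (p.2.2 + 1) p.2.1 p.1 q.1 ∧ ¬ Ek L A Δ D q.2.2 (range s) q.1 (c j ∩ R) ∧
        (∀ y ∈ p.1, ∀ u ∈ D (p.2.2 + 1), Cj1 L (Nx L A) u y → ∃ x ∈ q.2.1, Cj1 L (Nx L A) u x ∧
        Eg L (Nx L A) A (Δ (p.2.2 + 1)) (D (p.2.2 + 1)) p.2.2 (Option ↥p.2.1) p.1
          (ov (fun x : ↥p.2.1 => x.1) y) q.1 (ov (fun x : ↥p.2.1 => x.1) x)) ∧
        ∀ i ≤ j, (∃ C' : Set U, C'.Finite ∧ C'.Definable₁ L (O i)) → (O i).Nonempty → O i ⊆ R →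
        (∀ g : U ≃[L] U, Nx L (A ∪ p.2.1) g → ∀ x ∈ O i, g x ∈ O i) → (O i ∩ q.2.1).Nonempty)
      (N ∩ R, range s, 0) ⟨hZX, hsf, Subset.rfl, hZs _ hZX⟩ (by
        rintro j ⟨Z, S, k⟩ ⟨hZ, hS, hsS, hSZ⟩
        obtain ⟨Z', S', k', h1, h2, h3, h4, h5, h6, h7, h8, h9⟩ :=
          hS1 Z S (c j ∩ R) O j k hZ hS hsS hSZ
        exact ⟨(Z', S', k'), ⟨h1, h2, hsS.trans h3, h4⟩, h3, h5, h6, h7, h8, h9⟩)
    obtain ⟨Z, hZd⟩ : ∃ Z : ℕ → Set U, Z = fun j => (f j).1 := ⟨_, rfl⟩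
    obtain ⟨S, hSd⟩ : ∃ S : ℕ → Set U, S = fun j => (f j).2.1 := ⟨_, rfl⟩
    obtain ⟨k, hkd⟩ : ∃ k : ℕ → ℕ, k = fun j => (f j).2.2 := ⟨_, rfl⟩
    have hP1 : ∀ j, Zc L A R s (N ∩ R) (Z j) := fun j => by rw [hZd]; exact (hfP j).1
    have hP3 : ∀ j, range s ⊆ S j := fun j => by rw [hSd]; exact (hfP j).2.2.1
    have hP4 : ∀ j, S j ⊆ Z j := fun j => by rw [hSd, hZd]; exact (hfP j).2.2.2
    have hQ1 : ∀ j, S j ⊆ S (j + 1) := fun j => by rw [hSd]; exact (hfQ j).1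
    have hQ2 : ∀ j, k j < k (j + 1) := fun j => by rw [hkd]; exact (hfQ j).2.1
    have hQ3 : ∀ j, Ek L A Δ D (k j + 1) (S j) (Z j) (Z (j + 1)) := fun j => by
      rw [hkd, hSd, hZd]; exact (hfQ j).2.2.1
    have hQ4 : ∀ j, ¬ Ek L A Δ D (k (j + 1)) (range s) (Z (j + 1)) (c j ∩ R) := fun j => by
      rw [hkd, hZd]; exact (hfQ j).2.2.2.1
    have hQ5 : ∀ j, ∀ y ∈ Z j, ∀ u ∈ D (k j + 1), Cj1 L (Nx L A) u y → ∃ x ∈ S (j + 1),
        Cj1 L (Nx L A) u x ∧ Eg L (Nx L A) A (Δ (k j + 1)) (D (k j + 1)) (k j) (Option ↥(S j)) (Z j)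
          (ov (fun x : ↥(S j) => x.1) y) (Z (j + 1)) (ov (fun x : ↥(S j) => x.1) x) := fun j => by
      subst hkd hSd hZd; exact (hfQ j).2.2.2.2.1
    have hQ6 : ∀ j, ∀ i ≤ j, (∃ C' : Set U, C'.Finite ∧ C'.Definable₁ L (O i)) → (O i).Nonempty →
        O i ⊆ R → (∀ g : U ≃[L] U, Nx L (A ∪ S j) g → ∀ x ∈ O i, g x ∈ O i) →
        (O i ∩ S (j + 1)).Nonempty := fun j => by
      rw [hSd]; exact (hfQ j).2.2.2.2.2
    clear hZd hSd hkd hfP hfQ hf0 hS1 hNI hcon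
    have hSm : ∀ i j, i ≤ j → S i ⊆ S j := fun i j hij => by
      induction hij with
      | refl => exact Subset.rfl
      | step _ ih => exact ih.trans (hQ1 _)
    have hkm : ∀ i j, i ≤ j → k i ≤ k j := fun i j hij => by
      induction hij with
      | refl => exact le_rfl
      | step _ ih => exact ih.trans (hQ2 _).le
    have hkj : ∀ j, j ≤ k j := fun j => by
      induction j with
      | zero => exact Nat.zero_le _
      | succ j ih => exact Nat.succ_le_of_lt (ih.trans_lt (hQ2 j))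
    have hEk : ∀ i j, i ≤ j → Ek L A Δ D (k i + 1) (S i) (Z i) (Z j) := fun i j hij => by
      induction hij with
      | refl => exact h01 _ _ _
      | @step l hl ih =>
        exact h03 _ _ _ _ _ ih (h04 _ _ _ _ _ _ (Nat.succ_le_succ (hkm i l hl)) (hSm i l hl) (hQ3 l))
    obtain ⟨W, hW⟩ : ∃ W : Set U, W = ⋃ j, S j := ⟨_, rfl⟩
    have hSW : ∀ j, S j ⊆ W := fun j => by rw [hW]; exact subset_iUnion S j
    have hWR : W ⊆ R := by
      rw [hW]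
      exact iUnion_subset fun j => (hP4 j).trans (hZR _ (hP1 j))
    -- (i)
    have hPm : Md L (A ∪ range s) (W ∪ Rᶜ) := by
      refine hPRT L U hM hX.npf (A ∪ range s) R W hBf hB hWR fun B' a v hB' hv ha haW hd hg => ?_
      obtain ⟨l, hl⟩ : ∃ l, a ⊆ S l := by
        have h1 : ∀ x ∈ a, ∃ l, x ∈ S l := fun x hx => by
          have := haW hx
          rw [hW] at this
          exact mem_iUnion.1 this
        choose! φ hφ using h1
        obtain ⟨l, hl⟩ := (ha.image φ).bddAbove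
        exact ⟨l, fun x hx => hSm _ _ (hl ⟨x, hx, rfl⟩) (hφ x hx)⟩
      obtain ⟨i, hi⟩ := hO B' v hB'
      have hAL := TPC.q_ALQ L U hM (A ∪ range s) hBf
      have h2 : (O i).Nonempty := by
        rw [hi]
        exact ⟨v, ⟨FirstOrder.Language.Equiv.refl L U, fx_refl _, rfl⟩, (hAL.2.2.2.2.1 v).2⟩
      have h3 : O i ⊆ R := by
        rw [hi]
        exact inter_subset_right.trans (hAL.2.2.2.2.2.1 v R hB hv)
      obtain ⟨x, hx1, hx2⟩ := hQ6 (max i l) i (le_max_left _ _) (by rw [hi]; exact hd) h2 h3 (by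
        intro g hgN x hx
        rw [hi] at hx ⊢
        refine hg g (nx_mono ?_ hgN) x hx
        rintro y ((hy | hy) | hy)
        · exact Or.inl hy
        · exact Or.inr (hP3 _ hy)
        · exact Or.inr (hSm _ _ (le_max_right i l) (hl hy)))
      rw [hi] at hx1
      exact ⟨x, hx1, hSW _ hx2⟩
    have hWeq : (W ∪ Rᶜ) ∩ R = W := by
      ext x
      constructor
      · rintro ⟨h | h, hx⟩
        · exact h
        · exact absurd hx h
      · exact fun h => ⟨Or.inl h, hWR h⟩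
    -- (ii)
    have hMain : ∀ n j, n ≤ k j + 1 → Eg L (Nx L A) A (Δ (k j + 1)) (D (k j + 1)) n (↥(S j)) (Z j)
        (fun x => x.1) W (fun x => x.1) := by
      intro n
      induction n with
      | zero =>
        intro j _
        exact (hGEQ L U (Nx L A) A (Δ (k j + 1)) (D (k j + 1)) 0 (↥(S j))).2.2.2.2.2 W W _ _
          ((hGEQ L U (Nx L A) A (Δ (k j + 1)) (D (k j + 1)) 0 (↥(S j))).1 W _)
      | succ n ih =>
        intro j hn
        have hred : ∀ l, j < l → ∀ x (hx : x ∈ S l), Eg L (Nx L A) A (Δ (k j + 1)) (D (k j + 1)) n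
            (Option ↥(S j)) (Z l) (ov (fun x : ↥(S j) => x.1) x) W (ov (fun x : ↥(S j) => x.1) x) := by
          intro l hl x hx
          have h1 := ih l (by have := hkm j l hl.le; omega)
          have h2 := (hGEQ L U (Nx L A) A (Δ (k j + 1)) (D (k j + 1)) n (↥(S l))).2.2.2.1
            (Δ (k l + 1)) (D (k l + 1)) n (hEx.mono _ _ (Nat.succ_le_succ (hkm j l hl.le))).1
            (hEx.mono _ _ (Nat.succ_le_succ (hkm j l hl.le))).2 le_rfl (Z l) W _ _ h1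
          have h3 := (hGEQ L U (Nx L A) A (Δ (k j + 1)) (D (k j + 1)) n (↥(S l))).2.2.2.2.1
            (Option ↥(S j)) (fun o => o.elim ⟨x, hx⟩ fun y => ⟨y.1, hSm j l hl.le y.2⟩) _ _ _ _ h2
          have h4 : (fun b : Option ↥(S j) => ((b.elim (⟨x, hx⟩ : ↥(S l))
              fun y => ⟨y.1, hSm j l hl.le y.2⟩ : ↥(S l))).1) = ov (fun x : ↥(S j) => x.1) x := by
            funext b
            cases b <;> rfl
          rw [h4] at h3
          exact h3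
        refine ⟨(hGEQ L U (Nx L A) A (Δ (k j + 1)) (D (k j + 1)) 0 (↥(S j))).2.2.2.2.2 W W _ _
          ((hGEQ L U (Nx L A) A (Δ (k j + 1)) (D (k j + 1)) 0 (↥(S j))).1 W _), ?_, ?_⟩
        · intro u hu y hy huy
          obtain ⟨x, hx, hux, hg⟩ := hQ5 j y hy u hu huy
          refine ⟨x, hSW _ hx, hux, ?_⟩
          have h1 := hred (j + 1) (Nat.lt_succ_self j) x hx
          have h2 := (hGEQ L U (Nx L A) A (Δ (k j + 1)) (D (k j + 1)) n (Option ↥(S j))).2.2.2.1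
            (Δ (k j + 1)) (D (k j + 1)) (k j) Subset.rfl Subset.rfl (by omega) (Z j) (Z (j + 1)) _ _ hg
          exact (hGEQ L U (Nx L A) A (Δ (k j + 1)) (D (k j + 1)) n (Option ↥(S j))).2.2.1 _ _ _ _ _ _ h2 h1
        · intro u hu x hx hux
          obtain ⟨l₀, hl₀⟩ : ∃ l, x ∈ S l := by
            rw [hW] at hx
            exact mem_iUnion.1 hx
          have hxl : x ∈ S (max l₀ (j + 1)) := hSm _ _ (le_max_left _ _) hl₀
          have hjl : j < max l₀ (j + 1) := lt_of_lt_of_le (Nat.lt_succ_self j) (le_max_right _ _)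
          generalize max l₀ (j + 1) = l at hxl hjl
          have h1 := hEk j l hjl.le
          unfold Ek at h1
          obtain ⟨_, _, h2⟩ := h1
          obtain ⟨y, hy, huy, hg⟩ := h2 u hu x (hP4 l hxl) hux
          refine ⟨y, hy, huy, ?_⟩
          have h3 := hred l hjl x hxl
          have h4 := (hGEQ L U (Nx L A) A (Δ (k j + 1)) (D (k j + 1)) n (Option ↥(S j))).2.2.2.1
            (Δ (k j + 1)) (D (k j + 1)) (k j) Subset.rfl Subset.rfl (by omega) (Z j) (Z l) _ _ hg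
          exact (hGEQ L U (Nx L A) A (Δ (k j + 1)) (D (k j + 1)) n (Option ↥(S j))).2.2.1 _ _ _ _ _ _ h4 h3
    -- (iii)
    have hZW : ∀ j, Ek L A Δ D (k j) (S j) (Z j) W := fun j => by
      have h1 : Ek L A Δ D (k j + 1) (S j) (Z j) W := hMain (k j + 1) j le_rfl
      exact h04 _ _ _ _ _ _ (Nat.le_succ _) Subset.rfl h1
    have hN1 : ∀ j, ¬ Ek L A Δ D (k (j + 1)) (range s) W (c j ∩ R) := fun j hj =>
      hQ4 j (h03 _ _ _ _ _ (h04 _ _ _ _ _ _ le_rfl (hP3 (j + 1)) (hZW (j + 1))) hj)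
    -- (iv)
    obtain ⟨n, hn⟩ := hc2 (W ∪ Rᶜ) hPm
    rw [hWeq] at hn
    exact hN1 n ((h07 m s W (c n ∩ R)).1 ((hSNE L U hM A hA).1 m s W (c n ∩ R) hn).1 (k (n + 1)))
  -- the theorem
  obtain ⟨Z, hZ, k, hk⟩ := hClaim
  obtain ⟨K, hkK, hK⟩ := h06 k ∅ (range s) Set.finite_empty hsf
  have hmain : ∀ N₁, Md L (A ∪ range s) N₁ → EqS L A (N ∩ R) (N₁ ∩ R) →
      ∃ t : Fin m → U, (∀ i, t i ∈ N₁ ∩ R) ∧ Cj L (Nx L A) s t ∧
        EqT L (Nx L A) A (N₁ ∩ R) t Z s := by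
    intro N₁ hN₁ hE₁
    have h1 : ∀ l, Ek L A Δ D l ∅ Z (N₁ ∩ R) := fun l =>
      h03 _ _ _ _ _ (h02 _ _ _ _ ((h08 _ _).1 hZ.2 l)) ((h08 _ _).1 hE₁ l)
    obtain ⟨g, hg, _, hgT, hgE⟩ := hK Z (N₁ ∩ R) (hZs Z hZ) (h1 K)
    have hti : ∀ i, g.symm (s i) ∈ N₁ ∩ R := fun i => by
      obtain ⟨x, hx, hxe⟩ := hgT ⟨i, rfl⟩
      rw [← hxe, g.symm_apply_apply]
      exact hx
    have hgR' : g.symm '' R = R := hR g.symm (nx_symm hg) fun i => (hti i).2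
    have hgR : g '' R = R := by
      conv_lhs => rw [← hgR']
      rw [← image_comp]
      have : (g ∘ g.symm : U → U) = id := funext fun x => g.apply_symm_apply x
      rw [this, image_id]
    have himg : g '' (N₁ ∩ R) = (g '' N₁) ∩ R := by
      rw [image_inter (EquivLike.injective g), hgR]
    have hMd : Md L (A ∪ range s) (g '' N₁) := by
      have h2 := TPC.FCP_md hM ⟨hN₁.1, subset_union_left.trans hN₁.2⟩ (nx_fx hg)
      refine ⟨h2.1, ?_⟩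
      rintro x (hx | ⟨i, rfl⟩)
      · exact h2.2 hx
      · exact ⟨g.symm (s i), (hti i).1, g.apply_symm_apply _⟩
    have hZc : Zc L A R s (N ∩ R) (g '' (N₁ ∩ R)) := by
      refine ⟨⟨g '' N₁, hMd, himg⟩, (h08 _ _).2 fun l => ?_⟩
      exact h03 _ _ _ _ _ ((h08 _ _).1 hE₁ l) (h05 l ∅ _ g hg fun y hy => hy.elim)
    rw [empty_union] at hgE
    have h2 := hk _ hZc hgE
    have h3 : EqT L (Nx L A) A Z s (g '' (N₁ ∩ R)) s := (h07 m s _ _).2 h2
    refine ⟨fun i => g.symm (s i), hti, ⟨g.symm, nx_symm hg, fun i => rfl⟩, ?_⟩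
    intro Δ' D' n hΔ' hD'
    have h4 := (hGIN L U hM (Nx L A) A (hGRP L U hM A hA).1 Δ' D' n (Fin m)).1 (N₁ ∩ R) (N₁ ∩ R)
      (fun i => g.symm (s i)) (fun i => g.symm (s i)) (FirstOrder.Language.Equiv.refl L U) g
      (nx_refl A) hg ((hGEQ L U (Nx L A) A Δ' D' n (Fin m)).1 _ _)
    have h5 : (fun a => g (g.symm (s a))) = s := funext fun a => g.apply_symm_apply _
    have h6 : (FirstOrder.Language.Equiv.refl L U) '' (N₁ ∩ R) = N₁ ∩ R := image_id _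
    rw [h5, h6] at h4
    exact (hGEQ L U (Nx L A) A Δ' D' n (Fin m)).2.2.1 _ _ _ _ _ _ h4
      ((hGEQ L U (Nx L A) A Δ' D' n (Fin m)).2.1 _ _ _ _ (h3 Δ' D' n hΔ' hD'))
  obtain ⟨t, ht1, ht2, ht3⟩ := hmain N hN hEX
  obtain ⟨t', ht1', ht2', ht3'⟩ := hmain N' hN' hE
  refine ⟨t, t', ht1, ht1', ht2, ht2', fun Δ' D' n hΔ' hD' => ?_⟩
  exact (hGEQ L U (Nx L A) A Δ' D' n (Fin m)).2.2.1 _ _ _ _ _ _ (ht3 Δ' D' n hΔ' hD')
    ((hGEQ L U (Nx L A) A Δ' D' n (Fin m)).2.1 _ _ _ _ (ht3' Δ' D' n hΔ' hD'))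

end Pool.Agent.MTC
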