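import Pool.Agent.MTC.StL

/-!
# MTC, module HIN: the theory in `L_1(T)` determines the games for the group of all automorphisms
-/

set_option autoImplicit false

namespace Pool.Agent.MTC

open FirstOrder.Language Set
open scoped FirstOrder
open Pool.Agent.WOM (tp Mon Fx)
open Pool.Agent.MNO (Nx FinN)

namespace HINx

variable {L : FirstOrder.Language.{0, 0}} {U : Type} [L.Structure U]

/-- conjugate tuples are tuples of the same type -/
theorem cj_iff (hM : Mon L U) {n : ℕ} (s t : Fin n → U) :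
    Cj L (Fx L (∅ : Set U)) s t ↔ tp (L := L) s = tp t := by
  constructor
  · rintro ⟨g, -, hg⟩
    have h1 : t = g ∘ s := by
      funext i
      exact (hg i).symm
    ext φ
    rw [h1]
    exact (StrongHomClass.realize_formula g φ).symm
  · intro h
    obtain ⟨g, hg⟩ := hM.hom n s t h
    exact ⟨g, fun a ha => ha.elim, hg⟩

/-- an inclusion of types of tuples is an equality -/
theorem tp_le {n : ℕ} {s t : Fin n → U} (h : tp (L := L) s ⊆ tp t) : tp (L := L) s = tp t := by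
  refine Subset.antisymm h (fun φ hφ => ?_)
  by_contra hcon
  have h1 : Formula.not φ ∈ tp (L := L) s := by
    change Formula.Realize (Formula.not φ) s
    rw [Formula.realize_not]
    exact hcon
  have h2 : Formula.Realize (Formula.not φ) t := h h1
  rw [Formula.realize_not] at h2
  exact h2 hφ

/-- types of tuples of `U` are complete types of `T` -/
theorem of_tp (hM : Mon L U) (T : L.Theory) (hT : U ⊨ T) {k : ℕ} (s : Fin k → U) :
    ∃ (S : L.Structure ℕ) (v : Fin k → ℕ), @Theory.Model L ℕ S T ∧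
      tp (L := L) s = {φ | @Formula.Realize L ℕ S (Fin k) φ v} := by
  have := hM.inf
  have := hM.ctb
  obtain ⟨e⟩ : Nonempty (U ≃ ℕ) := inferInstance
  let S : L.Structure ℕ := e.inducedStructure
  let g : U ≃[L] ℕ := e.inducedStructureEquiv
  refine ⟨S, g ∘ s, StrongHomClass.theory_model g, ?_⟩
  ext φ
  exact (StrongHomClass.realize_formula g φ).symm

/-- satisfaction of a complete type -/
theorem sat_typ (hM : Mon L U) (S : L.Structure ℕ) (f : ℕ → U) (hf : ElN L S f) {n k : ℕ}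
    (i : Fin k → Fin n) (s : Fin k → U) (v : Fin n → ℕ) :
    @L1F.Sat L ℕ S n (.typ i (tp (L := L) s)) v ↔
      Cj L (Fx L (∅ : Set U)) s (fun a => f (v (i a))) := by
  rw [cj_iff hM]
  have h1 : @tp L ℕ S k (fun a => v (i a)) = tp (L := L) (f ∘ fun a => v (i a)) := hf k _
  have h2 : (@L1F.Sat L ℕ S n (.typ i (tp (L := L) s)) v) ↔
      tp (L := L) s ⊆ @tp L ℕ S k (fun a => v (i a)) := Iff.rfl
  rw [h2, h1]
  constructor
  · intro h
    exact tp_le h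
  · intro h
    exact h.le

/-- satisfaction of a first order formula -/
theorem sat_fo (S : L.Structure ℕ) (f : ℕ → U) (hf : ElN L S f) {n : ℕ} (φ : L.Formula (Fin n))
    (v : Fin n → ℕ) : @L1F.Sat L ℕ S n (.fo φ) v ↔ φ.Realize (fun a => f (v a)) := by
  have h1 : @tp L ℕ S n v = tp (L := L) (f ∘ v) := hf n v
  have h2 : φ ∈ @tp L ℕ S n v ↔ φ ∈ tp (L := L) (f ∘ v) := by rw [h1]
  exact h2

/-- all sign patterns -/
def pats {n : ℕ} : List (L1F L n) → List (L1F L n)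
  | [] => [.fo ⊤]
  | φ :: Λ => (pats Λ).map (fun ψ => .conj φ ψ) ++ (pats Λ).map (fun ψ => .conj (.neg φ) ψ)

theorem pats_of (T : L.Theory) {n : ℕ} (Λ : List (L1F L n)) (h : ∀ φ ∈ Λ, L1F.Of T φ) :
    ∀ ψ ∈ pats Λ, L1F.Of T ψ := by
  induction Λ with
  | nil =>
    intro ψ hψ
    rw [pats, List.mem_singleton] at hψ
    subst hψ
    exact trivial
  | cons φ Λ ih =>
    intro ψ hψ
    rw [pats, List.mem_append, List.mem_map, List.mem_map] at hψ
    have h1 : L1F.Of T φ := h φ List.mem_cons_self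
    have h2 := ih fun φ' hφ' => h φ' (List.mem_cons_of_mem _ hφ')
    rcases hψ with ⟨ψ', hψ', rfl⟩ | ⟨ψ', hψ', rfl⟩
    · exact ⟨h1, h2 ψ' hψ'⟩
    · exact ⟨h1, h2 ψ' hψ'⟩

theorem pats_ex (S : L.Structure ℕ) {n : ℕ} (Λ : List (L1F L n)) (v : Fin n → ℕ) :
    ∃ ψ ∈ pats Λ, @L1F.Sat L ℕ S n ψ v := by
  induction Λ with
  | nil =>
    refine ⟨.fo ⊤, ?_, ?_⟩
    · rw [pats, List.mem_singleton]
    · change @Formula.Realize L ℕ S (Fin n) ⊤ v
      exact @Formula.realize_top L ℕ S (Fin n) v |>.2 trivial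
  | cons φ Λ ih =>
    obtain ⟨ψ, hψ, hs⟩ := ih
    by_cases h : @L1F.Sat L ℕ S n φ v
    · refine ⟨.conj φ ψ, ?_, h, hs⟩
      rw [pats, List.mem_append]
      exact Or.inl (List.mem_map_of_mem hψ)
    · refine ⟨.conj (.neg φ) ψ, ?_, h, hs⟩
      rw [pats, List.mem_append]
      exact Or.inr (List.mem_map_of_mem hψ)

theorem pats_agree (S S' : L.Structure ℕ) {n : ℕ} (Λ : List (L1F L n)) (v v' : Fin n → ℕ) :
    ∀ ψ ∈ pats Λ, @L1F.Sat L ℕ S n ψ v → @L1F.Sat L ℕ S' n ψ v' →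
      ∀ φ ∈ Λ, (@L1F.Sat L ℕ S n φ v ↔ @L1F.Sat L ℕ S' n φ v') := by
  induction Λ with
  | nil =>
    intro ψ _ _ _ φ hφ
    exact (List.not_mem_nil hφ).elim
  | cons φ Λ ih =>
    intro ψ hψ h1 h2 φ' hφ'
    rw [pats, List.mem_append, List.mem_map, List.mem_map] at hψ
    rcases hψ with ⟨ψ', hψ', rfl⟩ | ⟨ψ', hψ', rfl⟩
    · rcases List.mem_cons.1 hφ' with rfl | hφ'
      · exact iff_of_true h1.1 h2.1
      · exact ih ψ' hψ' h1.2 h2.2 φ' hφ'
    · rcases List.mem_cons.1 hφ' with rfl | hφ'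
      · exact iff_of_false h1.1 h2.1
      · exact ih ψ' hψ' h1.2 h2.2 φ' hφ'

/-- finitely many atoms -/
theorem atoms (hEQF : St_EQF) (hM : Mon L U) (hF : FinN L U) (T : L.Theory) (hT : U ⊨ T)
    (Δ : Set (Atm U)) (hΔ : Δ.Finite) (k : ℕ) : ∃ Λ : List (L1F L k), (∀ φ ∈ Λ, L1F.Of T φ) ∧
    ∀ (S S' : L.Structure ℕ) (f f' : ℕ → U), ElN L S f → ElN L S' f' → ∀ v v' : Fin k → ℕ,
      (∀ φ ∈ Λ, (@L1F.Sat L ℕ S k φ v ↔ @L1F.Sat L ℕ S' k φ v')) →
      At L (Fx L (∅ : Set U)) ∅ Δ (fun a => f (v a)) (fun a => f' (v' a)) := by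
  classical
  have hE := hEQF L U hM hF
  choose ψ hψ using hE
  -- the two kinds of atoms
  let A1 : Atm U → List (L1F L k) := fun δ =>
    (Finset.univ : Finset ((Fin δ.1 → Fin k) × (Fin δ.2.1 → Fin k))).toList.map
      (fun q => L1F.typ (Sum.elim q.1 q.2 ∘ finSumFinEquiv.symm)
        (tp (L := L) (δ.2.2 ∘ finSumFinEquiv.symm)))
  let A2 : Atm U → List (L1F L k) := fun δ =>
    (Finset.univ : Finset ((Fin δ.1 → Fin k) × (Fin δ.2.1 → Fin k) ×
      (Fin δ.2.1 → Fin k))).toList.map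
      (fun q => L1F.fo ((ψ δ.1 δ.2.1 δ.2.2).relabel (Sum.elim (Sum.elim q.1 q.2.1) q.2.2)))
  let Λ : List (L1F L k) := hΔ.toFinset.toList.flatMap (fun δ => A1 δ ++ A2 δ)
  have hmem : ∀ φ, φ ∈ Λ ↔ ∃ δ ∈ Δ, φ ∈ A1 δ ∨ φ ∈ A2 δ := by
    intro φ
    simp only [Λ, List.mem_flatMap, Finset.mem_toList, Set.Finite.mem_toFinset, List.mem_append]
  refine ⟨Λ, ?_, ?_⟩
  · intro φ hφ
    obtain ⟨δ, -, h | h⟩ := (hmem φ).1 hφ
    · obtain ⟨q, -, rfl⟩ := List.mem_map.1 h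
      exact of_tp hM T hT _
    · obtain ⟨q, -, rfl⟩ := List.mem_map.1 h
      exact trivial
  · intro S S' f f' hf hf' v v' hag
    -- the first kind
    have hk : ∀ (S : L.Structure ℕ) (f : ℕ → U), ElN L S f → ∀ (v : Fin k → ℕ) (δ : Atm U)
        (i : Fin δ.1 → Fin k) (j : Fin δ.2.1 → Fin k),
        (@L1F.Sat L ℕ S k (L1F.typ (Sum.elim i j ∘ finSumFinEquiv.symm)
          (tp (L := L) (δ.2.2 ∘ finSumFinEquiv.symm))) v ↔
        Cj L (Fx L (∅ : Set U)) δ.2.2 (Sum.elim (fun a => f (v (i a))) fun a => f (v (j a)))) := by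
      intro S f hf v δ i j
      rw [sat_typ hM S f hf]
      constructor
      · rintro ⟨g, hg, hgi⟩
        refine ⟨g, hg, ?_⟩
        intro a
        have h1 := hgi (finSumFinEquiv a)
        simp only [Function.comp, Equiv.symm_apply_apply] at h1
        rw [h1]
        rcases a with a | a <;> rfl
      · rintro ⟨g, hg, hgi⟩
        refine ⟨g, hg, ?_⟩
        intro a
        have h1 := hgi (finSumFinEquiv.symm a)
        simp only [Function.comp]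
        rw [h1]
        rcases finSumFinEquiv.symm a with b | b <;> rfl
    have h1 : ∀ δ ∈ Δ, ∀ (i : Fin δ.1 → Fin k) (j : Fin δ.2.1 → Fin k),
        (Cj L (Fx L (∅ : Set U)) δ.2.2 (Sum.elim (fun a => f (v (i a))) fun a => f (v (j a))) ↔
        Cj L (Fx L (∅ : Set U)) δ.2.2
          (Sum.elim (fun a => f' (v' (i a))) fun a => f' (v' (j a)))) := by
      intro δ hδ i j
      rw [← hk S f hf, ← hk S' f' hf']
      refine hag _ ((hmem _).2 ⟨δ, hδ, Or.inl ?_⟩)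
      exact List.mem_map.2 ⟨(i, j), Finset.mem_toList.2 (Finset.mem_univ _), rfl⟩
    -- the second kind
    have hr : ∀ (S : L.Structure ℕ) (f : ℕ → U), ElN L S f → ∀ (v : Fin k → ℕ) (δ : Atm U)
        (i : Fin δ.1 → Fin k) (j j' : Fin δ.2.1 → Fin k),
        (@L1F.Sat L ℕ S k (L1F.fo ((ψ δ.1 δ.2.1 δ.2.2).relabel (Sum.elim (Sum.elim i j) j'))) v ↔
        (ψ δ.1 δ.2.1 δ.2.2).Realize (Sum.elim (Sum.elim (fun a => f (v (i a)))
          (fun a => f (v (j a)))) fun a => f (v (j' a)))) := by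
      intro S f hf v δ i j j'
      rw [sat_fo S f hf, Formula.realize_relabel]
      have e : ((fun a => f (v a)) ∘ Sum.elim (Sum.elim i j) j') =
          Sum.elim (Sum.elim (fun a => f (v (i a))) (fun a => f (v (j a))))
            (fun a => f (v (j' a))) := by
        funext a
        rcases a with (a | a) | a <;> rfl
      rw [e]
    intro δ hδ i j
    refine ⟨h1 δ hδ i j, fun j' hj hj' => ?_⟩
    rw [← hψ δ.1 δ.2.1 δ.2.2 _ _ _ hj hj', ← hψ δ.1 δ.2.1 δ.2.2 _ _ _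
      ((h1 δ hδ i j).1 hj) ((h1 δ hδ i j').1 hj'), ← hr S f hf, ← hr S' f' hf']
    refine hag _ ((hmem _).2 ⟨δ, hδ, Or.inr ?_⟩)
    exact List.mem_map.2 ⟨(i, j, j'), Finset.mem_toList.2 (Finset.mem_univ _), rfl⟩

/-- one move -/
theorem move (hM : Mon L U) {k : ℕ} (Λ : List (L1F L (k + 1))) (D : Set U) (S S' : L.Structure ℕ)
    (f f' : ℕ → U) (hf : ElN L S f) (hf' : ElN L S' f') (v v' : Fin k → ℕ)
    (hag : ∀ u ∈ D, ∀ ψ ∈ pats Λ,
      (@L1F.Sat L ℕ S k (.ex (.conj (.typ (fun _ : Fin 1 => Fin.last k)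
        (tp (L := L) (fun _ : Fin 1 => u))) ψ)) v →
      @L1F.Sat L ℕ S' k (.ex (.conj (.typ (fun _ : Fin 1 => Fin.last k)
        (tp (L := L) (fun _ : Fin 1 => u))) ψ)) v')) (u : U) (hu : u ∈ D) (c : ℕ)
    (hc : Cj1 L (Fx L (∅ : Set U)) u (f c)) : ∃ c' : ℕ, Cj1 L (Fx L (∅ : Set U)) u (f' c') ∧
      ∀ φ ∈ Λ, (@L1F.Sat L ℕ S (k + 1) φ (Fin.snoc v c : Fin (k + 1) → ℕ) ↔
        @L1F.Sat L ℕ S' (k + 1) φ (Fin.snoc v' c' : Fin (k + 1) → ℕ)) := by
  obtain ⟨ψ, hψ, hs⟩ := pats_ex S Λ (Fin.snoc v c : Fin (k + 1) → ℕ)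
  have h1 : @L1F.Sat L ℕ S (k + 1) (.typ (fun _ : Fin 1 => Fin.last k)
      (tp (L := L) (fun _ : Fin 1 => u))) (Fin.snoc v c : Fin (k + 1) → ℕ) := by
    rw [sat_typ hM S f hf]
    obtain ⟨g, hg, hgu⟩ := hc
    refine ⟨g, hg, fun i => ?_⟩
    rw [Fin.snoc_last]
    exact hgu
  obtain ⟨c', hc1, hc2⟩ := hag u hu ψ hψ ⟨c, h1, hs⟩
  refine ⟨c', ?_, ?_⟩
  · rw [sat_typ hM S' f' hf'] at hc1
    obtain ⟨g, hg, hgu⟩ := hc1
    refine ⟨g, hg, ?_⟩
    have h2 := hgu 0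
    rwa [Fin.snoc_last] at h2
  · exact pats_agree S S' Λ _ _ ψ hψ hs hc2

/-- the extended tuple -/
theorem ov_eq (f : ℕ → U) {k : ℕ} (v : Fin k → ℕ) (c : ℕ) :
    (fun b : Option (Fin k) => f ((Fin.snoc v c : Fin (k + 1) → ℕ)
      (b.elim (Fin.last k) Fin.castSucc))) = ov (fun a => f (v a)) (f c) := by
  funext b
  rcases b with _ | b
  · change f ((Fin.snoc v c : Fin (k + 1) → ℕ) (Fin.last k)) = f c
    rw [Fin.snoc_last]
  · change f ((Fin.snoc v c : Fin (k + 1) → ℕ) (Fin.castSucc b)) = f (v b)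
    rw [Fin.snoc_castSucc]

/-- finitely many formulas determine a finite game -/
theorem main (hGEQ : St_GEQ) (hEQF : St_EQF) (hM : Mon L U) (hF : FinN L U) (T : L.Theory)
    (hT : U ⊨ T) (Δ : Set (Atm U)) (hΔ : Δ.Finite) (D : Set U) (hD : D.Finite) (n : ℕ) :
    ∀ k : ℕ, ∃ Λ : List (L1F L k), (∀ φ ∈ Λ, L1F.Of T φ) ∧
    ∀ (S S' : L.Structure ℕ) (f f' : ℕ → U), ElN L S f → ElN L S' f' → ∀ v v' : Fin k → ℕ,
      (∀ φ ∈ Λ, (@L1F.Sat L ℕ S k φ v ↔ @L1F.Sat L ℕ S' k φ v')) →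
      Eg L (Fx L (∅ : Set U)) ∅ Δ D n (Fin k) (range f) (fun a => f (v a)) (range f')
        (fun a => f' (v' a)) := by
  classical
  induction n with
  | zero =>
    intro k
    exact atoms hEQF hM hF T hT Δ hΔ k
  | succ n ih =>
    intro k
    obtain ⟨Λ₀, ho₀, hΛ₀⟩ := atoms hEQF hM hF T hT Δ hΔ k
    obtain ⟨Λ₁, ho₁, hΛ₁⟩ := ih (k + 1)
    let F : U → L1F L (k + 1) → L1F L k := fun u ψ =>
      .ex (.conj (.typ (fun _ : Fin 1 => Fin.last k) (tp (L := L) (fun _ : Fin 1 => u))) ψ)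
    let Λ₂ : List (L1F L k) := hD.toFinset.toList.flatMap (fun u => (pats Λ₁).map (F u))
    have hmem : ∀ u ∈ D, ∀ ψ ∈ pats Λ₁, F u ψ ∈ Λ₂ := by
      intro u hu ψ hψ
      rw [List.mem_flatMap]
      exact ⟨u, Finset.mem_toList.2 (hD.mem_toFinset.2 hu), List.mem_map_of_mem hψ⟩
    refine ⟨Λ₀ ++ Λ₂, ?_, ?_⟩
    · intro φ hφ
      rcases List.mem_append.1 hφ with h | h
      · exact ho₀ φ h
      · obtain ⟨u, -, h2⟩ := List.mem_flatMap.1 h
        obtain ⟨ψ, hψ, rfl⟩ := List.mem_map.1 h2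
        exact ⟨of_tp hM T hT _, pats_of T Λ₁ ho₁ ψ hψ⟩
    · intro S S' f f' hf hf' v v' hag
      have hag₂ : ∀ u ∈ D, ∀ ψ ∈ pats Λ₁, (@L1F.Sat L ℕ S k (F u ψ) v ↔
          @L1F.Sat L ℕ S' k (F u ψ) v') := fun u hu ψ hψ =>
        hag _ (List.mem_append.2 (Or.inr (hmem u hu ψ hψ)))
      have hstep : ∀ c c' : ℕ, (∀ φ ∈ Λ₁, (@L1F.Sat L ℕ S (k + 1) φ
          (Fin.snoc v c : Fin (k + 1) → ℕ) ↔ @L1F.Sat L ℕ S' (k + 1) φ
            (Fin.snoc v' c' : Fin (k + 1) → ℕ))) →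
          Eg L (Fx L (∅ : Set U)) ∅ Δ D n (Option (Fin k)) (range f)
            (ov (fun a => f (v a)) (f c)) (range f') (ov (fun a => f' (v' a)) (f' c')) := by
        intro c c' h
        have h1 := hΛ₁ S S' f f' hf hf' _ _ h
        have h2 := (hGEQ L U (Fx L (∅ : Set U)) ∅ Δ D n (Fin (k + 1))).2.2.2.2.1
          (Option (Fin k)) (fun b => b.elim (Fin.last k) Fin.castSucc) _ _ _ _ h1
        rw [ov_eq, ov_eq] at h2
        exact h2
      refine ⟨hΛ₀ S S' f f' hf hf' v v' (fun φ hφ => hag φ (List.mem_append.2 (Or.inl hφ))),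
        ?_, ?_⟩
      · rintro u hu x ⟨c, rfl⟩ hx
        obtain ⟨c', h1, h2⟩ := move hM Λ₁ D S S' f f' hf hf' v v'
          (fun u hu ψ hψ => (hag₂ u hu ψ hψ).1) u hu c hx
        exact ⟨f' c', ⟨c', rfl⟩, h1, hstep c c' h2⟩
      · rintro u hu y ⟨c', rfl⟩ hy
        obtain ⟨c, h1, h2⟩ := move hM Λ₁ D S' S f' f hf' hf v' v
          (fun u hu ψ hψ => (hag₂ u hu ψ hψ).2) u hu c' hy
        exact ⟨f c, ⟨c, rfl⟩, h1, hstep c c' (fun φ hφ => (h2 φ hφ).symm)⟩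

end HINx

open HINx

/-- `St_HIN` -/
theorem thm_HIN (hGEQ : St_GEQ) (hEQF : St_EQF) : St_HIN := by
  intro L U _ hM hF T hT S S' f f' hf hf' hLE Δ D n hΔ hD
  obtain ⟨Λ, ho, hΛ⟩ := main hGEQ hEQF hM hF T hT Δ hΔ D hD n 0
  have h1 := hΛ S S' f f' hf hf' Fin.elim0 Fin.elim0 (fun φ hφ => hLE φ (ho φ hφ))
  have h2 := (hGEQ L U (Fx L (∅ : Set U)) ∅ Δ D n (Fin 0)).2.2.2.2.1
    Empty (fun b => b.elim) _ _ _ _ h1
  have e : ∀ w : Empty → U, w = Empty.elim := by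
    intro w
    funext b
    exact b.elim
  rw [e (fun b : Empty => f (Fin.elim0 (b.elim : Fin 0))),
    e (fun b : Empty => f' (Fin.elim0 (b.elim : Fin 0)))] at h2
  exact h2

end Pool.Agent.MTC
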