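import Pool.Agent.MTC.StA

/-!
# MTC: games with constants
-/

set_option autoImplicit false
set_option linter.unusedVariables false

namespace Pool.Agent.MTC

open FirstOrder.Language Set
open scoped FirstOrder
open Pool.Agent.WOM (tp Mon IsEl IsoM CtU Fx Orb Isd)
open Pool.Agent.PMC (Sm Md NPf)
open Pool.Agent.MNO (Dp FE Sq Nx SmN FE1 FinN)
open Pool.Agent.TPC (Bq Pq Sub Fcp Lin Fre Iv Kl Inr Lab Clu Rgd Ist Cpt)

namespace HN0M

/-- increasing finite sets which exhaust a countable type -/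
theorem exh_type (T : Type) [Countable T] : ∃ F : ℕ → Set T, (∀ k, (F k).Finite) ∧
    (∀ k l, k ≤ l → F k ⊆ F l) ∧ ∀ x, ∃ k, x ∈ F k := by
  obtain ⟨f, hf⟩ := Countable.exists_injective_nat T
  refine ⟨fun k => {x | f x ≤ k}, fun k => ?_, fun k l hkl x hx => le_trans hx hkl,
    fun x => ⟨f x, le_refl (f x)⟩⟩
  exact Set.Finite.preimage hf.injOn (Set.finite_Iic k)

theorem exh_sub {T : Type} {F : ℕ → Set T} (hm : ∀ k l, k ≤ l → F k ⊆ F l)
    (he : ∀ x, ∃ k, x ∈ F k) {S : Set T} (hS : S.Finite) : ∃ k, S ⊆ F k := by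
  induction S, hS using Set.Finite.induction_on with
  | empty => exact ⟨0, Set.empty_subset _⟩
  | insert _ _ ih =>
    obtain ⟨k, hk⟩ := ih
    rename_i a S _ _
    obtain ⟨l, hl⟩ := he a
    refine ⟨max k l, Set.insert_subset (hm _ _ (le_max_right k l) hl) ?_⟩
    exact hk.trans (hm _ _ (le_max_left k l))

section

variable {L : FirstOrder.Language.{0, 0}} {U : Type} [L.Structure U]

/-- one more constant -/
theorem step (hGEQ : St_GEQ) (hGIN : St_GIN) (hM : Mon L U) {A : Set U} {Δ : ℕ → Set (Atm U)}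
    {D : ℕ → Set U} (hG : Gr L (Nx L A) A) (hE : Exh Δ D) (k : ℕ) (S : Set U) (x : U)
    (hS : S.Finite) : ∃ K, k ≤ K ∧ ∀ Z Z', x ∈ Z → Ek L A Δ D K S Z Z' →
      ∃ g : U ≃[L] U, Nx L A g ∧ (∀ y ∈ S, g y = y) ∧ x ∈ g '' Z' ∧
        Ek L A Δ D k (insert x S) Z (g '' Z') := by
  classical
  obtain ⟨n, ⟨e⟩⟩ := Finite.exists_equiv_fin (Option ↥S) (h := by
    haveI : Finite ↥S := hS
    infer_instance)
  let v : Option ↥S → U := ov (fun y : ↥S => y.1) x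
  obtain ⟨k1, hk1⟩ := hE.exh.1 (⟨n, 0, Sum.elim (fun i => v (e.symm i)) Fin.elim0⟩ : Atm U)
  obtain ⟨k2, hk2⟩ := hE.exh.2 x
  refine ⟨k + k1 + k2 + 1, by omega, fun Z Z' hx hEk => ?_⟩
  have hK1 := (hE.mono k1 (k + k1 + k2 + 1) (by omega)).1 hk1
  have hK2 := (hE.mono k2 (k + k1 + k2 + 1) (by omega)).2 hk2
  have hrefl : Nx L A (FirstOrder.Language.Equiv.refl L U) := MNO.nx_refl A
  obtain ⟨y, hy, -, hEy⟩ := hEk.2.1 x hK2 x hx ⟨_, hrefl, rfl⟩
  have hgin := hGIN L U hM (Nx L A) A hG (Δ (k + k1 + k2 + 1)) (D (k + k1 + k2 + 1))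
    (k + k1 + k2) (Option ↥S)
  obtain ⟨g, hg, hgv⟩ := hgin.2.1 Z Z' v (ov (fun y : ↥S => y.1) y) n (fun i => v (e.symm i))
    (fun i => e.symm i) hK1 hEy ⟨_, hrefl, fun i => rfl⟩
  have hgo : ∀ o : Option ↥S, g (v o) = ov (fun y : ↥S => y.1) y o := by
    intro o
    have h := hgv (e o)
    beta_reduce at h
    rwa [e.symm_apply_apply] at h
  have hgx : g x = y := hgo none
  have hgS : ∀ z ∈ S, g z = z := fun z hz => hgo (some ⟨z, hz⟩)
  have hsx : g.symm y = x := by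
    rw [← hgx]
    exact g.symm_apply_apply x
  have hsS : ∀ z ∈ S, g.symm z = z := by
    intro z hz
    have h := g.symm_apply_apply z
    rwa [hgS z hz] at h
  refine ⟨g.symm, hG.inv g hg, hsS, ⟨y, hy, hsx⟩, ?_⟩
  have h1 := hgin.1 Z Z' v (ov (fun y : ↥S => y.1) y) (FirstOrder.Language.Equiv.refl L U) g.symm
    hrefl (hG.inv g hg) hEy
  have e1 : (FirstOrder.Language.Equiv.refl L U) '' Z = Z := Set.image_id Z
  have e2 : (fun a => g.symm (ov (fun y : ↥S => y.1) y a)) = v := by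
    funext o
    rw [← hgo o]
    exact g.symm_apply_apply _
  rw [e1, e2] at h1
  have h2 := (hGEQ L U (Nx L A) A (Δ (k + k1 + k2 + 1)) (D (k + k1 + k2 + 1)) (k + k1 + k2)
    (Option ↥S)).2.2.2.2.1 (↥(insert x S))
    (fun b => if h : b.1 ∈ S then some ⟨b.1, h⟩ else none) _ _ _ _ h1
  have e3 : ∀ b : ↥(insert x S), v (if h : b.1 ∈ S then some ⟨b.1, h⟩ else none) = b.1 := by
    intro b
    split_ifs with h
    · rfl
    · rcases b.2 with h' | h'
      · exact h'.symm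
      · exact absurd h' h
  have h3 : Eg L (Nx L A) A (Δ (k + k1 + k2 + 1)) (D (k + k1 + k2 + 1)) (k + k1 + k2)
      (↥(insert x S)) Z (fun b => b.1) (g.symm '' Z') (fun b => b.1) := by
    have e4 : (fun b : ↥(insert x S) => v (if h : b.1 ∈ S then some ⟨b.1, h⟩ else none)) =
        fun b => b.1 := funext e3
    rw [← e4]
    exact h2
  exact (hGEQ L U (Nx L A) A (Δ k) (D k) k (↥(insert x S))).2.2.2.1 _ _ (k + k1 + k2)
    (hE.mono _ _ (by omega)).1 (hE.mono _ _ (by omega)).2 (by omega) _ _ _ _ h3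

theorem Ek_congr {A : Set U} {Δ : ℕ → Set (Atm U)} {D : ℕ → Set U} {k : ℕ} {S S' Z Z' : Set U}
    (h : S = S') (hE : Ek L A Δ D k S Z Z') : Ek L A Δ D k S' Z Z' := h ▸ hE

/-- more constants -/
theorem steps (hGEQ : St_GEQ) (hGIN : St_GIN) (hM : Mon L U) {A : Set U} {Δ : ℕ → Set (Atm U)}
    {D : ℕ → Set U} (hG : Gr L (Nx L A) A) (hE : Exh Δ D) (T : Set U) (hT : T.Finite) :
    ∀ (k : ℕ) (S : Set U), S.Finite → ∃ K, k ≤ K ∧ ∀ Z Z', T ⊆ Z → Ek L A Δ D K S Z Z' →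
      ∃ g : U ≃[L] U, Nx L A g ∧ (∀ y ∈ S, g y = y) ∧ T ⊆ g '' Z' ∧
        Ek L A Δ D k (S ∪ T) Z (g '' Z') := by
  induction T, hT using Set.Finite.induction_on with
  | empty =>
    intro k S hS
    refine ⟨k, le_rfl, fun Z Z' _ h => ⟨_, MNO.nx_refl A, fun y _ => rfl, Set.empty_subset _, ?_⟩⟩
    have e1 : (FirstOrder.Language.Equiv.refl L U) '' Z' = Z' := Set.image_id Z'
    rw [e1]
    exact Ek_congr (Set.union_empty S).symm h
  | insert _ _ ih =>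
    rename_i x T _ _
    intro k S hS
    obtain ⟨K1, hK1, h1⟩ := ih k (insert x S) (hS.insert x)
    obtain ⟨K2, hK2, h2⟩ := step hGEQ hGIN hM hG hE K1 S x hS
    refine ⟨K2, hK1.trans hK2, fun Z Z' hTZ hEk => ?_⟩
    obtain ⟨g1, hg1, hg1S, hx1, hE1⟩ := h2 Z Z' (hTZ (Set.mem_insert x T)) hEk
    obtain ⟨g0, hg0, hg0S, hT0, hE0⟩ := h1 Z (g1 '' Z')
      (fun z hz => hTZ (Set.mem_insert_of_mem x hz)) hE1
    have e1 : (g0.comp g1) '' Z' = g0 '' (g1 '' Z') := by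
      rw [← Set.image_comp]
      rfl
    refine ⟨g0.comp g1, hG.mul g1 g0 hg1 hg0, fun y hy => ?_, ?_, ?_⟩
    · have h3 : (g0.comp g1) y = g0 (g1 y) := rfl
      rw [h3, hg1S y hy, hg0S y (Set.mem_insert_of_mem x hy)]
    · rw [e1]
      refine Set.insert_subset ⟨x, hx1, hg0S x (Set.mem_insert x S)⟩ hT0
    · rw [e1]
      refine Ek_congr ?_ hE0
      rw [Set.insert_union, Set.union_insert]

end

end HN0M

open HN0M in
theorem thm_HN0 (hGEQ : St_GEQ) (hGIN : St_GIN) (hGRP : St_GRP) : St_HN0 := by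
  intro L U _ hM
  haveI : Countable U := hM.ctb
  refine ⟨?_, ?_⟩
  · obtain ⟨F, hF1, hF2, hF3⟩ := exh_type (Atm U)
    obtain ⟨D, hD1, hD2, hD3⟩ := exh_type U
    exact ⟨F, D, fun k => ⟨hF1 k, hD1 k⟩, fun k l h => ⟨hF2 k l h, hD2 k l h⟩, hF3, hD3⟩
  intro A Δ D hA hE
  have hG : Gr L (Nx L A) A := (hGRP L U hM A hA).1
  have hmono : ∀ k k' S S' Z Z', k ≤ k' → S ⊆ S' → Ek L A Δ D k' S' Z Z' →
      Ek L A Δ D k S Z Z' := by
    intro k k' S S' Z Z' hk hS h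
    have h1 := (hGEQ L U (Nx L A) A (Δ k') (D k') k' (↥S')).2.2.2.2.1 (↥S)
      (fun b => ⟨b.1, hS b.2⟩) _ _ _ _ h
    exact (hGEQ L U (Nx L A) A (Δ k) (D k) k (↥S)).2.2.2.1 _ _ k' (hE.mono _ _ hk).1
      (hE.mono _ _ hk).2 hk _ _ _ _ h1
  have hlim : ∀ (α : Type) (v w : α → U) (Z Z' : Set U),
      (∀ k, Eg L (Nx L A) A (Δ k) (D k) k α Z v Z' w) → EqT L (Nx L A) A Z v Z' w := by
    intro α v w Z Z' h Δ' D' n hΔ hD
    obtain ⟨k1, h1⟩ := exh_sub (fun k l h => (hE.mono k l h).1) hE.exh.1 hΔ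
    obtain ⟨k2, h2⟩ := exh_sub (fun k l h => (hE.mono k l h).2) hE.exh.2 hD
    exact (hGEQ L U (Nx L A) A Δ' D' n α).2.2.2.1 (Δ (k1 + k2 + n)) (D (k1 + k2 + n))
      (k1 + k2 + n) (h1.trans (hE.mono _ _ (by omega)).1) (h2.trans (hE.mono _ _ (by omega)).2)
      (by omega) _ _ _ _ (h _)
  refine ⟨?_, ?_, ?_, hmono, ?_, ?_, ?_, ?_⟩
  · intro k S Z
    exact (hGEQ L U (Nx L A) A (Δ k) (D k) k (↥S)).1 _ _
  · intro k S Z Z' h
    exact (hGEQ L U (Nx L A) A (Δ k) (D k) k (↥S)).2.1 _ _ _ _ h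
  · intro k S Z Z' Z'' h h'
    exact (hGEQ L U (Nx L A) A (Δ k) (D k) k (↥S)).2.2.1 _ _ _ _ _ _ h h'
  · intro k S Z g hg hgS
    have h1 := (hGIN L U hM (Nx L A) A hG (Δ k) (D k) k (↥S)).1 Z Z (fun x => x.1) (fun x => x.1)
      (FirstOrder.Language.Equiv.refl L U) g (MNO.nx_refl A) hg
      ((hGEQ L U (Nx L A) A (Δ k) (D k) k (↥S)).1 _ _)
    have e1 : (FirstOrder.Language.Equiv.refl L U) '' Z = Z := Set.image_id Z
    have e2 : (fun a : ↥S => g a.1) = fun a => a.1 := funext fun a => hgS a.1 a.2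
    rw [e1, e2] at h1
    exact h1
  · intro k S T hS hT
    exact steps hGEQ hGIN hM hG hE T hT k S hS
  · intro m s Z Z'
    constructor
    · intro h k
      have h1 := h (Δ k) (D k) k (hE.fin k).1 (hE.fin k).2
      have h2 := (hGEQ L U (Nx L A) A (Δ k) (D k) k (Fin m)).2.2.2.2.1 (↥(range s))
        (fun b => b.2.choose) _ _ _ _ h1
      have e1 : (fun b : ↥(range s) => s b.2.choose) = fun b => b.1 :=
        funext fun b => b.2.choose_spec
      rw [e1] at h2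
      exact h2
    · intro h
      refine hlim _ _ _ _ _ fun k => ?_
      exact (hGEQ L U (Nx L A) A (Δ k) (D k) k (↥(range s))).2.2.2.2.1 (Fin m)
        (fun b => ⟨s b, b, rfl⟩) _ _ _ _ (h k)
  · intro Z Z'
    constructor
    · intro h k
      have h1 := h (Δ k) (D k) k (hE.fin k).1 (hE.fin k).2
      have h2 := (hGEQ L U (Nx L A) A (Δ k) (D k) k Empty).2.2.2.2.1 (↥(∅ : Set U))
        (fun b => b.2.elim) _ _ _ _ h1
      have e1 : (fun b : ↥(∅ : Set U) => (Empty.elim (b.2.elim) : U)) = fun b => b.1 :=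
        funext fun b => b.2.elim
      rw [e1] at h2
      exact h2
    · intro h
      refine hlim _ _ _ _ _ fun k => ?_
      have h2 := (hGEQ L U (Nx L A) A (Δ k) (D k) k (↥(∅ : Set U))).2.2.2.2.1 Empty
        (fun b => b.elim) _ _ _ _ (h k)
      have e1 : (fun b : Empty => ((b.elim : ↥(∅ : Set U)) : U)) = Empty.elim :=
        funext fun b => b.elim
      rw [e1] at h2
      exact h2

end Pool.Agent.MTC
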