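import Pool.Agent.MTC.StB

/-!
# MTC, module KLB (helper1 for helper23)
-/

set_option autoImplicit false
set_option linter.unusedVariables false

namespace Pool.Agent.MTC

open FirstOrder.Language Set
open scoped FirstOrder
open Pool.Agent.WOM (tp Mon IsEl IsoM CtU Fx Orb Isd)
open Pool.Agent.PMC (Sm Md NPf)
open Pool.Agent.MNO (Dp FE Sq Nx SmN FE1 FinN nx_refl nx_symm nx_comp nx_mono)
open Pool.Agent.TPC (Bq Pq Sub Fcp Lin Fre Iv Kl Inr Lab Clu Rgd Ist Cpt)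

/-- **KLB** -/
theorem thm_KLB : St_KLB := by
  intro L U _ hMon A E P cl hF hP hPE
  have k2 : ∀ (g : U ≃[L] U) (M : Set U), ∀ p ∈ P, Nx L A g →
      g '' Kl P cl M p = Kl P cl (g '' M) (g p) := by
    intro g M p hp hg
    ext x
    constructor
    · rintro ⟨z, ⟨h1, h2, h3⟩, rfl⟩
      exact ⟨⟨z, h1, rfl⟩, (hP.inv g hg z).2 h2, (hF.fxc g hg.1 p (hPE hp) z (hPE h2)).2 h3⟩
    · rintro ⟨⟨z, h1, rfl⟩, h2, h3⟩
      have h4 := (hP.inv g hg z).1 h2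
      exact ⟨z, ⟨h1, h4, (hF.fxc g hg.1 p (hPE hp) z (hPE h4)).1 h3⟩, rfl⟩
  have k3 : ∀ (M : Set U), ∀ p ∈ P, ∀ q ∈ P, cl p q → Kl P cl M p = Kl P cl M q := by
    intro M p hp q hq hpq
    ext x
    constructor
    · rintro ⟨h1, h2, h3⟩
      exact ⟨h1, h2, hF.tra q (hPE hq) p (hPE hp) x (hPE h2)
        (hF.sym p (hPE hp) q (hPE hq) hpq) h3⟩
    · rintro ⟨h1, h2, h3⟩
      exact ⟨h1, h2, hF.tra p (hPE hp) q (hPE hq) x (hPE h2) hpq h3⟩
  refine ⟨?_, k2, k3, ?_, ?_, ?_⟩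
  · intro p hp
    have hfin : (insert p A).Finite := hF.fin.insert p
    have h1 : Bq L (insert p A) {v | v ∈ E ∧ cl p v} :=
      TPC.z_KBQ L U hMon A {v | v ∈ E ∧ cl p v} p (Or.inr ⟨E, cl, hF, hPE hp, rfl⟩) _ hfin
        (subset_insert _ _) ⟨p, mem_insert _ _, hPE hp, hF.rfl p (hPE hp)⟩
    have h2 : Bq L (insert p A) P :=
      (TPC.q_OFQ L U hMon A P hF.fin hP).2.2 _ hfin (subset_insert _ _)
    have h3 := (TPC.q_ALQ L U hMon (insert p A) hfin).2.2.1 {{v | v ∈ E ∧ cl p v}, P} (by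
      rintro Q (rfl | rfl)
      · exact h1
      · exact h2)
    have h4 : Kl P cl univ p = ⋂₀ {{v | v ∈ E ∧ cl p v}, P} := by
      rw [sInter_pair]
      ext x
      constructor
      · rintro ⟨-, h5, h6⟩
        exact ⟨⟨hPE h5, h6⟩, h5⟩
      · rintro ⟨⟨-, h5⟩, h6⟩
        exact ⟨trivial, h6, h5⟩
    rw [h4]
    exact h3
  · intro M p
    ext x
    constructor
    · rintro ⟨h1, -, h2, h3⟩
      exact ⟨h1, h2, h3⟩
    · rintro ⟨h1, h2, h3⟩
      exact ⟨h1, trivial, h2, h3⟩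
  · rintro g p hp hg ⟨-, h1, h2⟩
    rw [k2 g univ p hp hg, image_univ, g.surjective.range_eq]
    exact (k3 univ p hp (g p) h1 h2).symm
  · rintro x hx y hy x' hx' y' hy' hxy hxy' ⟨g, hg, rfl⟩ ⟨g', hg', rfl⟩
    obtain ⟨h, hh, h1, h2⟩ := hF.ort {x} {y} (finite_singleton _) (finite_singleton _)
      (by rintro s rfl; exact hx) (by rintro s rfl; exact hy)
      (by rintro s rfl w rfl; exact hxy) g g' hg hg' (by rintro s rfl w rfl; exact hxy')
    refine ⟨h, hh, fun i => ?_⟩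
    fin_cases i
    · exact h1 x rfl
    · exact h2 y rfl

end Pool.Agent.MTC
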