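import Pool.Agent.MTC.StB

/-!
# MTC: clusters are determined by their theory (helper81)
-/

set_option autoImplicit false
set_option linter.unusedVariables false

namespace Pool.Agent.MTC

open FirstOrder.Language Set
open scoped FirstOrder
open Pool.Agent.WOM (tp Mon IsEl IsoM CtU Fx Orb Isd)
open Pool.Agent.PMC (Sm Md NPf)
open Pool.Agent.MNO (Dp FE Sq Nx SmN FE1 FinN nx_refl nx_symm nx_comp)
open Pool.Agent.TPC (Bq Pq Sub Fcp Lin Fre Iv Kl Inr Lab Clu Rgd Ist Cpt q_SMQ)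

namespace KMAx

variable {L : FirstOrder.Language.{0, 0}} {U : Type} [L.Structure U]

theorem img {A : Set U} {g : U ≃[L] U} (hg : Nx L A g) (X : Set U) : SmN L A X (g '' X) := by
  refine ⟨Equiv.Set.image g X g.injective, fun s hs => ⟨g, hg, fun x hx => ?_⟩⟩
  rfl

theorem refl_img (X : Set U) : (FirstOrder.Language.Equiv.refl L U : U ≃[L] U) '' X = X := by
  have e : ((FirstOrder.Language.Equiv.refl L U : U ≃[L] U) : U → U) = id := rfl
  rw [e, image_id]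

theorem move (hGIN : St_GIN) (hM : Mon L U) {A : Set U} (hGr : Gr L (Nx L A) A) {α : Type}
    {X Y : Set U} {v w : α → U} (h : EqT L (Nx L A) A X v Y w) {g : U ≃[L] U} (hg : Nx L A g) :
    EqT L (Nx L A) A X v (g '' Y) (fun a => g (w a)) := by
  intro Δ D n hΔ hD
  have h1 := (hGIN L U hM (Nx L A) A hGr Δ D n α).1 X Y v w (FirstOrder.Language.Equiv.refl L U) g
    (nx_refl A) hg (h Δ D n hΔ hD)
  rw [refl_img] at h1
  exact h1

theorem main (hGIN : St_GIN) (hGRP : St_GRP) (hADD : St_ADD) (hHEN : St_HEN) (hMCA : St_MCA)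
    (hKLB : St_KLB) (hX : Ctx L U) {A E P : Set U} {cl : U → U → Prop} (hFre : Fre L A E cl)
    (hBP : Bq L A P) (hPE : P ⊆ E) (hClm : Clm L A E cl) {M M' : Set U} {p : U} (hM1 : Md L A M)
    (hM2 : Md L A M') (hpM : p ∈ M) (hpP : p ∈ P) (hpM' : p ∈ M')
    (hEq : EqS L A (Kl P cl M p) (Kl P cl M' p)) : SmN L A (Kl P cl M p) (Kl P cl M' p) := by
  have hA : A.Finite := hFre.fin
  have hM := hX.mon
  obtain ⟨hGr, -⟩ := hGRP L U hM A hA
  obtain ⟨k1, k2, k3, k4, k5, -⟩ := hKLB L U hM A E P cl hFre hBP hPE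
  obtain ⟨-, s2, s3, -, s5, -, -, s8, -⟩ := q_SMQ L U hM
  have hcl : ∀ x ∈ P, cl x x := fun x hx => hFre.rfl x (hPE hx)
  have hran : ∀ x : U, A ∪ range (fun _ : Fin 1 => x) = insert x A := by
    intro x
    rw [range_const, union_singleton]
  have hmd : ∀ (N : Set U) (x : U), Md L A N → x ∈ N →
      Md L (A ∪ range (fun _ : Fin 1 => x)) N := by
    intro N x hN hx
    rw [hran]
    exact ⟨hN.1, insert_subset hx hN.2⟩
  -- the Henkin construction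
  have hEq' : EqS L A (M ∩ Kl P cl univ p) (M' ∩ Kl P cl univ p) := by
    rw [k4, k4]
    exact hEq
  obtain ⟨t, t', ht, ht', ⟨g1, hg1, hgt⟩, ⟨g2, hg2, hgt'⟩, hT⟩ := hHEN L U hX A (Kl P cl univ p)
    M M' 1 (fun _ => p) hA (fun _ => ⟨mem_univ _, hpP, hcl p hpP⟩)
    (by rw [hran]; exact k1 p hpP) (fun g hg hgp => k5 g p hpP hg (hgp 0)) (hmd M p hM1 hpM)
    (hmd M' p hM2 hpM') hEq'
  have hTM : t 0 ∈ M := (ht 0).1
  have hTP : t 0 ∈ P := (ht 0).2.2.1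
  have hTc : cl p (t 0) := (ht 0).2.2.2
  have hTM' : t' 0 ∈ M' := (ht' 0).1
  have hTP' : t' 0 ∈ P := (ht' 0).2.2.1
  have hTc' : cl p (t' 0) := (ht' 0).2.2.2
  have tcon : ∀ i : Fin 1, t i = t 0 := fun i => by rw [Subsingleton.elim i 0]
  have tfun : t = fun _ => t 0 := funext tcon
  let h : U ≃[L] U := g1.comp g2.symm
  have hh : Nx L A h := nx_comp hg1 (nx_symm hg2)
  have hht : h (t' 0) = t 0 := by
    change g1 (g2.symm (t' 0)) = t 0
    rw [← hgt' 0, g2.symm_apply_apply]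
    exact hgt 0
  have eK : M ∩ Kl P cl univ p = Kl P cl M (t 0) := by rw [k4]; exact k3 M p hpP (t 0) hTP hTc
  have eK' : M' ∩ Kl P cl univ p = Kl P cl M' (t' 0) := by
    rw [k4]
    exact k3 M' p hpP (t' 0) hTP' hTc'
  have e2 : h '' Kl P cl M' (t' 0) = Kl P cl (h '' M') (t 0) := by
    rw [k2 h M' (t' 0) hTP' hh, hht]
  rw [eK, eK'] at hT
  have hT2 := move hGIN hM hGr hT hh
  have e3 : (fun a => h (t' a)) = t := by
    funext i
    rw [Subsingleton.elim i 0]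
    exact hht
  rw [e3, e2] at hT2
  -- adding the point to the base
  obtain ⟨k, hk, hkt, hS⟩ := hADD L U hM hX.fin A 1 t (Kl P cl M (t 0)) (Kl P cl (h '' M') (t 0))
    hA hT2
  have e4 : k '' Kl P cl (h '' M') (t 0) = Kl P cl (k '' (h '' M')) (t 0) := by
    rw [k2 k (h '' M') (t 0) hTP hk, hkt 0]
  rw [e4, ← k4 M, ← k4 (k '' (h '' M')), tfun] at hS
  have hMar : Mar L (A ∪ range (fun _ : Fin 1 => t 0)) (Kl P cl univ (t 0)) := by
    have hfin : (A ∪ range (fun _ : Fin 1 => t 0)).Finite := hA.union (finite_range _)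
    refine (hMCA L U hX).1 _ _ hfin (by rw [hran]; exact k1 _ hTP) ?_
    rintro z ⟨-, hzP, hz⟩
    exact hClm _ (t 0) z hfin subset_union_left (Or.inr ⟨0, rfl⟩) (hPE hTP) (hPE hzP) hz
  have m1 : Md L A (h '' M') :=
    s8 A M' (h '' M') hA hM2.2 (s5 A A M' (h '' M') subset_rfl (img hh M')).2 hM2.1
  have m2 : Md L A (k '' (h '' M')) :=
    s8 A _ _ hA m1.2 (s5 A A (h '' M') (k '' (h '' M')) subset_rfl (img hk _)).2 m1.1
  have hTk : t 0 ∈ k '' (h '' M') := ⟨t 0, ⟨t' 0, hTM', hht⟩, hkt 0⟩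
  have hSm := hMar M (k '' (h '' M')) (hmd M (t 0) hM1 hTM) (hmd _ (t 0) m2 hTk) hS
  have hSm1 := (s5 A (A ∪ range (fun _ : Fin 1 => t 0)) _ _ subset_union_left hSm).1
  rw [k4, k4, ← e4, ← e2] at hSm1
  have hSm2 : SmN L A (Kl P cl M' (t' 0)) (k '' (h '' Kl P cl M' (t' 0))) :=
    s3 A _ _ _ (img hh _) (img hk _)
  have hSm3 := s3 A _ _ _ hSm1 (s2 A _ _ hSm2)
  rw [← eK, ← eK', k4, k4] at hSm3
  exact hSm3

end KMAx

open KMAx in
theorem thm_KMA (hGEQ : St_GEQ) (hGIN : St_GIN) (hGRP : St_GRP) (hADD : St_ADD) (hHEN : St_HEN)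
    (hMCA : St_MCA) (hKLB : St_KLB) : St_KMA := by
  intro L U _ hX A E P cl hFre hBP hPE hClm M M' p p' hM1 hM2 hpM hpP hpM' hpP' hEq
  have hA : A.Finite := hFre.fin
  have hM := hX.mon
  obtain ⟨hGr, -⟩ := hGRP L U hM A hA
  obtain ⟨k1, k2, k3, k4, k5, -⟩ := hKLB L U hM A E P cl hFre hBP hPE
  obtain ⟨-, s2, s3, -, s5, -, -, s8, -⟩ := q_SMQ L U hM
  have h1 := hEq ∅ {p} 1 finite_empty (finite_singleton p)
  obtain ⟨-, h2, -⟩ := h1
  obtain ⟨q, ⟨hqM, hqP, hqc⟩, ⟨g0, hg0, hgq⟩, -⟩ := h2 p rfl p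
    ⟨hpM, hpP, hFre.rfl p (hPE hpP)⟩ ⟨_, nx_refl A, rfl⟩
  have eK : Kl P cl M' p' = Kl P cl M' q := k3 M' p' hpP' q hqP hqc
  have hg := nx_symm hg0
  have hgp : g0.symm q = p := by
    rw [← hgq, g0.symm_apply_apply]
  have e1 : g0.symm '' Kl P cl M' q = Kl P cl (g0.symm '' M') p := by
    rw [k2 g0.symm M' q hqP hg, hgp]
  rw [eK] at hEq ⊢
  have h3 := move hGIN hM hGr hEq hg
  have e2 : (fun a => g0.symm ((Empty.elim : Empty → U) a)) = (Empty.elim : Empty → U) :=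
    funext fun a => a.elim
  rw [e1, e2] at h3
  have m1 : Md L A (g0.symm '' M') :=
    s8 A M' _ hA hM2.2 (s5 A A M' (g0.symm '' M') subset_rfl (img hg M')).2 hM2.1
  have h4 := main hGIN hGRP hADD hHEN hMCA hKLB hX hFre hBP hPE hClm hM1 m1 hpM hpP
    ⟨q, hqM, hgp⟩ h3
  rw [← e1] at h4
  exact s3 A _ _ _ h4 (s2 A _ _ (img hg _))

end Pool.Agent.MTC
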