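import Pool.Agent.MTC.StL

/-!
# MTC/LFN (helper23): the main theorem: models on `ℕ` are determined by their theory in `L_1(T)`
-/

set_option autoImplicit false

namespace Pool.Agent.MTC

open FirstOrder.Language Set
open scoped FirstOrder
open Pool.Agent.WOM (tp Mon IsEl IsoM CtU Fx Orb Isd CtT PerfT ThS)
open Pool.Agent.PMC (Sm Md NPf)
open Pool.Agent.TPY (Cz Emb IsoP)

/-- structures on `ℕ` with a bijection preserving types are isomorphic -/
theorem lfn_iso {L : FirstOrder.Language.{0, 0}} (S S' : L.Structure ℕ) (h : ℕ ≃ ℕ)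
    (H : ∀ (n : ℕ) (a : Fin n → ℕ), @tp L ℕ S n a = @tp L ℕ S' n (h ∘ a)) :
    Nonempty (@FirstOrder.Language.Equiv L ℕ ℕ S S') := by
  have hf : ∀ (n : ℕ) (a : Fin n → ℕ) (φ : L.Formula (Fin n)),
      @FirstOrder.Language.Formula.Realize L ℕ S (Fin n) φ a ↔
        @FirstOrder.Language.Formula.Realize L ℕ S' (Fin n) φ (h ∘ a) := by
    intro n a φ
    have h1 : φ ∈ @tp L ℕ S n a ↔ φ ∈ @tp L ℕ S' n (h ∘ a) := by rw [H n a]
    exact h1
  refine ⟨@FirstOrder.Language.Equiv.mk L ℕ ℕ S S' h ?_ ?_⟩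
  · intro n F x
    have h1 := hf (n + 1) (Fin.cons (@FirstOrder.Language.Structure.funMap L ℕ S n F x) x)
      (FirstOrder.Language.Formula.graph F)
    have h2 := (@FirstOrder.Language.Formula.realize_graph L ℕ S n F x
      (@FirstOrder.Language.Structure.funMap L ℕ S n F x)).2 rfl
    have h3 := h1.1 h2
    have h4 : (h ∘ (Fin.cons (@FirstOrder.Language.Structure.funMap L ℕ S n F x) x :
        Fin (n + 1) → ℕ)) = Fin.cons (h (@FirstOrder.Language.Structure.funMap L ℕ S n F x))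
          (h ∘ x) := by
      funext i
      refine Fin.cases ?_ (fun i => ?_) i
      · rfl
      · rfl
    rw [h4] at h3
    exact ((@FirstOrder.Language.Formula.realize_graph L ℕ S' n F (h ∘ x)
      (h (@FirstOrder.Language.Structure.funMap L ℕ S n F x))).1 h3).symm
  · intro n R x
    have h1 := hf n x (R.formula fun i => FirstOrder.Language.Term.var i)
    rw [@FirstOrder.Language.Formula.realize_rel L ℕ S, @FirstOrder.Language.Formula.realize_rel
      L ℕ S'] at h1
    exact h1.symm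

/-- isomorphic ranges give isomorphic structures -/
theorem lfn_rng {L : FirstOrder.Language.{0, 0}} {U : Type} [L.Structure U] {S S' : L.Structure ℕ}
    {f f' : ℕ → U} (hf : Function.Injective f) (hf' : Function.Injective f') (h : ElN L S f)
    (h' : ElN L S' f') (hM : IsoM L (range f) (range f')) :
    Nonempty (@FirstOrder.Language.Equiv L ℕ ℕ S S') := by
  obtain ⟨e, he⟩ := hM
  let E : ℕ ≃ ℕ := (Equiv.ofInjective f hf).trans (e.trans (Equiv.ofInjective f' hf').symm)
  refine lfn_iso S S' E fun k a => ?_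
  rw [h, h']
  have h5 := he k (fun i => Equiv.ofInjective f hf (a i))
  have h7 : ∀ i, (e (Equiv.ofInjective f hf (a i)) : U) = f' (E (a i)) := by
    intro i
    exact (Equiv.apply_ofInjective_symm hf' (e (Equiv.ofInjective f hf (a i)))).symm
  have h8 : (fun i => (e (Equiv.ofInjective f hf (a i)) : U)) = f' ∘ (E ∘ a) := by
    funext i
    exact h7 i
  rw [h8] at h5
  exact h5

/-- the first-order theory -/
theorem lfn_ths {L : FirstOrder.Language.{0, 0}} {T : L.Theory} {S S' : L.Structure ℕ}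
    (hE : L1E L T S S') : ThS L S = ThS L S' := by
  ext φ
  have h1 := hE (.fo (φ.relabel (Empty.elim : Empty → Fin 0))) trivial
  have h2 : ∀ R : L.Structure ℕ,
      (@L1F.Sat L ℕ R 0 (.fo (φ.relabel (Empty.elim : Empty → Fin 0))) Fin.elim0 ↔ φ ∈ ThS L R) := by
    intro R
    let _ : L.Structure ℕ := R
    show FirstOrder.Language.Formula.Realize (φ.relabel (Empty.elim : Empty → Fin 0))
      (Fin.elim0 : Fin 0 → ℕ) ↔ _
    rw [FirstOrder.Language.Formula.realize_relabel]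
    refine Iff.trans ?_ (@FirstOrder.Language.mem_completeTheory L ℕ R φ).symm
    refine iff_of_eq (congrArg (FirstOrder.Language.Formula.Realize φ) ?_)
    exact Subsingleton.elim _ _
  exact (h2 S).symm.trans (h1.trans (h2 S'))

theorem thm_LFN (hCXT : St_CXT) (hR3W : St_R3W) (hHIN : St_HIN) (hFNM : St_FNM) : St_LFN := by
  have hDEF1 := Pool.Agent.WOM.thm_DEF1 Pool.Agent.WOM.thm_DEFF
  have hREAL := Pool.Agent.WOM.thm_REAL Pool.Agent.WOM.thm_MEAS
  intro L hL T hT
  rcases Pool.Agent.TPY.all_T6 L hL T hT with hc | hp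
  swap
  · exact Or.inr hp
  by_cases hp : PerfT L T
  · exact Or.inr hp
  refine Or.inl ⟨hc, fun S S' hS hS' hE => ?_⟩
  have hth : ThS L S = ThS L S' := lfn_ths hE
  have hpS : ¬ PerfT L (ThS L S) := by
    intro h
    apply hp
    obtain ⟨f, h1, h2⟩ := h
    exact ⟨f, fun x => @Pool.Agent.WOM.TOP_mono L T S hS ℕ (f x) (h1 x), h2⟩
  have hsm : Pool.Agent.WOM.Small L (ThS L S) := by
    by_contra h
    exact hpS ((Pool.Agent.WOM.thm_NSM Pool.Agent.WOM.thm_MEAS hREAL) L hL _ h)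
  obtain ⟨W, _, _, hW, hsW⟩ := (Pool.Agent.WOM.thm_ULT hDEF1) L hL S
  obtain ⟨U, _, hcU, hi, hU, hsU⟩ := (Pool.Agent.WOM.thm_SUBM hDEF1) L hL S hsm W hW hsW
  have hM : Mon L U := (Pool.Agent.WOM.thm_HOMG hDEF1) L U hcU hi hsU
  have hN := (Pool.Agent.MNO.thm_NPG Pool.Agent.PMC.thm_NPU) L hL U hM S hU hpS
  obtain ⟨V, _, hV, ⟨j⟩⟩ := Pool.Agent.MST.thm_SAW L hL U inferInstance
  have hUT : U ⊨ T := Pool.Agent.WOM.TOP_mono L T S hS U hU
  have hVT : V ⊨ T := (j.theory_model_iff T).1 hUT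
  have hj : Emb L j := Pool.Agent.TPY.emb_ele j
  have hVi : Infinite V := Infinite.of_injective j hj.inj
  have hne : Nonempty V := inferInstance
  have hsml := Pool.Agent.TPY.sml_of hj hM
  have hC : Cz L V := ⟨hL, hne, hV, hsml, Pool.Agent.TPY.nip_of L hL T hT V hVT hVi,
    Pool.Agent.TPY.cod_of L hL T hT V hVT hVi⟩
  obtain ⟨hX, hI⟩ := hCXT L U V j hC hj hM hN
  have hB := hR3W L U V j hC hj hX hI
  have hU' : U ⊨ ThS L S' := hth ▸ hU
  obtain ⟨f, hf1, hf2, hf3⟩ := (Pool.Agent.WOM.thm_EMB hDEF1) L U hM S hU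
  obtain ⟨f', hf1', hf2', hf3'⟩ := (Pool.Agent.WOM.thm_EMB hDEF1) L U hM S' hU'
  exact lfn_rng hf1 hf1' hf2 hf2' (hFNM L U hX hB _ _ hf3 hf3'
    (hHIN L U hM hX.fin T hUT S S' f f' hf2 hf2' hE))

end Pool.Agent.MTC
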