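import Pool.Agent.MTC.StA

/-!
# MTC: a limit of a sequence of automorphisms over `C` (helper81)
-/

set_option autoImplicit false
set_option linter.unusedVariables false

namespace Pool.Agent.MTC

open FirstOrder.Language Set
open scoped FirstOrder
open Pool.Agent.WOM (tp Mon IsEl IsoM CtU Fx Orb Isd)
open Pool.Agent.PMC (Sm Md NPf)
open Pool.Agent.MNO (Dp FE Sq Nx SmN FE1 FinN)
open Pool.Agent.TPC (Bq Pq Sub Fcp Lin Fre Iv Kl Inr Lab Clu Rgd Ist Cpt)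

namespace LMAx

variable {L : FirstOrder.Language.{0, 0}} {U : Type} [L.Structure U]

/-- good finite relations -/
def P (L : FirstOrder.Language.{0, 0}) {U : Type} [L.Structure U] (𝒰 : Ultrafilter ℕ) (C : Set U)
    (a : ℕ → (U ≃[L] U)) (r : Set (U × U)) : Prop :=
  ∀ᶠ k in (𝒰 : Filter ℕ), ∃ h : U ≃[L] U, Nx L C h ∧ ∀ c ∈ r, h (a k c.1) = c.2

theorem forth (hFNS : St_FNS) (hM : Mon L U) (hF : FinN L U) {𝒰 : Ultrafilter ℕ} {C : Set U}
    (hC : C.Finite) {a : ℕ → (U ≃[L] U)} (ha : ∀ k, Fx L C (a k)) {s : Set (U × U)}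
    (hs : s.Finite) (h : P L 𝒰 C a s) (x : U) : ∃ y, P L 𝒰 C a (insert (x, y) s) := by
  have _ : Finite s := hs.to_subtype
  let t : s ⊕ Unit → U := Sum.elim (fun c => c.1.1) fun _ => x
  obtain ⟨S, hS, -, hS2⟩ := hFNS L U hM hF C (s ⊕ Unit) t hC inferInstance
  have h1 : ∀ᶠ k in (𝒰 : Filter ℕ), ∃ s' ∈ S, Cj L (Nx L C) s' (fun i => a k (t i)) :=
    Filter.Eventually.of_forall fun k => hS2 _ ⟨a k, ha k, fun i => rfl⟩
  obtain ⟨s', -, h2⟩ := (Ultrafilter.eventually_exists_mem_iff hS).1 h1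
  obtain ⟨k0, ⟨h0, hN0, hh0⟩, ⟨g0, hg0, hgg0⟩⟩ := (h.and h2).exists
  let g : U ≃[L] U := h0.comp g0
  have hg : Nx L C g := Pool.Agent.MNO.nx_comp hN0 hg0
  have hgs : ∀ c : s, g (s' (Sum.inl c)) = c.1.2 := fun c => by
    change h0 (g0 (s' (Sum.inl c))) = c.1.2
    rw [hgg0]
    exact hh0 c.1 c.2
  refine ⟨g (s' (Sum.inr ())), ?_⟩
  refine h2.mono ?_
  rintro k ⟨g1, hg1, hgg1⟩
  refine ⟨g.comp g1.symm, Pool.Agent.MNO.nx_comp hg (Pool.Agent.MNO.nx_symm hg1), ?_⟩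
  have e1 : ∀ i, (g.comp g1.symm) (a k (t i)) = g (s' i) := by
    intro i
    have e0 : a k (t i) = g1 (s' i) := (hgg1 i).symm
    change g (g1.symm (a k (t i))) = g (s' i)
    rw [e0, g1.symm_apply_apply]
  rintro c (rfl | hc)
  · exact e1 (Sum.inr ())
  · exact (e1 (Sum.inl ⟨c, hc⟩)).trans (hgs ⟨c, hc⟩)

theorem back (hFNS : St_FNS) (hM : Mon L U) (hF : FinN L U) {𝒰 : Ultrafilter ℕ} {C : Set U}
    (hC : C.Finite) {a : ℕ → (U ≃[L] U)} (ha : ∀ k, Fx L C (a k)) {s : Set (U × U)}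
    (hs : s.Finite) (h : P L 𝒰 C a s) (y : U) : ∃ x, P L 𝒰 C a (insert (x, y) s) := by
  have _ : Finite s := hs.to_subtype
  let t : s ⊕ Unit → U := Sum.elim (fun c => c.1.2) fun _ => y
  let w : U → s ⊕ Unit → U := fun x => Sum.elim (fun c => c.1.1) fun _ => x
  obtain ⟨S, hS, -, hS2⟩ := hFNS L U hM hF C (s ⊕ Unit) t hC inferInstance
  have h1 : ∀ᶠ k in (𝒰 : Filter ℕ), ∃ s' ∈ S, ∃ (h : U ≃[L] U) (x : U), Nx L C h ∧
      (∀ c ∈ s, h (a k c.1) = c.2) ∧ h (a k x) = y ∧ Cj L (Nx L C) s' (w x) := by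
    refine h.mono ?_
    rintro k ⟨h0, hN0, hh0⟩
    have hx : h0 (a k ((a k).symm (h0.symm y))) = y := by
      rw [(a k).apply_symm_apply, h0.apply_symm_apply]
    have hcj : Cj L (Fx L C) t (w ((a k).symm (h0.symm y))) := by
      refine ⟨(h0.comp (a k)).symm, Pool.Agent.PMC.fx_symm
        (Pool.Agent.PMC.fx_comp (Pool.Agent.MNO.nx_fx hN0) (ha k)), fun i => ?_⟩
      apply (h0.comp (a k)).injective
      rw [(h0.comp (a k)).apply_symm_apply]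
      rcases i with c | i
      · exact (hh0 c.1 c.2).symm
      · exact hx.symm
    obtain ⟨s', hs', hs''⟩ := hS2 _ hcj
    exact ⟨s', hs', h0, _, hN0, hh0, hx, hs''⟩
  obtain ⟨s', -, h2⟩ := (Ultrafilter.eventually_exists_mem_iff hS).1 h1
  obtain ⟨k0, -, x, -, -, -, ⟨g0, hg0, hgg0⟩⟩ := h2.exists
  refine ⟨x, h2.mono ?_⟩
  rintro k ⟨h1, x1, hN1, hh1, hx1, ⟨g1, hg1, hgg1⟩⟩
  -- `g` maps `(s, x)` to `(s, x1)`
  let g : U ≃[L] U := g1.comp g0.symm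
  have hg : Nx L C g := Pool.Agent.MNO.nx_comp hg1 (Pool.Agent.MNO.nx_symm hg0)
  have hgw : ∀ i, g (w x i) = w x1 i := by
    intro i
    change g1 (g0.symm (w x i)) = w x1 i
    rw [← hgg0 i, g0.symm_apply_apply, hgg1]
  refine ⟨h1.comp ((a k).comp (g.comp (a k).symm)),
    Pool.Agent.MNO.nx_comp hN1 (Pool.Agent.MNO.nx_conj_fx hM (ha k) hg), ?_⟩
  have e1 : ∀ z, (h1.comp ((a k).comp (g.comp (a k).symm))) (a k z) = h1 (a k (g z)) := by
    intro z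
    change h1 (a k (g ((a k).symm (a k z)))) = _
    rw [(a k).symm_apply_apply]
  rintro c (rfl | hc)
  · rw [e1]
    have e2 : g x = x1 := hgw (Sum.inr ())
    change h1 (a k (g x)) = y
    rw [e2, hx1]
  · rw [e1]
    have e2 : g c.1 = c.1 := hgw (Sum.inl ⟨c, hc⟩)
    rw [e2]
    exact hh1 c hc

end LMAx

open LMAx in
theorem thm_LMA (hGRP : St_GRP) (hFNS : St_FNS) : St_LMA := by
  intro L U _ hM hF C hC a ha
  have _ := hM.ctb
  have _ := hM.inf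
  have _ : Nonempty U := inferInstance
  let 𝒰 : Ultrafilter ℕ := Filter.hyperfilter ℕ
  obtain ⟨e, -, he⟩ := Pool.Agent.MNO.STG.baf (P L 𝒰 C a)
    (fun s t hs hts => hs.mono fun k ⟨h, h1, h2⟩ => ⟨h, h1, fun c hc => h2 c (hts hc)⟩)
    (finite_empty (α := U × U))
    (Filter.Eventually.of_forall fun k => ⟨_, Pool.Agent.MNO.nx_refl C,
      fun c hc => absurd hc (notMem_empty _)⟩)
    (fun s hs h x => forth hFNS hM hF hC ha hs h x)
    (fun s hs h y => back hFNS hM hF hC ha hs h y)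
    (fun s hs h c hc c' hc' => by
      obtain ⟨k, h1, -, h2⟩ := h.exists
      rw [← h2 c hc, ← h2 c' hc']
      exact ((h1.injective.comp (a k).injective).eq_iff (a := c.1) (b := c'.1)).symm)
  obtain ⟨b, hb⟩ := Pool.Agent.MNO.STG.exists_equiv (L := L) e (fun s hs => by
    obtain ⟨k, h1, -, h2⟩ := (he s hs).exists
    exact ⟨h1.comp (a k), fun z hz => h2 _ ⟨z, hz, rfl⟩⟩)
  refine ⟨b, fun m N s => ?_⟩
  have h1 : ∀ᶠ k in (𝒰 : Filter ℕ), N ≤ k := by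
    have h2 : ∀ᶠ k in (Filter.cofinite : Filter ℕ), N ≤ k := by
      rw [Nat.cofinite_eq_atTop]
      exact Filter.eventually_ge_atTop N
    exact Filter.hyperfilter_le_cofinite h2
  obtain ⟨k, ⟨h, hN, hh⟩, hk⟩ := ((he (range s) (finite_range s)).and h1).exists
  refine ⟨k, hk, h, hN, fun i => ?_⟩
  exact (hh _ ⟨s i, ⟨i, rfl⟩, rfl⟩).trans (hb (s i)).symm

end Pool.Agent.MTC
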