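import Pool.Agent.MTC.StA

/-!
# MTC: from `G` to `Nx C` (helper81)
-/

set_option autoImplicit false
set_option linter.unusedVariables false

namespace Pool.Agent.MTC

open FirstOrder.Language Set
open scoped FirstOrder
open Pool.Agent.WOM (tp Mon IsEl IsoM CtU Fx Orb Isd)
open Pool.Agent.PMC (Sm Md NPf)
open Pool.Agent.MNO (Dp FE Sq Nx SmN FE1 FinN nx_refl nx_symm nx_comp nx_conj_fx)
open Pool.Agent.TPC (Bq Pq Sub Fcp Lin Fre Iv Kl Inr Lab Clu Rgd Ist Cpt)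

/-- an increasing sequence of finite sets which exhausts a countable type -/
theorem lmg_exh (T : Type) [Countable T] [Nonempty T] : ∃ Δ : ℕ → Set T, (∀ k, (Δ k).Finite) ∧
    (∀ k l, k ≤ l → Δ k ⊆ Δ l) ∧ ∀ S : Set T, S.Finite → ∃ k, S ⊆ Δ k := by
  obtain ⟨ex, hex⟩ := exists_surjective_nat T
  have hmono : ∀ k l, k ≤ l → ex '' Iio k ⊆ ex '' Iio l := fun k l hkl =>
    image_mono (Iio_subset_Iio hkl)
  refine ⟨fun k => ex '' Iio k, fun k => (finite_Iio k).image _, hmono, fun S hS => ?_⟩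
  induction S, hS using Set.Finite.induction_on with
  | empty => exact ⟨0, empty_subset _⟩
  | @insert a S _ _ ih =>
    obtain ⟨k, hk⟩ := ih
    obtain ⟨j, rfl⟩ := hex a
    refine ⟨max k (j + 1), insert_subset ⟨j, ?_, rfl⟩ (hk.trans (hmono _ _ (le_max_left _ _)))⟩
    exact lt_of_lt_of_le (Nat.lt_succ_self j) (le_max_right _ _)

theorem thm_LMG (hGEQ : St_GEQ) (hGRP : St_GRP) (hLMS : St_LMS) (hLMA : St_LMA)
    (hDEP : St_DEP) : St_LMG := by
  intro L U _ hM hF G C hGr hcl X Y hEq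
  have _ := hM.ctb
  have _ := hM.inf
  have _ : Nonempty U := inferInstance
  have _ : Nonempty (Atm U) := ⟨⟨0, 0, Sum.elim Fin.elim0 Fin.elim0⟩⟩
  have _ : Countable (Atm U) := inferInstance
  obtain ⟨Δ, Δf, Δm, Δe⟩ := lmg_exh (Atm U)
  obtain ⟨D, Df, Dm, De⟩ := lmg_exh U
  have h1 : ∀ k, ∃ g : U ≃[L] U, G g ∧ Eg L (Nx L C) C (Δ k) (D k) k Empty X
      (Empty.elim : Empty → U) (g '' Y) (Empty.elim : Empty → U) := fun k =>
    hLMS L U hM hF G C hGr X Y hEq (Δ k) (D k) k (Δf k) (Df k)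
  choose g hg hgE using h1
  obtain ⟨b, hb⟩ := hLMA L U hM hF C hGr.fin (fun k => (g k).symm)
    (fun k => hGr.fx _ (hGr.inv _ (hg k)))
  have hbG : G b := by
    apply hcl
    intro m s
    obtain ⟨k, -, hk⟩ := hb m 0 s
    exact ⟨(g k).symm, hGr.inv _ (hg k), hk⟩
  refine ⟨b.symm, hGr.inv b hbG, ?_⟩
  intro Δ' D' n hΔ' hD'
  -- a tuple with all entries
  have hSf : ((⋃ δ ∈ Δ', range δ.2.2) ∪ D').Finite :=
    (hΔ'.biUnion fun δ _ => finite_range _).union hD'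
  obtain ⟨m, s, hs⟩ : ∃ (m : ℕ) (s : Fin m → U), range s = (⋃ δ ∈ Δ', range δ.2.2) ∪ D' := by
    have _ : Finite ↥((⋃ δ ∈ Δ', range δ.2.2) ∪ D') := hSf.to_subtype
    obtain ⟨m, ⟨e⟩⟩ := Finite.exists_equiv_fin ↥((⋃ δ ∈ Δ', range δ.2.2) ∪ D')
    refine ⟨m, fun i => (e.symm i : U), ?_⟩
    ext x
    constructor
    · rintro ⟨i, rfl⟩
      exact (e.symm i).2
    · intro hx
      exact ⟨e ⟨x, hx⟩, by simp only [Equiv.symm_apply_apply]⟩
  obtain ⟨k1, hk1⟩ := Δe Δ' hΔ'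
  obtain ⟨k2, hk2⟩ := De D' hD'
  obtain ⟨k, hk, h, hN, hh⟩ := hb m (max n (max k1 k2)) s
  have hkn : n ≤ k := (le_max_left _ _).trans hk
  have hkΔ : Δ' ⊆ Δ k := hk1.trans (Δm _ _ (((le_max_left _ _).trans (le_max_right _ _)).trans hk))
  have hkD : D' ⊆ D k := hk2.trans (Dm _ _ (((le_max_right _ _).trans (le_max_right _ _)).trans hk))
  let γ : U ≃[L] U := b.symm.comp (g k).symm
  have hγ : Fx L C γ := Pool.Agent.PMC.fx_comp (hGr.fx _ (hGr.inv b hbG))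
    (hGr.fx _ (hGr.inv _ (hg k)))
  let h' : U ≃[L] U := b.symm.comp (h.symm.comp b.symm.symm)
  have hh' : Nx L C h' := nx_conj_fx hM (hGr.fx _ (hGr.inv b hbG)) (nx_symm hN)
  have hgx : ∀ x ∈ (⋃ δ ∈ Δ', range δ.2.2) ∪ D', h' x = γ x := by
    intro x hx
    rw [← hs] at hx
    obtain ⟨i, rfl⟩ := hx
    have e1 : h ((g k).symm (s i)) = b (s i) := hh i
    change b.symm (h.symm (b.symm.symm (s i))) = b.symm ((g k).symm (s i))
    have e2 : b.symm.symm (s i) = b (s i) := rfl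
    rw [e2, ← e1, h.symm_apply_apply]
  have hdep := hDEP L U hM C Δ' D' γ hγ
    (fun δ hδ => ⟨h', hh', fun i => hgx _ (Or.inl (mem_biUnion hδ ⟨i, rfl⟩))⟩)
    (fun u hu => ⟨h', hh', hgx _ (Or.inr hu)⟩) n Empty (g k '' Y) (Empty.elim : Empty → U)
  have e3 : γ '' (g k '' Y) = b.symm '' Y := by
    rw [image_image]
    apply image_congr
    intro y _
    change b.symm ((g k).symm (g k y)) = b.symm y
    rw [(g k).symm_apply_apply]
  have e4 : (fun a => γ ((Empty.elim : Empty → U) a)) = (Empty.elim : Empty → U) :=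
    funext fun a => a.elim
  rw [e3, e4] at hdep
  obtain ⟨-, -, q3, q4, -⟩ := hGEQ L U (Nx L C) C Δ' D' n Empty
  exact q3 _ _ _ _ _ _ (q4 (Δ k) (D k) k hkΔ hkD hkn _ _ _ _ (hgE k)) hdep

end Pool.Agent.MTC
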