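import Pool.Agent.MTC.StA
import Pool.Agent.MNO.NBA

/-!
# MTC, module LMS: from `G` to `Nx C`, one game (helper56)
-/

set_option autoImplicit false
set_option linter.unusedVariables false

namespace Pool.Agent.MTC

open FirstOrder.Language Set
open scoped FirstOrder
open Pool.Agent.WOM (tp Mon IsEl IsoM CtU Fx Orb Isd)
open Pool.Agent.PMC (Sm Md NPf)
open Pool.Agent.MNO (Dp FE Sq Nx SmN FE1 FinN nx_refl nx_symm nx_comp)

section cj

variable {L : FirstOrder.Language.{0, 0}} {U : Type} [L.Structure U]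

private theorem lms_refl {C : Set U} {α : Type} (s : α → U) : Cj L (Nx L C) s s :=
  ⟨FirstOrder.Language.Equiv.refl L U, nx_refl C, fun _ => rfl⟩

private theorem lms_symm {C : Set U} {α : Type} {s t : α → U} (h : Cj L (Nx L C) s t) :
    Cj L (Nx L C) t s := by
  obtain ⟨g, hg, h1⟩ := h
  refine ⟨g.symm, nx_symm hg, fun i => ?_⟩
  rw [← h1 i, g.symm_apply_apply]

private theorem lms_trans {C : Set U} {α : Type} {s t r : α → U} (h : Cj L (Nx L C) s t)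
    (h' : Cj L (Nx L C) t r) : Cj L (Nx L C) s r := by
  obtain ⟨g, hg, h1⟩ := h
  obtain ⟨g', hg', h2⟩ := h'
  refine ⟨g'.comp g, nx_comp hg' hg, fun i => ?_⟩
  rw [FirstOrder.Language.Equiv.comp_apply, h1, h2]

private theorem lms_transG {G : (U ≃[L] U) → Prop} {C : Set U} (hG : Gr L G C) {α : Type}
    {s t r : α → U} (h : Cj L G s t) (h' : Cj L G t r) : Cj L G s r := by
  obtain ⟨g, hg, h1⟩ := h
  obtain ⟨g', hg', h2⟩ := h'
  refine ⟨g'.comp g, hG.mul g g' hg hg', fun i => ?_⟩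
  rw [FirstOrder.Language.Equiv.comp_apply, h1, h2]

private theorem lms_nx {G : (U ≃[L] U) → Prop} {C : Set U} (hG : Gr L G C) {α : Type}
    {s t : α → U} (h : Cj L (Nx L C) s t) : Cj L G s t := by
  obtain ⟨g, hg, h1⟩ := h
  exact ⟨g, hG.nx g hg, h1⟩

private theorem lms_fx {G : (U ≃[L] U) → Prop} {C : Set U} (hG : Gr L G C) {α : Type}
    {s t : α → U} (h : Cj L G s t) : Cj L (Fx L C) s t := by
  obtain ⟨g, hg, h1⟩ := h
  exact ⟨g, hG.fx g hg, h1⟩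

private theorem lms_re {G : (U ≃[L] U) → Prop} {α β : Type} {s t : α → U} (f : β → α)
    (h : Cj L G s t) : Cj L G (fun b => s (f b)) (fun b => t (f b)) := by
  obtain ⟨g, hg, h1⟩ := h
  exact ⟨g, hg, fun b => h1 (f b)⟩

end cj

section main

variable {L : FirstOrder.Language.{0, 0}} {U : Type} [L.Structure U]

private theorem lms_el {α β γ : Type} (v : α → U) (i : β → α) (j : γ → α) :
    (Sum.elim (fun a => v (i a)) fun a => v (j a)) = fun b => v (Sum.elim i j b) := by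
  funext b
  cases b <;> rfl

/-- the atom with an empty first part -/
private def lms_a (δ : Atm U) : Atm U :=
  ⟨0, δ.1 + δ.2.1, Sum.elim Fin.elim0 (fun a => δ.2.2 (finSumFinEquiv.symm a))⟩

private def lms_b (u : U) : Atm U := ⟨0, 1, Sum.elim Fin.elim0 (fun _ => u)⟩

private theorem lms_fin (hFNS : St_FNS) (hM : Mon L U) (hF : FinN L U) {G : (U ≃[L] U) → Prop}
    {C : Set U} (hG : Gr L G C) (X : Set U) (T : Set (Atm U)) (hT : T.Finite) :
    ∃ (p : ℕ) (c : Fin p → U), (∀ i, c i ∈ X) ∧ ∀ δ ∈ T, ∀ t : Fin δ.1 ⊕ Fin δ.2.1 → U,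
      (∀ a, t a ∈ X) → Cj L G δ.2.2 t →
      ∃ e : Fin δ.1 ⊕ Fin δ.2.1 → Fin p, Cj L (Nx L C) t (fun a => c (e a)) := by
  classical
  choose S hS1 hS2 hS3 using fun δ : Atm U =>
    hFNS L U hM hF C (Fin δ.1 ⊕ Fin δ.2.1) δ.2.2 hG.fin inferInstance
  let F : ∀ δ : Atm U, (Fin δ.1 ⊕ Fin δ.2.1 → U) → (Fin δ.1 ⊕ Fin δ.2.1 → U) := fun δ s =>
    if h : ∃ t : Fin δ.1 ⊕ Fin δ.2.1 → U, (∀ a, t a ∈ X) ∧ Cj L (Nx L C) s t then h.choose else s
  have hFp : ∀ (δ : Atm U) (s : Fin δ.1 ⊕ Fin δ.2.1 → U),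
      (∃ t : Fin δ.1 ⊕ Fin δ.2.1 → U, (∀ a, t a ∈ X) ∧ Cj L (Nx L C) s t) →
      (∀ a, F δ s a ∈ X) ∧ Cj L (Nx L C) s (F δ s) := by
    intro δ s h
    have h1 : F δ s = h.choose := dif_pos h
    rw [h1]
    exact h.choose_spec
  have hE : (⋃ δ ∈ T, ⋃ s ∈ S δ, (range (F δ s) ∩ X)).Finite :=
    hT.biUnion fun δ _ => (hS1 δ).biUnion fun s _ => (finite_range _).subset inter_subset_left
  have hEX : (⋃ δ ∈ T, ⋃ s ∈ S δ, (range (F δ s) ∩ X)) ⊆ X :=
    iUnion₂_subset fun δ _ => iUnion₂_subset fun s _ => inter_subset_right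
  have hfin : Finite ↥(⋃ δ ∈ T, ⋃ s ∈ S δ, (range (F δ s) ∩ X)) := hE.to_subtype
  obtain ⟨p, ⟨eq⟩⟩ := Finite.exists_equiv_fin ↥(⋃ δ ∈ T, ⋃ s ∈ S δ, (range (F δ s) ∩ X))
  refine ⟨p, fun i => (eq.symm i).1, fun i => hEX (eq.symm i).2, ?_⟩
  intro δ hδ t ht hGt
  obtain ⟨s, hs, hst⟩ := hS3 δ t (lms_fx hG hGt)
  obtain ⟨h1, h2⟩ := hFp δ s ⟨t, ht, hst⟩
  have h3 : ∀ a, F δ s a ∈ ⋃ δ ∈ T, ⋃ s ∈ S δ, (range (F δ s) ∩ X) := fun a =>
    mem_iUnion₂.mpr ⟨δ, hδ, mem_iUnion₂.mpr ⟨s, hs, ⟨a, rfl⟩, h1 a⟩⟩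
  refine ⟨fun a => eq ⟨F δ s a, h3 a⟩, ?_⟩
  have h4 : (fun a => ((eq.symm (eq ⟨F δ s a, h3 a⟩)).1 : U)) = F δ s := by
    funext a
    rw [Equiv.symm_apply_apply]
  rw [h4]
  exact lms_trans (lms_symm hst) h2

private theorem lms_at {G : (U ≃[L] U) → Prop} {C : Set U} (hG : Gr L G C) (X : Set U) {p : ℕ}
    (c : Fin p → U) (Δ₀ Δ' : Set (Atm U)) (h0 : Δ₀ ⊆ Δ') (h1 : ∀ δ ∈ Δ₀, lms_a δ ∈ Δ')
    (hst : ∀ δ ∈ Δ₀, ∀ t : Fin δ.1 ⊕ Fin δ.2.1 → U, (∀ a, t a ∈ X) → Cj L G δ.2.2 t →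
      ∃ e : Fin δ.1 ⊕ Fin δ.2.1 → Fin p, Cj L (Nx L C) t (fun a => c (e a)))
    {α : Type} (v w : α → U) (hv : ∀ a, v a ∈ X)
    (hAt : At L G C Δ' (Sum.elim c v) (Sum.elim c w)) : At L (Nx L C) C Δ₀ v w := by
  intro δ hδ i j
  have a1 : Cj L G δ.2.2 (Sum.elim (fun a => v (i a)) fun a => v (j a)) ↔
      Cj L G δ.2.2 (Sum.elim (fun a => w (i a)) fun a => w (j a)) :=
    (hAt δ (h0 hδ) (fun a => Sum.inr (i a)) (fun a => Sum.inr (j a))).1
  have key : ∀ e : Fin δ.1 ⊕ Fin δ.2.1 → Fin p,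
      Cj L G δ.2.2 (fun b => v (Sum.elim i j b)) → Cj L G δ.2.2 (fun b => c (e b)) →
      (Cj L (Nx L C) (fun b => v (Sum.elim i j b)) (fun b => c (e b)) ↔
        Cj L (Nx L C) (fun b => w (Sum.elim i j b)) (fun b => c (e b))) := by
    intro e k1 k2
    have h2 := (hAt (lms_a δ) (h1 δ hδ) Fin.elim0
      (fun a => Sum.inr (Sum.elim i j (finSumFinEquiv.symm a)))).2
      (fun a => Sum.inl (e (finSumFinEquiv.symm a)))
    have c1 : Cj L G (lms_a δ).2.2 (Sum.elim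
        (fun a : Fin 0 => Sum.elim c v (Fin.elim0 a))
        fun a : Fin (δ.1 + δ.2.1) => Sum.elim c v
          (Sum.inr (Sum.elim i j (finSumFinEquiv.symm a)))) := by
      obtain ⟨g, hg, k⟩ := k1
      refine ⟨g, hg, ?_⟩
      rintro (a | a)
      · exact a.elim0
      · exact k (finSumFinEquiv.symm a)
    have c2 : Cj L G (lms_a δ).2.2 (Sum.elim
        (fun a : Fin 0 => Sum.elim c v (Fin.elim0 a))
        fun a : Fin (δ.1 + δ.2.1) => Sum.elim c v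
          (Sum.inl (e (finSumFinEquiv.symm a)))) := by
      obtain ⟨g, hg, k⟩ := k2
      refine ⟨g, hg, ?_⟩
      rintro (a | a)
      · exact a.elim0
      · exact k (finSumFinEquiv.symm a)
    have h3 := h2 c1 c2
    have hr : ∀ f : Fin (lms_a δ).1 → U, C ∪ range f = C := by
      intro f
      have : IsEmpty (Fin (lms_a δ).1) := Fin.isEmpty
      rw [range_eq_empty, union_empty]
    rw [hr, hr] at h3
    have tr : ∀ z : Fin δ.1 ⊕ Fin δ.2.1 → U,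
        Cj L (Nx L C) z (fun b => c (e b)) ↔
        Cj L (Nx L C) (fun a : Fin (δ.1 + δ.2.1) => z (finSumFinEquiv.symm a))
          (fun a => c (e (finSumFinEquiv.symm a))) := by
      intro z
      constructor
      · exact lms_re (fun a : Fin (δ.1 + δ.2.1) => finSumFinEquiv.symm a)
      · intro h
        have h4 := lms_re (fun b : Fin δ.1 ⊕ Fin δ.2.1 => finSumFinEquiv b) h
        simp only [Equiv.symm_apply_apply] at h4
        exact h4
    rw [tr, tr]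
    exact h3
  refine ⟨?_, ?_⟩
  · rw [lms_el, lms_el] at a1 ⊢
    constructor
    · intro h
      have g1 : Cj L G δ.2.2 (fun b => v (Sum.elim i j b)) := lms_nx hG h
      obtain ⟨e, he⟩ := hst δ hδ _ (fun a => hv _) g1
      have g2 : Cj L G δ.2.2 (fun b => c (e b)) := lms_transG hG g1 (lms_nx hG he)
      exact lms_trans (lms_trans h he) (lms_symm ((key e g1 g2).mp he))
    · intro h
      have g1 : Cj L G δ.2.2 (fun b => v (Sum.elim i j b)) := a1.mpr (lms_nx hG h)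
      obtain ⟨e, he⟩ := hst δ hδ _ (fun a => hv _) g1
      have g2 : Cj L G δ.2.2 (fun b => c (e b)) := lms_transG hG g1 (lms_nx hG he)
      exact lms_trans (lms_trans h ((key e g1 g2).mp he)) (lms_symm he)
  · intro j' k1 k2
    exact (hAt δ (h0 hδ) (fun a => Sum.inr (i a)) (fun a => Sum.inr (j a))).2
      (fun a => Sum.inr (j' a)) (lms_nx hG k1) (lms_nx hG k2)

private theorem lms_claim (hGEQ : St_GEQ) {G : (U ≃[L] U) → Prop} {C : Set U} (hG : Gr L G C)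
    (X Y' : Set U) {p : ℕ} (c : Fin p → U) (Δ₀ Δ' : Set (Atm U)) (D : Set U) (h0 : Δ₀ ⊆ Δ')
    (h1 : ∀ δ ∈ Δ₀, lms_a δ ∈ Δ') (hD : ∀ u ∈ D, lms_b u ∈ Δ₀)
    (hst : ∀ δ ∈ Δ₀, ∀ t : Fin δ.1 ⊕ Fin δ.2.1 → U, (∀ a, t a ∈ X) → Cj L G δ.2.2 t →
      ∃ e : Fin δ.1 ⊕ Fin δ.2.1 → Fin p, Cj L (Nx L C) t (fun a => c (e a))) :
    ∀ (n : ℕ) (α : Type) (v w : α → U), (∀ a, v a ∈ X) →
      Eg L G C Δ' D n (Fin p ⊕ α) X (Sum.elim c v) Y' (Sum.elim c w) →
      Eg L (Nx L C) C Δ₀ D n α X v Y' w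
  | 0, α, v, w, hv, h => lms_at hG X c Δ₀ Δ' h0 h1 hst v w hv h
  | n + 1, α, v, w, hv, h => by
    have hb : ∀ (β : Type) (z z' : β → U) (u : U) (b : β), u ∈ D →
        At L (Nx L C) C Δ₀ z z' → (Cj1 L (Nx L C) u (z b) ↔ Cj1 L (Nx L C) u (z' b)) := by
      intro β z z' u b hu hAt
      have k1 := (hAt (lms_b u) (hD u hu) Fin.elim0 (fun _ => b)).1
      have k2 : ∀ y : β → U, Cj1 L (Nx L C) u (y b) ↔ Cj L (Nx L C) (lms_b u).2.2
          (Sum.elim (fun a : Fin 0 => y (Fin.elim0 a)) fun _ : Fin 1 => y b) := by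
        intro y
        constructor
        · rintro ⟨g, hg, k⟩
          refine ⟨g, hg, ?_⟩
          rintro (a | a)
          · exact a.elim0
          · exact k
        · rintro ⟨g, hg, k⟩
          exact ⟨g, hg, k (Sum.inr (0 : Fin 1))⟩
      rw [k2 z, k2 z']
      exact k1
    have hnx : ∀ u x, Cj1 L (Nx L C) u x → Cj1 L G u x := fun u x ⟨g, hg, k⟩ =>
      ⟨g, hG.nx g hg, k⟩
    have hre : ∀ (x y : U), Eg L G C Δ' D n (Option (Fin p ⊕ α)) X (ov (Sum.elim c v) x) Y'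
        (ov (Sum.elim c w) y) →
        Eg L G C Δ' D n (Fin p ⊕ Option α) X (Sum.elim c (ov v x)) Y' (Sum.elim c (ov w y)) := by
      intro x y hxy
      have k1 := (hGEQ L U G C Δ' D n (Option (Fin p ⊕ α))).2.2.2.2.1 (Fin p ⊕ Option α)
        (Sum.elim (fun a => some (Sum.inl a)) (fun o => o.elim none fun a => some (Sum.inr a)))
        X Y' _ _ hxy
      have k2 : ∀ (z : α → U) (x : U), (fun b => ov (Sum.elim c z) x
          ((Sum.elim (fun a => some (Sum.inl a))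
            (fun o : Option α => o.elim none fun a => some (Sum.inr a)) :
            Fin p ⊕ Option α → Option (Fin p ⊕ α)) b)) = Sum.elim c (ov z x) := by
        intro z x
        funext b
        rcases b with b | _ | b <;> rfl
      rw [k2, k2] at k1
      exact k1
    have hX : ∀ x ∈ X, ∀ a, ov v x a ∈ X := by
      intro x hx a
      rcases a with _ | a
      · exact hx
      · exact hv a
    obtain ⟨m1, m2, m3⟩ := h
    refine ⟨lms_at hG X c Δ₀ Δ' h0 h1 hst v w hv m1, ?_, ?_⟩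
    · intro u hu x hx hux
      obtain ⟨y, hy, huy, hg⟩ := m2 u hu x hx (hnx u x hux)
      have hg2 := lms_claim hGEQ hG X Y' c Δ₀ Δ' D h0 h1 hD hst n (Option α) (ov v x) (ov w y)
        (hX x hx) (hre x y hg)
      refine ⟨y, hy, ?_, hg2⟩
      have k1 := (hGEQ L U (Nx L C) C Δ₀ D n (Option α)).2.2.2.2.2 X Y' _ _ hg2
      exact (hb (Option α) _ _ u none hu k1).mp hux
    · intro u hu y hy huy
      obtain ⟨x, hx, hux, hg⟩ := m3 u hu y hy (hnx u y huy)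
      have hg2 := lms_claim hGEQ hG X Y' c Δ₀ Δ' D h0 h1 hD hst n (Option α) (ov v x) (ov w y)
        (hX x hx) (hre x y hg)
      refine ⟨x, hx, ?_, hg2⟩
      have k1 := (hGEQ L U (Nx L C) C Δ₀ D n (Option α)).2.2.2.2.2 X Y' _ _ hg2
      exact (hb (Option α) _ _ u none hu k1).mpr huy

end main

/-- [LMS] from `G` to `Nx C`, one game. -/
theorem thm_LMS (hGEQ : St_GEQ) (hGIN : St_GIN) (hFNS : St_FNS) : St_LMS := by
  intro L U _ hM hF G C hG X Y hXY Δ D n hΔ hD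
  have hΔ0 : (Δ ∪ lms_b '' D).Finite := hΔ.union (hD.image _)
  obtain ⟨p, c, hcX, hst⟩ := lms_fin hFNS hM hF hG X (Δ ∪ lms_b '' D) hΔ0
  let Δ₀ : Set (Atm U) := Δ ∪ lms_b '' D
  let Δ' : Set (Atm U) := Δ₀ ∪ lms_a '' Δ₀ ∪ {(⟨p, 0, Sum.elim c Fin.elim0⟩ : Atm U)}
  have hΔ' : Δ'.Finite := (hΔ0.union (hΔ0.image _)).union (finite_singleton _)
  have hD' : (D ∪ range c).Finite := hD.union (finite_range c)
  have e1 := hXY Δ' (D ∪ range c) (n + p) hΔ' hD'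
  have hrefl : G (FirstOrder.Language.Equiv.refl L U) := hG.nx _ (nx_refl C)
  obtain ⟨i1, i2, i3⟩ := hGIN L U hM G C hG Δ' (D ∪ range c) n Empty
  obtain ⟨c', hc'Y, hcc', e2⟩ := i3 p X Y _ _ c hcX
    (fun i => ⟨c i, Or.inr ⟨i, rfl⟩, FirstOrder.Language.Equiv.refl L U, hrefl, rfl⟩) e1
  obtain ⟨j1, j2, j3⟩ := hGIN L U hM G C hG Δ' (D ∪ range c) n (Empty ⊕ Fin p)
  have e3 : Cj L G c c' := j2 X Y _ _ p c (fun i => Sum.inr i) (Or.inr rfl) e2
    ⟨FirstOrder.Language.Equiv.refl L U, hrefl, fun _ => rfl⟩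
  obtain ⟨g₀, hg₀, hg₀c⟩ := e3
  have hg := hG.inv g₀ hg₀
  have hgc : ∀ i, g₀.symm (c' i) = c i := fun i => by
    rw [← hg₀c i, g₀.symm_apply_apply]
  have e4 := j1 X Y _ _ (FirstOrder.Language.Equiv.refl L U) g₀.symm hrefl hg e2
  have e5 := (hGEQ L U G C Δ' (D ∪ range c) n (Empty ⊕ Fin p)).2.2.2.2.1 (Fin p ⊕ Empty)
    (Sum.elim Sum.inr Sum.inl) _ _ _ _ e4
  have hX : (FirstOrder.Language.Equiv.refl L U) '' X = X := by
    ext x
    constructor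
    · rintro ⟨y, hy, rfl⟩
      exact hy
    · intro hx
      exact ⟨x, hx, rfl⟩
  have hv : (fun b : Fin p ⊕ Empty => (FirstOrder.Language.Equiv.refl L U)
      (Sum.elim (Empty.elim : Empty → U) c
        ((Sum.elim Sum.inr Sum.inl : Fin p ⊕ Empty → Empty ⊕ Fin p) b))) =
      Sum.elim c (Empty.elim : Empty → U) := by
    funext b
    rcases b with b | b
    · rfl
    · exact b.elim
  have hw : (fun b : Fin p ⊕ Empty => g₀.symm
      (Sum.elim (Empty.elim : Empty → U) c'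
        ((Sum.elim Sum.inr Sum.inl : Fin p ⊕ Empty → Empty ⊕ Fin p) b))) =
      Sum.elim c (Empty.elim : Empty → U) := by
    funext b
    rcases b with b | b
    · exact hgc b
    · exact b.elim
  rw [hX, hv, hw] at e5
  have e7 := (hGEQ L U G C Δ' D n (Fin p ⊕ Empty)).2.2.2.1 Δ' (D ∪ range c) n subset_rfl
    subset_union_left le_rfl _ _ _ _ e5
  have e8 := lms_claim hGEQ hG X (g₀.symm '' Y) c Δ₀ Δ' D
    (fun δ h => Or.inl (Or.inl h)) (fun δ h => Or.inl (Or.inr ⟨δ, h, rfl⟩))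
    (fun u hu => Or.inr ⟨u, hu, rfl⟩) hst n Empty Empty.elim Empty.elim (fun a => a.elim) e7
  exact ⟨g₀.symm, hg, (hGEQ L U (Nx L C) C Δ D n Empty).2.2.2.1 Δ₀ D n subset_union_left
    subset_rfl le_rfl _ _ _ _ e8⟩

end Pool.Agent.MTC
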