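import Pool.Agent.MTC.StB

/-!
# MTC: module LNM (linear pieces are determined by their theory)

The first part is a copy of `TPC/LCL.lean` (back and forth along the clusters of a linear piece).
-/

set_option autoImplicit false
set_option linter.unusedVariables false

namespace Pool.Agent.MTC

open FirstOrder.Language Set
open scoped FirstOrder
open Pool.Agent.WOM (tp Mon IsEl IsoM CtU Fx Orb Isd)
open Pool.Agent.PMC (Sm Md NPf)
open Pool.Agent.MNO (Dp FE Sq Nx SmN FE1 FinN nx_symm nx_fx nx_comp nx_refl thm_BAF thm_BAG)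
open Pool.Agent.TPC (Bq Pq Sub Fcp Lin Fre Iv Kl Inr Lab Clu Rgd Ist Cpt St_LGR)

/-! ### Strict weak orders -/

private structure LNM_WO {U : Type} (W : U → U → Prop) (E : Set U) : Prop where
  irr : ∀ x ∈ E, ¬ W x x
  neg : ∀ u ∈ E, ∀ w ∈ E, W u w → ∀ v ∈ E, W u v ∨ W v w
  tra : ∀ u ∈ E, ∀ v ∈ E, ∀ w ∈ E, W u v → W v w → W u w

/-- `p` is in the first cluster of `X` -/
private def LNM_Fst {U : Type} (W : U → U → Prop) (X : Set U) (p : U) : Prop := ∀ q ∈ X, ¬ W q p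

private theorem LNM_WO.swap {U : Type} {W : U → U → Prop} {E : Set U} (h : LNM_WO W E) :
    LNM_WO (fun a b => W b a) E where
  irr := h.irr
  neg := fun u hu w hw h1 v hv => (h.neg w hw u hu h1 v hv).symm
  tra := fun u hu v hv w hw h1 h2 => h.tra w hw v hv u hu h2 h1

private theorem LNM_WO.asy {U : Type} {W : U → U → Prop} {E : Set U} (h : LNM_WO W E) {x y : U}
    (hx : x ∈ E) (hy : y ∈ E) (h1 : W x y) : ¬ W y x :=
  fun h2 => h.irr x hx (h.tra x hx y hy x hx h1 h2)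

/-- equivalent points -/
private theorem LNM_WO.eqv {U : Type} {W : U → U → Prop} {E : Set U} (h : LNM_WO W E) {a b : U}
    (ha : a ∈ E) (hb : b ∈ E) (h1 : ¬ W a b) (h2 : ¬ W b a) {c : U} (hc : c ∈ E) :
    (W a c ↔ W b c) ∧ (W c a ↔ W c b) := by
  refine ⟨⟨fun h3 => ?_, fun h3 => ?_⟩, ⟨fun h3 => ?_, fun h3 => ?_⟩⟩
  · exact (h.neg a ha c hc h3 b hb).resolve_left h1
  · exact (h.neg b hb c hc h3 a ha).resolve_left h2
  · exact (h.neg c hc a ha h3 b hb).resolve_right h2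
  · exact (h.neg c hc b hb h3 a ha).resolve_right h1

/-- a finite set has a last point -/
private theorem LNM_max {U : Type} {W : U → U → Prop} {E : Set U} (h : LNM_WO W E) {F : Set U}
    (hF : F.Finite) (hE : F ⊆ E) (hn : F.Nonempty) : ∃ m ∈ F, ∀ l ∈ F, ¬ W m l := by
  induction F, hF using Set.Finite.induction_on with
  | empty => exact absurd hn not_nonempty_empty
  | @insert a F ha hf ih =>
    have haE : a ∈ E := hE (mem_insert _ _)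
    have hFE : F ⊆ E := fun x hx => hE (mem_insert_of_mem _ hx)
    rcases F.eq_empty_or_nonempty with h0 | h0
    · subst h0
      refine ⟨a, mem_insert _ _, fun l hl => ?_⟩
      rcases hl with rfl | hl
      · exact h.irr _ haE
      · exact absurd hl (notMem_empty _)
    · obtain ⟨m, hm, hm2⟩ := ih hFE h0
      by_cases h1 : W m a
      · refine ⟨a, mem_insert _ _, fun l hl => ?_⟩
        rcases hl with rfl | hl
        · exact h.irr _ haE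
        · exact fun h2 => hm2 l hl (h.tra m (hFE hm) a haE l (hFE hl) h1 h2)
      · refine ⟨m, mem_insert_of_mem _ hm, fun l hl => ?_⟩
        rcases hl with rfl | hl
        · exact h1
        · exact hm2 l hl

/-- the same number of first clusters (0 or 1), with the same label -/
private def LNM_D {U : Type} (W : U → U → Prop) (X X' : Set U) (T T' : U → U → Prop) : Prop :=
  (∃ z, (∃ p ∈ X, LNM_Fst W X p ∧ T p z) ∧ ∃ p ∈ X', LNM_Fst W X' p ∧ T' p z) ∨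
    (∀ p ∈ X, ¬ LNM_Fst W X p) ∧ ∀ p ∈ X', ¬ LNM_Fst W X' p

private theorem LNM_first {U : Type} {W : U → U → Prop} {E X X' : Set U} {T T' : U → U → Prop}
    (h : LNM_WO W E) (hX : X ⊆ E) (hX' : X' ⊆ E) (hD : LNM_D W X X' T T')
    (ht : (∃ p ∈ X, ∃ q ∈ X, W p q) ↔ ∃ p ∈ X', ∃ q ∈ X', W p q)
    (hT : ∀ x ∈ X, ∀ p ∈ X, ¬ W x p → ¬ W p x → ∀ z, T p z → T x z) {x : U} (hx : x ∈ X)
    (hfx : LNM_Fst W X x) {B : Set U} (hB : B ⊆ X') (hB1 : ∀ u ∈ B, ¬ LNM_Fst W X' u) :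
    ∃ y ∈ X', (∀ u ∈ B, W y u) ∧ LNM_Fst W X' y ∧
      (LNM_Fst (fun a b => W b a) X x ↔ LNM_Fst (fun a b => W b a) X' y) ∧
      ∃ z, T x z ∧ T' y z := by
  rcases hD with ⟨z, ⟨p, hp, hfp, hTp⟩, ⟨y, hy, hfy, hTy⟩⟩ | ⟨h1, h2⟩
  · refine ⟨y, hy, fun u hu => ?_, hfy, ?_, z, hT x hx p hp (hfp x hx) (hfx p hp) z hTp, hTy⟩
    · have h3 := hB1 u hu
      unfold LNM_Fst at h3
      push Not at h3
      obtain ⟨q, hq, h4⟩ := h3
      exact (h.neg q (hX' hq) u (hX' (hB hu)) h4 y (hX' hy)).resolve_left (hfy q hq)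
    · have key : ∀ {Y : Set U}, Y ⊆ E → ∀ {v : U}, v ∈ Y → LNM_Fst W Y v →
          (LNM_Fst (fun a b => W b a) Y v ↔ ¬ ∃ p ∈ Y, ∃ q ∈ Y, W p q) := by
        intro Y hY v hv hf
        constructor
        · rintro hl ⟨p, hp, q, hq, hpq⟩
          rcases h.neg p (hY hp) q (hY hq) hpq v (hY hv) with h5 | h5
          · exact hf p hp h5
          · exact hl q hq h5
        · intro hn q hq hvq
          exact hn ⟨v, hv, q, hq, hvq⟩
      rw [key hX hx hfx, key hX' hy hfy, ht]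
  · exact absurd hfx (h1 x hx)

/-- the position of the new point -/
private theorem LNM_pos {U : Type} {W : U → U → Prop} {E X X' : Set U} {T T' : U → U → Prop}
    (h : LNM_WO W E) (hX : X ⊆ E) (hX' : X' ⊆ E) (hD : LNM_D W X X' T T')
    (hD' : LNM_D (fun a b => W b a) X X' T T')
    (ht : (∃ p ∈ X, ∃ q ∈ X, W p q) ↔ ∃ p ∈ X', ∃ q ∈ X', W p q)
    (hT : ∀ x ∈ X, ∀ p ∈ X, ¬ W x p → ¬ W p x → ∀ z, T p z → T x z)
    (hN : ∀ x ∈ X, ∃ z ∈ E, T x z)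
    (hI : ∀ p ∈ X', ∀ q ∈ X', W p q → ∀ z ∈ E, ∃ z' ∈ X', W p z' ∧ W z' q ∧ T' z' z)
    {x : U} (hx : x ∈ X) {A B : Set U} (hA : A ⊆ X') (hB : B ⊆ X') (hAf : A.Finite)
    (hBf : B.Finite) (hAB : ∀ a ∈ A, ∀ b ∈ B, W a b)
    (hA1 : ∀ a ∈ A, ¬ LNM_Fst (fun a b => W b a) X' a) (hB1 : ∀ b ∈ B, ¬ LNM_Fst W X' b)
    (hA2 : A.Nonempty → ¬ LNM_Fst W X x)
    (hB2 : B.Nonempty → ¬ LNM_Fst (fun a b => W b a) X x) :
    ∃ y ∈ X', (∀ a ∈ A, W a y) ∧ (∀ b ∈ B, W y b) ∧ (LNM_Fst W X x ↔ LNM_Fst W X' y) ∧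
      (LNM_Fst (fun a b => W b a) X x ↔ LNM_Fst (fun a b => W b a) X' y) ∧
      ∃ z, T x z ∧ T' y z := by
  by_cases h1 : LNM_Fst W X x
  · have hA0 : A = ∅ := by
      rcases A.eq_empty_or_nonempty with h0 | h0
      · exact h0
      · exact absurd h1 (hA2 h0)
    obtain ⟨y, hy, h2, h3, h4, h5⟩ := LNM_first h hX hX' hD ht hT hx h1 hB hB1
    exact ⟨y, hy, fun a ha => by rw [hA0] at ha; exact absurd ha (notMem_empty _), h2,
      ⟨fun _ => h3, fun _ => h1⟩, h4, h5⟩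
  · by_cases h2 : LNM_Fst (fun a b => W b a) X x
    · have hB0 : B = ∅ := by
        rcases B.eq_empty_or_nonempty with h0 | h0
        · exact h0
        · exact absurd h2 (hB2 h0)
      have ht' : (∃ p ∈ X, ∃ q ∈ X, W q p) ↔ ∃ p ∈ X', ∃ q ∈ X', W q p := by
        constructor
        · rintro ⟨p, hp, q, hq, h3⟩
          obtain ⟨p', hp', q', hq', h4⟩ := ht.1 ⟨q, hq, p, hp, h3⟩
          exact ⟨q', hq', p', hp', h4⟩
        · rintro ⟨p, hp, q, hq, h3⟩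
          obtain ⟨p', hp', q', hq', h4⟩ := ht.2 ⟨q, hq, p, hp, h3⟩
          exact ⟨q', hq', p', hp', h4⟩
      obtain ⟨y, hy, h3, h4, h5, h6⟩ := LNM_first h.swap hX hX' hD' ht'
        (fun x hx p hp h7 h8 => hT x hx p hp h8 h7) hx h2 hA hA1
      exact ⟨y, hy, h3, fun a ha => by rw [hB0] at ha; exact absurd ha (notMem_empty _), h5,
        ⟨fun _ => h4, fun _ => h2⟩, h6⟩
    · -- neither first nor last
      have hlu : ∃ l ∈ X', ∃ u ∈ X', W l u ∧ (∀ a ∈ A, ¬ W l a) ∧ ∀ b ∈ B, ¬ W b u := by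
        rcases A.eq_empty_or_nonempty with hA0 | hA0
        · rcases B.eq_empty_or_nonempty with hB0 | hB0
          · have h3 : ∃ p ∈ X, ∃ q ∈ X, W p q := by
              unfold LNM_Fst at h1
              push Not at h1
              obtain ⟨q, hq, h4⟩ := h1
              exact ⟨q, hq, x, hx, h4⟩
            obtain ⟨p, hp, q, hq, h4⟩ := ht.1 h3
            exact ⟨p, hp, q, hq, h4, fun a ha => by rw [hA0] at ha; exact absurd ha (notMem_empty _),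
              fun a ha => by rw [hB0] at ha; exact absurd ha (notMem_empty _)⟩
          · obtain ⟨u, hu, hu2⟩ := LNM_max h.swap hBf (hB.trans hX') hB0
            have h3 := hB1 u hu
            unfold LNM_Fst at h3
            push Not at h3
            obtain ⟨q, hq, h4⟩ := h3
            exact ⟨q, hq, u, hB hu, h4,
              fun a ha => by rw [hA0] at ha; exact absurd ha (notMem_empty _), hu2⟩
        · obtain ⟨l, hl, hl2⟩ := LNM_max h hAf (hA.trans hX') hA0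
          rcases B.eq_empty_or_nonempty with hB0 | hB0
          · have h3 := hA1 l hl
            unfold LNM_Fst at h3
            push Not at h3
            obtain ⟨q, hq, h4⟩ := h3
            exact ⟨l, hA hl, q, hq, h4, hl2,
              fun a ha => by rw [hB0] at ha; exact absurd ha (notMem_empty _)⟩
          · obtain ⟨u, hu, hu2⟩ := LNM_max h.swap hBf (hB.trans hX') hB0
            exact ⟨l, hA hl, u, hB hu, hAB l hl u hu, hl2, hu2⟩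
      obtain ⟨l, hl, u, hu, hlu, hl2, hu2⟩ := hlu
      obtain ⟨z, hz, hz2⟩ := hN x hx
      obtain ⟨y, hy, hly, hyu, hyz⟩ := hI l hl u hu hlu z hz
      refine ⟨y, hy, fun a ha => ?_, fun b hb => ?_, ⟨fun h3 => absurd h3 h1, fun h3 => ?_⟩,
        ⟨fun h3 => absurd h3 h2, fun h3 => ?_⟩, z, hz2, hyz⟩
      · exact (h.neg l (hX' hl) y (hX' hy) hly a (hX' (hA ha))).resolve_left (hl2 a ha)
      · exact (h.neg y (hX' hy) u (hX' hu) hyu b (hX' (hB hb))).resolve_right (hu2 b hb)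
      · exact absurd hly (h3 l hl)
      · exact absurd hyu (h3 u hu)

/-! ### Bijections with local automorphisms -/

section parts

variable {L : FirstOrder.Language.{0, 0}} {U : Type} [L.Structure U] {A E : Set U}
  {lt : U → U → Prop}

private def LNM_G (L : FirstOrder.Language.{0, 0}) {U : Type} [L.Structure U] (A X Y : Set U)
    (f : U → U) : Prop :=
  BijOn f X Y ∧ ∀ s : Set U, s.Finite → s ⊆ X → ∃ g : U ≃[L] U, Nx L A g ∧ ∀ x ∈ s, g x = f x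

private theorem LNM_G_of_SmN {X Y : Set U} (h : SmN L A X Y) : ∃ f, LNM_G L A X Y f := by
  classical
  obtain ⟨e, he⟩ := h
  have h1 : ∀ x (hx : x ∈ X), (if h : x ∈ X then (e ⟨x, h⟩ : U) else x) = e ⟨x, hx⟩ :=
    fun x hx => dif_pos hx
  refine ⟨fun x => if h : x ∈ X then (e ⟨x, h⟩ : U) else x, ⟨?_, ?_, ?_⟩, ?_⟩
  · intro x hx
    show (if h : x ∈ X then (e ⟨x, h⟩ : U) else x) ∈ Y
    rw [h1 x hx]
    exact (e ⟨x, hx⟩).2
  · intro x hx y hy hxy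
    have h2 : (if h : x ∈ X then (e ⟨x, h⟩ : U) else x) =
      (if h : y ∈ X then (e ⟨y, h⟩ : U) else y) := hxy
    rw [h1 x hx, h1 y hy] at h2
    have h3 := e.injective (Subtype.ext h2)
    exact congrArg Subtype.val h3
  · intro y hy
    refine ⟨(e.symm ⟨y, hy⟩ : X), (e.symm ⟨y, hy⟩).2, ?_⟩
    show (if h : ((e.symm ⟨y, hy⟩ : X) : U) ∈ X then (e ⟨(e.symm ⟨y, hy⟩ : X), h⟩ : U) else
      ((e.symm ⟨y, hy⟩ : X) : U)) = y
    rw [h1 _ (e.symm ⟨y, hy⟩).2]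
    simp
  · intro s hs hsX
    obtain ⟨g, hg, hg2⟩ := he (Subtype.val ⁻¹' s) (hs.preimage Subtype.val_injective.injOn)
    refine ⟨g, hg, fun x hx => ?_⟩
    show g x = (if h : x ∈ X then (e ⟨x, h⟩ : U) else x)
    rw [h1 x (hsX hx)]
    exact hg2 ⟨x, hsX hx⟩ hx

private theorem LNM_G_symm {X Y : Set U} {f : U → U} (h : LNM_G L A X Y f) :
    ∃ f', LNM_G L A Y X f' ∧ ∀ x ∈ X, f' (f x) = x := by
  classical
  rcases X.eq_empty_or_nonempty with h0 | ⟨x0, hx0⟩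
  · subst h0
    have hY : Y = ∅ := by
      rw [← h.1.image_eq, image_empty]
    subst hY
    exact ⟨f, h, fun x hx => absurd hx (notMem_empty _)⟩
  have hne : Nonempty U := ⟨x0⟩
  have h1 : InvOn (Function.invFunOn f X) f X Y := h.1.invOn_invFunOn
  refine ⟨Function.invFunOn f X, ⟨h.1.symm h1.symm, fun s hs hsY => ?_⟩, h1.1⟩
  have h2 : (Function.invFunOn f X '' s) ⊆ X := by
    rintro _ ⟨y, hy, rfl⟩
    exact (h.1.symm h1.symm).mapsTo (hsY hy)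
  obtain ⟨g, hg, hg2⟩ := h.2 (Function.invFunOn f X '' s) (hs.image _) h2
  refine ⟨g.symm, nx_symm hg, fun y hy => ?_⟩
  · have h3 := hg2 _ (mem_image_of_mem _ hy)
    rw [h1.2 (hsY hy)] at h3
    calc g.symm y = g.symm (g (Function.invFunOn f X y)) := by rw [h3]
      _ = _ := g.symm_apply_apply _

/-- the invariants of the back and forth construction -/
private structure LNM_P (L : FirstOrder.Language.{0, 0}) {U : Type} [L.Structure U]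
    (lt : U → U → Prop) (A E : Set U) (M M' : Set U)
    (s : Set (U × U)) : Prop where
  m1 : ∀ c ∈ s, c.1 ∈ M ∩ E
  m2 : ∀ c ∈ s, c.2 ∈ M' ∩ E
  w : ∀ c ∈ s, ∀ c' ∈ s, (lt c.1 c'.1 ↔ lt c.2 c'.2)
  f1 : ∀ c ∈ s, (LNM_Fst lt (M ∩ E) c.1 ↔ LNM_Fst lt (M' ∩ E) c.2)
  f2 : ∀ c ∈ s, (LNM_Fst (fun a b => lt b a) (M ∩ E) c.1 ↔
    LNM_Fst (fun a b => lt b a) (M' ∩ E) c.2)
  e : ∀ c ∈ s, ∃ f, LNM_G L A (Iv E lt M c.1 c.1) (Iv E lt M' c.2 c.2) f ∧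
    ∀ c' ∈ s, ¬ lt c'.1 c.1 → ¬ lt c.1 c'.1 → f c'.1 = c'.2

private theorem LNM_P.swap {M M' : Set U} {s : Set (U × U)} (h : LNM_P L lt A E M M' s) :
    LNM_P L lt A E M' M (Prod.swap '' s) where
  m1 := by
    rintro _ ⟨c, hc, rfl⟩
    exact h.m2 c hc
  m2 := by
    rintro _ ⟨c, hc, rfl⟩
    exact h.m1 c hc
  w := by
    rintro _ ⟨c, hc, rfl⟩ _ ⟨c', hc', rfl⟩
    exact (h.w c hc c' hc').symm
  f1 := by
    rintro _ ⟨c, hc, rfl⟩
    exact (h.f1 c hc).symm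
  f2 := by
    rintro _ ⟨c, hc, rfl⟩
    exact (h.f2 c hc).symm
  e := by
    rintro _ ⟨c, hc, rfl⟩
    obtain ⟨f, hf, hf2⟩ := h.e c hc
    obtain ⟨f', hf', hf2'⟩ := LNM_G_symm hf
    refine ⟨f', hf', ?_⟩
    rintro _ ⟨c', hc', rfl⟩ h1 h2
    have h3 : ¬ lt c'.1 c.1 := fun h4 => h1 ((h.w c' hc' c hc).1 h4)
    have h4 : ¬ lt c.1 c'.1 := fun h5 => h2 ((h.w c hc c' hc').1 h5)
    have h5 := hf2 c' hc' h3 h4
    show f' c'.2 = c'.1
    rw [← h5]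
    exact hf2' c'.1 ⟨(h.m1 c' hc').1, (h.m1 c' hc').2, h3, h4⟩

private theorem LNM_itv (hW : LNM_WO lt E) (M : Set U) {a b : U} (ha : a ∈ E)
    (hb : b ∈ E) (h1 : ¬ lt a b) (h2 : ¬ lt b a) :
    Iv E lt M a a = Iv E lt M b b := by
  ext z
  constructor
  · rintro ⟨hz, hzE, h3, h4⟩
    have h5 := hW.eqv ha hb h1 h2 hzE
    exact ⟨hz, hzE, fun h6 => h3 (h5.2.2 h6), fun h6 => h4 (h5.1.2 h6)⟩
  · rintro ⟨hz, hzE, h3, h4⟩
    have h5 := hW.eqv ha hb h1 h2 hzE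
    exact ⟨hz, hzE, fun h6 => h3 (h5.2.1 h6), fun h6 => h4 (h5.1.1 h6)⟩

/-- adding a point equivalent to an old one, or a point of a new cluster -/
private theorem LNM_insert (hW : LNM_WO lt E) {M M' : Set U} {s : Set (U × U)}
    (h : LNM_P L lt A E M M' s) {x y y' : U} {f : U → U} (hx : x ∈ M ∩ E) (hy' : y' ∈ M' ∩ E)
    (hf : LNM_G L A (Iv E lt M x x) (Iv E lt M' y' y') f) (hy : f x = y)
    (hw : ∀ c ∈ s, (lt x c.1 ↔ lt y' c.2) ∧
      (lt c.1 x ↔ lt c.2 y'))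
    (h1 : LNM_Fst lt (M ∩ E) x ↔ LNM_Fst lt (M' ∩ E) y')
    (h2 : LNM_Fst (fun a b => lt b a) (M ∩ E) x ↔
      LNM_Fst (fun a b => lt b a) (M' ∩ E) y')
    (h3 : ∀ c ∈ s, ¬ lt c.1 x → ¬ lt x c.1 → f c.1 = c.2) :
    LNM_P L lt A E M M' (insert (x, y) s) := by
  have hxI : x ∈ Iv E lt M x x := ⟨hx.1, hx.2, hW.irr x hx.2, hW.irr x hx.2⟩
  have hyI : y ∈ Iv E lt M' y' y' := hy ▸ hf.1.mapsTo hxI
  obtain ⟨hy1, hy2, hy3, hy4⟩ := hyI
  have hyy : ∀ {c : U}, c ∈ E → (lt y c ↔ lt y' c) ∧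
    (lt c y ↔ lt c y') := fun hc => hW.eqv hy2 hy'.2 hy3 hy4 hc
  have hI : Iv E lt M' y y = Iv E lt M' y' y' := LNM_itv hW M' hy2 hy'.2 hy3 hy4
  refine ⟨?_, ?_, ?_, ?_, ?_, ?_⟩
  · rintro c (rfl | hc)
    · exact hx
    · exact h.m1 c hc
  · rintro c (rfl | hc)
    · exact ⟨hy1, hy2⟩
    · exact h.m2 c hc
  · rintro c (rfl | hc) c' (rfl | hc')
    · exact ⟨fun h4 => absurd h4 (hW.irr x hx.2), fun h4 => absurd h4 (hW.irr y hy2)⟩
    · exact (hw c' hc').1.trans (hyy (h.m2 c' hc').2).1.symm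
    · exact (hw c hc).2.trans (hyy (h.m2 c hc).2).2.symm
    · exact h.w c hc c' hc'
  · rintro c (rfl | hc)
    · refine h1.trans ⟨fun h4 q hq h5 => h4 q hq ((hyy hq.2).2.1 h5),
        fun h4 q hq h5 => h4 q hq ((hyy hq.2).2.2 h5)⟩
    · exact h.f1 c hc
  · rintro c (rfl | hc)
    · refine h2.trans ⟨fun h4 q hq h5 => h4 q hq ((hyy hq.2).1.1 h5),
        fun h4 q hq h5 => h4 q hq ((hyy hq.2).1.2 h5)⟩
    · exact h.f2 c hc
  · rintro c (rfl | hc)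
    · refine ⟨f, ?_, ?_⟩
      · show LNM_G L A (Iv E lt M x x) (Iv E lt M' y y) f
        rw [hI]
        exact hf
      · rintro c' (rfl | hc') h4 h5
        · exact hy
        · exact h3 c' hc' h4 h5
    · by_cases hcx : ¬ lt c.1 x ∧ ¬ lt x c.1
      · have h6 := hw c hc
        have h7 := h.m2 c hc
        refine ⟨f, ?_, ?_⟩
        · rw [LNM_itv hW M (h.m1 c hc).2 hx.2 hcx.1 hcx.2,
            LNM_itv hW M' h7.2 hy'.2 (fun h8 => hcx.1 (h6.2.2 h8)) (fun h8 => hcx.2 (h6.1.2 h8))]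
          exact hf
        · rintro c' (rfl | hc') h8 h9
          · exact hy
          · have h10 := hW.eqv (h.m1 c hc).2 hx.2 hcx.1 hcx.2 (h.m1 c' hc').2
            exact h3 c' hc' (fun h11 => h8 (h10.2.2 h11)) (fun h11 => h9 (h10.1.2 h11))
      · obtain ⟨f', hf', hf2⟩ := h.e c hc
        refine ⟨f', hf', ?_⟩
        rintro c' (rfl | hc') h8 h9
        · exact absurd ⟨h9, h8⟩ hcx
        · exact hf2 c' hc' h8 h9

private theorem LNM_forth (hW : LNM_WO lt E) {M M' : Set U}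
    (s2 : ∀ X Y : Set U, SmN L A X Y → SmN L A Y X)
    (s3 : ∀ X Y Z : Set U, SmN L A X Y → SmN L A Y Z → SmN L A X Z)
    (hD : LNM_D lt (M ∩ E) (M' ∩ E)
      (fun x z => SmN L A (Iv E lt M x x) (Iv E lt univ z z))
      (fun x z => SmN L A (Iv E lt M' x x) (Iv E lt univ z z)))
    (hD' : LNM_D (fun a b => lt b a) (M ∩ E) (M' ∩ E)
      (fun x z => SmN L A (Iv E lt M x x) (Iv E lt univ z z))
      (fun x z => SmN L A (Iv E lt M' x x) (Iv E lt univ z z)))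
    (ht : (∃ p ∈ M ∩ E, ∃ q ∈ M ∩ E, lt p q) ↔
      ∃ p ∈ M' ∩ E, ∃ q ∈ M' ∩ E, lt p q)
    (hN : ∀ x ∈ M ∩ E, ∃ z ∈ E, SmN L A (Iv E lt M x x) (Iv E lt univ z z))
    (hI : ∀ p ∈ M' ∩ E, ∀ q ∈ M' ∩ E, lt p q → ∀ z ∈ E, ∃ z' ∈ M' ∩ E,
      lt p z' ∧ lt z' q ∧
        SmN L A (Iv E lt M' z' z') (Iv E lt univ z z))
    {s : Set (U × U)} (hs : s.Finite) (h : LNM_P L lt A E M M' s) {x : U}
    (hx : x ∈ M ∩ E) : ∃ y ∈ M' ∩ E, LNM_P L lt A E M M' (insert (x, y) s) := by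
  by_cases hc : ∃ c ∈ s, ¬ lt c.1 x ∧ ¬ lt x c.1
  · obtain ⟨c, hc, hc1, hc2⟩ := hc
    obtain ⟨f, hf, hf2⟩ := h.e c hc
    have hcE := h.m1 c hc
    have hf3 : LNM_G L A (Iv E lt M x x) (Iv E lt M' c.2 c.2) f := by
      rw [← LNM_itv hW M hcE.2 hx.2 hc1 hc2]
      exact hf
    have hxI : x ∈ Iv E lt M x x := ⟨hx.1, hx.2, hW.irr x hx.2, hW.irr x hx.2⟩
    have hy := hf3.1.mapsTo hxI
    have h0 : ∀ {d : U}, d ∈ E → (lt c.1 d ↔ lt x d) ∧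
      (lt d c.1 ↔ lt d x) := fun hd => hW.eqv hcE.2 hx.2 hc1 hc2 hd
    refine ⟨f x, ⟨hy.1, hy.2.1⟩, LNM_insert hW h hx (h.m2 c hc) hf3 rfl ?_ ?_ ?_ ?_⟩
    · intro c' hc'
      have h4 := h0 (h.m1 c' hc').2
      exact ⟨h4.1.symm.trans (h.w c hc c' hc'), h4.2.symm.trans (h.w c' hc' c hc)⟩
    · refine Iff.trans ⟨fun h4 q hq h5 => h4 q hq ((h0 hq.2).2.1 h5),
        fun h4 q hq h5 => h4 q hq ((h0 hq.2).2.2 h5)⟩ (h.f1 c hc)
    · refine Iff.trans ⟨fun h4 q hq h5 => h4 q hq ((h0 hq.2).1.1 h5),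
        fun h4 q hq h5 => h4 q hq ((h0 hq.2).1.2 h5)⟩ (h.f2 c hc)
    · intro c' hc' h4 h5
      have h6 := h0 (h.m1 c' hc').2
      exact hf2 c' hc' (fun h7 => h4 (h6.2.1 h7)) (fun h7 => h5 (h6.1.1 h7))
  · push Not at hc
    obtain ⟨y', hy', h1, h2, h3, h4, z, h5, h6⟩ := LNM_pos (T' := fun x z =>
        SmN L A (Iv E lt M' x x) (Iv E lt univ z z)) hW
      (inter_subset_right : M ∩ E ⊆ E) (inter_subset_right : M' ∩ E ⊆ E) hD hD' ht
      (fun x hx p hp h1 h2 z h3 => by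
        have h4 := LNM_itv hW M hx.2 hp.2 h1 h2
        show SmN L A (Iv E lt M x x) (Iv E lt univ z z)
        rw [h4]
        exact h3) hN hI hx
      (A := {y | ∃ c ∈ s, lt c.1 x ∧ c.2 = y})
      (B := {y | ∃ c ∈ s, lt x c.1 ∧ c.2 = y})
      (by rintro _ ⟨c, hc, -, rfl⟩; exact h.m2 c hc)
      (by rintro _ ⟨c, hc, -, rfl⟩; exact h.m2 c hc)
      ((hs.image Prod.snd).subset (by rintro _ ⟨c, hc, -, rfl⟩; exact ⟨c, hc, rfl⟩))
      ((hs.image Prod.snd).subset (by rintro _ ⟨c, hc, -, rfl⟩; exact ⟨c, hc, rfl⟩))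
      (by
        rintro _ ⟨c, hc, h1, rfl⟩ _ ⟨c', hc', h2, rfl⟩
        exact (h.w c hc c' hc').1 (hW.tra _ (h.m1 c hc).2 x hx.2 _ (h.m1 c' hc').2 h1 h2))
      (by
        rintro _ ⟨c, hc, h1, rfl⟩ h2
        exact (h.f2 c hc).2 h2 x hx h1)
      (by
        rintro _ ⟨c, hc, h1, rfl⟩ h2
        exact (h.f1 c hc).2 h2 x hx h1)
      (by
        rintro ⟨_, c, hc, h1, rfl⟩ h2
        exact h2 c.1 (h.m1 c hc) h1)
      (by
        rintro ⟨_, c, hc, h1, rfl⟩ h2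
        exact h2 c.1 (h.m1 c hc) h1)
    obtain ⟨f, hf⟩ := LNM_G_of_SmN (s3 _ _ _ h5 (s2 _ _ h6))
    have hxI : x ∈ Iv E lt M x x := ⟨hx.1, hx.2, hW.irr x hx.2, hW.irr x hx.2⟩
    have hy := hf.1.mapsTo hxI
    refine ⟨f x, ⟨hy.1, hy.2.1⟩, LNM_insert hW h hx hy' hf rfl ?_ h3 h4 ?_⟩
    · intro c hcs
      have hcE := (h.m1 c hcs).2
      have hcE' := (h.m2 c hcs).2
      by_cases h7 : lt c.1 x
      · have h8 := h1 c.2 ⟨c, hcs, h7, rfl⟩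
        exact ⟨⟨fun h9 => absurd h7 (hW.asy hx.2 hcE h9),
          fun h9 => absurd h8 (hW.asy hy'.2 hcE' h9)⟩, ⟨fun _ => h8, fun _ => h7⟩⟩
      · have h9 := hc c hcs h7
        have h8 := h2 c.2 ⟨c, hcs, h9, rfl⟩
        exact ⟨⟨fun _ => h8, fun _ => h9⟩, ⟨fun h10 => absurd h10 h7,
          fun h10 => absurd h8 (hW.asy hcE' hy'.2 h10)⟩⟩
    · intro c hcs h7 h8
      exact absurd (hc c hcs h7) h8

private theorem LNM_aut (hGRP : St_LGR) (hM : Mon L U) (hE : Lin L A E lt)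
    (hW : LNM_WO lt E) {M M' : Set U} {s : Set (U × U)} (hs : s.Finite)
    (h : LNM_P L lt A E M M' s) : ∃ g : U ≃[L] U, Nx L A g ∧ ∀ c ∈ s, g c.1 = c.2 := by
  classical
  have hfun : ∀ c ∈ s, ∀ c' ∈ s, c'.1 = c.1 → c'.2 = c.2 := by
    intro c hc c' hc' h1
    obtain ⟨f, hf, hf2⟩ := h.e c hc
    have h2 := hW.irr c.1 (h.m1 c hc).2
    rw [← hf2 c hc h2 h2, ← hf2 c' hc' (by rw [h1]; exact h2) (by rw [h1]; exact h2), h1]
  obtain ⟨t, ht⟩ : ∃ t : U → U, ∀ c ∈ s, t c.1 = c.2 := by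
    refine ⟨fun x => if h : ∃ c ∈ s, c.1 = x then h.choose.2 else x, fun c hc => ?_⟩
    have h1 : ∃ c' ∈ s, c'.1 = c.1 := ⟨c, hc, rfl⟩
    show (if h : ∃ c' ∈ s, c'.1 = c.1 then h.choose.2 else c.1) = c.2
    rw [dif_pos h1]
    exact hfun c hc _ h1.choose_spec.1 h1.choose_spec.2
  obtain ⟨g, hg, hg2⟩ := hGRP L U hM A E lt hE (Prod.fst '' s) t (hs.image _)
    (by rintro _ ⟨c, hc, rfl⟩; exact (h.m1 c hc).2)
    (by rintro _ ⟨c, hc, rfl⟩; rw [ht c hc]; exact (h.m2 c hc).2)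
    (by
      rintro _ ⟨c, hc, rfl⟩ _ ⟨c', hc', rfl⟩ h1
      rw [ht c hc, ht c' hc']
      exact (h.w c hc c' hc').1 h1)
    (by
      rintro _ ⟨c, hc, rfl⟩
      obtain ⟨f, hf, hf2⟩ := h.e c hc
      obtain ⟨g, hg, hg2⟩ := hf.2 {y | y ∈ Prod.fst '' s ∧ ¬ lt c.1 y ∧
          ¬ lt y c.1} ((hs.image _).subset (fun y hy => hy.1)) (by
        rintro _ ⟨⟨c', hc', rfl⟩, h1, h2⟩
        exact ⟨(h.m1 c' hc').1, (h.m1 c' hc').2, h2, h1⟩)
      refine ⟨g, hg, ?_⟩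
      rintro _ ⟨c', hc', rfl⟩ h1 h2
      rw [hg2 c'.1 ⟨⟨c', hc', rfl⟩, h1, h2⟩, hf2 c' hc' h2 h1, ht c' hc'])
  exact ⟨g, hg, fun c hc => (hg2 c.1 ⟨c, hc, rfl⟩).trans (ht c hc)⟩

end parts

private theorem LNM_D.symm {U : Type} {W : U → U → Prop} {X X' : Set U} {T T' : U → U → Prop}
    (h : LNM_D W X X' T T') : LNM_D W X' X T' T := by
  rcases h with ⟨z, h1, h2⟩ | ⟨h1, h2⟩
  · exact Or.inl ⟨z, h2, h1⟩
  · exact Or.inr ⟨h2, h1⟩


/-- the back and forth argument -/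
private theorem LNM_key {L : FirstOrder.Language.{0, 0}} {U : Type} [L.Structure U] {A E : Set U}
    {lt : U → U → Prop} (hM0 : Mon L U) (hE : Lin L A E lt) {M M' : Set U}
    (hN : ∀ x ∈ M ∩ E, ∃ z ∈ E, SmN L A (Iv E lt M x x) (Iv E lt univ z z))
    (hN' : ∀ x ∈ M' ∩ E, ∃ z ∈ E, SmN L A (Iv E lt M' x x) (Iv E lt univ z z))
    (hI : ∀ p ∈ M ∩ E, ∀ q ∈ M ∩ E, lt p q → ∀ z ∈ E, ∃ z' ∈ M ∩ E,
      lt p z' ∧ lt z' q ∧ SmN L A (Iv E lt M z' z') (Iv E lt univ z z))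
    (hI' : ∀ p ∈ M' ∩ E, ∀ q ∈ M' ∩ E, lt p q → ∀ z ∈ E, ∃ z' ∈ M' ∩ E,
      lt p z' ∧ lt z' q ∧ SmN L A (Iv E lt M' z' z') (Iv E lt univ z z))
    (hD : LNM_D lt (M ∩ E) (M' ∩ E)
      (fun x z => SmN L A (Iv E lt M x x) (Iv E lt univ z z))
      (fun x z => SmN L A (Iv E lt M' x x) (Iv E lt univ z z)))
    (hD' : LNM_D (fun a b => lt b a) (M ∩ E) (M' ∩ E)
      (fun x z => SmN L A (Iv E lt M x x) (Iv E lt univ z z))
      (fun x z => SmN L A (Iv E lt M' x x) (Iv E lt univ z z)))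
    (hd3 : (∃ p ∈ M ∩ E, ∃ q ∈ M ∩ E, lt p q) ↔ ∃ p ∈ M' ∩ E, ∃ q ∈ M' ∩ E, lt p q) :
    SmN L A (M ∩ E) (M' ∩ E) := by
  classical
  have hW : LNM_WO lt E :=
    ⟨hE.irr, fun u hu w hw h v hv => hE.neg u hu v hv w hw h, hE.tra⟩
  obtain ⟨s1, s2, s3, -⟩ := TPC.q_SMQ L U hM0
  have hct : Countable U := hM0.ctb
  refine thm_BAF thm_BAG L U A (M ∩ E) (M' ∩ E) (LNM_P L lt A E M M') (Set.to_countable _)
    (Set.to_countable _) ?_ ?_ ?_ ?_
  · exact ⟨fun c hc => absurd hc (notMem_empty _), fun c hc => absurd hc (notMem_empty _),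
      fun c hc => absurd hc (notMem_empty _), fun c hc => absurd hc (notMem_empty _),
      fun c hc => absurd hc (notMem_empty _), fun c hc => absurd hc (notMem_empty _)⟩
  · intro s hs h x hx
    exact LNM_forth hW (s2 A) (s3 A) hD hD' hd3 hN hI' hs h hx
  · intro s hs h y hy
    obtain ⟨x, hx, h1⟩ := LNM_forth hW (s2 A) (s3 A) hD.symm hD'.symm hd3.symm hN'
      hI (hs.image Prod.swap) h.swap hy
    refine ⟨x, hx, ?_⟩
    have h2 := h1.swap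
    rw [image_insert_eq, image_image] at h2
    simpa using h2
  · intro s hs h
    exact LNM_aut TPC.q_LGR hM0 hE hW hs h

/-! ### The game -/

section game

variable {L : FirstOrder.Language.{0, 0}} {U : Type} [L.Structure U]

private theorem LNM_cj_symm {A : Set U} {x y : U} (h : Cj1 L (Nx L A) x y) :
    Cj1 L (Nx L A) y x := by
  obtain ⟨g, hg, rfl⟩ := h
  exact ⟨g.symm, nx_symm hg, g.symm_apply_apply x⟩

/-- similarity of images -/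
private theorem LNM_img {A X Y : Set U} (g : U ≃[L] U) (hg : Nx L A g)
    (h : ∀ x, x ∈ X ↔ g x ∈ Y) : SmN L A X Y :=
  ⟨g.toEquiv.subtypeEquiv h, fun s _ => ⟨g, hg, fun x _ => rfl⟩⟩

/-- pairs -/
private theorem LNM_pair {A : Set U} {α : Type} {a b : U} {X Y : Set U} {v w : α → U}
    {D : Set U} (h : At L (Nx L A) A {⟨2, 0, Sum.elim ![a, b] Fin.elim0⟩} v w) (i j : α) :
    Cj L (Nx L A) ![a, b] ![v i, v j] ↔ Cj L (Nx L A) ![a, b] ![w i, w j] := by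
  have h1 := (h _ rfl ![i, j] Fin.elim0).1
  have h2 : ∀ z : α → U, Cj L (Nx L A) ![a, b] ![z i, z j] ↔
      Cj L (Nx L A) (Sum.elim ![a, b] Fin.elim0 : Fin 2 ⊕ Fin 0 → U)
        (Sum.elim (fun k => z ((![i, j] : Fin 2 → α) k)) fun k => z ((Fin.elim0 : Fin 0 → α) k)) := by
    intro z
    constructor
    · rintro ⟨g, hg, hg2⟩
      refine ⟨g, hg, ?_⟩
      rintro (k | k)
      · have h3 := hg2 k
        fin_cases k
        · exact h3
        · exact h3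
      · exact Fin.elim0 k
    · rintro ⟨g, hg, hg2⟩
      refine ⟨g, hg, fun k => ?_⟩
      have h3 := hg2 (Sum.inl k)
      fin_cases k
      · exact h3
      · exact h3
  rw [h2, h2]
  exact h1

/-- transfer of a point in the first cluster -/
private theorem LNM_tr {A P : Set U} {W : U → U → Prop}
    (hinv : ∀ h : U ≃[L] U, Nx L A h → ∀ x ∈ P, ∀ y ∈ P, W x y → W (h x) (h y))
    (hgap : ∀ x ∈ P, ∃ g : U ≃[L] U, Nx L A g ∧ g x ∈ P ∧ W x (g x))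
    (hort : ∀ a ∈ P, ∀ b ∈ P, ∀ c ∈ P, ∀ d ∈ P, W a b → W c d → Cj1 L (Nx L A) a c →
      Cj1 L (Nx L A) b d → Cj L (Nx L A) ![a, b] ![c, d])
    {X Y : Set U} (hX : X ⊆ P) (hY : Y ⊆ P)
    (hint : ∀ y' ∈ Y, ∀ x' ∈ Y, W y' x' → ∀ z ∈ P, ∃ y ∈ Y, W y x' ∧ Cj1 L (Nx L A) z y)
    (hE : EqS L A X Y) {x : U} (hx : x ∈ X) (hfx : ∀ y ∈ X, ¬ W y x) :
    ∃ x' ∈ Y, (∀ y ∈ Y, ¬ W y x') ∧ Cj1 L (Nx L A) x x' := by
  obtain ⟨g, hg, hgP, hW⟩ := hgap x (hX hx)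
  have h1 := hE {⟨2, 0, Sum.elim ![x, g x] Fin.elim0⟩} {x} 2 (finite_singleton _)
    (finite_singleton _)
  obtain ⟨-, hf, -⟩ := h1
  obtain ⟨x', hx', hc, h2⟩ := hf x rfl x hx ⟨_, nx_refl A, rfl⟩
  refine ⟨x', hx', fun y' hy' hyx => ?_, hc⟩
  obtain ⟨y₁, hy₁, h3, h4⟩ := hint y' hy' x' hx' hyx x (hX hx)
  obtain ⟨-, -, hb⟩ := h2
  obtain ⟨y, hy, h5, h6⟩ := hb x rfl y₁ hy₁ h4
  have h7 := LNM_pair (X := X) (Y := Y) (D := {x}) h6 none (some none)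
  have h8 : Cj L (Nx L A) ![x, g x] ![y₁, x'] := by
    refine hort x (hX hx) (g x) hgP y₁ (hY hy₁) x' (hY hx') hW h3 h4 ?_
    obtain ⟨k, hk, rfl⟩ := hc
    exact ⟨k.comp g.symm, nx_comp hk (nx_symm hg), congrArg k (g.symm_apply_apply x)⟩
  have h9 : Cj L (Nx L A) ![x, g x] ![y, x] := h7.2 h8
  obtain ⟨k, hk, hk2⟩ := h9
  have e0 : k x = y := hk2 0
  have e1 : k (g x) = x := hk2 1
  have h10 := hinv k hk x (hX hx) (g x) hgP hW
  rw [e0, e1] at h10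
  exact hfx y hy h10

/-- transfer of a pair -/
private theorem LNM_tw {A P : Set U} {W : U → U → Prop}
    (hinv : ∀ h : U ≃[L] U, Nx L A h → ∀ x ∈ P, ∀ y ∈ P, W x y → W (h x) (h y))
    {X Y : Set U} (hX : X ⊆ P) (hE : EqS L A X Y)
    (h : ∃ p ∈ X, ∃ q ∈ X, W p q) : ∃ p ∈ Y, ∃ q ∈ Y, W p q := by
  obtain ⟨p, hp, q, hq, hpq⟩ := h
  have h1 := hE {⟨2, 0, Sum.elim ![p, q] Fin.elim0⟩} {p, q} 2 (finite_singleton _)
    (by simp)
  obtain ⟨-, hf, -⟩ := h1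
  obtain ⟨p', hp', hc, h2⟩ := hf p (by simp) p hp ⟨_, nx_refl A, rfl⟩
  obtain ⟨-, hf2, -⟩ := h2
  obtain ⟨q', hq', hc', h3⟩ := hf2 q (by simp) q hq ⟨_, nx_refl A, rfl⟩
  have h7 := LNM_pair (X := X) (Y := Y) (D := {p}) h3 (some none) none
  obtain ⟨k, hk, hk2⟩ := h7.1 ⟨_, nx_refl A, fun i => by fin_cases i <;> rfl⟩
  have e0 : k p = p' := hk2 0
  have e1 : k q = q' := hk2 1
  have h10 := hinv k hk p (hX hp) q (hX hq) hpq
  rw [e0, e1] at h10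
  exact ⟨p', hp', q', hq', h10⟩

private theorem LNM_mkD {W R T T' : U → U → Prop} {X Y : Set U}
    (htr : ∀ x ∈ X, (∀ y ∈ X, ¬ W y x) → ∃ x' ∈ Y, (∀ y ∈ Y, ¬ W y x') ∧ R x x')
    (htr' : ∀ x ∈ Y, (∀ y ∈ Y, ¬ W y x) → ∃ x' ∈ X, (∀ y ∈ X, ¬ W y x') ∧ R x x')
    (hT : ∀ x ∈ X, T x x) (hT' : ∀ x ∈ X, ∀ x' ∈ Y, R x x' → T' x' x) :
    LNM_D W X Y T T' := by
  by_cases h : ∃ p ∈ X, LNM_Fst W X p
  · obtain ⟨x, hx, hf⟩ := h
    obtain ⟨x', hx', hf', hR⟩ := htr x hx hf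
    exact Or.inl ⟨x, ⟨x, hx, hf, hT x hx⟩, x', hx', hf', hT' x hx x' hx' hR⟩
  · refine Or.inr ⟨fun p hp hf => h ⟨p, hp, hf⟩, fun p hp hf => ?_⟩
    obtain ⟨x', hx', hf', -⟩ := htr' p hp hf
    exact h ⟨x', hx', hf'⟩

end game

/-- [LNM] -/
theorem thm_LNM (hGEQ : St_GEQ) (hGIN : St_GIN) (hRSQ : St_RSQ) : St_LNM := by
  intro L U _ hC A P lt hE M M' hM hM' hq
  have hMon := hC.mon
  have hW : LNM_WO lt P :=
    ⟨hE.irr, fun u hu w hw h v hv => hE.neg u hu v hv w hw h, hE.tra⟩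
  obtain ⟨s1, s2, s3, -⟩ := TPC.q_SMQ L U hMon
  have hq' : EqS L A (M' ∩ P) (M ∩ P) := fun Δ D n h1 h2 =>
    (hGEQ L U (Nx L A) A Δ D n Empty).2.1 _ _ _ _ (hq Δ D n h1 h2)
  have hPi : ∀ h : U ≃[L] U, Nx L A h → ∀ x, h x ∈ P ↔ x ∈ P := hE.bq.inv
  have hli : ∀ h : U ≃[L] U, Nx L A h → ∀ x ∈ P, ∀ y ∈ P, (lt (h x) (h y) ↔ lt x y) :=
    fun h hh => hE.fxl h (nx_fx hh)
  -- clusters in `univ`
  have himg : ∀ (g : U ≃[L] U) (x : U), Nx L A g → x ∈ P →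
      SmN L A (Iv P lt univ x x) (Iv P lt univ (g x) (g x)) := by
    intro g x hg hx
    refine LNM_img g hg fun z => ?_
    constructor
    · rintro ⟨-, h1, h2, h3⟩
      exact ⟨mem_univ _, (hPi g hg z).2 h1, fun h4 => h2 ((hli g hg z h1 x hx).1 h4),
        fun h4 => h3 ((hli g hg x hx z h1).1 h4)⟩
    · rintro ⟨-, h1, h2, h3⟩
      have h0 := (hPi g hg z).1 h1
      exact ⟨mem_univ _, h0, fun h4 => h2 ((hli g hg z h0 x hx).2 h4),
        fun h4 => h3 ((hli g hg x hx z h0).2 h4)⟩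
  have hself : ∀ (N : Set U) (x : U), x ∈ N → x ∈ P → x ∈ Iv P lt N x x := fun N x h1 h2 =>
    ⟨h1, h2, hE.irr x h2, hE.irr x h2⟩
  have hlab : ∀ N : Set U, Md L A N → ∀ x ∈ N ∩ P,
      SmN L A (Iv P lt N x x) (Iv P lt univ x x) := by
    intro N hN x hx
    obtain ⟨z, -, hz, e, he⟩ := TPC.q_LNW L U hMon hC.npf A P lt hE univ N x
      (TPC.q_RCH L U hMon A hE.fin).1 hN hx.1 hx.2
    have hxI := hself N x hx.1 hx.2
    obtain ⟨g, hg, hgx⟩ := he {⟨x, hxI⟩} (finite_singleton _)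
    have hgx' : g x = e ⟨x, hxI⟩ := hgx ⟨x, hxI⟩ rfl
    have hmem : g x ∈ Iv P lt univ z z := by
      rw [hgx']
      exact (e _).2
    have hIv : Iv P lt univ z z = Iv P lt univ (g x) (g x) :=
      LNM_itv hW univ hz hmem.2.1 hmem.2.2.2 hmem.2.2.1
    refine s3 A _ _ _ ⟨e, he⟩ ?_
    rw [hIv]
    exact s2 A _ _ (himg g x hg hx.2)
  have hint : ∀ N : Set U, Md L A N → ∀ p ∈ N ∩ P, ∀ q ∈ N ∩ P, lt p q → ∀ z ∈ P,
      ∃ y ∈ N ∩ P, lt p y ∧ lt y q ∧ Cj1 L (Nx L A) z y := by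
    intro N hN p hp q hq hpq z hz
    obtain ⟨z', h1, h2, h3, h4, e, he⟩ := TPC.q_LNI L U hMon hC.npf A P lt hE N p q hN hp.1
      hp.2 hq.1 hq.2 hpq z hz
    have hzI : z ∈ Iv P lt univ z z := hself univ z (mem_univ z) hz
    obtain ⟨g, hg, hgx⟩ := he {e.symm ⟨z, hzI⟩} (finite_singleton _)
    have h5 : g (e.symm ⟨z, hzI⟩ : Iv P lt N z' z') = z := by
      rw [hgx _ rfl, e.apply_symm_apply]
    obtain ⟨h6, h7, h8, h9⟩ := (e.symm ⟨z, hzI⟩).2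
    refine ⟨(e.symm ⟨z, hzI⟩ : Iv P lt N z' z'), ⟨h6, h7⟩, ?_, ?_, LNM_cj_symm ⟨g, hg, h5⟩⟩
    · exact (hE.neg p hp.2 _ h7 z' h2 h3).resolve_right h8
    · exact (hE.neg z' h2 _ h7 q hq.2 h4).resolve_left h9
  have hort : ∀ a ∈ P, ∀ b ∈ P, ∀ c ∈ P, ∀ d ∈ P, lt a b → lt c d → Cj1 L (Nx L A) a c →
      Cj1 L (Nx L A) b d → ∃ h : U ≃[L] U, Nx L A h ∧ h a = c ∧ h b = d := by
    rintro a ha b hb c hc d hd hab hcd ⟨g, hg, rfl⟩ ⟨g', hg', rfl⟩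
    obtain ⟨h, hh, h1, h2⟩ := hE.ort {a} {b} (finite_singleton _) (finite_singleton _)
      (singleton_subset_iff.2 ha) (singleton_subset_iff.2 hb)
      (by rintro _ rfl _ rfl; exact hab) g g' hg hg'
      (by rintro _ ⟨_, rfl, rfl⟩ _ ⟨_, rfl, rfl⟩; exact hcd)
    exact ⟨h, hh, h1 a rfl, h2 b rfl⟩
  have hT' : ∀ N : Set U, Md L A N → ∀ x ∈ P, ∀ x' ∈ N ∩ P, Cj1 L (Nx L A) x x' →
      SmN L A (Iv P lt N x' x') (Iv P lt univ x x) := by
    rintro N hN x hx _ hx' ⟨g, hg, rfl⟩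
    exact s3 A _ _ _ (hlab N hN _ hx') (s2 A _ _ (himg g x hg hx))
  -- transfer for the order
  have tr1 : ∀ N N' : Set U, Md L A N → Md L A N' → EqS L A (N ∩ P) (N' ∩ P) →
      ∀ x ∈ N ∩ P, (∀ y ∈ N ∩ P, ¬ lt y x) →
        ∃ x' ∈ N' ∩ P, (∀ y ∈ N' ∩ P, ¬ lt y x') ∧ Cj1 L (Nx L A) x x' := by
    intro N N' hN hN' h x hx hf
    refine LNM_tr (W := lt) (P := P) (fun h hh x hx y hy h1 => (hli h hh x hx y hy).2 h1) ?_ ?_
      inter_subset_right inter_subset_right ?_ h hx hf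
    · intro x hx
      obtain ⟨g, hg, h1, -⟩ := hE.gap {x} ∅ (finite_singleton _) finite_empty
        (singleton_subset_iff.2 hx) (empty_subset _) (by rintro _ rfl v hv; exact absurd hv (notMem_empty _)) x hx
      exact ⟨g, hg, (hPi g hg x).2 hx, h1 x rfl _ rfl⟩
    · intro a ha b hb c hc d hd hab hcd h1 h2
      obtain ⟨k, hk, e1, e2⟩ := hort a ha b hb c hc d hd hab hcd h1 h2
      exact ⟨k, hk, fun i => by fin_cases i; exacts [e1, e2]⟩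
    · intro y' hy' x' hx' hyx z hz
      obtain ⟨y, hy, -, h2, h3⟩ := hint N' hN' y' hy' x' hx' hyx z hz
      exact ⟨y, hy, h2, h3⟩
  have tr2 : ∀ N N' : Set U, Md L A N → Md L A N' → EqS L A (N ∩ P) (N' ∩ P) →
      ∀ x ∈ N ∩ P, (∀ y ∈ N ∩ P, ¬ lt x y) →
        ∃ x' ∈ N' ∩ P, (∀ y ∈ N' ∩ P, ¬ lt x' y) ∧ Cj1 L (Nx L A) x x' := by
    intro N N' hN hN' h x hx hf
    refine LNM_tr (W := fun a b => lt b a) (P := P)
      (fun h hh x hx y hy h1 => (hli h hh y hy x hx).2 h1) ?_ ?_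
      inter_subset_right inter_subset_right ?_ h hx hf
    · intro x hx
      obtain ⟨g, hg, -, h1⟩ := hE.gap ∅ {x} finite_empty (finite_singleton _)
        (empty_subset _) (singleton_subset_iff.2 hx) (by intro v hv; exact absurd hv (notMem_empty _)) x hx
      exact ⟨g, hg, (hPi g hg x).2 hx, h1 _ rfl x rfl⟩
    · intro a ha b hb c hc d hd hab hcd h1 h2
      obtain ⟨k, hk, e1, e2⟩ := hort b hb a ha d hd c hc hab hcd h2 h1
      exact ⟨k, hk, fun i => by fin_cases i; exacts [e2, e1]⟩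
    · intro y' hy' x' hx' hyx z hz
      obtain ⟨y, hy, h2, -, h3⟩ := hint N' hN' x' hx' y' hy' hyx z hz
      exact ⟨y, hy, h2, h3⟩
  refine LNM_key hMon hE (fun x hx => ⟨x, hx.2, hlab M hM x hx⟩)
    (fun x hx => ⟨x, hx.2, hlab M' hM' x hx⟩) ?_ ?_ ?_ ?_ ?_
  · intro p hp q hq hpq z hz
    obtain ⟨z', h1, h2, h3, h4, h5⟩ := TPC.q_LNI L U hMon hC.npf A P lt hE M p q hM hp.1
      hp.2 hq.1 hq.2 hpq z hz
    exact ⟨z', ⟨h1, h2⟩, h3, h4, h5⟩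
  · intro p hp q hq hpq z hz
    obtain ⟨z', h1, h2, h3, h4, h5⟩ := TPC.q_LNI L U hMon hC.npf A P lt hE M' p q hM' hp.1
      hp.2 hq.1 hq.2 hpq z hz
    exact ⟨z', ⟨h1, h2⟩, h3, h4, h5⟩
  · exact LNM_mkD (R := Cj1 L (Nx L A)) (tr1 M M' hM hM' hq) (tr1 M' M hM' hM hq')
      (fun x hx => hlab M hM x hx) (fun x hx x' hx' h => hT' M' hM' x hx.2 x' hx' h)
  · exact LNM_mkD (R := Cj1 L (Nx L A)) (tr2 M M' hM hM' hq) (tr2 M' M hM' hM hq')
      (fun x hx => hlab M hM x hx) (fun x hx x' hx' h => hT' M' hM' x hx.2 x' hx' h)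
  · exact ⟨LNM_tw (W := lt) (P := P) (fun h hh x hx y hy h1 => (hli h hh x hx y hy).2 h1)
        inter_subset_right hq,
      LNM_tw (W := lt) (P := P) (fun h hh x hx y hy h1 => (hli h hh x hx y hy).2 h1)
        inter_subset_right hq'⟩

end Pool.Agent.MTC
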