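import Pool.Agent.MTC.StB

/-!
# MTC, module MCA (helper36): calculus of `Mar`
-/

set_option autoImplicit false
set_option linter.unusedVariables false

namespace Pool.Agent.MTC

open FirstOrder.Language Set
open scoped FirstOrder
open Pool.Agent.WOM (tp Mon IsEl IsoM CtU Fx Orb Isd)
open Pool.Agent.PMC (Sm Md NPf def_img)
open Pool.Agent.MNO (Dp FE Sq Nx SmN FE1 FinN nx_mono nx_conj nx_fx)
open Pool.Agent.TPC (Bq Pq Sub Fcp Lin Fre Iv Kl Inr Lab Clu Rgd Ist Cpt)

section mca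

variable {L : FirstOrder.Language.{0, 0}} {U : Type} [L.Structure U]

private theorem MCA_symm_img (g : U ≃[L] U) (X : Set U) : g.symm '' (g '' X) = X := by
  ext x
  constructor
  · rintro ⟨_, ⟨y, hy, rfl⟩, rfl⟩
    rw [g.symm_apply_apply]
    exact hy
  · intro hx
    exact ⟨g x, ⟨x, hx, rfl⟩, g.symm_apply_apply x⟩

private theorem MCA_img_symm (g : U ≃[L] U) (X : Set U) : g '' (g.symm '' X) = X := by
  ext x
  constructor
  · rintro ⟨_, ⟨y, hy, rfl⟩, rfl⟩
    rw [g.apply_symm_apply]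
    exact hy
  · intro hx
    exact ⟨g.symm x, ⟨x, hx, rfl⟩, g.apply_symm_apply x⟩

private theorem MCA_img (hM : Mon L U) {A X Y : Set U} (g : U ≃[L] U) (hS : SmN L A X Y) :
    SmN L (g '' A) (g '' X) (g '' Y) := by
  obtain ⟨e, he⟩ := hS
  refine ⟨((Equiv.image g.toEquiv X).symm.trans e).trans (Equiv.image g.toEquiv Y),
    fun s hs => ?_⟩
  obtain ⟨h, hh, h2⟩ := he ((Equiv.image g.toEquiv X).symm '' s) (hs.image _)
  refine ⟨g.comp (h.comp g.symm), nx_conj hM g hh, ?_⟩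
  intro x hx
  have h3 := h2 _ (mem_image_of_mem _ hx)
  have h4 : ((Equiv.image g.toEquiv X).symm x : U) = g.symm x := by
    obtain ⟨y, rfl⟩ := (Equiv.image g.toEquiv X).surjective x
    rw [Equiv.symm_apply_apply]
    show (y : U) = g.symm (g y)
    rw [g.symm_apply_apply]
  show g (h (g.symm x)) = g (e ((Equiv.image g.toEquiv X).symm x))
  rw [← h4, h3]

private theorem MCA_el (hMon : Mon L U) {M : Set U} (hM : IsEl L M) (t : U ≃[L] U) :
    IsEl L (t '' M) := by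
  intro s hs hne
  have h1 := def_img hMon t.symm hs
  rw [MCA_symm_img] at h1
  obtain ⟨z, ⟨y, hy, rfl⟩, hz2⟩ := hM _ h1 (hne.image _)
  refine ⟨y, hy, t.symm y, hz2, ?_⟩
  exact t.apply_symm_apply y

private theorem MCA_cut (g : U ≃[L] U) (M Q : Set U) :
    g.symm '' (M ∩ g '' Q) = (g.symm '' M) ∩ Q := by
  rw [image_inter g.symm.injective, MCA_symm_img]

private theorem MCA_md (hMon : Mon L U) (hNP : NPf L U) {A M Q : Set U} (hA : A.Finite)
    (hQ : Bq L A Q) (hM : Md L A M) : Md L A ((M ∩ Q) ∪ Qᶜ) := by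
  classical
  have hF : Fcp L A := TPC.q_FCP L U hMon hNP A hA
  have hun : Md L A (univ : Set U) :=
    ⟨fun s hs hne => by rw [inter_univ]; exact hne, subset_univ _⟩
  have h1 := TPC.q_UNQ L U hMon A hA hF (fun z => if z ∈ Q then M else univ) (by
    intro z
    show Md L A (if z ∈ Q then M else univ)
    split_ifs
    · exact hM
    · exact hun) (by
    intro z y hy
    show (if y ∈ Q then M else univ) = (if z ∈ Q then M else univ)
    have h2 : z ∈ Q ↔ y ∈ Q := hy Q hQ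
    by_cases h3 : y ∈ Q
    · rw [if_pos h3, if_pos (h2.2 h3)]
    · rw [if_neg h3, if_neg (fun h => h3 (h2.1 h))])
  have h4 : {z : U | z ∈ (if z ∈ Q then M else univ)} = (M ∩ Q) ∪ Qᶜ := by
    ext z
    show z ∈ (if z ∈ Q then M else univ) ↔ (z ∈ M ∧ z ∈ Q) ∨ z ∉ Q
    by_cases h3 : z ∈ Q
    · rw [if_pos h3]
      exact ⟨fun h => Or.inl ⟨h, h3⟩, fun h => h.elim (fun h => h.1) (fun h => absurd h3 h)⟩
    · rw [if_neg h3]
      exact ⟨fun _ => Or.inr h3, fun _ => mem_univ z⟩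
  rw [← h4]
  exact h1

private theorem MCA_pt (hMon : Mon L U) {A X Y : Set U} {x : U} (h : EqS L A (X ∩ {x}) (Y ∩ {x}))
    (hx : x ∈ X) : x ∈ Y := by
  obtain ⟨-, h1, -⟩ := h ∅ {x} 1 finite_empty (finite_singleton x)
  obtain ⟨y, hy, -⟩ := h1 x rfl x ⟨hx, rfl⟩
    ⟨FirstOrder.Language.Equiv.refl L U, MNO.nx_refl A, rfl⟩
  have h2 : y = x := hy.2
  rw [← h2]
  exact hy.1

private theorem MCA_eqs_symm (hGEQ : St_GEQ) {A X Y : Set U} (h : EqS L A X Y) : EqS L A Y X :=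
  fun Δ D n hΔ hD => (hGEQ L U (Nx L A) A Δ D n Empty).2.1 X Y _ _ (h Δ D n hΔ hD)

end mca

/-- **MCA.** -/
theorem thm_MCA (hGEQ : St_GEQ) (hRSQ : St_RSQ) (hRPM : St_RPM) (hGCJ : St_GCJ) : St_MCA := by
  intro L U _ hC
  have hMon := hC.mon
  obtain ⟨s1, s2, s3, s4, s5, s6, s7, s8, s9⟩ := TPC.q_SMQ L U hMon
  refine ⟨?_, ?_, ?_, ?_, ?_⟩
  · intro A Q hA hQ h M M' hM hM' hE
    refine s6 A Q M M' hA hQ fun z hz => ?_
    obtain ⟨-, -, -, -, a5, a6, -⟩ := TPC.q_ALQ L U hMon A hA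
    have hsub : Pq L A z ⊆ Q := a6 z Q hQ hz
    have h1 := (hRSQ L U).2 A (Pq L A z) (M ∩ Q) (M' ∩ Q) (a5 z).1.inv hE
    have e : ∀ N : Set U, (N ∩ Q) ∩ Pq L A z = N ∩ Pq L A z := by
      intro N
      rw [inter_assoc, inter_eq_self_of_subset_right hsub]
    rw [e, e] at h1
    exact h z hz M M' hM hM' h1
  · intro A W Q hA hW hQ hd h M M' hM hM' hE
    have e : ∀ N : Set U, ((N ∩ Q) ∪ Qᶜ) ∩ Q = N ∩ Q := by
      intro N
      ext z
      constructor
      · rintro ⟨h1 | h1, h2⟩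
        · exact h1
        · exact absurd h2 h1
      · intro h1
        exact ⟨Or.inl h1, h1.2⟩
    have hm : ∀ N : Set U, Md L A N → Md L (A ∪ W) ((N ∩ Q) ∪ Qᶜ) := by
      intro N hN
      have h1 := MCA_md hMon hC.npf hA hQ hN
      refine ⟨h1.1, union_subset h1.2 fun w hw => Or.inr fun h2 => ?_⟩
      exact (disjoint_left.1 hd hw h2).elim
    have h1 := hRPM L U hMon A W Q (M ∩ Q) (M' ∩ Q) hA hW hQ hd inter_subset_right
      inter_subset_right hE
    have h2 := h _ _ (hm M hM) (hm M' hM') (by rw [e, e]; exact h1)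
    rw [e, e] at h2
    exact (s5 A (A ∪ W) _ _ subset_union_left h2).1
  · intro A x hA M M' hM hM' hE
    have h1 : M ∩ {x} = M' ∩ {x} := by
      ext z
      constructor
      · rintro ⟨hz, hzx⟩
        have hzx' : z = x := hzx
        subst hzx'
        exact ⟨MCA_pt hMon hE hz, rfl⟩
      · rintro ⟨hz, hzx⟩
        have hzx' : z = x := hzx
        subst hzx'
        exact ⟨MCA_pt hMon (MCA_eqs_symm hGEQ hE) hz, rfl⟩
    rw [h1]
    exact s1 _ _
  · intro A z hA hR M M' hM hM' hE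
    exact s3 _ _ _ _ (hR M hM) (s2 _ _ _ (hR M' hM'))
  · intro A Q g hA h M M' hM hM' hE
    have h1 := hGCJ L U hMon (g '' A) _ _ g.symm hE
    rw [MCA_symm_img, MCA_cut, MCA_cut] at h1
    have hm : ∀ N : Set U, Md L (g '' A) N → Md L A (g.symm '' N) := by
      intro N hN
      refine ⟨MCA_el hMon hN.1 g.symm, ?_⟩
      rw [← MCA_symm_img g A]
      exact image_mono hN.2
    have h2 := MCA_img hMon g (h _ _ (hm M hM) (hm M' hM') h1)
    have e : ∀ N : Set U, g '' ((g.symm '' N) ∩ Q) = N ∩ g '' Q := by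
      intro N
      rw [image_inter g.injective, MCA_img_symm]
    rw [e, e] at h2
    exact h2

end Pool.Agent.MTC
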