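import Pool.Agent.MTC.StB

/-!
[MUL] multiplicities: a cluster which occurs `r` times in `M ∩ P` occurs `r` times in `M' ∩ P` (helper69).
-/

set_option autoImplicit false
set_option linter.unusedVariables false

namespace Pool.Agent.MTC

open FirstOrder.Language Set
open scoped FirstOrder
open Pool.Agent.WOM (tp Mon IsEl IsoM CtU Fx Orb Isd)
open Pool.Agent.PMC (Sm Md NPf)
open Pool.Agent.MNO (Dp FE Sq Nx SmN FE1 FinN)
open Pool.Agent.TPC (Bq Pq Sub Fcp Lin Fre Iv Kl Inr Lab Clu Rgd Ist Cpt)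
open Pool.Agent.MNO (nx_refl nx_symm nx_comp nx_fx nx_mono fx_img)


namespace MULx

variable {L : FirstOrder.Language.{0, 0}} {U : Type} [L.Structure U]

theorem MUL_gr {A : Set U} (hA : A.Finite) : Gr L (Nx L A) A :=
  ⟨hA, fun g hg => hg, fun g hg => nx_fx hg, fun g h hg hh => nx_comp hh hg, fun g hg => nx_symm hg⟩

theorem MUL_cs {A : Set U} {α : Type} {s t : α → U} (h : Cj L (Nx L A) s t) : Cj L (Nx L A) t s := by
  obtain ⟨g, hg, h1⟩ := h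
  exact ⟨g.symm, nx_symm hg, fun i => by rw [← h1 i, g.symm_apply_apply]⟩

theorem MUL_is (hM : Mon L U) (hFin : FinN L U) {A : Set U} (hA : A.Finite) {k : ℕ} {s t : Fin k → U}
    (h : Cj L (Nx L A) s t) (hs : Ist L A s) : Ist L A t := by
  obtain ⟨g, hg, h1⟩ := h
  have h2 := ((Pool.Agent.TPC.z_IST L U hM hFin A hA).2.2.2.2.2.2.1 k s g).1 hs
  rw [fx_img A (nx_fx hg)] at h2
  have e : (fun i => g (s i)) = t := funext h1
  rw [e] at h2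
  exact h2

/-- similar sets realise the same tuples -/
theorem MUL_sm {A X Y : Set U} (h : SmN L A X Y) {k : ℕ} (τ : Fin k → U) (hτ : ∀ i, τ i ∈ X) :
    ∃ t : Fin k → U, (∀ i, t i ∈ Y) ∧ Cj L (Nx L A) τ t := by
  obtain ⟨e, he⟩ := h
  obtain ⟨g, hg, hge⟩ := he (range fun i => (⟨τ i, hτ i⟩ : X)) (finite_range _)
  exact ⟨fun i => e ⟨τ i, hτ i⟩, fun i => (e ⟨τ i, hτ i⟩).2, g, hg, fun i => hge ⟨τ i, hτ i⟩ ⟨i, rfl⟩⟩

/-- (2): a realised tuple is transferred by a game which is long enough -/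
theorem MUL_tr (hGIN : St_GIN) (hM : Mon L U) {A : Set U} (hA : A.Finite) {Δ : Set (Atm U)} {D : Set U}
    {n k : ℕ} (τ : Fin k → U) (hk : k ≤ n) (hΔ : (⟨k, 0, Sum.elim τ Fin.elim0⟩ : Atm U) ∈ Δ)
    (hD : ∀ i, τ i ∈ D) {X Y : Set U}
    (h : Eg L (Nx L A) A Δ D n Empty X (Empty.elim : Empty → U) Y (Empty.elim : Empty → U))
    (t : Fin k → U) (ht : ∀ i, t i ∈ X) (hτt : Cj L (Nx L A) τ t) :
    ∃ t' : Fin k → U, (∀ i, t' i ∈ Y) ∧ Cj L (Nx L A) τ t' := by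
  obtain ⟨_, _, h3⟩ := hGIN L U hM (Nx L A) A (MUL_gr hA) Δ D (n - k) Empty
  obtain ⟨_, h2, _⟩ := hGIN L U hM (Nx L A) A (MUL_gr hA) Δ D (n - k) (Empty ⊕ Fin k)
  obtain ⟨g, hg, hgt⟩ := hτt
  have hn : n - k + k = n := Nat.sub_add_cancel hk
  rw [← hn] at h
  obtain ⟨c, hc1, _, hc3⟩ := h3 k X Y Empty.elim Empty.elim t ht
    (fun i => ⟨τ i, hD i, g, hg, hgt i⟩) h
  exact ⟨c, hc1, h2 X Y (Sum.elim Empty.elim t) (Sum.elim Empty.elim c) k τ Sum.inr hΔ hc3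
    ⟨g, hg, fun i => hgt i⟩⟩

/-- (1) and (3): one finite game which recognises the similarity of clusters -/
theorem MUL_fin (hGEQ : St_GEQ) (hGIN : St_GIN) (hSNE : St_SNE) (hKMA : St_KMA) (hATK : St_ATK)
    (hFNL : St_FNL) (hC : Ctx L U) (A E P : Set U) (cl : U → U → Prop) (hF : Fre L A E cl)
    (hP : Bq L A P) (hPE : P ⊆ E) (hcm : Clm L A E cl) :
    ∃ (Δ : Set (Atm U)) (D : Set U) (n : ℕ), Δ.Finite ∧ D.Finite ∧
    ∀ (M M' : Set U) (q q' : U), Md L A M → Md L A M' → q ∈ M → q ∈ P → q' ∈ M' → q' ∈ P →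
      Cj1 L (Nx L A) q q' →
      Eg L (Nx L A) A Δ D n Empty (Kl P cl M q) (Empty.elim : Empty → U) (Kl P cl M' q')
        (Empty.elim : Empty → U) →
      SmN L A (Kl P cl M q) (Kl P cl M' q') := by
  obtain ⟨r₀, N, pp, hN1, hN2, hN3⟩ := hFNL L U hC A E P cl hF hP hPE
  have hA : A.Finite := hF.fin
  have h1 : ∀ j, ∃ (k : ℕ) (t : Fin k → U), (∀ i, t i ∈ Kl P cl (N j) (pp j)) ∧ ¬ Ist L A t := by
    intro j
    have h := (hN1 j).2.2.2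
    unfold AtC at h
    push Not at h
    exact h
  choose k τ hτ1 hτ2 using h1
  have h2 : ∀ ij : Fin r₀ × Fin r₀, ∃ (Δ : Set (Atm U)) (D : Set U) (n : ℕ), Δ.Finite ∧ D.Finite ∧
      (ij.1 ≠ ij.2 → ¬ Eg L (Nx L A) A Δ D n Empty (Kl P cl (N ij.1) (pp ij.1))
        (Empty.elim : Empty → U) (Kl P cl (N ij.2) (pp ij.2)) (Empty.elim : Empty → U)) := by
    rintro ⟨i, j⟩
    by_cases hij : i = j
    · exact ⟨∅, ∅, 0, finite_empty, finite_empty, fun h => absurd hij h⟩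
    · by_contra hcon
      push Not at hcon
      refine hN2 i j hij (hKMA L U hC A E P cl hF hP hPE hcm (N i) (N j) (pp i) (pp j) (hN1 i).1
        (hN1 j).1 (hN1 i).2.1 (hN1 i).2.2.1 (hN1 j).2.1 (hN1 j).2.2.1 ?_)
      intro Δ D n hΔ hD
      exact (hcon Δ D n hΔ hD).2
  choose Δf Df nf hΔf hDf hE using h2
  set Δ : Set (Atm U) := (⋃ ij, Δf ij) ∪ range (fun j => (⟨k j, 0, Sum.elim (τ j) Fin.elim0⟩ : Atm U))
    with hΔdef
  set D : Set U := (⋃ ij, Df ij) ∪ ⋃ j, range (τ j) with hDdef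
  set n : ℕ := (∑ ij, nf ij) + ∑ j, k j with hndef
  have hΔ : Δ.Finite := (finite_iUnion hΔf).union (finite_range _)
  have hD : D.Finite := (finite_iUnion hDf).union (finite_iUnion fun j => finite_range _)
  have hk : ∀ j, k j ≤ n := fun j =>
    le_trans (Finset.single_le_sum (f := k) (fun _ _ => Nat.zero_le _) (Finset.mem_univ j))
      (Nat.le_add_left _ _)
  have hnf : ∀ ij, nf ij ≤ n := fun ij =>
    le_trans (Finset.single_le_sum (f := nf) (fun _ _ => Nat.zero_le _) (Finset.mem_univ ij))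
      (Nat.le_add_right _ _)
  have hdist : ∀ i j, Eg L (Nx L A) A Δ D n Empty (Kl P cl (N i) (pp i)) (Empty.elim : Empty → U)
      (Kl P cl (N j) (pp j)) (Empty.elim : Empty → U) → i = j := by
    intro i j h
    by_contra hij
    refine hE (i, j) hij ?_
    obtain ⟨_, _, _, g4, _⟩ := hGEQ L U (Nx L A) A (Δf (i, j)) (Df (i, j)) (nf (i, j)) Empty
    exact g4 Δ D n (fun x hx => Or.inl (mem_iUnion.2 ⟨(i, j), hx⟩))
      (fun x hx => Or.inl (mem_iUnion.2 ⟨(i, j), hx⟩)) (hnf (i, j)) _ _ _ _ h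
  obtain ⟨_, g2, g3, _⟩ := hGEQ L U (Nx L A) A Δ D n Empty
  have hsne := (hSNE L U hC.mon A hA).2
  obtain ⟨_, s2, s3, _⟩ := Pool.Agent.TPC.q_SMQ L U hC.mon
  have half : ∀ (M M' : Set U) (q q' : U), Md L A M → Md L A M' → q ∈ M → q ∈ P → q' ∈ M' → q' ∈ P →
      Eg L (Nx L A) A Δ D n Empty (Kl P cl M q) (Empty.elim : Empty → U) (Kl P cl M' q')
        (Empty.elim : Empty → U) → ¬ AtC L A (Kl P cl M q) →
      SmN L A (Kl P cl M q) (Kl P cl M' q') := by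
    intro M M' q q' hM hM' hqM hqP hqM' hqP' hEg hat
    obtain ⟨j, hj⟩ := (hN3 M q hM hqM hqP).resolve_left hat
    obtain ⟨t, ht1, ht2⟩ := MUL_sm hj (τ j) (hτ1 j)
    obtain ⟨t', ht1', ht2'⟩ := MUL_tr hGIN hC.mon hA (τ j) (hk j) (Or.inr ⟨j, rfl⟩)
      (fun i => Or.inr (mem_iUnion.2 ⟨j, mem_range_self i⟩)) hEg t ht1 ht2
    have hat' : ¬ AtC L A (Kl P cl M' q') := fun h =>
      hτ2 j (MUL_is hC.mon hC.fin hA (MUL_cs ht2') (h (k j) t' ht1'))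
    obtain ⟨i, hi⟩ := (hN3 M' q' hM' hqM' hqP').resolve_left hat'
    have e1 := hsne _ _ hj Δ D n hΔ hD
    have e2 := hsne _ _ (s2 _ _ _ hi) Δ D n hΔ hD
    have hji : j = i := hdist j i (g3 _ _ _ _ _ _ (g3 _ _ _ _ _ _ e1 hEg) e2)
    subst hji
    exact s3 _ _ _ _ (s2 _ _ _ hj) hi
  refine ⟨Δ, D, n, hΔ, hD, ?_⟩
  intro M M' q q' hM hM' hqM hqP hqM' hqP' hqq hEg
  by_cases hat : AtC L A (Kl P cl M q)
  · by_cases hat' : AtC L A (Kl P cl M' q')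
    · exact hATK L U hC A E P cl hF hP hPE M M' q q' hM hM' hqM hqP hqM' hqP' hqq hat hat'
    · exact s2 _ _ _ (half M' M q' q hM' hM hqM' hqP' hqM hqP (g2 _ _ _ _ hEg) hat')
  · exact half M M' q q' hM hM' hqM hqP hqM' hqP' hEg hat

end MULx

open MULx in
theorem thm_MUL (hGEQ : St_GEQ) (hGIN : St_GIN) (hSNE : St_SNE) (hKMA : St_KMA) (hATK : St_ATK)
    (hFNL : St_FNL) (hRCL : St_RCL) : St_MUL := by
  intro L U _ hC A E P cl hF hP hPE hcm M M' hM hM' hEq p r q hpM hpP hq hqq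
  have hA : A.Finite := hF.fin
  obtain ⟨Δ, D, n, hΔ, hD, hcl⟩ :=
    MUL_fin hGEQ hGIN hSNE hKMA hATK hFNL hC A E P cl hF hP hPE hcm
  have h1 : ∀ i, ∃ x, x ∈ M ∧ x ∈ P ∧ cl (q i) x ∧ Cj1 L (Nx L A) p x := by
    intro i
    obtain ⟨e, he⟩ := (hq i).2.2
    have hpK : p ∈ Kl P cl M p := ⟨hpM, hpP, hF.rfl p (hPE hpP)⟩
    obtain ⟨g, hg, hge⟩ := he {⟨p, hpK⟩} (finite_singleton _)
    have h2 := (e ⟨p, hpK⟩).2
    exact ⟨e ⟨p, hpK⟩, h2.1, h2.2.1, h2.2.2, g, hg, hge ⟨p, hpK⟩ rfl⟩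
  choose x hxM hxP hqx hpx using h1
  have hqE : ∀ i, q i ∈ E := fun i => hPE (hq i).2.1
  have hxE : ∀ i, x i ∈ E := fun i => hPE (hxP i)
  have hKx : ∀ i, Kl P cl M (x i) = Kl P cl M (q i) := by
    intro i
    ext z
    constructor
    · rintro ⟨hz1, hz2, hz3⟩
      exact ⟨hz1, hz2, hF.tra _ (hqE i) _ (hxE i) _ (hPE hz2) (hqx i) hz3⟩
    · rintro ⟨hz1, hz2, hz3⟩
      exact ⟨hz1, hz2, hF.tra _ (hxE i) _ (hqE i) _ (hPE hz2)
        (hF.sym _ (hqE i) _ (hxE i) (hqx i)) hz3⟩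
  have hxx : ∀ i j, i ≠ j → ¬ cl (x i) (x j) := by
    intro i j hij h
    exact hqq i j hij (hF.tra _ (hqE i) _ (hxE i) _ (hqE j) (hqx i)
      (hF.tra _ (hxE i) _ (hxE j) _ (hqE j) h (hF.sym _ (hqE j) _ (hxE j) (hqx j))))
  obtain ⟨Δ', hΔ', hsub, hR⟩ := hRCL L U hC.mon A E P cl hF hP hPE Δ D p hΔ hD hpP
  set Δ₁ : Set (Atm U) := Δ' ∪ {(⟨r, 0, Sum.elim x Fin.elim0⟩ : Atm U)} with hΔ₁
  set D₁ : Set U := D ∪ range x with hD₁
  have h3 := hEq Δ₁ D₁ (n + r) (hΔ'.union (finite_singleton _)) (hD.union (finite_range _))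
  obtain ⟨_, _, i3⟩ := hGIN L U hC.mon (Nx L A) A (MUL_gr hA) Δ₁ D₁ n Empty
  obtain ⟨_, i2, _⟩ := hGIN L U hC.mon (Nx L A) A (MUL_gr hA) Δ₁ D₁ n (Empty ⊕ Fin r)
  obtain ⟨c, hc1, hc2, hc3⟩ := i3 r (M ∩ P) (M' ∩ P) Empty.elim Empty.elim x
    (fun i => ⟨hxM i, hxP i⟩)
    (fun i => ⟨x i, Or.inr ⟨i, rfl⟩, FirstOrder.Language.Equiv.refl L U, nx_refl A, rfl⟩) h3
  have h4 : Cj L (Nx L A) x c :=
    i2 _ _ (Sum.elim Empty.elim x) (Sum.elim Empty.elim c) r x Sum.inr (Or.inr rfl) hc3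
      ⟨FirstOrder.Language.Equiv.refl L U, nx_refl A, fun i => rfl⟩
  obtain ⟨g, hg, hgc⟩ := h4
  obtain ⟨_, _, _, g4, _⟩ := hGEQ L U (Nx L A) A Δ' D n (Empty ⊕ Fin r)
  have h5 := g4 Δ₁ D₁ n (fun z hz => Or.inl hz) (fun z hz => Or.inl hz) le_rfl _ _ _ _ hc3
  obtain ⟨_, _, _, _, g5, _⟩ := hGEQ L U (Nx L A) A Δ D n (Empty ⊕ Fin r)
  obtain ⟨_, s2, s3, _⟩ := Pool.Agent.TPC.q_SMQ L U hC.mon
  have hKP : ∀ (X : Set U) (z : U), Kl P cl (X ∩ P) z = Kl P cl X z := by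
    intro X z
    ext y
    exact ⟨fun h => ⟨h.1.1, h.2⟩, fun h => ⟨⟨h.1, h.2.1⟩, h.2⟩⟩
  have hpc : ∀ i, Cj1 L (Nx L A) p (c i) := by
    intro i
    obtain ⟨a, ha, hap⟩ := hpx i
    exact ⟨g.comp a, nx_comp hg ha, (congrArg g hap).trans (hgc i)⟩
  refine ⟨c, fun i => ⟨(hc1 i).1, (hc1 i).2, ?_⟩, ?_⟩
  · have h6 := hR n (Empty ⊕ Fin r) (Sum.inr i) (M ∩ P) (M' ∩ P) (Sum.elim Empty.elim x)
      (Sum.elim Empty.elim c) (hpx i) (hpc i) h5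
    have h7 := g5 Empty (Empty.elim : Empty → Empty ⊕ Fin r) _ _ _ _ h6
    have e1 : (fun b : Empty => (Sum.elim Empty.elim x : Empty ⊕ Fin r → U)
        ((Empty.elim : Empty → Empty ⊕ Fin r) b)) = (Empty.elim : Empty → U) :=
      funext fun b => b.elim
    have e2 : (fun b : Empty => (Sum.elim Empty.elim c : Empty ⊕ Fin r → U)
        ((Empty.elim : Empty → Empty ⊕ Fin r) b)) = (Empty.elim : Empty → U) :=
      funext fun b => b.elim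
    rw [e1, e2] at h7
    change Eg L (Nx L A) A Δ D n Empty (Kl P cl (M ∩ P) (x i)) _ (Kl P cl (M' ∩ P) (c i)) _ at h7
    rw [hKP, hKP] at h7
    have h8 := hcl M M' (x i) (c i) hM hM' (hxM i) (hxP i) (hc1 i).1 (hc1 i).2 (hc2 i) h7
    have h9 := (hq i).2.2
    rw [← hKx i] at h9
    exact s3 _ _ _ _ h9 h8
  · intro i j hij h
    rw [← hgc i, ← hgc j] at h
    exact hxx i j hij ((hF.fxc g (nx_fx hg) _ (hxE i) _ (hxE j)).1 h)

end Pool.Agent.MTC
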