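import Pool.Agent.MTC.StB

/-!
# MTC, module NIM (helper42 for helper23): nice pieces are determined by their theory
-/

set_option autoImplicit false
set_option linter.unusedVariables false

namespace Pool.Agent.MTC

open FirstOrder.Language Set
open scoped FirstOrder
open Pool.Agent.WOM (tp Mon IsEl IsoM CtU Fx Orb Isd)
open Pool.Agent.PMC (Sm Md NPf)
open Pool.Agent.MNO (Dp FE Sq Nx SmN FE1 FinN nx_refl nx_symm nx_comp nx_mono)
open Pool.Agent.TPC (Bq Pq Sub Fcp Lin Fre Iv Kl Inr Lab Clu Rgd Ist Cpt)

/-- **NIM** -/
theorem thm_NIM (hSTP : St_STP) (hMCA : St_MCA) (hLNM : St_LNM) : St_NIM := by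
  intro L U _ hX n
  have hMon := hX.mon
  obtain ⟨m1, m2, m3, m4, m5⟩ := hMCA L U hX
  induction n with
  | zero =>
    intro A x hA hN
    rcases hN with h | ⟨lt, hl⟩
    · rw [h]
      exact m3 A x hA
    · exact hLNM L U hX A _ lt hl
  | succ n ih =>
    intro A x hA hN
    rcases hN with h | h
    · exact ih A x hA h
    · have hBq : Bq L A (Pq L A x) := ((TPC.q_ALQ L U hMon A hA).2.2.2.2.1 x).1
      have key : ∀ y ∈ Pq L A x, Mar L (insert y A) (Pq L A x) := by
        intro y hy
        have hA' : (insert y A).Finite := hA.insert y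
        refine m1 (insert y A) _ hA' ((TPC.q_OFQ L U hMon A _ hA hBq).2.2 _ hA' (subset_insert y A)) ?_
        intro z hz
        rcases h y hy z hz with h1 | h1
        · exact m4 _ z hA' (fun M hM => TPC.q_RIG L U hMon hX.npf hX.fin A y z hA h1 M hM)
        · exact ih _ z hA' h1
      intro M M' hM hM' hE
      by_cases hne : (M ∩ Pq L A x).Nonempty
      · obtain ⟨y, hy⟩ := hne
        refine hSTP L U hX A (Pq L A x) 1 (fun _ => y) hA hBq ?_ M M' hM hM' hE
          ⟨fun _ => y, ⟨_, nx_refl A, fun _ => rfl⟩, fun _ => hy⟩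
        intro t _ ht
        have h2 : A ∪ range t = insert (t 0) A := by
          rw [union_comm, insert_eq]
          congr 1
          ext z
          constructor
          · rintro ⟨i, rfl⟩
            rw [Subsingleton.elim i 0]
            exact rfl
          · rintro rfl
            exact mem_range_self 0
        rw [h2]
        exact key (t 0) (ht 0)
      · rw [not_nonempty_iff_eq_empty] at hne
        have hne' : M' ∩ Pq L A x = ∅ := by
          rw [← not_nonempty_iff_eq_empty]
          rintro ⟨y, hy⟩
          obtain ⟨_, _, h3⟩ := hE ∅ {y} 1 finite_empty (finite_singleton y)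
          obtain ⟨z, hz, _⟩ := h3 y rfl y hy ⟨_, nx_refl A, rfl⟩
          rw [hne] at hz
          exact hz
        rw [hne, hne']
        exact ⟨Equiv.refl _, fun s _ => ⟨_, nx_refl A, fun z _ => z.2.elim⟩⟩

end Pool.Agent.MTC
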