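import Pool.Agent.MTC.StV

/-!
# MTC/OUW (helper23, after `TPY/S1.lean`, `TPY/OUT.lean`): ended pieces satisfy `OutW`
-/

set_option autoImplicit false
set_option linter.unusedVariables false

namespace Pool.Agent.MTC

open FirstOrder.Language Set
open scoped FirstOrder
open Pool.Agent.MNO
open Pool.Agent.TPY

section

variable {L : FirstOrder.Language.{0, 0}} {U : Type} [L.Structure U]

/-- ends are nice or free unions -/
theorem nenw (hNLW : St_NLW) (hC : Cz L U) {r : ((Fin 1 → U) → Prop) → Prop} {A : Set U} (hA : A.Finite)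
    (hG : Gd L A r) {z : U} (hz : z ∈ En L A r) : (∃ n, NiceW L n A z) ∨ ∃ E cl, FrW L A z E cl := by
  by_cases hT : TS L A r
  · have h := s1_fr0 hA hG hT
    refine Or.inr ⟨TE L A r, Cl0 L A, frx hC h, ?_, fun y hy => ?_⟩
    · rw [fr_pc hC h hz]
      exact fun y hy => ⟨y, hy, fun P _ hP => hP⟩
    · rw [fr_pc hC h hz]
      exact hy
  · obtain ⟨N, hN⟩ := s1_N hC hA hG hT
    exact Or.inl ⟨N + 2, (hNLW L U hC).2 r A hA hG N hN z hz⟩

/-- [S1] the pieces over `B` of the elements of an ended piece over `A ⊆ B` -/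
theorem s1w (hNLW : St_NLW) (hC : Cz L U) {r : ((Fin 1 → U) → Prop) → Prop} {A : Set U} (hA : A.Finite)
    (hG : Gd L A r) {B : Set U} (hAB : A ⊆ B) (hB : B.Finite) {z : U} (hz : z ∈ En L A r) :
    (∃ n, NiceW L n B z) ∨ (∃ E cl, FrW L B z E cl) ∨ Pc L B z = {z} ∨
    (∃ (H E : Set U) (lt : U → U → Prop) (y : U), LinV L H E lt ∧ y ∈ E ∧
      ∀ v ∈ Pc L B z, v ∈ E ∧ ¬ lt y v ∧ ¬ lt v y) ∨
    ∃ (E : Set U) (cl : U → U → Prop) (b : U), FreV L A E cl ∧
      (∀ y ∈ E, ∃ x ∈ En L A r, Tq L A (s1 x) (s1 y)) ∧ b ∈ B ∧ b ∈ E ∧ z ∈ E ∧ cl b z := by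
  by_cases hzB : z ∈ B
  · exact Or.inr (Or.inr (Or.inl (pc_par hzB)))
  by_cases hze : z ∈ En L B r
  · rcases nenw hNLW hC hB (⟨hG.gt, hG.nal, inv_up hAB hG.inv⟩ : Gd L B r) hze with h | h
    · exact Or.inl h
    · exact Or.inr (Or.inl h)
  by_cases hT : TS L A r
  · have h := s1_fr0 hA hG hT
    obtain ⟨b, hb, hbe, hcl⟩ := frx_out hC h hAB hB hz hze
    exact Or.inr (Or.inr (Or.inr (Or.inr ⟨TE L A r, Cl0 L A, b, frx hC h, fun y hy => hy, hb,
      ⟨b, hbe, fun P _ hP => hP⟩, ⟨z, hz, fun P _ hP => hP⟩, hcl⟩)))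
  -- type L: a maximal base
  have hfin : {F : Set U | A ⊆ F ∧ F ⊆ B ∧ z ∈ En L F r}.Finite :=
    hB.finite_subsets.subset fun F hF => hF.2.1
  obtain ⟨F, -, hF⟩ := hfin.exists_le_maximal (a := A) ⟨Subset.rfl, hAB, hz⟩
  obtain ⟨hAF, hFB, hzF⟩ := hF.prop
  have hFf : F.Finite := hB.subset hFB
  have hGF : Gd L F r := ⟨hG.gt, hG.nal, inv_up hAF hG.inv⟩
  have hout : ∀ y ∈ B, y ∉ F → z ∉ En L (insert y F) r := by
    intro y hyB hyF h1
    have h2 := hF.le_of_ge (y := insert y F) ⟨hAF.trans (subset_insert y F), insert_subset hyB hFB, h1⟩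
      (subset_insert y F)
    exact hyF (h2 (mem_insert y F))
  have hin : ∀ y ∈ B, y ∉ F → y ∈ En L F r := by
    intro y hyB hyF
    by_contra h1
    have h2 := hout y hyB hyF
    rw [e_add hC hG.gt hG.nal hG.inv hAF hFf h1] at h2
    exact h2 hzF
  have hex : ∃ y ∈ B, y ∉ F := by
    by_contra hcon
    push Not at hcon
    have h1 : F = B := Subset.antisymm hFB hcon
    rw [h1] at hzF
    exact hze hzF
  have hTF : ¬ TS L F r := by
    intro h1
    apply hT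
    intro C hAC hCf
    by_contra h2
    have h3 := (n_NMO L U hC r hG.gt hG.nal C hCf (inv_up hAC hG.inv) (C ∪ F) subset_union_left
      (hCf.union hFf)).1 h2
    exact h3 (h1 (C ∪ F) subset_union_right (hCf.union hFf))
  by_cases hNF : NF L F r
  · -- linear
    have hLQ := f_LQF L U hC r F hFf hGF hNF
    have hlo := hLQ.lo.lo0
    by_cases hcl : ∃ y ∈ B, y ∉ F ∧ ¬ ltr L F r z y
    · obtain ⟨y, hyB, hyF, hzy⟩ := hcl
      have hy := hin y hyB hyF
      have hbf := (thm_LOH L U hC _ _ _ hLQ.lo).2.2.2.1 y hy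
      have h1 : Pc L B z ⊆ {v | v ∈ En L F r ∧ ¬ ltr L F r y v ∧ ¬ ltr L F r v y} := by
        refine (pc_mono hC hB (insert_subset hyB hFB) z).trans (pc_sub hbf ⟨hzF, ?_, hzy⟩)
        exact hout y hyB hyF
      obtain ⟨H, E, lt, h2, h3, h4, h5, h6, h7⟩ := inrd_lin f_LIN hC hLQ hy (R := Pc L B z)
        (fun v hv => h1 hv) (fun v hv hvF => e_par hC hG.gt hG.nal hG.inv hAF hFf hvF (h1 hv).1)
      exact Or.inr (Or.inr (Or.inr (Or.inl ⟨H, E, lt, y, h4, h5, h7⟩)))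
    · push Not at hcl
      obtain ⟨y₀, hy₀B, hy₀F⟩ := hex
      obtain ⟨b, hb, hbmin⟩ := fin_max (P := En L F r) (lt := fun x y => ltr L F r y x)
        (fun x hx => hlo.irr x hx) (fun x hx y hy z hz h1 h2 => hlo.tra z hz y hy x hx h2 h1)
        (D := B \ F) (hB.subset sdiff_subset) (fun y hy => hin y hy.1 hy.2) ⟨y₀, hy₀B, hy₀F⟩
      have hbP := hin b hb.1 hb.2
      have hLQ' := lqx_up hC (B := B) (lqx_dn thm_LOH hC hLQ hbP) (insert_subset hb.1 hFB) hB (by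
        intro y hyB hyP
        by_cases hyF : y ∈ F
        · exact e_par hC hG.gt hG.nal hG.inv hAF hFf hyF hyP.1
        · exact hbmin y ⟨hyB, hyF⟩ hyP.2)
      exact Or.inl ⟨2, (hNLW L U hC).1 B _ _ hLQ' z ⟨hzF, hcl b hb.1 hb.2⟩⟩
  · -- inner
    obtain ⟨N, hN⟩ := s1_N hC hFf hGF hTF
    obtain ⟨y, hyB, hyF⟩ := hex
    have hne : z ≠ y := by
      rintro rfl
      exact hzB hyB
    obtain ⟨H, E, lt, h2, h3, h4, h5, h6, h7⟩ := inrd_sub (rig_nl f_LIN f_LQF thm_LOH hC hFf hGF hN hNF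
      (hin y hyB hyF) hzF (hout y hyB hyF) hne) (pc_mono hC hB (insert_subset hyB hFB) z)
    exact Or.inr (Or.inr (Or.inr (Or.inl ⟨H, E, lt, y, h4, h5, h7⟩)))

end

theorem thm_OUW (hNLW : St_NLW) : St_OUW := by
  intro L V _ hC A z hA h B hB hAB z' hz'
  obtain ⟨r, hG, hP⟩ := edd_en hC hA h
  rw [hP] at hz' ⊢
  exact s1w hNLW hC hA hG hAB hB hz'

end Pool.Agent.MTC
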