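import Pool.Agent.MTC.StA
import Pool.Agent.TPC.API

/-!
MTC, module PRT: parts of models (after `Pool/Agent/TPC/UNQ.lean`).
-/

set_option autoImplicit false
set_option linter.unusedVariables false

namespace Pool.Agent.MTC

open FirstOrder.Language Set
open scoped FirstOrder
open Pool.Agent.WOM (tp Mon IsEl IsoM CtU Fx Orb Isd)
open Pool.Agent.PMC (Sm Md NPf fx_refl fx_comp fx_mono comp_apply' isEl_of_orb)
open Pool.Agent.MNO (Dp FE Sq Nx SmN FE1 FinN nx_mono nx_fx nx_meets)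
open Pool.Agent.TPC (Bq Pq Sub Fcp Lin Fre Iv Kl Inr Lab Clu Rgd Ist Cpt)

private theorem PRT_sgl {L : FirstOrder.Language.{0, 0}} {U : Type} [L.Structure U] {A : Set U} {a : U}
    (ha : a ∈ A) : A.Definable₁ L {a} := by
  unfold Set.Definable₁
  rw [Set.definable_iff_exists_formula_sum]
  refine ⟨(FirstOrder.Language.Term.var (Sum.inr 0)).equal
    (FirstOrder.Language.Term.var (Sum.inl ⟨a, ha⟩)), ?_⟩
  ext v
  simp [FirstOrder.Language.Formula.realize_equal]

theorem thm_PRT : St_PRT := by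
  intro L U _ hM hN B R Z hB hR hZR H
  have hAL := TPC.q_ALQ L U hM B hB
  have hIM := (TPC.q_IMQ L U hM B hB).2.2
  have hBX : B ⊆ Z ∪ Rᶜ := by
    intro b hb
    by_cases hbR : b ∈ R
    · left
      have hset : Orb L {b} b ∩ Pq L B b = {b} := by
        apply Set.eq_singleton_iff_unique_mem.2
        refine ⟨⟨⟨FirstOrder.Language.Equiv.refl L U, fx_refl _, rfl⟩, (hAL.2.2.2.2.1 b).2⟩, ?_⟩
        rintro y ⟨⟨k, hk, rfl⟩, _⟩
        exact hk b rfl
      obtain ⟨y, hy, hyZ⟩ := H {b} ∅ b (Set.finite_singleton b) hbR Set.finite_empty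
        (Set.empty_subset _) ⟨{b}, Set.finite_singleton b, by
          rw [hset]
          exact PRT_sgl rfl⟩ (by
          intro g hg x hx
          rw [hset] at hx ⊢
          have hxb : x = b := hx
          rw [hxb]
          exact (nx_fx hg) b (Or.inl hb))
      rw [hset] at hy
      have hyb : y = b := hy
      rwa [hyb] at hyZ
    · exact Or.inr hbR
  refine ⟨isEl_of_orb hM hB hBX ?_, hBX⟩
  intro B' hB' hBB' hB'X v hO
  by_cases hOR : Orb L B' v ⊆ R
  swap
  · obtain ⟨y, hy, hyR⟩ := Set.not_subset.1 hOR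
    exact ⟨y, Or.inr hyR, hy⟩
  have hvO : v ∈ Orb L B' v := ⟨FirstOrder.Language.Equiv.refl L U, fx_refl B', rfl⟩
  have hvR : v ∈ R := hOR hvO
  obtain ⟨hP, hvP⟩ := hAL.2.2.2.2.1 v
  have hPR : Pq L B v ⊆ R := hAL.2.2.2.2.2.1 v R hR hvR
  by_cases hb : ∃ b ∈ B', b ∈ Pq L B v
  · obtain ⟨b, hbB, hbP⟩ := hb
    have hOP : ∀ y ∈ Orb L B' v, y ∈ Pq L B v := by
      rintro y ⟨k, hk, rfl⟩
      have h1 := hIM k (fx_mono hBB' hk) v
      have h2 := hIM k (fx_mono hBB' hk) b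
      rw [hAL.2.2.2.2.2.2.2.1 v b hbP, hk b hbB, hAL.2.2.2.2.2.2.2.1 v b hbP] at h2
      rw [← h2]
      exact ⟨v, hvP, rfl⟩
    have hsub : B' ∩ Pq L B v ⊆ Z := by
      rintro y ⟨hyB, hyP⟩
      rcases hB'X hyB with h | h
      · exact h
      · exact absurd (hPR hyP) h
    have hinter : Orb L B' v ∩ Pq L B v = Orb L B' v :=
      Set.inter_eq_left.2 hOP
    obtain ⟨y, hy, hyZ⟩ := H B' (B' ∩ Pq L B v) v hB' hvR (hB'.subset inter_subset_left) hsub
      ⟨B', hB', by rw [hinter]; exact hO⟩ (by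
        rw [hinter]
        intro g hg y hy
        obtain ⟨h, hhA, hhP, hhn⟩ := hP.glu g (nx_mono subset_union_left hg)
        have hyP := hOP y hy
        obtain ⟨k, hk, rfl⟩ := hy
        have hhB : Fx L B' h := by
          intro c hc
          by_cases hcP : c ∈ Pq L B v
          · rw [hhP c hcP]
            exact (nx_fx hg) c (Or.inr ⟨hc, hcP⟩)
          · exact hhn c hcP
        refine ⟨h.comp k, fx_comp hhB hk, ?_⟩
        rw [comp_apply']
        exact hhP _ hyP)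
    exact ⟨y, Or.inl hyZ, hy.1⟩
  · have hOA : Orb L B' v ⊆ Orb L B v := by
      rintro y ⟨k, hk, rfl⟩
      exact ⟨k, fx_mono hBB' hk, rfl⟩
    have hF := TPC.q_FCP L U hM hN B hB
    obtain ⟨C, hC, hCd⟩ := TPC.q_SEP L U hM B B' (Orb L B' v) v
      hB hB' hO hOA ((hF v).subset (by
        rintro P ⟨y, hy, rfl⟩
        exact ⟨y, hOA hy, rfl⟩)) v hvO
    obtain ⟨y, hy, hyZ⟩ := H B' ∅ v hB' hvR Set.finite_empty (Set.empty_subset _) ⟨C, hC, hCd⟩ (by
      rintro g hg y ⟨hy, hyP⟩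
      have hg' : Nx L B g := nx_mono subset_union_left hg
      refine ⟨?_, (hP.inv g hg' y).2 hyP⟩
      obtain ⟨h, hhA, hhP, hhn⟩ := hP.glu g hg'
      obtain ⟨k, hk, rfl⟩ := hy
      have hhB : Fx L B' h := fun c hc => hhn c fun hcP => hb ⟨c, hc, hcP⟩
      refine ⟨h.comp k, fx_comp hhB hk, ?_⟩
      rw [comp_apply']
      exact hhP _ hyP)
    exact ⟨y, Or.inl hyZ, hy.1⟩

end Pool.Agent.MTC
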