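import Pool.Agent.MTC.StV

/-!
# MTC, [R2W]: run 2, no big piece inside a cluster of a free union (helper13, after TPY/RU2.lean)
-/

set_option autoImplicit false
set_option linter.unusedVariables false

namespace Pool.Agent.MTC

open FirstOrder.Language Set
open scoped FirstOrder
open Pool.Agent.WOM (tp Mon IsEl IsoM CtU Fx Orb Isd)
open Pool.Agent.PMC (Sm Md NPf)
open Pool.Agent.MNO (Dp FE Sq Nx SmN FE1 FinN)
open Pool.Agent.TPC (Bq Pq Sub Fcp Lin Fre Iv Kl Inr Lab Clu Rgd Ist Cpt)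
open Pool.Agent.TPY (Cz Tq Pc BF s1 LinV FreV InrV Gd En TS NF Ind pre LQ Edd IsoV IsoP Emb NBV)
open Pool.Agent.TPY (tq_sub tq_mono pc_symm pc_mono pc_eq fre_of pq_pre)

/-- [R2W] -/
theorem thm_R2W (hBGW : St_BGW) (hOUW : St_OUW) (hBMV : St_BMV) (hB1W : St_B1W) (hMCA : St_MCA)
    (hFRN : St_FRN) : St_R2W := by
  intro L U V _ _ i hC hi hX hIP H E cl x hF hx A z hA hHA hzE hxz hbig
  have hM : Mon L U := hX.mon
  have hNP : NPf L U := hX.npf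
  have hFN : FinN L U := hX.fin
  obtain ⟨-, g2, g3, g4, g5, g6, g7⟩ := hBMV L U V i hC hi hX
  obtain ⟨-, -, -, m4, -⟩ := hMCA L U hX
  obtain ⟨k1, k2⟩ := TPY.w_KPV L U V i hC hi hM H E cl x hF hx
  refine hBGW L V hC hIP (insert x H) (fun B v => v ∈ E ∧ cl x v ∧ BigMV L U B v) (hF.fin.insert x)
    ?_ A z hA hHA ⟨hzE, hxz, hbig⟩
  refine ⟨?_, ?_, ?_, ?_, ?_, ?_, ?_⟩
  · intro n a a' v v' hA0 hsq hv
    obtain ⟨h1, h2, h3⟩ := hv
    have h4 : Tq L (insert x H) (s1 v) (s1 v') :=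
      tq_sub hsq (Sum.inr : Fin 1 → Fin n ⊕ Fin 1)
    obtain ⟨h5, h6⟩ := k2 v v' h4 h1 h2
    exact ⟨h5, h6, g2 n a a' v v' (tq_mono (empty_subset _) hsq) h3⟩
  · intro B v v' hB hAB hv' hv
    obtain ⟨h1, h2, h3⟩ := hv
    obtain ⟨h4, h5⟩ := k1 B v hB hAB h1 h2 v' hv'
    exact ⟨h4, h5, g3 B v v' hB hv' h3⟩
  · intro B v hB hAB hvB hv
    exact g7 B v hB hvB hv.2.2
  · intro B v hB hAB hO hv
    obtain ⟨h1, h2, h3⟩ := hv
    obtain ⟨j, B1, z1, hj, hB1, hBj, hz1, hnm, hcase⟩ :=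
      hB1W L U V i hC hi hX B v hB (hOUW L V hC B v hB hO) h3
    have hBr : B ⊆ range j := hBj.trans (image_subset_range _ _)
    have hjB : j '' (j ⁻¹' B) = B := image_preimage_eq_of_subset hBr
    have hHr : H ⊆ range j := ((subset_insert x H).trans hAB).trans hBr
    have hjH : j '' (j ⁻¹' H) = H := image_preimage_eq_of_subset hHr
    obtain ⟨x', hx'⟩ := hBr (hAB (mem_insert x H))
    have hFH : Fre L (j ⁻¹' H) (j ⁻¹' E) (fun u w => cl (j u) (j w)) :=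
      fre_of hj hM (by rw [hjH]; exact hF)
    have hsub : j ⁻¹' B ⊆ B1 := by
      intro a ha
      obtain ⟨b, hb, hab⟩ := hBj ha
      rw [hj.inj hab] at hb
      exact hb
    have hxE : j x' ∈ E := by rw [hx']; exact hx
    have hxB : x' ∈ j ⁻¹' B := by
      show j x' ∈ B
      rw [hx']; exact hAB (mem_insert x H)
    have hHB : j ⁻¹' H ⊆ j ⁻¹' B := preimage_mono ((subset_insert x H).trans hAB)
    rcases hcase with ⟨b1, E1, cl1, hF1, hE1, hb1, hbE, hzE1, hcl⟩ | ⟨E1, cl1, hF1, hPE, hE1⟩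
    · have hFB : Fre L (j ⁻¹' B) (j ⁻¹' E1) (fun u w => cl1 (j u) (j w)) :=
        fre_of hj hM (by rw [hjB]; exact hF1)
      have hin : ∀ w ∈ j ⁻¹' E1, w ∈ j ⁻¹' E ∧ cl (j x') (j w) := by
        intro w hw
        obtain ⟨u, hu, huw⟩ := hE1 (j w) hw
        obtain ⟨h4, h5⟩ := k1 B v hB hAB h1 h2 u hu
        obtain ⟨h6, h7⟩ := k2 u (j w) (tq_mono hAB huw) h4 h5
        refine ⟨h6, ?_⟩
        rw [hx']
        exact h7
      have hR : Rgd L B1 z1 := TPC.z_NFR L U hM hNP hFN (j ⁻¹' H) (j ⁻¹' E)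
        (fun u w => cl (j u) (j w)) x' (j ⁻¹' B) (j ⁻¹' E1) (fun u w => cl1 (j u) (j w)) hFH
        hxE hFB hHB hxB hin B1 b1 z1 hB1 hsub hb1 hbE hzE1 hcl
      exact hnm (m4 B1 z1 hB1 hR)
    · have hFB : Fre L B1 (j ⁻¹' E1) (fun u w => cl1 (j u) (j w)) := fre_of hj hM hF1
      have hjB1 : (j '' B1).Finite := hB1.image j
      have hin : ∀ w ∈ j ⁻¹' E1, w ∈ j ⁻¹' E ∧ cl (j x') (j w) := by
        intro w hw
        obtain ⟨u, hu, huw⟩ := hE1 (j w) hw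
        have hu' : u ∈ Pc L B v := by
          rw [← pc_eq hC hB.countable hz1]
          exact pc_mono hC hjB1 hBj (j z1) hu
        obtain ⟨h4, h5⟩ := k1 B v hB hAB h1 h2 u hu'
        obtain ⟨h6, h7⟩ := k2 u (j w) (tq_mono (hAB.trans hBj) huw) h4 h5
        refine ⟨h6, ?_⟩
        rw [hx']
        exact h7
      have hClm : Clm L B1 (j ⁻¹' E1) (fun u w => cl1 (j u) (j w)) := by
        intro B2 b w hB2 hB12 hb hbE hwE hcl
        have hR : Rgd L B2 w := TPC.z_NFR L U hM hNP hFN (j ⁻¹' H) (j ⁻¹' E)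
          (fun u w => cl (j u) (j w)) x' B1 (j ⁻¹' E1) (fun u w => cl1 (j u) (j w)) hFH
          hxE hFB (hHB.trans hsub) (hsub hxB) hin B2 b w hB2 hB12 hb hbE hwE hcl
        exact m4 B2 w hB2 hR
      have hPE' : Pq L B1 z1 ⊆ j ⁻¹' E1 := by
        rw [pq_pre hC hj hM hB1]
        exact preimage_mono hPE
      exact hnm (hFRN L U hX B1 (j ⁻¹' E1) (Pq L B1 z1) _ hFB ((TPC.q_ALQ L U hM B1 hB1).2.2.2.2.1 z1).1
        hPE' hClm)
  · intro B v n u hB hAB hu hiso hv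
    obtain ⟨h1, h2, h3⟩ := hv
    obtain ⟨v', hv', h4⟩ := g6 B v n u hB hiso h3
    obtain ⟨h5, h6⟩ := k1 B v hB hAB h1 h2 v' hv'
    exact ⟨v', hv', h5, h6, h4⟩
  · intro B B' v v' hB' hAB hBB hv' hv
    obtain ⟨h1, h2, h3⟩ := hv
    have hB : B.Finite := hB'.subset hBB
    obtain ⟨h4, h5⟩ := k1 B v' hB hAB h1 h2 v (pc_symm hC hB.countable hv')
    exact ⟨h4, h5, g4 B B' v v' hB' hBB hv' h3⟩
  · intro B W v hB hAB hW hdis hv
    obtain ⟨h1, h2, h3⟩ := hv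
    exact ⟨h1, h2, g5 B W v hB hW hdis h3⟩

end Pool.Agent.MTC
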