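import Pool.Agent.MTC.StV

/-!
# MTC, module R3W (proof of helper56; a port of `TPY/RU3.lean`): run 3
-/

set_option autoImplicit false
set_option linter.unusedVariables false

namespace Pool.Agent.MTC

open FirstOrder.Language Set
open scoped FirstOrder
open Pool.Agent.WOM (tp Mon IsEl IsoM CtU Fx Orb Isd)
open Pool.Agent.PMC (Sm Md NPf)
open Pool.Agent.MNO (Dp FE Sq Nx SmN FE1 FinN)
open Pool.Agent.TPC (Bq Pq Sub Lin Fre Ist Cpt)
open Pool.Agent.TPY (Cz Tq Pc s1 Emb IsoV IsoP FreV Edd pq_pre fre_of)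

/-- [R3W] -/
theorem thm_R3W (hBGW : St_BGW) (hOUW : St_OUW) (hBMV : St_BMV) (hB1W : St_B1W) (hBGM : St_BGM)
    (hFRN : St_FRN) (hR2W : St_R2W) : St_R3W := by
  intro L U V _ _ i hC hE hX hI z0 hz0
  have hM : Mon L U := hX.mon
  obtain ⟨c1, c2, c3, c4, c5, c6, c7⟩ := hBMV L U V i hC hE hX
  have hH : BigW L (∅ : Set V) (BigMV L U) := by
    refine ⟨?_, ?_, ?_, ?_, ?_, ?_, ?_⟩
    · intro n a a' z z' _ hs hb
      exact c2 n a a' z z' hs hb
    · intro A z z' hA _ hz hb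
      exact c3 A z z' hA hz hb
    · intro A z hA _ hzA
      exact c7 A z hA hzA
    · intro A z hA _ hO hb
      obtain ⟨j, B1, z1, hj, hB1, hAB, hz1, hnC, h⟩ :=
        hB1W L U V i hC hE hX A z hA (hOUW L V hC A z hA hO) hb
      have hAL := (Pool.Agent.TPC.q_ALQ L U hM B1 hB1).2.2.2.2.1 z1
      rcases h with ⟨b1, E, cl, hFr, hEt, hb1, hbE, hzE, hcl⟩ | ⟨E, cl, hFr, hPE, hEt⟩
      · have hbig : BigM L B1 z1 := ⟨B1, z1, hB1, subset_rfl, hAL.2, hnC⟩
        have hbv : BigMV L U (j '' B1) (j z1) := (c1 j B1 z1 hj hB1).2 hbig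
        exact hR2W L U V i hC hE hX hI A E cl (j b1) hFr hbE (j '' B1) (j z1) (hB1.image j)
          (insert_subset ⟨b1, hb1, rfl⟩ hAB) hzE hcl hbv
      · have hFB : Fre L B1 (j ⁻¹' E) (fun u w => cl (j u) (j w)) := fre_of hj hM hFr
        refine hnC (hFRN L U hX B1 (j ⁻¹' E) (Pq L B1 z1) (fun u w => cl (j u) (j w)) hFB hAL.1 ?_ ?_)
        · rw [pq_pre hC hj hM hB1]
          exact fun y hy => hPE hy
        · intro B b w hB hBB hb hbE hwE hbw
          have hn : ¬ BigMV L U (j '' B) (j w) :=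
            hR2W L U V i hC hE hX hI (j '' B1) E cl (j b) hFr hbE (j '' B) (j w) (hB.image j)
              (insert_subset ⟨b, hb, rfl⟩ (image_mono hBB)) hwE hbw
          exact (hBGM L U hX B w hB).2.2.2.2.1 (fun h => hn ((c1 j B w hj hB).2 h))
    · intro A z n u hA _ _ hI hb
      exact c6 A z n u hA hI hb
    · intro A A' z z' hA' _ hAA hz hb
      exact c4 A A' z z' hA' hAA hz hb
    · intro A W z hA _ hW hd hb
      exact c5 A W z hA hW hd hb
  have h1 : BigMV L U (i '' (∅ : Set U)) (i z0) := (c1 i ∅ z0 hE finite_empty).2 hz0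
  rw [image_empty] at h1
  exact hBGW L V hC hI ∅ (BigMV L U) finite_empty hH ∅ (i z0) finite_empty subset_rfl h1

end Pool.Agent.MTC
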