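import Pool.Agent.MTC.StB

/-!
# MTC: module RCL, restriction of a game to clusters
-/

set_option autoImplicit false
set_option linter.unusedVariables false

namespace Pool.Agent.MTC

open FirstOrder.Language Set
open scoped FirstOrder
open Pool.Agent.WOM (tp Mon IsEl IsoM CtU Fx Orb Isd)
open Pool.Agent.PMC (Sm Md NPf)
open Pool.Agent.MNO (Dp FE Sq Nx SmN FE1 FinN)
open Pool.Agent.TPC (Bq Pq Sub Fcp Lin Fre Iv Kl Inr Lab Clu Rgd Ist Cpt)

namespace RCLx

variable {L : FirstOrder.Language.{0, 0}} {U : Type} [L.Structure U]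

/-- the atom of a pair -/
def two (x y : U) : Atm U := ⟨1, 1, Sum.elim (fun _ => x) fun _ => y⟩

theorem cj_two {G : (U ≃[L] U) → Prop} {x y x' y' : U} :
    Cj L G (two x y).2.2 (Sum.elim (fun _ : Fin 1 => x') fun _ : Fin 1 => y') ↔
      ∃ g : U ≃[L] U, G g ∧ g x = x' ∧ g y = y' := by
  constructor
  · rintro ⟨g, h1, h2⟩
    exact ⟨g, h1, h2 (Sum.inl (0 : Fin 1)), h2 (Sum.inr (0 : Fin 1))⟩
  · rintro ⟨g, h1, h2, h3⟩
    refine ⟨g, h1, ?_⟩
    rintro (a | a)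
    · exact h2
    · exact h3

theorem cj1_trans {A : Set U} {x y z : U} (h : Cj1 L (Nx L A) x y) (h' : Cj1 L (Nx L A) x z) :
    Cj1 L (Nx L A) y z := by
  obtain ⟨g, h1, h2⟩ := h
  obtain ⟨g', h3, h4⟩ := h'
  refine ⟨g'.comp g.symm, MNO.nx_comp h3 (MNO.nx_symm h1), ?_⟩
  show g' (g.symm y) = z
  rw [← h2, g.symm_apply_apply, h4]

end RCLx

open RCLx in
theorem thm_RCL (hGEQ : St_GEQ) (hKLB : St_KLB) : St_RCL := by
  intro L U _ hM A E P cl hF hP hPE Δ D p hΔ hD hp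
  obtain ⟨-, -, -, -, -, hort⟩ := hKLB L U hM A E P cl hF hP hPE
  have hb : ∀ u : U, ∃ b : U, u ∈ P → (Cj1 L (Nx L A) u b ∧ b ∈ E ∧ ¬ cl p b) := by
    intro u
    by_cases hu : u ∈ P
    · obtain ⟨g, h1, h2⟩ := hF.inf u (hPE hu) {p} (finite_singleton p)
        (singleton_subset_iff.2 (hPE hp))
      exact ⟨g u, fun _ => ⟨⟨g, h1, rfl⟩, (hF.bq.inv g h1 u).2 (hPE hu), h2 p rfl⟩⟩
    · exact ⟨u, fun h => absurd h hu⟩
  choose b hb using hb
  refine ⟨Δ ∪ (fun u => two p (b u)) '' D, hΔ.union (hD.image _), subset_union_left, ?_⟩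
  -- the answer is in the cluster
  have key : ∀ (n : ℕ) (α : Type) (a : α) (X Y : Set U) (v w : α → U) (u x y : U), u ∈ D → u ∈ P →
      x ∈ P → y ∈ P → Cj1 L (Nx L A) u x → Cj1 L (Nx L A) u y →
      Cj1 L (Nx L A) p (v a) → Cj1 L (Nx L A) p (w a) →
      Eg L (Nx L A) A (Δ ∪ (fun u => two p (b u)) '' D) D n (Option α) X (ov v x) Y (ov w y) →
      cl (v a) x → cl (w a) y := by
    intro n α a X Y v w u x y hu huP hx hy h1 h2 h3 h4 h5 h6
    by_contra h7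
    obtain ⟨h8, h9, h10⟩ := hb u huP
    have hwa : w a ∈ P := by
      obtain ⟨g, h11, h12⟩ := h4
      rw [← h12]
      exact (hP.inv g h11 p).2 hp
    have h13 := hort p (hPE hp) (b u) h9 (w a) (hPE hwa) y (hPE hy) h10 h7 h4 (cj1_trans h8 h2)
    obtain ⟨g, h14, h15⟩ := h13
    have h16 := (hGEQ L U (Nx L A) A (Δ ∪ (fun u => two p (b u)) '' D) D n (Option α)).2.2.2.2.2
      X Y _ _ h5
    have h17 := (h16 (two p (b u)) (Or.inr ⟨u, hu, rfl⟩) (fun _ => some a) (fun _ => none)).1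
    have h18 := h17.2 (cj_two.2 ⟨g, h14, h15 0, h15 1⟩)
    obtain ⟨g', h19, h20, h21⟩ := cj_two.1 h18
    have h22 := (hF.fxc g' h19.1 p (hPE hp) (b u) h9)
    rw [h20, h21] at h22
    exact h10 (h22.1 h6)
  have hAt : ∀ (α : Type) (v w : α → U), At L (Nx L A) A (Δ ∪ (fun u => two p (b u)) '' D) v w →
      At L (Nx L A) A Δ v w := fun α v w h δ hδ => h δ (Or.inl hδ)
  intro n
  induction n with
  | zero =>
    intro α a X Y v w h1 h2 h3
    exact hAt _ _ _ h3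
  | succ n ih =>
    intro α a X Y v w h1 h2 h3
    obtain ⟨h4, h5, h6⟩ := h3
    refine ⟨hAt _ _ _ h4, fun u hu x hx h7 => ?_, fun u hu y hy h7 => ?_⟩
    · obtain ⟨hxX, hxP, hcl⟩ := hx
      have huP : u ∈ P := by
        obtain ⟨g, h8, h9⟩ := h7
        exact (hP.inv g h8 u).1 (by rw [h9]; exact hxP)
      obtain ⟨y, hy, h10, h11⟩ := h5 u hu x hxX h7
      have hyP : y ∈ P := by
        obtain ⟨g, h8, h9⟩ := h10
        rw [← h9]
        exact (hP.inv g h8 u).2 huP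
      have h12 := key n α a X Y v w u x y hu huP hxP hyP h7 h10 h1 h2 h11 hcl
      exact ⟨y, ⟨hy, hyP, h12⟩, h10, ih (Option α) (some a) X Y _ _ h1 h2 h11⟩
    · obtain ⟨hyY, hyP, hcl⟩ := hy
      have huP : u ∈ P := by
        obtain ⟨g, h8, h9⟩ := h7
        exact (hP.inv g h8 u).1 (by rw [h9]; exact hyP)
      obtain ⟨x, hx, h10, h11⟩ := h6 u hu y hyY h7
      have hxP : x ∈ P := by
        obtain ⟨g, h8, h9⟩ := h10
        rw [← h9]
        exact (hP.inv g h8 u).2 huP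
      have h13 := (hGEQ L U (Nx L A) A (Δ ∪ (fun u => two p (b u)) '' D) D n (Option α)).2.1
        X Y _ _ h11
      have h12 := key n α a Y X w v u y x hu huP hyP hxP h7 h10 h2 h1 h13 hcl
      exact ⟨x, ⟨hx, hxP, h12⟩, h10, ih (Option α) (some a) X Y _ _ h1 h2 h11⟩

end Pool.Agent.MTC
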