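import Pool.Agent.MTC.StA

/-!
# MTC: module RPM, parameters outside of a union of pieces
-/

set_option autoImplicit false
set_option linter.unusedVariables false

namespace Pool.Agent.MTC

open FirstOrder.Language Set
open scoped FirstOrder
open Pool.Agent.WOM (tp Mon IsEl IsoM CtU Fx Orb Isd)
open Pool.Agent.PMC (Sm Md NPf)
open Pool.Agent.MNO (Dp FE Sq Nx SmN FE1 FinN)
open Pool.Agent.TPC (Bq Pq Sub Fcp Lin Fre Iv Kl Inr Lab Clu Rgd Ist Cpt)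

namespace RPMx

variable {L : FirstOrder.Language.{0, 0}} {U : Type} [L.Structure U]

theorem cj_iff (hM : Mon L U) {A W Q : Set U} (hA : A.Finite) (hW : W.Finite) (hQ : Bq L A Q)
    (hd : Disjoint W Q) {ι : Type} [Finite ι] {s t : ι → U} (ht : ∀ i, t i ∈ Q) :
    Cj L (Nx L A) s t ↔ Cj L (Nx L (A ∪ W)) s t := by
  constructor
  · rintro ⟨g, h1, h2⟩
    obtain ⟨h, h3, h4⟩ := (TPC.q_OFQ L U hM A Q hA hQ).1 W hW hd g h1 (range s) (finite_range s)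
      (by
        rintro _ ⟨i, rfl⟩
        exact (hQ.inv g h1 (s i)).1 (by rw [h2 i]; exact ht i))
    exact ⟨h, h3, fun i => by rw [h4 _ ⟨i, rfl⟩, h2 i]⟩
  · rintro ⟨g, h1, h2⟩
    exact ⟨g, MNO.nx_mono subset_union_left h1, h2⟩

theorem cj1_iff (hM : Mon L U) {A W Q : Set U} (hA : A.Finite) (hW : W.Finite) (hQ : Bq L A Q)
    (hd : Disjoint W Q) {u y : U} (hy : y ∈ Q) :
    Cj1 L (Nx L A) u y ↔ Cj1 L (Nx L (A ∪ W)) u y := by
  have h := cj_iff hM hA hW hQ hd (ι := Unit) (s := fun _ => u) (t := fun _ => y) (fun _ => hy)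
  constructor
  · rintro ⟨g, h1, h2⟩
    obtain ⟨g', h3, h4⟩ := h.1 ⟨g, h1, fun _ => h2⟩
    exact ⟨g', h3, h4 ()⟩
  · rintro ⟨g, h1, h2⟩
    obtain ⟨g', h3, h4⟩ := h.2 ⟨g, h1, fun _ => h2⟩
    exact ⟨g', h3, h4 ()⟩

theorem at_of (hM : Mon L U) {A W Q : Set U} (hA : A.Finite) (hW : W.Finite) (hQ : Bq L A Q)
    (hd : Disjoint W Q) {Δ : Set (Atm U)} {α : Type} {v w : α → U} (hv : ∀ a, v a ∈ Q)
    (hw : ∀ a, w a ∈ Q) (h : At L (Nx L A) A Δ v w) : At L (Nx L (A ∪ W)) (A ∪ W) Δ v w := by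
  intro δ hδ i j
  obtain ⟨h1, h2⟩ := h δ hδ i j
  have hin : ∀ z : α → U, (∀ a, z a ∈ Q) → ∀ j' : Fin δ.2.1 → α, ∀ b : Fin δ.1 ⊕ Fin δ.2.1,
      Sum.elim (fun a => z (i a)) (fun a => z (j' a)) b ∈ Q := by
    intro z hz j' b
    rcases b with a | a
    · exact hz _
    · exact hz _
  have hb : ∀ z : α → U, (∀ a, z a ∈ Q) → ∀ s t : Fin δ.2.1 → U, (∀ a, t a ∈ Q) →
      (Cj L (Nx L (A ∪ range fun a => z (i a))) s t ↔
        Cj L (Nx L ((A ∪ W) ∪ range fun a => z (i a))) s t) := by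
    intro z hz s t ht
    rw [union_right_comm A W]
    have hf : (A ∪ range fun a => z (i a)).Finite := hA.union (finite_range _)
    exact cj_iff hM hf hW ((TPC.q_OFQ L U hM A Q hA hQ).2.2 _ hf subset_union_left) hd ht
  refine ⟨?_, fun j' h3 h4 => ?_⟩
  · rw [← cj_iff hM hA hW hQ hd (hin v hv j), ← cj_iff hM hA hW hQ hd (hin w hw j)]
    exact h1
  · rw [← cj_iff hM hA hW hQ hd (hin v hv _)] at h3 h4
    rw [← hb v hv _ _ (fun a => hv _), ← hb w hw _ _ (fun a => hw _)]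
    exact h2 j' h3 h4

theorem main (hM : Mon L U) {A W Q X Y : Set U} (hA : A.Finite) (hW : W.Finite) (hQ : Bq L A Q)
    (hd : Disjoint W Q) (hX : X ⊆ Q) (hY : Y ⊆ Q) {Δ : Set (Atm U)} {D : Set U} :
    ∀ (n : ℕ) (α : Type) (v w : α → U), (∀ a, v a ∈ Q) → (∀ a, w a ∈ Q) →
    Eg L (Nx L A) A Δ D n α X v Y w → Eg L (Nx L (A ∪ W)) (A ∪ W) Δ D n α X v Y w := by
  intro n
  induction n with
  | zero =>
    intro α v w hv hw h
    exact at_of hM hA hW hQ hd hv hw h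
  | succ n ih =>
    intro α v w hv hw h
    obtain ⟨h1, h2, h3⟩ := h
    have hov : ∀ (z : α → U) (x : U), (∀ a, z a ∈ Q) → x ∈ Q → ∀ o, ov z x o ∈ Q := by
      intro z x hz hx o
      cases o with
      | none => exact hx
      | some a => exact hz a
    refine ⟨at_of hM hA hW hQ hd hv hw h1, fun u hu x hx h4 => ?_, fun u hu y hy h4 => ?_⟩
    · obtain ⟨y, hy, h5, h6⟩ := h2 u hu x hx ((cj1_iff hM hA hW hQ hd (hX hx)).2 h4)
      exact ⟨y, hy, (cj1_iff hM hA hW hQ hd (hY hy)).1 h5,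
        ih _ _ _ (hov v x hv (hX hx)) (hov w y hw (hY hy)) h6⟩
    · obtain ⟨x, hx, h5, h6⟩ := h3 u hu y hy ((cj1_iff hM hA hW hQ hd (hY hy)).2 h4)
      exact ⟨x, hx, (cj1_iff hM hA hW hQ hd (hX hx)).1 h5,
        ih _ _ _ (hov v x hv (hX hx)) (hov w y hw (hY hy)) h6⟩

end RPMx

theorem thm_RPM : St_RPM := by
  intro L U _ hM A W Q X Y hA hW hQ hd hX hY h Δ D n hΔ hD
  exact RPMx.main hM hA hW hQ hd hX hY n Empty _ _ (fun a => a.elim) (fun a => a.elim)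
    (h Δ D n hΔ hD)

end Pool.Agent.MTC
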