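import Pool.Agent.MTC.StA

/-!
# MTC, module RSQ (helper96): restriction to an invariant set
-/

set_option autoImplicit false
set_option linter.unusedVariables false

namespace Pool.Agent.MTC

open FirstOrder.Language Set
open scoped FirstOrder
open Pool.Agent.MNO (Nx)

private theorem rsq_one (L : FirstOrder.Language.{0, 0}) (U : Type) [L.Structure U]
    (G : (U ≃[L] U) → Prop) (C P : Set U) (hP : ∀ g : U ≃[L] U, G g → ∀ x, g x ∈ P ↔ x ∈ P)
    (Δ : Set (Atm U)) (D : Set U) (n : ℕ) : ∀ (α : Type) (X Y : Set U) (v w : α → U),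
      Eg L G C Δ D n α X v Y w → Eg L G C Δ D n α (X ∩ P) v (Y ∩ P) w := by
  have key : ∀ u x y : U, Cj1 L G u x → Cj1 L G u y → x ∈ P → y ∈ P := by
    rintro u x y ⟨g, hg, rfl⟩ ⟨g', hg', rfl⟩ hx
    exact (hP g' hg' u).mpr ((hP g hg u).mp hx)
  induction n with
  | zero =>
    intro α X Y v w h
    exact h
  | succ n ih =>
    intro α X Y v w h
    obtain ⟨h1, h2, h3⟩ := h
    refine ⟨h1, ?_, ?_⟩
    · rintro u hu x ⟨hx, hxP⟩ hc
      obtain ⟨y, hy, hc', he⟩ := h2 u hu x hx hc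
      exact ⟨y, ⟨hy, key u x y hc hc' hxP⟩, hc', ih _ _ _ _ _ he⟩
    · rintro u hu y ⟨hy, hyP⟩ hc
      obtain ⟨x, hx, hc', he⟩ := h3 u hu y hy hc
      exact ⟨x, ⟨hx, key u y x hc hc' hyP⟩, hc', ih _ _ _ _ _ he⟩

/-- **RSQ.** -/
theorem thm_RSQ : St_RSQ := by
  intro L U _
  refine ⟨?_, ?_⟩
  · intro G C P hP Δ D n α X Y v w h
    exact rsq_one L U G C P hP Δ D n α X Y v w h
  · intro A P X Y hP h Δ D n hΔ hD
    exact rsq_one L U (Nx L A) A P hP Δ D n Empty X Y _ _ (h Δ D n hΔ hD)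

end Pool.Agent.MTC
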