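import Pool.Agent.MTC.StA

/-!
# MTC, module SNE (helper47): similar sets have the same theory
-/

set_option autoImplicit false
set_option linter.unusedVariables false

namespace Pool.Agent.MTC

open FirstOrder.Language Set
open scoped FirstOrder
open Pool.Agent.WOM (tp Mon IsEl IsoM CtU Fx Orb Isd)
open Pool.Agent.MNO (Dp FE Sq Nx SmN FE1 FinN nx_comp nx_symm nx_fx nx_mono nx_conj nx_conj_fx)

section

variable {L : FirstOrder.Language.{0, 0}} {U : Type} [L.Structure U]

/-- the image of conjugate tuples under `g` in `Nx A` -/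
theorem sne_cj {A : Set U} {α : Type} {s t : α → U} {g : U ≃[L] U} (hg : Nx L A g)
    (h : Cj L (Nx L A) s t) : Cj L (Nx L A) s (fun i => g (t i)) := by
  obtain ⟨k, hk, hkt⟩ := h
  refine ⟨g.comp k, nx_comp hg hk, fun i => ?_⟩
  show g (k (s i)) = g (t i)
  rw [hkt i]

/-- the second kind of atoms: invariance -/
theorem sne_nx (hM : Mon L U) {A : Set U} {α β : Type} {a : α → U} {b b' : β → U} {g : U ≃[L] U}
    (hg : Fx L A g) (h : Cj L (Nx L (A ∪ range a)) b b') :
    Cj L (Nx L (A ∪ range fun i => g (a i))) (fun i => g (b i)) (fun i => g (b' i)) := by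
  obtain ⟨k, hk, hkb⟩ := h
  have h1 := nx_conj hM g hk
  have h2 : g '' (A ∪ range a) = A ∪ range fun i => g (a i) := by
    rw [image_union, ← range_comp]
    congr 1
    ext x
    constructor
    · rintro ⟨y, hy, rfl⟩
      rw [hg y hy]
      exact hy
    · intro hx
      exact ⟨x, hx, hg x hx⟩
  rw [h2] at h1
  refine ⟨_, h1, fun i => ?_⟩
  show g (k (g.symm (g (b i)))) = g (b' i)
  rw [g.symm_apply_apply, hkb i]

/-- `At` for conjugate tuples -/
theorem sne_at (hM : Mon L U) {A : Set U} (Δ : Set (Atm U)) {α : Type} {v w : α → U} {g : U ≃[L] U}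
    (hg : Nx L A g) (h : ∀ a, g (v a) = w a) : At L (Nx L A) A Δ v w := by
  have hw : w = fun a => g (v a) := funext fun a => (h a).symm
  have hv : v = fun a => g.symm (w a) := by
    funext a
    rw [← h a, g.symm_apply_apply]
  intro δ hδ i j
  refine ⟨⟨fun h1 => ?_, fun h1 => ?_⟩, fun j' h1 h2 => ⟨fun h3 => ?_, fun h3 => ?_⟩⟩
  · have h2 := sne_cj hg h1
    refine (congrArg (Cj L (Nx L A) δ.2.2) ?_).mp h2
    funext k
    rcases k with k | k
    · exact h (i k)
    · exact h (j k)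
  · have h2 := sne_cj (nx_symm hg) h1
    refine (congrArg (Cj L (Nx L A) δ.2.2) ?_).mp h2
    funext k
    rcases k with k | k
    · show g.symm (w (i k)) = v (i k)
      rw [← h, g.symm_apply_apply]
    · show g.symm (w (j k)) = v (j k)
      rw [← h, g.symm_apply_apply]
  · have h4 := sne_nx hM (nx_fx hg) h3
    rw [hw]
    exact h4
  · have h4 := sne_nx hM (nx_fx (nx_symm hg)) h3
    rw [hv]
    exact h4

/-- the game for tuples which are related by a local bijection -/
theorem sne_eg (hM : Mon L U) {A X Y : Set U} (e : X ≃ Y) (Δ : Set (Atm U)) (D : Set U) :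
    ∀ (n : ℕ) (α : Type) (v w : α → U),
      (∀ F : Set X, F.Finite → ∃ g : U ≃[L] U, Nx L A g ∧ (∀ x ∈ F, g x = e x) ∧ ∀ a, g (v a) = w a) →
      Eg L (Nx L A) A Δ D n α X v Y w := by
  intro n
  induction n with
  | zero =>
    intro α v w h
    obtain ⟨g, hg, -, hvw⟩ := h ∅ finite_empty
    exact sne_at hM Δ hg hvw
  | succ n ih =>
    intro α v w h
    have hstep : ∀ x : X, Eg L (Nx L A) A Δ D n (Option α) X (ov v (x : U)) Y (ov w (e x : U)) := by
      intro x
      refine ih (Option α) _ _ fun F hF => ?_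
      obtain ⟨g, hg, hgF, hvw⟩ := h (insert x F) (hF.insert x)
      refine ⟨g, hg, fun y hy => hgF y (mem_insert_of_mem _ hy), fun a => ?_⟩
      rcases a with _ | a
      · exact hgF x (mem_insert _ _)
      · exact hvw a
    have hcj : ∀ (u : U) (x : X), Cj1 L (Nx L A) u (x : U) ↔ Cj1 L (Nx L A) u (e x : U) := by
      intro u x
      obtain ⟨g, hg, hgF, -⟩ := h {x} (finite_singleton x)
      have hx : g (x : U) = e x := hgF x rfl
      constructor
      · rintro ⟨k, hk, hkx⟩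
        refine ⟨g.comp k, nx_comp hg hk, ?_⟩
        show g (k u) = _
        rw [hkx, hx]
      · rintro ⟨k, hk, hkx⟩
        refine ⟨g.symm.comp k, nx_comp (nx_symm hg) hk, ?_⟩
        show g.symm (k u) = _
        rw [hkx, ← hx, g.symm_apply_apply]
    obtain ⟨g, hg, -, hvw⟩ := h ∅ finite_empty
    refine ⟨sne_at hM Δ hg hvw, fun u _ x hx hux => ?_, fun u _ y hy huy => ?_⟩
    · exact ⟨e ⟨x, hx⟩, (e ⟨x, hx⟩).2, (hcj u ⟨x, hx⟩).1 hux, hstep ⟨x, hx⟩⟩
    · have h1 := hcj u (e.symm ⟨y, hy⟩)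
      have h2 := hstep (e.symm ⟨y, hy⟩)
      rw [e.apply_symm_apply] at h1 h2
      exact ⟨(e.symm ⟨y, hy⟩ : X), (e.symm ⟨y, hy⟩).2, h1.2 huy, h2⟩

/-- similar sets have the same theory -/
theorem sne_eqs (hM : Mon L U) {A X Y : Set U} (h : SmN L A X Y) : EqS L A X Y := by
  obtain ⟨e, he⟩ := h
  intro Δ D n _ _
  refine sne_eg hM e Δ D n Empty _ _ fun F hF => ?_
  obtain ⟨g, hg, hgF⟩ := he F hF
  exact ⟨g, hg, hgF, fun a => a.elim⟩

end

/-- [SNE] similar sets have the same theory. -/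
theorem thm_SNE (hGEQ : St_GEQ) : St_SNE := by
  intro L U _ hM A hA
  refine ⟨fun m s X Y h => ⟨?_, ?_⟩, fun X Y h => sne_eqs hM h⟩
  · obtain ⟨e, he⟩ := h
    intro Δ D n _ _
    refine sne_eg hM e Δ D n (Fin m) _ _ fun F hF => ?_
    obtain ⟨g, hg, hgF⟩ := he F hF
    exact ⟨g, nx_mono subset_union_left hg, hgF, fun a => nx_fx hg _ (Or.inr ⟨a, rfl⟩)⟩
  · obtain ⟨e, he⟩ := h
    refine sne_eqs hM ⟨e, fun F hF => ?_⟩
    obtain ⟨g, hg, hgF⟩ := he F hF
    exact ⟨g, nx_mono subset_union_left hg, hgF⟩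

end Pool.Agent.MTC
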