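import Pool.Agent.MTC.StB

/-!
# MTC, module STP (helper1 for helper23)
-/

set_option autoImplicit false
set_option linter.unusedVariables false

namespace Pool.Agent.MTC

open FirstOrder.Language Set
open scoped FirstOrder
open Pool.Agent.WOM (tp Mon IsEl IsoM CtU Fx Orb Isd)
open Pool.Agent.PMC (Sm Md NPf)
open Pool.Agent.MNO (Dp FE Sq Nx SmN FE1 FinN nx_refl nx_symm nx_comp nx_mono)
open Pool.Agent.TPC (Bq Pq Sub Fcp Lin Fre Iv Kl Inr Lab Clu Rgd Ist Cpt)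

namespace STPx

variable {L : FirstOrder.Language.{0, 0}} {U : Type} [L.Structure U]

/-- the same theory for an image of the second set -/
theorem eqT_img (hGIN : St_GIN) (hMon : Mon L U) {G : (U ≃[L] U) → Prop} {C : Set U}
    (hG : Gr L G C) (hr : G (FirstOrder.Language.Equiv.refl L U)) {α : Type} {X Y : Set U}
    {v w : α → U} (h : EqT L G C X v Y w) {g : U ≃[L] U} (hg : G g) :
    EqT L G C X v (g '' Y) (fun a => g (w a)) := by
  intro Δ D n hΔ hD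
  have h1 := (hGIN L U hMon G C hG Δ D n α).1 X Y v w _ g hr hg (h Δ D n hΔ hD)
  have h2 : (FirstOrder.Language.Equiv.refl L U : U ≃[L] U) '' X = X := by
    ext x
    constructor
    · rintro ⟨y, hy, rfl⟩
      exact hy
    · intro hx
      exact ⟨x, hx, rfl⟩
  rw [h2] at h1
  exact h1

theorem eqS_img (hGIN : St_GIN) (hMon : Mon L U) {A : Set U} (hG : Gr L (Nx L A) A)
    {X Y : Set U} (h : EqS L A X Y) {g : U ≃[L] U} (hg : Nx L A g) : EqS L A X (g '' Y) := by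
  have h1 := eqT_img hGIN hMon hG (nx_refl A) h hg
  have h2 : (fun a => g ((Empty.elim : Empty → U) a)) = Empty.elim := by
    funext a
    exact a.elim
  rw [h2] at h1
  exact h1

theorem sm_img {A : Set U} {g : U ≃[L] U} (hg : Nx L A g) (X : Set U) :
    SmN L A X (g '' X) :=
  ⟨Equiv.Set.image g X g.injective, fun s hs => ⟨g, hg, fun x hx => rfl⟩⟩

theorem isEl_img (hMon : Mon L U) {A M : Set U} {g : U ≃[L] U} (hA : A.Finite) (hg : Nx L A g)
    (hM : Md L A M) : IsEl L (g '' M) := by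
  obtain ⟨s1, s2, s3, s4, s5, s6, s7, s8, s9⟩ := TPC.q_SMQ L U hMon
  exact (s8 A M (g '' M) hA hM.2 (s5 A A M (g '' M) subset_rfl (sm_img hg M)).2 hM.1).1

theorem sub_img {A M : Set U} {g : U ≃[L] U} (hg : Nx L A g) (hM : A ⊆ M) : A ⊆ g '' M :=
  fun a ha => ⟨a, hM ha, hg.1 a ha⟩

theorem img_inter {A Q : Set U} (hQ : Bq L A Q) {g : U ≃[L] U} (hg : Nx L A g) (N : Set U) :
    g '' (N ∩ Q) = g '' N ∩ Q := by
  ext x
  constructor
  · rintro ⟨y, ⟨hy1, hy2⟩, rfl⟩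
    exact ⟨⟨y, hy1, rfl⟩, (hQ.inv g hg y).2 hy2⟩
  · rintro ⟨⟨y, hy, rfl⟩, h2⟩
    exact ⟨y, ⟨hy, (hQ.inv g hg y).1 h2⟩, rfl⟩

theorem cj_trans {G : (U ≃[L] U) → Prop} {C : Set U} (hG : Gr L G C) {α : Type} {s t u : α → U}
    (h1 : Cj L G s t) (h2 : Cj L G t u) : Cj L G s u := by
  obtain ⟨g, hg, e1⟩ := h1
  obtain ⟨h, hh, e2⟩ := h2
  exact ⟨h.comp g, hG.mul g h hg hh, fun i => by
    rw [FirstOrder.Language.Equiv.comp_apply, e1, e2]⟩

theorem cj_symm {G : (U ≃[L] U) → Prop} {C : Set U} (hG : Gr L G C) {α : Type} {s t : α → U}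
    (h1 : Cj L G s t) : Cj L G t s := by
  obtain ⟨g, hg, e1⟩ := h1
  exact ⟨g.symm, hG.inv g hg, fun i => by rw [← e1, g.symm_apply_apply]⟩

end STPx

open STPx in
/-- **STP** -/
theorem thm_STP (hGEQ : St_GEQ) (hGIN : St_GIN) (hGRP : St_GRP) (hADD : St_ADD) (hHEN : St_HEN) :
    St_STP := by
  rintro L U _ hX A Q m s hA hQ hMar M M' hM hM' hE ⟨t₀, ht₀, ht₀M⟩
  have hMon := hX.mon
  have hG := (hGRP L U hMon A hA).1
  obtain ⟨s1, s2, s3, s4, s5, s6, s7, s8, s9⟩ := TPC.q_SMQ L U hMon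
  -- (1)
  obtain ⟨c, hcY, hc1, hc⟩ := (hGIN L U hMon (Nx L A) A hG {⟨m, 0, Sum.elim t₀ Fin.elim0⟩}
    (range t₀) 0 Empty).2.2 m (M ∩ Q) (M' ∩ Q) Empty.elim Empty.elim t₀ ht₀M
    (fun i => ⟨t₀ i, mem_range_self i, _, nx_refl A, rfl⟩)
    (hE _ _ _ (finite_singleton _) (finite_range _))
  have hc2 : Cj L (Nx L A) t₀ c := by
    have h1 := (hGIN L U hMon (Nx L A) A hG {⟨m, 0, Sum.elim t₀ Fin.elim0⟩}
      (range t₀) 0 (Empty ⊕ Fin m)).2.1 _ _ _ _ m t₀ Sum.inr (mem_singleton _) hc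
      ⟨_, nx_refl A, fun i => rfl⟩
    exact h1
  obtain ⟨g, hg, hgc⟩ := cj_symm hG hc2
  have hM1 : Md L (A ∪ range t₀) (g '' M') := by
    refine ⟨isEl_img hMon hA hg hM', union_subset (sub_img hg hM'.2) ?_⟩
    rintro _ ⟨i, rfl⟩
    exact ⟨c i, (hcY i).1, hgc i⟩
  have hE1 : EqS L A (M ∩ Q) (g '' M' ∩ Q) := by
    rw [← img_inter hQ hg]
    exact eqS_img hGIN hMon hG hE hg
  -- (2)
  have hB : Bq L (A ∪ range t₀) Q :=
    (TPC.q_OFQ L U hMon A Q hA hQ).2.2 _ (hA.union (finite_range _)) subset_union_left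
  obtain ⟨t, t', ht, ht', ht1, ht2, hT⟩ := hHEN L U hX A Q M (g '' M') m t₀ hA
    (fun i => (ht₀M i).2) hB (fun h hh _ => by
      have h1 := img_inter hQ hh univ
      rw [univ_inter] at h1
      rw [h1, image_univ, inter_eq_right]
      intro x _
      exact h.surjective x) ⟨hM.1, union_subset hM.2 (by
        rintro _ ⟨i, rfl⟩
        exact (ht₀M i).1)⟩ hM1 hE1
  obtain ⟨h, hh, hht⟩ := cj_trans hG (cj_symm hG ht2) ht1
  have hT2 : EqT L (Nx L A) A (M ∩ Q) t (h '' (g '' M') ∩ Q) t := by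
    have h1 := eqT_img hGIN hMon hG (nx_refl A) hT hh
    rw [img_inter hQ hh] at h1
    have h2 : (fun i => h (t' i)) = t := funext hht
    rw [h2] at h1
    exact h1
  -- (3)
  obtain ⟨k, hk, hkt, hE3⟩ := hADD L U hMon hX.fin A m t _ _ hA hT2
  have hM2 : Md L A (h '' (g '' M')) :=
    ⟨isEl_img hMon hA hh ⟨hM1.1, subset_union_left.trans hM1.2⟩,
      sub_img hh (subset_union_left.trans hM1.2)⟩
  have hM3 : Md L (A ∪ range t) (k '' (h '' (g '' M'))) := by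
    refine ⟨isEl_img hMon hA hk hM2, union_subset (sub_img hk hM2.2) ?_⟩
    rintro _ ⟨i, rfl⟩
    exact ⟨t i, ⟨t' i, (ht' i).1, hht i⟩, hkt i⟩
  rw [img_inter hQ hk] at hE3
  -- (4)
  have h4 := hMar t (cj_trans hG ht₀ ht1) (fun i => (ht i).2) M _ ⟨hM.1, union_subset hM.2 (by
    rintro _ ⟨i, rfl⟩
    exact (ht i).1)⟩ hM3 hE3
  have h5 := (s5 A (A ∪ range t) _ _ subset_union_left h4).1
  have h6 : SmN L A (M' ∩ Q) (k '' (h '' (g '' M')) ∩ Q) := by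
    rw [← img_inter hQ hk, ← img_inter hQ hh, ← img_inter hQ hg]
    exact s3 _ _ _ _ (sm_img hg _) (s3 _ _ _ _ (sm_img hh _) (sm_img hk _))
  exact s3 _ _ _ _ h5 (s2 _ _ _ h6)

end Pool.Agent.MTC
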