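import Pool.Agent.MTC.GEQ
import Pool.Agent.MTC.GIN
import Pool.Agent.MTC.GRP
import Pool.Agent.MTC.FCL
import Pool.Agent.MTC.SNE
import Pool.Agent.MTC.RSQ
import Pool.Agent.MTC.RPM
import Pool.Agent.MTC.GCJ
import Pool.Agent.MTC.FNS
import Pool.Agent.MTC.LMA
import Pool.Agent.MTC.LMS
import Pool.Agent.MTC.DEP
import Pool.Agent.MTC.LMG
import Pool.Agent.MTC.ADD
import Pool.Agent.MTC.PRT
import Pool.Agent.MTC.HN0
import Pool.Agent.MTC.HN1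
import Pool.Agent.MTC.HEN
import Pool.Agent.MTC.STP
import Pool.Agent.MTC.MCA
import Pool.Agent.MTC.BGM
import Pool.Agent.MTC.B3M
import Pool.Agent.MTC.LNM
import Pool.Agent.MTC.NIM
import Pool.Agent.MTC.KLB
import Pool.Agent.MTC.KMA
import Pool.Agent.MTC.ATK
import Pool.Agent.MTC.FPF
import Pool.Agent.MTC.FNL
import Pool.Agent.MTC.RCL
import Pool.Agent.MTC.MUL
import Pool.Agent.MTC.FGL
import Pool.Agent.MTC.FRN
import Pool.Agent.MTC.NLW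
import Pool.Agent.MTC.OUW
import Pool.Agent.MTC.BGW
import Pool.Agent.MTC.CXT
import Pool.Agent.MTC.BMV
import Pool.Agent.MTC.B1W
import Pool.Agent.MTC.R2W
import Pool.Agent.MTC.R3W
import Pool.Agent.MTC.EQF
import Pool.Agent.MTC.HIN
import Pool.Agent.MTC.FNM
import Pool.Agent.MTC.LFN

/-!
# MTC/ALL (helper23): the 45 modules put together; unconditional
-/

set_option autoImplicit false

namespace Pool.Agent.MTC

theorem a_GEQ : St_GEQ := thm_GEQ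
theorem a_GIN : St_GIN := thm_GIN a_GEQ
theorem a_GRP : St_GRP := thm_GRP
theorem a_FCL : St_FCL := thm_FCL
theorem a_SNE : St_SNE := thm_SNE a_GEQ
theorem a_RSQ : St_RSQ := thm_RSQ
theorem a_RPM : St_RPM := thm_RPM
theorem a_GCJ : St_GCJ := thm_GCJ
theorem a_FNS : St_FNS := thm_FNS
theorem a_LMA : St_LMA := thm_LMA a_GRP a_FNS
theorem a_LMS : St_LMS := thm_LMS a_GEQ a_GIN a_FNS
theorem a_DEP : St_DEP := thm_DEP
theorem a_LMG : St_LMG := thm_LMG a_GEQ a_GRP a_LMS a_LMA a_DEP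
theorem a_ADD : St_ADD := thm_ADD a_GEQ a_GRP a_LMG
theorem a_PRT : St_PRT := thm_PRT
theorem a_HN0 : St_HN0 := thm_HN0 a_GEQ a_GIN a_GRP
theorem a_HN1 : St_HN1 := thm_HN1 a_GEQ a_GIN a_FCL a_HN0
theorem a_HEN : St_HEN := thm_HEN a_GEQ a_GIN a_GRP a_SNE a_PRT a_HN0 a_HN1
theorem a_STP : St_STP := thm_STP a_GEQ a_GIN a_GRP a_ADD a_HEN
theorem a_MCA : St_MCA := thm_MCA a_GEQ a_RSQ a_RPM a_GCJ
theorem a_BGM : St_BGM := thm_BGM a_MCA
theorem a_B3M : St_B3M := thm_B3M a_STP a_MCA a_BGM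
theorem a_LNM : St_LNM := thm_LNM a_GEQ a_GIN a_RSQ
theorem a_NIM : St_NIM := thm_NIM a_STP a_MCA a_LNM
theorem a_KLB : St_KLB := thm_KLB
theorem a_KMA : St_KMA := thm_KMA a_GEQ a_GIN a_GRP a_ADD a_HEN a_MCA a_KLB
theorem a_ATK : St_ATK := thm_ATK a_KLB
theorem a_FPF : St_FPF := thm_FPF
theorem a_FNL : St_FNL := thm_FNL a_FPF
theorem a_RCL : St_RCL := thm_RCL a_GEQ a_KLB
theorem a_MUL : St_MUL := thm_MUL a_GEQ a_GIN a_SNE a_KMA a_ATK a_FNL a_RCL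
theorem a_FGL : St_FGL := thm_FGL
theorem a_FRN : St_FRN := thm_FRN a_GEQ a_MUL a_FGL a_KLB
theorem a_NLW : St_NLW := thm_NLW
theorem a_OUW : St_OUW := thm_OUW a_NLW
theorem a_BGW : St_BGW := thm_BGW
theorem a_CXT : St_CXT := thm_CXT
theorem a_BMV : St_BMV := thm_BMV a_BGM a_B3M
theorem a_B1W : St_B1W := thm_B1W a_MCA a_NIM
theorem a_R2W : St_R2W := thm_R2W a_BGW a_OUW a_BMV a_B1W a_MCA a_FRN
theorem a_R3W : St_R3W := thm_R3W a_BGW a_OUW a_BMV a_B1W a_BGM a_FRN a_R2W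
theorem a_EQF : St_EQF := thm_EQF a_GRP a_FNS
theorem a_HIN : St_HIN := thm_HIN a_GEQ a_EQF
theorem a_FNM : St_FNM := thm_FNM a_GRP a_LMG a_MCA a_BGM a_GEQ
theorem a_LFN : St_LFN := thm_LFN a_CXT a_R3W a_HIN a_FNM

end Pool.Agent.MTC
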