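import Pool.Agent.TPC.ALLZ

/-!
# MTC: the theory of a model in the fragment `L_1(T)` (Martin's conjecture) for monadically NIP theories; strengthening
# of full T6 (MP_5df2c5_lc).  Architect helper23.  Definitions.

`U` is the countable saturated model, `Nx L A g`: `g` preserves the strong types over `A`.  We compare subsets of `U`
(parts of models) by finite games.  `G` is a set of automorphisms, `C` a finite set fixed by all of them; an atom is
a finite tuple of `U`, split in two parts.

`At`: two tuples satisfy the same atoms.  (1) which subtuples are images of the atom under `G`; (2) inside such an image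
`(a, b)`: is `b'` in the same strong type over `C ∪ a` as `b`?
`Eg .. n`: the duplicator has a winning strategy in the game of `n` steps, where the spoiler may play only images under
`G` of elements of the finite set `D`.
`EqT`: for all finite `Δ`, `D` and all `n`.  `EqS L A X Y`: for `G = Nx A`, `C = A` and the empty tuple.
`Mar L A Q`: the class of `M ∩ Q` under `SmN A` is determined by `EqS A`, `M` a model which contains `A`.
-/

set_option autoImplicit false
set_option linter.unusedVariables false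

namespace Pool.Agent.MTC

open FirstOrder.Language Set
open scoped FirstOrder
open Pool.Agent.WOM (tp Mon IsEl IsoM CtU Fx Orb Isd)
open Pool.Agent.PMC (Sm Md NPf)
open Pool.Agent.MNO (Dp FE Sq Nx SmN FE1 FinN)
open Pool.Agent.TPC (Bq Pq Sub Fcp Lin Fre Iv Kl Inr Lab Clu Rgd Ist Cpt)

/-- an atom: a finite tuple, split in two parts -/
abbrev Atm (U : Type) : Type := (l : ℕ) × (m : ℕ) × (Fin l ⊕ Fin m → U)

/-- the tuple `v` extended by `x` -/
def ov {U α : Type} (v : α → U) (x : U) : Option α → U := fun o => o.elim x v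

section defs

variable (L : FirstOrder.Language.{0, 0}) {U : Type} [L.Structure U]

/-- `t` is the image of `s` under an automorphism in `G` -/
def Cj (G : (U ≃[L] U) → Prop) {α : Type} (s t : α → U) : Prop :=
  ∃ g : U ≃[L] U, G g ∧ ∀ i, g (s i) = t i

/-- `y` is the image of `x` under an automorphism in `G` -/
def Cj1 (G : (U ≃[L] U) → Prop) (x y : U) : Prop := ∃ g : U ≃[L] U, G g ∧ g x = y

/-- `G` is a group of automorphisms over the finite set `C` which contains `Nx C` -/
structure Gr (G : (U ≃[L] U) → Prop) (C : Set U) : Prop where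
  fin : C.Finite
  nx : ∀ g, Nx L C g → G g
  fx : ∀ g, G g → Fx L C g
  mul : ∀ g h, G g → G h → G (h.comp g)
  inv : ∀ g, G g → G g.symm

/-- `v` and `w` satisfy the same atoms in `Δ` -/
def At (G : (U ≃[L] U) → Prop) (C : Set U) (Δ : Set (Atm U)) {α : Type} (v w : α → U) : Prop :=
  ∀ δ ∈ Δ, ∀ (i : Fin δ.1 → α) (j : Fin δ.2.1 → α),
    (Cj L G δ.2.2 (Sum.elim (fun a => v (i a)) fun a => v (j a)) ↔
      Cj L G δ.2.2 (Sum.elim (fun a => w (i a)) fun a => w (j a))) ∧
    ∀ j' : Fin δ.2.1 → α, Cj L G δ.2.2 (Sum.elim (fun a => v (i a)) fun a => v (j a)) →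
      Cj L G δ.2.2 (Sum.elim (fun a => v (i a)) fun a => v (j' a)) →
      (Cj L (Nx L (C ∪ range fun a => v (i a))) (fun a => v (j a)) (fun a => v (j' a)) ↔
        Cj L (Nx L (C ∪ range fun a => w (i a))) (fun a => w (j a)) (fun a => w (j' a)))

/-- the game of `n` steps on `(X, v)` and `(Y, w)` -/
def Eg (G : (U ≃[L] U) → Prop) (C : Set U) (Δ : Set (Atm U)) (D : Set U) :
    ℕ → ∀ (α : Type), Set U → (α → U) → Set U → (α → U) → Prop
  | 0, _, _, v, _, w => At L G C Δ v w
  | n + 1, α, X, v, Y, w => At L G C Δ v w ∧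
      (∀ u ∈ D, ∀ x ∈ X, Cj1 L G u x → ∃ y ∈ Y, Cj1 L G u y ∧ Eg G C Δ D n (Option α) X (ov v x) Y (ov w y)) ∧
      ∀ u ∈ D, ∀ y ∈ Y, Cj1 L G u y → ∃ x ∈ X, Cj1 L G u x ∧ Eg G C Δ D n (Option α) X (ov v x) Y (ov w y)

/-- `(X, v)` and `(Y, w)` have the same theory -/
def EqT (G : (U ≃[L] U) → Prop) (C : Set U) {α : Type} (X : Set U) (v : α → U) (Y : Set U) (w : α → U) : Prop :=
  ∀ (Δ : Set (Atm U)) (D : Set U) (n : ℕ), Δ.Finite → D.Finite → Eg L G C Δ D n α X v Y w

/-- `X` and `Y` have the same theory over `A` -/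
def EqS (A X Y : Set U) : Prop :=
  EqT L (Nx L A) A X (Empty.elim : Empty → U) Y (Empty.elim : Empty → U)

/-- the part of a model in `Q` is determined by its theory over `A` -/
def Mar (A Q : Set U) : Prop :=
  ∀ M M' : Set U, Md L A M → Md L A M' → EqS L A (M ∩ Q) (M' ∩ Q) → SmN L A (M ∩ Q) (M' ∩ Q)

variable (U) in
/-- what is known about `U` (T6) -/
structure Ctx : Prop where
  mon : Mon L U
  npf : NPf L U
  fin : FinN L U
  cpt : ∀ B Q : Set U, B.Finite → Bq L B Q → Cpt L B Q

/-- the piece of `z` over `A` is not hereditarily determined -/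
def BigM (A : Set U) (z : U) : Prop :=
  ∃ (B : Set U) (z' : U), B.Finite ∧ A ⊆ B ∧ z' ∈ Pq L A z ∧ ¬ Mar L B (Pq L B z')

/-- nice pieces without free unions (`TPC.Nice`) -/
def Nic : ℕ → Set U → U → Prop
  | 0, A, x => Pq L A x = {x} ∨ ∃ lt, Lin L A (Pq L A x) lt
  | n + 1, A, x => Nic n A x ∨
      ∀ y ∈ Pq L A x, ∀ z ∈ Pq L A x, Inr L A y z ∨ Nic n (insert y A) z

/-- all tuples of `K` are isolated over `A` -/
def AtC (A K : Set U) : Prop := ∀ (n : ℕ) (t : Fin n → U), (∀ i, t i ∈ K) → Ist L A t

/-- the pieces inside the clusters of the free union `E` are determined -/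
def Clm (A E : Set U) (cl : U → U → Prop) : Prop :=
  ∀ (B : Set U) (b z : U), B.Finite → A ⊆ B → b ∈ B → b ∈ E → z ∈ E → cl b z → Mar L B (Pq L B z)

end defs

end Pool.Agent.MTC
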