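import Pool.Agent.MTC.StA

/-!
# MTC/GEQ (helper23): calculus of games
-/

set_option autoImplicit false

namespace Pool.Agent.MTC

open FirstOrder.Language Set
open scoped FirstOrder

section

variable {L : FirstOrder.Language.{0, 0}} {U : Type} [L.Structure U] {G : (U ≃[L] U) → Prop}
  {C : Set U} {Δ Δ' : Set (Atm U)} {D D' : Set U}

theorem at_refl {α : Type} (v : α → U) : At L G C Δ v v :=
  fun _ _ _ _ => ⟨Iff.rfl, fun _ _ _ => Iff.rfl⟩

theorem at_symm {α : Type} {v w : α → U} (h : At L G C Δ v w) : At L G C Δ w v := by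
  intro δ hδ i j
  refine ⟨(h δ hδ i j).1.symm, fun j' h1 h2 => ?_⟩
  exact ((h δ hδ i j).2 j' ((h δ hδ i j).1.2 h1) ((h δ hδ i j').1.2 h2)).symm

theorem at_trans {α : Type} {v w z : α → U} (h : At L G C Δ v w) (h' : At L G C Δ w z) :
    At L G C Δ v z := by
  intro δ hδ i j
  refine ⟨(h δ hδ i j).1.trans (h' δ hδ i j).1, fun j' h1 h2 => ?_⟩
  exact ((h δ hδ i j).2 j' h1 h2).trans
    ((h' δ hδ i j).2 j' ((h δ hδ i j).1.1 h1) ((h δ hδ i j').1.1 h2))

theorem at_mono {α : Type} {v w : α → U} (hΔ : Δ ⊆ Δ') (h : At L G C Δ' v w) : At L G C Δ v w :=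
  fun δ hδ => h δ (hΔ hδ)

theorem at_cmp {α β : Type} (f : β → α) {v w : α → U} (h : At L G C Δ v w) :
    At L G C Δ (fun b => v (f b)) (fun b => w (f b)) := by
  intro δ hδ i j
  refine ⟨(h δ hδ (fun a => f (i a)) (fun a => f (j a))).1, fun j' h1 h2 => ?_⟩
  exact (h δ hδ (fun a => f (i a)) (fun a => f (j a))).2 (fun a => f (j' a)) h1 h2

theorem ov_cmp {α β : Type} (f : β → α) (v : α → U) (x : U) :
    (fun b => ov v x (Option.map f b)) = ov (fun b => v (f b)) x := by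
  funext b
  cases b <;> rfl

theorem eg_refl (n : ℕ) : ∀ (α : Type) (X : Set U) (v : α → U), Eg L G C Δ D n α X v X v := by
  induction n with
  | zero => exact fun α X v => at_refl v
  | succ n ih =>
    intro α X v
    exact ⟨at_refl v, fun u hu x hx h => ⟨x, hx, h, ih _ _ _⟩,
      fun u hu x hx h => ⟨x, hx, h, ih _ _ _⟩⟩

theorem eg_symm (n : ℕ) : ∀ (α : Type) (X Y : Set U) (v w : α → U),
    Eg L G C Δ D n α X v Y w → Eg L G C Δ D n α Y w X v := by
  induction n with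
  | zero => exact fun α X Y v w h => at_symm h
  | succ n ih =>
    intro α X Y v w h
    refine ⟨at_symm h.1, fun u hu y hy hc => ?_, fun u hu x hx hc => ?_⟩
    · obtain ⟨x, hx, hx', he⟩ := h.2.2 u hu y hy hc
      exact ⟨x, hx, hx', ih _ _ _ _ _ he⟩
    · obtain ⟨y, hy, hy', he⟩ := h.2.1 u hu x hx hc
      exact ⟨y, hy, hy', ih _ _ _ _ _ he⟩

theorem eg_trans (n : ℕ) : ∀ (α : Type) (X Y Z : Set U) (v w z : α → U),
    Eg L G C Δ D n α X v Y w → Eg L G C Δ D n α Y w Z z → Eg L G C Δ D n α X v Z z := by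
  induction n with
  | zero => exact fun α X Y Z v w z h h' => at_trans h h'
  | succ n ih =>
    intro α X Y Z v w z h h'
    refine ⟨at_trans h.1 h'.1, fun u hu x hx hc => ?_, fun u hu x hx hc => ?_⟩
    · obtain ⟨y, hy, hy', he⟩ := h.2.1 u hu x hx hc
      obtain ⟨t, ht, ht', he'⟩ := h'.2.1 u hu y hy hy'
      exact ⟨t, ht, ht', ih _ _ _ _ _ _ _ he he'⟩
    · obtain ⟨y, hy, hy', he⟩ := h'.2.2 u hu x hx hc
      obtain ⟨t, ht, ht', he'⟩ := h.2.2 u hu y hy hy'
      exact ⟨t, ht, ht', ih _ _ _ _ _ _ _ he' he⟩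

theorem eg_at {n : ℕ} {α : Type} {X Y : Set U} {v w : α → U} (h : Eg L G C Δ D n α X v Y w) :
    At L G C Δ v w := by
  cases n with
  | zero => exact h
  | succ n => exact h.1

theorem eg_succ (n : ℕ) : ∀ (α : Type) (X Y : Set U) (v w : α → U),
    Eg L G C Δ D (n + 1) α X v Y w → Eg L G C Δ D n α X v Y w := by
  induction n with
  | zero => exact fun α X Y v w h => h.1
  | succ n ih =>
    intro α X Y v w h
    refine ⟨h.1, fun u hu x hx hc => ?_, fun u hu x hx hc => ?_⟩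
    · obtain ⟨y, hy, hy', he⟩ := h.2.1 u hu x hx hc
      exact ⟨y, hy, hy', ih _ _ _ _ _ he⟩
    · obtain ⟨y, hy, hy', he⟩ := h.2.2 u hu x hx hc
      exact ⟨y, hy, hy', ih _ _ _ _ _ he⟩

theorem eg_le {n n' : ℕ} (hn : n ≤ n') (α : Type) (X Y : Set U) (v w : α → U)
    (h : Eg L G C Δ D n' α X v Y w) : Eg L G C Δ D n α X v Y w := by
  induction n', hn using Nat.le_induction with
  | base => exact h
  | succ m hm ih => exact ih (eg_succ m _ _ _ _ _ h)

theorem eg_mono (hΔ : Δ ⊆ Δ') (hD : D ⊆ D') (n : ℕ) : ∀ (α : Type) (X Y : Set U) (v w : α → U),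
    Eg L G C Δ' D' n α X v Y w → Eg L G C Δ D n α X v Y w := by
  induction n with
  | zero => exact fun α X Y v w h => at_mono hΔ h
  | succ n ih =>
    intro α X Y v w h
    refine ⟨at_mono hΔ h.1, fun u hu x hx hc => ?_, fun u hu x hx hc => ?_⟩
    · obtain ⟨y, hy, hy', he⟩ := h.2.1 u (hD hu) x hx hc
      exact ⟨y, hy, hy', ih _ _ _ _ _ he⟩
    · obtain ⟨y, hy, hy', he⟩ := h.2.2 u (hD hu) x hx hc
      exact ⟨y, hy, hy', ih _ _ _ _ _ he⟩

theorem eg_cmp (n : ℕ) : ∀ (α β : Type) (f : β → α) (X Y : Set U) (v w : α → U),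
    Eg L G C Δ D n α X v Y w →
      Eg L G C Δ D n β X (fun b => v (f b)) Y (fun b => w (f b)) := by
  induction n with
  | zero => exact fun α β f X Y v w h => at_cmp f h
  | succ n ih =>
    intro α β f X Y v w h
    refine ⟨at_cmp f h.1, fun u hu x hx hc => ?_, fun u hu x hx hc => ?_⟩
    · obtain ⟨y, hy, hy', he⟩ := h.2.1 u hu x hx hc
      refine ⟨y, hy, hy', ?_⟩
      have h1 := ih _ _ (Option.map f) _ _ _ _ he
      rw [ov_cmp, ov_cmp] at h1
      exact h1
    · obtain ⟨y, hy, hy', he⟩ := h.2.2 u hu x hx hc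
      refine ⟨y, hy, hy', ?_⟩
      have h1 := ih _ _ (Option.map f) _ _ _ _ he
      rw [ov_cmp, ov_cmp] at h1
      exact h1

end

theorem thm_GEQ : St_GEQ := by
  intro L U _ G C Δ D n α
  refine ⟨fun X v => eg_refl n α X v, fun X Y v w => eg_symm n α X Y v w,
    fun X Y Z v w z => eg_trans n α X Y Z v w z, ?_, ?_, fun X Y v w h => eg_at h⟩
  · intro Δ' D' n' hΔ hD hn X Y v w h
    exact eg_mono hΔ hD n α X Y v w (eg_le hn α X Y v w h)
  · intro β f X Y v w h
    exact eg_cmp n α β f X Y v w h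

end Pool.Agent.MTC
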