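import Pool.Agent.MTC.StA

/-!
# MTC: module HN1 (one step of the Henkin construction)
-/

set_option autoImplicit false
set_option linter.unusedVariables false

namespace Pool.Agent.MTC

open FirstOrder.Language Set
open scoped FirstOrder
open Pool.Agent.WOM (tp Mon IsEl IsoM CtU Fx Orb Isd)
open Pool.Agent.PMC (Sm Md NPf def_img)
open Pool.Agent.MNO (Dp FE Sq Nx SmN FE1 FinN nx_meets)
open Pool.Agent.TPC (Bq Pq Sub Fcp Lin Fre Iv Kl Inr Lab Clu Rgd Ist Cpt)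

namespace HN1M

/-- representatives of finitely many classes -/
theorem reps {U T : Type} [Finite T] [Nonempty U] (f : U → T) (P : Set U) :
    ∃ Y : Set U, Y.Finite ∧ Y ⊆ P ∧ ∀ y ∈ P, ∃ y' ∈ Y, f y = f y' := by
  classical
  have h : ∀ t : T, ∃ y : U, (∃ z ∈ P, f z = t) → (y ∈ P ∧ f y = t) := by
    intro t
    by_cases ht : ∃ z ∈ P, f z = t
    · obtain ⟨z, hz, hz'⟩ := ht
      exact ⟨z, fun _ => ⟨hz, hz'⟩⟩
    · exact ⟨Classical.arbitrary U, fun h => absurd h ht⟩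
  choose g hg using h
  refine ⟨g '' {t | ∃ z ∈ P, f z = t}, (Set.toFinite _).image _, ?_, ?_⟩
  · rintro _ ⟨t, ht, rfl⟩
    exact (hg t ht).1
  · intro y hy
    exact ⟨g (f y), ⟨f y, ⟨y, hy, rfl⟩, rfl⟩, ((hg (f y) ⟨y, hy, rfl⟩).2).symm⟩

section

variable {L : FirstOrder.Language.{0, 0}} {U : Type} [L.Structure U]

theorem symm_img (g : U ≃[L] U) (X : Set U) : g.symm '' (g '' X) = X := by
  ext x
  constructor
  · rintro ⟨_, ⟨y, hy, rfl⟩, rfl⟩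
    rw [g.symm_apply_apply]
    exact hy
  · intro hx
    exact ⟨g x, ⟨x, hx, rfl⟩, g.symm_apply_apply x⟩

theorem el_img (hMon : Mon L U) {M : Set U} (hM : IsEl L M) (t : U ≃[L] U) :
    IsEl L (t '' M) := by
  intro s hs hne
  have h1 := def_img hMon t.symm hs
  rw [symm_img] at h1
  obtain ⟨z, ⟨y, hy, rfl⟩, hz2⟩ := hM _ h1 (hne.image _)
  refine ⟨y, hy, t.symm y, hz2, ?_⟩
  exact t.apply_symm_apply y

/-- the class is closed under automorphisms -/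
theorem zc_img (hHN0 : St_HN0) (hM : Mon L U) {A R X : Set U} {m : ℕ} {s : Fin m → U}
    (hA : A.Finite) {Δ : ℕ → Set (Atm U)} {D : ℕ → Set U} (hE : Exh Δ D)
    (hsR : ∀ i, s i ∈ R) (hR : ∀ g : U ≃[L] U, Nx L A g → (∀ i, g (s i) ∈ R) → g '' R = R)
    {Z : Set U} (hZ : Zc L A R s X Z) {g : U ≃[L] U} (hg : Nx L A g)
    (hgs : ∀ y ∈ range s, g y = y) : Zc L A R s X (g '' Z) := by
  obtain ⟨⟨N, hN, rfl⟩, hEq⟩ := hZ
  obtain ⟨h1, h2, h3, h4, h5, h6, h7, h8⟩ := (hHN0 L U hM).2 A Δ D hA hE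
  refine ⟨⟨g '' N, ⟨el_img hM hN.1 g, ?_⟩, ?_⟩, ?_⟩
  · intro a ha
    refine ⟨a, hN.2 ha, ?_⟩
    rcases ha with ha | ha
    · exact hg.1 a ha
    · exact hgs a ha
  · have hgR := hR g hg fun i => by
      rw [hgs (s i) ⟨i, rfl⟩]
      exact hsR i
    rw [Set.image_inter g.injective, hgR]
  · refine (h8 X (g '' (N ∩ R))).2 fun k => ?_
    exact h3 k ∅ X (N ∩ R) _ ((h8 X (N ∩ R)).1 hEq k)
      (h5 k ∅ (N ∩ R) g hg fun y hy => absurd hy (Set.notMem_empty y))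

end

end HN1M

open HN1M in
/-- **HN1** -/
theorem thm_HN1 (hGEQ : St_GEQ) (hGIN : St_GIN) (hFCL : St_FCL) (hHN0 : St_HN0) : St_HN1 := by
  classical
  intro L U _ hM A R X m s Δ D hA hE hsR hR hNI Z S C O j k hZ hS hsS hSZ
  have hInf : Infinite U := hM.inf
  have hNe : Nonempty U := inferInstance
  obtain ⟨h1, h2, h3, h4, h5, h6, h7, h8⟩ := (hHN0 L U hM).2 A Δ D hA hE
  -- (a)
  obtain ⟨Z₁, hZ₁, hSZ₁, hEk, k', hk'⟩ : ∃ Z₁, Zc L A R s X Z₁ ∧ S ⊆ Z₁ ∧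
      Ek L A Δ D (k + 1) S Z Z₁ ∧ ∃ k', ¬ Ek L A Δ D k' (range s) Z₁ C := by
    by_cases hC : ∃ k', ¬ Ek L A Δ D k' (range s) Z C
    · exact ⟨Z, hZ, hSZ, h1 _ _ _, hC⟩
    · push Not at hC
      obtain ⟨K, hK, h6'⟩ := h6 (k + 1) (range s) S (finite_range s) hS
      obtain ⟨Z'', hZ'', hE'', k', hk'⟩ := hNI Z hZ K
      obtain ⟨g, hg, hgs, hSg, hEg⟩ := h6' Z Z'' hSZ hE''
      rw [Set.union_eq_self_of_subset_left hsS] at hEg
      refine ⟨g '' Z'', zc_img hHN0 hM hA hE hsR hR hZ'' hg hgs, hSg, hEg, k', fun hcon => ?_⟩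
      have e1 := h3 k' (range s) Z'' (g '' Z'') C (h5 k' (range s) Z'' g hg hgs) hcon
      exact hk' (h3 k' (range s) Z C Z'' (hC k') (h2 k' (range s) Z'' C e1))
  -- (b)
  have hSF : Finite ↥S := hS
  obtain ⟨T, Φ, hT, hΦ⟩ := hFCL L U (Nx L A) A (Δ (k + 1)) (D (k + 1)) (hE.fin (k + 1)).1
    (hE.fin (k + 1)).2 k (Option ↥S) inferInstance
  have hrep : ∀ u : U, ∃ Y : Set U, Y.Finite ∧ Y ⊆ {y | y ∈ Z ∧ Cj1 L (Nx L A) u y} ∧
      ∀ y ∈ {y | y ∈ Z ∧ Cj1 L (Nx L A) u y}, ∃ y' ∈ Y,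
        Φ Z (ov (fun x : ↥S => x.1) y) = Φ Z (ov (fun x : ↥S => x.1) y') := fun u =>
    reps (fun y => Φ Z (ov (fun x : ↥S => x.1) y)) _
  choose Y hYf hYs hY using hrep
  have hans : ∀ u y : U, ∃ x : U, u ∈ D (k + 1) → y ∈ Z → Cj1 L (Nx L A) u y →
      x ∈ Z₁ ∧ Cj1 L (Nx L A) u x ∧ Eg L (Nx L A) A (Δ (k + 1)) (D (k + 1)) k (Option ↥S) Z
        (ov (fun x : ↥S => x.1) y) Z₁ (ov (fun x : ↥S => x.1) x) := by
    intro u y
    by_cases hc : u ∈ D (k + 1) ∧ y ∈ Z ∧ Cj1 L (Nx L A) u y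
    · obtain ⟨x, hx, hx1, hx2⟩ := hEk.2.1 u hc.1 y hc.2.1 hc.2.2
      exact ⟨x, fun _ _ _ => ⟨hx, hx1, hx2⟩⟩
    · exact ⟨y, fun p q r => absurd ⟨p, q, r⟩ hc⟩
  choose F hF using hans
  -- (c)
  have hmeet : ∀ i : ℕ, ∃ y : U, ((∃ C' : Set U, C'.Finite ∧ C'.Definable₁ L (O i)) →
      (O i).Nonempty → O i ⊆ R →
      (∀ g : U ≃[L] U, Nx L (A ∪ S) g → ∀ x ∈ O i, g x ∈ O i) → y ∈ O i ∧ y ∈ Z₁) ∧
      (y ∈ Z₁ ∨ ¬ ((∃ C' : Set U, C'.Finite ∧ C'.Definable₁ L (O i)) ∧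
      (O i).Nonempty ∧ O i ⊆ R ∧
      (∀ g : U ≃[L] U, Nx L (A ∪ S) g → ∀ x ∈ O i, g x ∈ O i))) := by
    intro i
    by_cases hc : (∃ C' : Set U, C'.Finite ∧ C'.Definable₁ L (O i)) ∧
      (O i).Nonempty ∧ O i ⊆ R ∧
      (∀ g : U ≃[L] U, Nx L (A ∪ S) g → ∀ x ∈ O i, g x ∈ O i)
    · obtain ⟨⟨C', hC', hd⟩, hne, hOR, hinv⟩ := hc
      obtain ⟨⟨N₁, hN₁, hZN⟩, -⟩ := hZ₁
      have hMd : Md L (A ∪ S) N₁ := by
        refine ⟨hN₁.1, Set.union_subset (Set.subset_union_left.trans hN₁.2) ?_⟩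
        intro x hx
        have := hSZ₁ hx
        rw [hZN] at this
        exact this.1
      obtain ⟨y, hy, hyO⟩ := nx_meets hM (hA.union hS) hC' hd hinv hMd hne
      have hyZ : y ∈ Z₁ := by
        rw [hZN]
        exact ⟨hy, hOR hyO⟩
      exact ⟨y, fun _ _ _ _ => ⟨hyO, hyZ⟩, Or.inl hyZ⟩
    · exact ⟨Classical.arbitrary U, fun p q r t => absurd ⟨p, q, r, t⟩ hc, Or.inr hc⟩
  choose G hG hG' using hmeet
  -- the finite set
  refine ⟨Z₁, S ∪ (⋃ u ∈ D (k + 1), F u '' Y u) ∪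
    (G '' {i | i ≤ j ∧ G i ∈ Z₁}), max k' (k + 1), hZ₁, ?_, ?_, ?_, ?_, hEk, ?_, ?_, ?_⟩
  · refine (hS.union ?_).union ?_
    · exact (hE.fin (k + 1)).2.biUnion fun u _ => (hYf u).image _
    · exact ((Set.finite_Iic j).subset fun i hi => hi.1).image _
  · exact Set.subset_union_left.trans Set.subset_union_left
  · refine Set.union_subset (Set.union_subset hSZ₁ ?_) ?_
    · intro x hx
      simp only [Set.mem_iUnion] at hx
      obtain ⟨u, hu, y, hy, rfl⟩ := hx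
      have hy' := hYs u hy
      exact (hF u y hu hy'.1 hy'.2).1
    · rintro _ ⟨i, hi, rfl⟩
      exact hi.2
  · exact lt_of_lt_of_le (Nat.lt_succ_self k) (le_max_right k' (k + 1))
  · intro hcon
    exact hk' (h4 k' (max k' (k + 1)) (range s) (range s) Z₁ C (le_max_left _ _) subset_rfl hcon)
  · intro y hy u hu hc
    obtain ⟨y', hy', hyy⟩ := hY u y ⟨hy, hc⟩
    have hy'' := hYs u hy'
    obtain ⟨hx1, hx2, hx3⟩ := hF u y' hu hy''.1 hy''.2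
    refine ⟨F u y', Or.inl (Or.inr ?_), hx2, ?_⟩
    · simp only [Set.mem_iUnion]
      exact ⟨u, hu, y', hy', rfl⟩
    · exact (hGEQ L U (Nx L A) A (Δ (k + 1)) (D (k + 1)) k (Option ↥S)).2.2.1 _ _ _ _ _ _
        (hΦ Z Z _ _ hyy) hx3
  · intro i hi hd hne hOR hinv
    obtain ⟨hg1, hg2⟩ := hG i hd hne hOR hinv
    exact ⟨G i, hg1, Or.inr ⟨i, ⟨hi, hg2⟩, rfl⟩⟩

end Pool.Agent.MTC
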