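import Mathlib

/-!
# The fragment `L_1(T)` (Martin's conjecture)

`L1F L n`: the formulas with the free variables `x_0, .., x_(n-1)` which are built from first-order formulas and from
infinite conjunctions `⋀ p (x_(f 0), .., x_(f (k-1)))` of sets `p` of first-order formulas, with negation, conjunction and
quantification.  `L1F.Of T φ`: all these sets `p` are complete types of `T` (the sets of all formulas which hold for some tuple
of some model of `T` on `ℕ`).  So the formulas `φ` with `φ.Of T` are the formulas of the smallest fragment `L_1(T)` of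
`L_(ω₁, ω)` which contains the first-order formulas and the conjunctions of the complete types of `T`.
-/

set_option autoImplicit false

namespace Pool.Agent.MTC

open FirstOrder

/-- formulas with infinite conjunctions of sets of first-order formulas -/
inductive L1F (L : FirstOrder.Language.{0, 0}) : ℕ → Type
  | fo {n : ℕ} (φ : L.Formula (Fin n)) : L1F L n
  | typ {n k : ℕ} (f : Fin k → Fin n) (p : Set (L.Formula (Fin k))) : L1F L n
  | neg {n : ℕ} (φ : L1F L n) : L1F L n
  | conj {n : ℕ} (φ ψ : L1F L n) : L1F L n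
  | ex {n : ℕ} (φ : L1F L (n + 1)) : L1F L n

/-- satisfaction -/
def L1F.Sat {L : FirstOrder.Language.{0, 0}} (S : Type) [L.Structure S] : ∀ {n : ℕ}, L1F L n → (Fin n → S) → Prop
  | _, .fo φ, v => φ.Realize v
  | _, .typ f p, v => ∀ φ ∈ p, FirstOrder.Language.Formula.Realize φ fun i => v (f i)
  | _, .neg φ, v => ¬ L1F.Sat S φ v
  | _, .conj φ ψ, v => L1F.Sat S φ v ∧ L1F.Sat S ψ v
  | n, .ex φ, v => ∃ x : S, L1F.Sat S φ (Fin.snoc v x : Fin (n + 1) → S)

/-- all infinite conjunctions are complete types of `T` -/
def L1F.Of {L : FirstOrder.Language.{0, 0}} (T : L.Theory) : ∀ {n : ℕ}, L1F L n → Prop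
  | _, .fo _ => True
  | _, .typ (k := k) _ p => ∃ (S : L.Structure ℕ) (v : Fin k → ℕ),
      @FirstOrder.Language.Theory.Model L ℕ S T ∧ p = {φ | @FirstOrder.Language.Formula.Realize L ℕ S (Fin k) φ v}
  | _, .neg φ => L1F.Of T φ
  | _, .conj φ ψ => L1F.Of T φ ∧ L1F.Of T ψ
  | _, .ex φ => L1F.Of T φ

end Pool.Agent.MTC
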