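import Pool.Agent.MTC.Defs

/-!
# MTC: statements of part A (helper23): games, limits of automorphisms, the Henkin construction

Module XXX is the file `Pool/Agent/MTC/XXX.lean` with `theorem thm_XXX (hAAA : St_AAA) .. : St_XXX`, the hypotheses are
the modules listed under HYPS in the docstring of `St_XXX`.  Everything of `Pool/Agent/TPC` is unconditional:
`TPC.q_XXX` (`TPC/API.lean`: FEQ, OFQ, ALQ, IMQ, NNQ, SEP, FCP, SMQ, UNQ, ..) and `TPC.z_XXX` (`TPC/ALLZ.lean`: FNT, IST,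
KBQ, RPL, RIG, ..).  Tools: `MNO/Kit.lean` (`dp_..`), `MNO/NBase.lean` (`nx_refl`, `nx_symm`, `nx_comp`, `nx_mono`, `nx_conj`,
`nx_conj_fx`, `nx_sq`, `nx_of_sq`, `nx_meets`, `nx_lim`, `STG.exists_equiv`), `MNO.thm_BAG` (back and forth).

Notation: `t ~_G s` is `Cj L G s t`; `t ~_C s` is `Cj L (Nx L C) s t`; `(X, v) ≡ (Y, w)` is `Eg .. X v Y w` for the given
`G, C, Δ, D, n`.  `Nx C` is normal: for `g` over `C` (`Fx C g`) and `h` in `Nx C` the conjugates of `h` by `g` are in `Nx C`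
(`nx_conj_fx`).
-/

set_option autoImplicit false
set_option linter.unusedVariables false

namespace Pool.Agent.MTC

open FirstOrder.Language Set
open scoped FirstOrder
open Pool.Agent.WOM (tp Mon IsEl IsoM CtU Fx Orb Isd)
open Pool.Agent.PMC (Sm Md NPf)
open Pool.Agent.MNO (Dp FE Sq Nx SmN FE1 FinN)
open Pool.Agent.TPC (Bq Pq Sub Fcp Lin Fre Iv Kl Inr Lab Clu Rgd Ist Cpt)

/-! ### The calculus of games -/

/-- [GEQ] calculus of games.
HYPS: none.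
PROOF.  Inductions on `n` (`α` arbitrary).  (1) take `y = x`.  (2) `At` is symmetric: the first part is an `↔`, so the hypotheses
of the second part for `w` give those for `v`.  (3) clear; `At` is transitive.  (4) first `Eg (n + 1) → Eg n` (induction on `n`), then
monotonicity in `Δ`, `D`.  (5) `ov (v ∘ f) x = (ov v x) ∘ (Option.map f)` (`funext`, cases).  (6) cases on `n`. -/
def St_GEQ : Prop :=
  ∀ (L : FirstOrder.Language.{0, 0}) (U : Type) [L.Structure U] (G : (U ≃[L] U) → Prop) (C : Set U)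
    (Δ : Set (Atm U)) (D : Set U) (n : ℕ) (α : Type),
    (∀ (X : Set U) (v : α → U), Eg L G C Δ D n α X v X v) ∧
    (∀ (X Y : Set U) (v w : α → U), Eg L G C Δ D n α X v Y w → Eg L G C Δ D n α Y w X v) ∧
    (∀ (X Y Z : Set U) (v w z : α → U), Eg L G C Δ D n α X v Y w → Eg L G C Δ D n α Y w Z z →
      Eg L G C Δ D n α X v Z z) ∧
    (∀ (Δ' : Set (Atm U)) (D' : Set U) (n' : ℕ), Δ ⊆ Δ' → D ⊆ D' → n ≤ n' → ∀ (X Y : Set U) (v w : α → U),
      Eg L G C Δ' D' n' α X v Y w → Eg L G C Δ D n α X v Y w) ∧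
    (∀ (β : Type) (f : β → α) (X Y : Set U) (v w : α → U), Eg L G C Δ D n α X v Y w →
      Eg L G C Δ D n β X (fun b => v (f b)) Y (fun b => w (f b))) ∧
    ∀ (X Y : Set U) (v w : α → U), Eg L G C Δ D n α X v Y w → At L G C Δ v w

/-- [GIN] invariance, recognition of tuples, extension of tuples.
HYPS: GEQ.
PROOF.  (1) Induction on `n`.  `At`: `Cj G δ (g ∘ t) ↔ Cj G δ t` for `g` in `G` (`Gr.mul`, `Gr.inv`), and `g` fixes `C`, so `g ''
(C ∪ range a) = C ∪ range (g ∘ a)`, `nx_conj`: `Cj (Nx (C ∪ range (g ∘ a))) (g ∘ b) (g ∘ b') ↔ Cj (Nx (C ∪ range a)) b b'`.  Moves: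
`g x ∈ g '' X`; `Cj1 G u (g x) ↔ Cj1 G u x`; `ov (g ∘ v) (g x) = g ∘ ov v x`.
(2) the atom `⟨m, 0, (s, ∅)⟩`, GEQ (6) (functions on `Fin 0` are equal).
(3) Induction on `m` (`α` arbitrary): play `b 0` with the given `u ∈ D`; the answer `y` has `Cj1 G u y`, so `Cj1 G (b 0) y` (`Gr.mul`, `Gr.inv`); then the
rest; reindex (GEQ (5)). -/
def St_GIN : Prop :=
  ∀ (L : FirstOrder.Language.{0, 0}) (U : Type) [L.Structure U], Mon L U → ∀ (G : (U ≃[L] U) → Prop)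
    (C : Set U), Gr L G C → ∀ (Δ : Set (Atm U)) (D : Set U) (n : ℕ) (α : Type),
    (∀ (X Y : Set U) (v w : α → U) (g h : U ≃[L] U), G g → G h → Eg L G C Δ D n α X v Y w →
      Eg L G C Δ D n α (g '' X) (fun a => g (v a)) (h '' Y) (fun a => h (w a))) ∧
    (∀ (X Y : Set U) (v w : α → U) (m : ℕ) (s : Fin m → U) (i : Fin m → α),
      (⟨m, 0, Sum.elim s Fin.elim0⟩ : Atm U) ∈ Δ → Eg L G C Δ D n α X v Y w →
      Cj L G s (fun a => v (i a)) → Cj L G s (fun a => w (i a))) ∧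
    ∀ (m : ℕ) (X Y : Set U) (v w : α → U) (b : Fin m → U), (∀ i, b i ∈ X) → (∀ i, ∃ u ∈ D, Cj1 L G u (b i)) →
      Eg L G C Δ D (n + m) α X v Y w →
      ∃ c : Fin m → U, (∀ i, c i ∈ Y) ∧ (∀ i, Cj1 L G (b i) (c i)) ∧
        Eg L G C Δ D n (α ⊕ Fin m) X (Sum.elim v b) Y (Sum.elim w c)

/-- [GRP] groups.
HYPS: none.
PROOF.  (1) `nx_refl`, `nx_comp`, `nx_symm`, `nx_fx`.  (2) clear.  (3) `nx`: `nx_mono` and `Nx (A ∪ range u)` fixes `u`; the others are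
clear.  (4) `nx_conj_fx`.  (5) If for every tuple `s` some `g` in `G` (the group of (3)) has `b s = h (g s)`, `h` in
`Nx (A ∪ range u)`: `b` fixes `A` and `u` (take `s = (a)`, `s = u`); for every tuple `s`: `Sq A s (g s)` and `Sq A (g s) (h (g s))` (`nx_sq`,
`nx_mono`), so `Sq A s (b s)`: `Nx A b`.  (6) the same for all automorphisms over `A`. -/
def St_GRP : Prop :=
  ∀ (L : FirstOrder.Language.{0, 0}) (U : Type) [L.Structure U], Mon L U → ∀ (A : Set U), A.Finite →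
    Gr L (Nx L A) A ∧ Gr L (Fx L A) A ∧
    (∀ (m : ℕ) (u : Fin m → U), Gr L (fun g => Nx L A g ∧ ∀ i, g (u i) = u i) (A ∪ range u)) ∧
    (∀ (α : Type) (s t : α → U) (g : U ≃[L] U), Fx L A g → Cj L (Nx L A) s t →
      Cj L (Nx L A) (fun i => g (s i)) (fun i => g (t i))) ∧
    (∀ (m : ℕ) (u : Fin m → U) (b : U ≃[L] U), (∀ (k : ℕ) (s : Fin k → U), ∃ g : U ≃[L] U,
      (Nx L A g ∧ ∀ i, g (u i) = u i) ∧ Cj L (Nx L (A ∪ range u)) (fun i => g (s i)) (fun i => b (s i))) →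
      Nx L A b ∧ ∀ i, b (u i) = u i) ∧
    ∀ b : U ≃[L] U, (∀ (k : ℕ) (s : Fin k → U), ∃ g : U ≃[L] U,
      Fx L A g ∧ Cj L (Nx L A) (fun i => g (s i)) (fun i => b (s i))) → Fx L A b

/-- [FCL] finitely many classes.
HYPS: none.
PROOF.  Induction on `n` (for all finite `α`).  `n = 0`: `T` = the set of pairs of a predicate on
`(δ : Δ) × (Fin δ.1 → α) × (Fin δ.2.1 → α)` (the truth value of `Cj G δ.2.2 (v i, v j)`) and a predicate on
`(δ : Δ) × (Fin δ.1 → α) × (Fin δ.2.1 → α) × (Fin δ.2.1 → α)` (the truth value of `Cj (Nx (C ∪ range (v i))) (v j) (v j')`): finite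
types (`Set` or `_ → Prop` of a finite type).  `n + 1`: `T' = T_0 × (D → Set T_n)` where `T_n`, `Φ_n` belong to `n` and `Option α`;
`Φ X v = (Φ_0 v, fun u => {Φ_n X (ov v x) | x ∈ X, Cj1 G u x})`. -/
def St_FCL : Prop :=
  ∀ (L : FirstOrder.Language.{0, 0}) (U : Type) [L.Structure U] (G : (U ≃[L] U) → Prop) (C : Set U)
    (Δ : Set (Atm U)) (D : Set U), Δ.Finite → D.Finite → ∀ (n : ℕ) (α : Type), Finite α →
    ∃ (T : Type) (Φ : Set U → (α → U) → T), Finite T ∧ ∀ (X Y : Set U) (v w : α → U), Φ X v = Φ Y w →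
      Eg L G C Δ D n α X v Y w

/-- [SNE] similar sets have the same theory.
HYPS: GEQ.
PROOF.  `e : X ≃ Y` as in `SmN (A ∪ range s)`; `t x = e x` for `x ∈ X`, `t x = x` otherwise; for `x ∈ X ∩ range s` also `t x = x`.  For every
finite `α`, `v : α → U` with `v a ∈ X ∪ range s` for all `a` and all `Δ, D, n`: `Eg (Nx A) A Δ D n α X v Y (t ∘ v)`: induction on `n`;
there is `g` in `Nx (A ∪ range s)` with `g (v a) = t (v a)` for all `a`; `At` as in the proof of GIN (1) (`g` in `Nx A`); moves: `x ∈ X ↦ e x ∈ Y`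
(`Cj1 (Nx A) u x → Cj1 (Nx A) u (e x)`), and back.  For `v = s`: the first claim; GEQ (5): `EqS`.  The last claim: the same without `s`. -/
def St_SNE : Prop :=
  ∀ (L : FirstOrder.Language.{0, 0}) (U : Type) [L.Structure U], Mon L U → ∀ (A : Set U), A.Finite →
    (∀ (m : ℕ) (s : Fin m → U) (X Y : Set U), SmN L (A ∪ range s) X Y →
      EqT L (Nx L A) A X s Y s ∧ EqS L A X Y) ∧
    ∀ X Y : Set U, SmN L A X Y → EqS L A X Y

/-- [RSQ] restriction to an invariant set.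
HYPS: none.
PROOF.  (1) Induction on `n`: a move `x ∈ X ∩ P` with `Cj1 G u x` is answered by `y ∈ Y` with `Cj1 G u y`; `u ∈ P`, so `y ∈ P`.  (2) (1). -/
def St_RSQ : Prop :=
  ∀ (L : FirstOrder.Language.{0, 0}) (U : Type) [L.Structure U],
    (∀ (G : (U ≃[L] U) → Prop) (C P : Set U), (∀ g : U ≃[L] U, G g → ∀ x, g x ∈ P ↔ x ∈ P) →
      ∀ (Δ : Set (Atm U)) (D : Set U) (n : ℕ) (α : Type) (X Y : Set U) (v w : α → U),
      Eg L G C Δ D n α X v Y w → Eg L G C Δ D n α (X ∩ P) v (Y ∩ P) w) ∧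
    ∀ A P X Y : Set U, (∀ g : U ≃[L] U, Nx L A g → ∀ x, g x ∈ P ↔ x ∈ P) → EqS L A X Y →
      EqS L A (X ∩ P) (Y ∩ P)

/-- [RPM] parameters outside.
HYPS: none.
PROOF.  For every finite `α` and tuples `v, w : α → U` in `Q`: `Eg (Nx A) A Δ D n α X v Y w → Eg (Nx (A ∪ W)) (A ∪ W) Δ D n α X v Y w`, by
induction on `n`.  Key: for tuples `s, t` in `Q` (finite index types): `s ~_A t ↔ s ~_(A ∪ W) t`, and for a tuple `a` in `Q`:
`s ~_(A ∪ range a) t ↔ s ~_(A ∪ W ∪ range a) t` (`nx_mono`; OFQ (1) for `A` resp. `A ∪ range a`, OFQ (3): `Bq (A ∪ range a) Q`).  If `Cj (Nx A) δ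
(v i, v j)` or `Cj (Nx (A ∪ W)) δ (v i, v j)` then `δ` is in `Q` (`Bq.inv`).  Moves: `X, Y ⊆ Q`. -/
def St_RPM : Prop :=
  ∀ (L : FirstOrder.Language.{0, 0}) (U : Type) [L.Structure U], Mon L U → ∀ (A W Q X Y : Set U), A.Finite →
    W.Finite → Bq L A Q → Disjoint W Q → X ⊆ Q → Y ⊆ Q → EqS L A X Y → EqS L (A ∪ W) X Y

/-- [GCJ] transport by an arbitrary automorphism `g`.
HYPS: none.
PROOF.  `gΔ = {⟨l, m, g ∘ δ⟩ | ⟨l, m, δ⟩ ∈ Δ}`.  For all `α`, `v`, `w`: `Eg (Nx A) A Δ D n α X v Y w →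
Eg (Nx (g '' A)) (g '' A) (gΔ) (g '' D) n α (g '' X) (g ∘ v) (g '' Y) (g ∘ w)`: induction on `n`; `Cj (Nx (g '' B)) (g s) (g t) ↔ Cj (Nx B) s t`
(`nx_conj`, for `g` and `g.symm`), `g '' (A ∪ range a) = g '' A ∪ range (g ∘ a)`.  Every finite `Δ'` is `gΔ` for `Δ = g⁻¹Δ'`. -/
def St_GCJ : Prop :=
  ∀ (L : FirstOrder.Language.{0, 0}) (U : Type) [L.Structure U], Mon L U → ∀ (A X Y : Set U) (g : U ≃[L] U),
    EqS L A X Y → EqS L (g '' A) (g '' X) (g '' Y)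

/-! ### Limits of automorphisms -/

/-- [FNS] finite multiplicity of tuples.
HYPS: none.
PROOF.  Reindex to `Fin n`.  `TPC.z_FNT`: `F`, `FE A F`, such that for `s` conjugate to `t` over `A`: `F t s → t ~_A s`.  `F` is invariant under
automorphisms over `A` (`dp_fx`), so for `s₁ = h t`, `s₂` conjugate to `t` over `A`: `F s₁ s₂ → F t (h⁻¹ s₂) → t ~_A h⁻¹ s₂ → s₁ ~_A s₂`
(`nx_conj_fx`).  `𝒮` = one conjugate of `t` in each class of `F` which contains one (`F` has finitely many classes, `FE.fin`). -/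
def St_FNS : Prop :=
  ∀ (L : FirstOrder.Language.{0, 0}) (U : Type) [L.Structure U], Mon L U → FinN L U → ∀ (A : Set U) (α : Type)
    (t : α → U), A.Finite → Finite α → ∃ S : Set (α → U), S.Finite ∧ (∀ s ∈ S, Cj L (Fx L A) t s) ∧
      ∀ s, Cj L (Fx L A) t s → ∃ s' ∈ S, Cj L (Nx L A) s' s

/-- [LMA] a limit of a sequence of automorphisms over `C`.
HYPS: GRP, FNS.
PROOF.  `𝒰 = hyperfilter ℕ`.  Call a finite relation `r ⊆ U × U` good if for `𝒰`-many `k` there is `h` in `Nx C` with `h (a k x) = y` for all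
`(x, y) ∈ r`.  `∅` is good.  Forth: `r` good, `x : U`; `s` = the enumeration of the first coordinates, `t` of the second ones.  The tuples
`a k (s, x)` are conjugate to `(s, x)` over `C`: by FNS they fall into finitely many classes of `~_C`; so for `𝒰`-many `k` (also among
those of `r`) `a k (s, x) ~_C (s', x')` for a fixed tuple; `t ~_C a k s ~_C s'`, `g s' = t`, `g` in `Nx C`; `y = g x'`.  Back: `r` good, `y : U`;
for `𝒰`-many `k` there is `h_k` in `Nx C` with `h_k (a k s) = t`; `x_k = (a k)⁻¹ (h_k⁻¹ y)`.  The tuples `(s, x_k)` are conjugate to `(t, y)`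
over `C` under `(h_k ∘ a k)⁻¹`: finitely many classes of `~_C`, so there is `x` with `(s, x_k) ~_C (s, x)` for `𝒰`-many `k` (`x` = one of
them); `a k (s, x) ~_C a k (s, x_k) ~_C (t, y)` (GRP (4)).  `r` good: `c.1 = c'.1 ↔ c.2 = c'.2` for `c, c' ∈ r`.  `MNO.thm_BAG` for
`X = Y = univ`: a bijection `U ≃ U` all of whose finite restrictions are good; locally it agrees with `h ∘ a k`, so it is an
automorphism `b` (`STG.exists_equiv`).  A set in `𝒰` contains some `k ≥ N`. -/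
def St_LMA : Prop :=
  ∀ (L : FirstOrder.Language.{0, 0}) (U : Type) [L.Structure U], Mon L U → FinN L U → ∀ (C : Set U), C.Finite →
    ∀ a : ℕ → (U ≃[L] U), (∀ k, Fx L C (a k)) →
    ∃ b : U ≃[L] U, ∀ (m N : ℕ) (s : Fin m → U), ∃ k, N ≤ k ∧
      Cj L (Nx L C) (fun i => a k (s i)) (fun i => b (s i))

/-- [LMS] from `G` to `Nx C`, one game.
HYPS: GEQ, GIN, FNS.
PROOF.  We may assume that `Δ` contains the atoms `⟨0, 1, (∅, u)⟩` for `u ∈ D` (GEQ (4)).  For `δ ∈ Δ` consider the tuples `t` in `X` with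
`Cj G δ.2.2 t`: by FNS (they are conjugate to `δ.2.2` over `C`, `Gr.fx`) they fall into finitely many classes of `~_C`; choose one
tuple IN `X` for each class; let `c : Fin p → U` enumerate all entries of these tuples, for all `δ ∈ Δ`.  So: (*) for every tuple `t` in
`X` with `Cj G δ.2.2 t` there is `e : Fin l ⊕ Fin m → Fin p` with `t ~_C c ∘ e`.
`Δ' = Δ ∪ {⟨0, l + m, (∅, δ)⟩ | ⟨l, m, δ⟩ ∈ Δ} ∪ {⟨p, 0, (c, ∅)⟩}` (`δ` reindexed by `finSumFinEquiv`).  `EqT G` and GIN (3) for `b = c`: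
`c'` in `Y` with `Eg G C Δ' (D ∪ range c) n (Empty ⊕ Fin p) X c Y c'`; GIN (2): `g` in `G` with `g c' = c`.  GIN (1), GEQ (4), (5):
`Eg G C Δ' D n (Fin p) X c (g '' Y) c`.  Claim: for all `j`, `α` and `v, w : α → U`, `v` in `X`: if `Eg G C Δ' D j (Fin p ⊕ α) X (c, v) (g '' Y) (c, w)`
then `Eg (Nx C) C Δ D j α X v (g '' Y) w`.  Induction on `j`.
`At`: let `t = (v i, v j)`, `t' = (w i, w j)`.  If `t ~_C δ` or `t' ~_C δ` then `t ~_G δ` and `t' ~_G δ` (`Gr.nx`, `Gr.mul`; `At` for `G`), `t` is in `X`; `e` from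
(*); the second part of `At` for `G` and `⟨0, l + m, δ⟩`, for the subtuples `t` and `c ∘ e` of `(c, v)` (`range ∅ = ∅`): `t ~_C c ∘ e` gives
`t' ~_C c ∘ e`, so `t ~_C δ ↔ t' ~_C δ`.  The second part of `At` for `Nx C` is the same statement as for `G`.
Moves: `x ∈ X`, `Cj1 (Nx C) u x`, so `Cj1 G u x`: `y ∈ g '' Y`, `Eg G .. (j - 1)`; the claim for `j - 1` (reindex `Option (Fin p ⊕ α)`); `Cj1 (Nx C) u y` by the atom
`⟨0, 1, u⟩`.  In the same way back. -/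
def St_LMS : Prop :=
  ∀ (L : FirstOrder.Language.{0, 0}) (U : Type) [L.Structure U], Mon L U → FinN L U →
    ∀ (G : (U ≃[L] U) → Prop) (C : Set U), Gr L G C → ∀ X Y : Set U,
    EqT L G C X (Empty.elim : Empty → U) Y (Empty.elim : Empty → U) →
    ∀ (Δ : Set (Atm U)) (D : Set U) (n : ℕ), Δ.Finite → D.Finite →
    ∃ g : U ≃[L] U, G g ∧ Eg L (Nx L C) C Δ D n Empty X (Empty.elim : Empty → U) (g '' Y) (Empty.elim : Empty → U)

/-- [DEP] dependence on the strong types in `Δ`, `D` only.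
HYPS: none.
PROOF.  Induction on `n` (all `α`, `v`).  `At`: `t ~_C δ → g t ~_C g δ ~_C δ` (`nx_conj_fx`, `g` fixes `C`), and conversely with `g⁻¹`
(`g⁻¹ δ ~_C δ`); the second part: `g '' (C ∪ range a) = C ∪ range (g ∘ a)`, `nx_conj`.  Moves: `x ↦ g x`, `Cj1 (Nx C) u x ↔ Cj1 (Nx C) u (g x)`. -/
def St_DEP : Prop :=
  ∀ (L : FirstOrder.Language.{0, 0}) (U : Type) [L.Structure U], Mon L U → ∀ (C : Set U) (Δ : Set (Atm U))
    (D : Set U) (g : U ≃[L] U), Fx L C g → (∀ δ ∈ Δ, Cj L (Nx L C) δ.2.2 (fun i => g (δ.2.2 i))) →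
    (∀ u ∈ D, Cj1 L (Nx L C) u (g u)) → ∀ (n : ℕ) (α : Type) (X : Set U) (v : α → U),
    Eg L (Nx L C) C Δ D n α X v (g '' X) (fun a => g (v a))

/-- [LMG] from `G` to `Nx C`.
HYPS: GEQ, GRP, LMS, LMA, DEP.
PROOF.  `Atm U` and `U` are countable: increasing sequences of finite sets `Δ k`, `D k` which exhaust them.  LMS: `g k` in `G` with
`Eg (Nx C) C (Δ k) (D k) k Empty X ∅ (g k '' Y) ∅`.  LMA for `a k = (g k)⁻¹`: `b`; `b` is in `G` by hypothesis.  `g = b⁻¹`.  Let `Δ, D, n` be given,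
`s` a tuple which contains all entries of all `δ ∈ Δ` and all elements of `D`; `N` such that `Δ ⊆ Δ N`, `D ⊆ D N`, `n ≤ N`; `k ≥ N` with `b s = h (a k s)`,
`h` in `Nx C`.  `γ = b⁻¹ ∘ a k` is in `G`, `γ '' (g k '' Y) = g '' Y`, and `γ x = b⁻¹ (h⁻¹ (b x))` for the entries `x` of `s`: `γ s ~_C s` (`nx_conj_fx`), also
for all subtuples.  DEP for `γ`, `X := g k '' Y`; GEQ (3), (4). -/
def St_LMG : Prop :=
  ∀ (L : FirstOrder.Language.{0, 0}) (U : Type) [L.Structure U], Mon L U → FinN L U →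
    ∀ (G : (U ≃[L] U) → Prop) (C : Set U), Gr L G C →
    (∀ b : U ≃[L] U, (∀ (m : ℕ) (s : Fin m → U), ∃ g : U ≃[L] U, G g ∧
      Cj L (Nx L C) (fun i => g (s i)) (fun i => b (s i))) → G b) →
    ∀ X Y : Set U, EqT L G C X (Empty.elim : Empty → U) Y (Empty.elim : Empty → U) →
    ∃ g : U ≃[L] U, G g ∧ EqS L C X (g '' Y)

/-- [ADD] adding a tuple to the base.
HYPS: GEQ, GRP, LMG.
PROOF.  `G g := Nx A g ∧ g u = u`, `C = A ∪ range u` (GRP (3), (5)).  It is enough to show `EqT G C X ∅ Y ∅` (LMG).  For a finite `Δ` let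
`Δ' = {⟨m + l, k, ((u, s), t)⟩ | ⟨l, k, (s, t)⟩ ∈ Δ}` (`Fin.append`).  Claim: for all `n`, `α`, `v`, `w`: `Eg (Nx A) A Δ' D n (Fin m ⊕ α) X (u, v) Y (u, w) →
Eg G C Δ D n α X v Y w`.  Induction on `n`.  `Cj G (s, t) (v i, v j)` iff `Cj (Nx A) ((u, s), t) ((u, v i), v j)`; and `C ∪ range (v i) = A ∪ range (u, v i)`:
both parts of `At` for `Δ` are parts of `At` for `Δ'` and the subtuples `((u, v i), v j)` of `(u, v)`.  Moves: `Cj1 G x₀ x → Cj1 (Nx A) x₀ x`; the answer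
`y` satisfies `Cj1 G x₀ y` if `Δ` contains `⟨0, 1, x₀⟩` for all `x₀ ∈ D`, which we may assume (GEQ (4)): use the claim for `n - 1` and `At`.
Reindex `Option (Fin m ⊕ α)` (GEQ (5)).  For `α = Empty` and the hypothesis `EqT .. u .. u` reindex `Fin m ⊕ Empty`. -/
def St_ADD : Prop :=
  ∀ (L : FirstOrder.Language.{0, 0}) (U : Type) [L.Structure U], Mon L U → FinN L U → ∀ (A : Set U) (m : ℕ)
    (u : Fin m → U) (X Y : Set U), A.Finite → EqT L (Nx L A) A X u Y u →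
    ∃ g : U ≃[L] U, Nx L A g ∧ (∀ i, g (u i) = u i) ∧ EqS L (A ∪ range u) X (g '' Y)

/-! ### The Henkin construction -/

/-- [PRT] parts of models.
HYPS: none.
PROOF.  `X = Z ∪ Rᶜ`.  `B ⊆ X`: for `b ∈ B ∩ R` the set `Orb {b} b ∩ Pq B b = {b}` satisfies the hypothesis (`a = ∅`).  `isEl_of_orb`: let
`B ⊆ B' ⊆ X` be finite, `v : U`, `O = Orb B' v` definable over `B'`.  If `O` is not contained in `R` a point of `O` outside of `R` is in `X`.
So let `O ⊆ R`, `v ∈ R`, `P = Pq B v ⊆ R` (ALQ (6)).  (1) Some `b ∈ B'` is in `P`: then `O ⊆ P` (IMQ (3), ALQ (8)), and `O` is invariant under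
`Nx (B ∪ a)`, `a = B' ∩ P ⊆ Z`: for `h` in `Nx (B ∪ a)` glue `h` on `P` over `B` (ALQ (5), `Bq.glu`): the gluing fixes `B'`.  `O = O ∩ P`.
(2) `B' ∩ P = ∅`: `O ∩ P` is definable over a finite set (SEP with FCP for `B`, `O ⊆ Orb B v`), invariant under `Nx B` (glue on `P`: fixes `B'`);
`a = ∅`.  In both cases the hypothesis gives a point of `O ∩ Z`.  (Compare `TPC/UNQ.lean`.) -/
def St_PRT : Prop :=
  ∀ (L : FirstOrder.Language.{0, 0}) (U : Type) [L.Structure U], Mon L U → NPf L U → ∀ (B R Z : Set U),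
    B.Finite → Bq L B R → Z ⊆ R →
    (∀ (B' a : Set U) (v : U), B'.Finite → v ∈ R → a.Finite → a ⊆ Z →
      (∃ C : Set U, C.Finite ∧ C.Definable₁ L (Orb L B' v ∩ Pq L B v)) →
      (∀ g : U ≃[L] U, Nx L (B ∪ a) g → ∀ x ∈ Orb L B' v ∩ Pq L B v, g x ∈ Orb L B' v ∩ Pq L B v) →
      ((Orb L B' v ∩ Pq L B v) ∩ Z).Nonempty) → Md L B (Z ∪ Rᶜ)

/-- increasing sequences of finite sets which exhaust the atoms and the elements -/
structure Exh {U : Type} (Δ : ℕ → Set (Atm U)) (D : ℕ → Set U) : Prop where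
  fin : ∀ k, (Δ k).Finite ∧ (D k).Finite
  mono : ∀ k l, k ≤ l → Δ k ⊆ Δ l ∧ D k ⊆ D l
  exh : (∀ δ, ∃ k, δ ∈ Δ k) ∧ ∀ x, ∃ k, x ∈ D k

section

variable (L : FirstOrder.Language.{0, 0}) {U : Type} [L.Structure U]

/-- the game over `A` with the elements of `S` as constants -/
def Ek (A : Set U) (Δ : ℕ → Set (Atm U)) (D : ℕ → Set U) (k : ℕ) (S Z Z' : Set U) : Prop :=
  Eg L (Nx L A) A (Δ k) (D k) k (↥S) Z (fun x => x.1) Z' (fun x => x.1)

/-- the parts in `R` with the theory of `X` -/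
def Zc (A R : Set U) {m : ℕ} (s : Fin m → U) (X Z : Set U) : Prop :=
  (∃ N : Set U, Md L (A ∪ range s) N ∧ Z = N ∩ R) ∧ EqS L A X Z

end

/-- [HN0] games with constants.
HYPS: GEQ, GIN, GRP.
PROOF.  (0) enumerate the countable sets `Atm U` and `U`.  (1), (2), (3) GEQ (1) - (3).  (4) GEQ (4), (5).  (5) GIN (1) for `refl` and `g`, with GEQ (1).
(6) It is enough to treat `T = {x}` (induction on `T`).  `K ≥ k + 1` with `x ∈ D K` and the atom `⟨p, 0, c⟩ ∈ Δ K`, `c` an enumeration of `S ∪ {x}`.  The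
move `x` (`u = x`) gives `y ∈ Z'` and `Eg .. (K - 1) (Option S) Z (ov val x) Z' (ov val y)`; GIN (2): `g` in `Nx A` fixes `S`, `g x = y`.  GIN (1) for `refl`, `g⁻¹`:
`Eg .. (K - 1) (Option S) Z (ov val x) (g⁻¹ '' Z') (ov val x)`; GEQ (5) for the map `insert x S → Option S`; GEQ (4).
(7) GEQ (5) for `Fin m → range s` and a section of it, GEQ (4) (`Exh`).  (8) the same for the empty set. -/
def St_HN0 : Prop :=
  ∀ (L : FirstOrder.Language.{0, 0}) (U : Type) [L.Structure U], Mon L U →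
    (∃ (Δ : ℕ → Set (Atm U)) (D : ℕ → Set U), Exh Δ D) ∧
    ∀ (A : Set U) (Δ : ℕ → Set (Atm U)) (D : ℕ → Set U), A.Finite → Exh Δ D →
    (∀ k S Z, Ek L A Δ D k S Z Z) ∧
    (∀ k S Z Z', Ek L A Δ D k S Z Z' → Ek L A Δ D k S Z' Z) ∧
    (∀ k S Z Z' Z'', Ek L A Δ D k S Z Z' → Ek L A Δ D k S Z' Z'' → Ek L A Δ D k S Z Z'') ∧
    (∀ k k' S S' Z Z', k ≤ k' → S ⊆ S' → Ek L A Δ D k' S' Z Z' → Ek L A Δ D k S Z Z') ∧
    (∀ k S Z, ∀ g : U ≃[L] U, Nx L A g → (∀ y ∈ S, g y = y) → Ek L A Δ D k S Z (g '' Z)) ∧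
    (∀ k S T, S.Finite → T.Finite → ∃ K, k ≤ K ∧ ∀ Z Z', T ⊆ Z → Ek L A Δ D K S Z Z' →
      ∃ g : U ≃[L] U, Nx L A g ∧ (∀ y ∈ S, g y = y) ∧ T ⊆ g '' Z' ∧ Ek L A Δ D k (S ∪ T) Z (g '' Z')) ∧
    (∀ (m : ℕ) (s : Fin m → U) (Z Z' : Set U),
      EqT L (Nx L A) A Z s Z' s ↔ ∀ k, Ek L A Δ D k (range s) Z Z') ∧
    ∀ Z Z' : Set U, EqS L A Z Z' ↔ ∀ k, Ek L A Δ D k ∅ Z Z'

/-- [HN1] one step of the construction.
HYPS: GEQ, GIN, FCL, HN0.
PROOF.  (Zc is closed under `g` in `Nx A` which fix `s`: `hR` gives `g '' R = R`, and `EqS A Z (g '' Z)` by HN0 (5), (8).)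
(a) There is `Z₁` in the class with `S ⊆ Z₁`, `Ek (k + 1) S Z Z₁`, and `¬ Ek k' (range s) Z₁ C` for some `k'`: if not `Ek k' (range s) Z C` for some `k'` take
`Z₁ = Z`.  Otherwise let `K` be as in HN0 (6) for `k + 1`, `range s`, `T = S`; `hNI` for `Z`, `K`: `Z''`, `Ek K (range s) Z Z''`, not `Ek k' (range s) Z Z''`; `g` from
HN0 (6): `Z₁ = g '' Z''`: `Ek (k + 1) S Z Z₁` (`range s ∪ S = S`); if `Ek k' (range s) Z₁ C` then `Ek k' (range s) Z'' Z₁`, `Z₁ C`, `C Z`: contradiction.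
(b) For every `u ∈ D (k + 1)` let `Y_u ⊆ {y ∈ Z | Cj1 u y}` be a finite set of representatives of the classes of
`Eg .. (Δ (k + 1)) (D (k + 1)) k (Option S) Z (ov val y) Z (ov val y')` (FCL for `Option S`); for `y ∈ Y_u` the game `Ek (k + 1) S Z Z₁` gives `x ∈ Z₁`, `Cj1 u x`,
`Eg .. k (Option S) Z (ov val y) Z₁ (ov val x)`.  `S₁` = the finite set of these `x`.
(c) For `i ≤ j` such that `O i` is definable over a finite set, nonempty, contained in `R` and invariant under `Nx (A ∪ S)`: `Z₁ = N₁ ∩ R`, `A ∪ S ⊆ N₁`: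
`nx_meets`: a point of `O i ∩ N₁ = O i ∩ Z₁`.  `S₂` = these points.  `S' = S ∪ S₁ ∪ S₂`; `k'` may be replaced by `max k' (k + 1)` (HN0 (4)). -/
def St_HN1 : Prop :=
  ∀ (L : FirstOrder.Language.{0, 0}) (U : Type) [L.Structure U], Mon L U → ∀ (A R X : Set U) (m : ℕ)
    (s : Fin m → U) (Δ : ℕ → Set (Atm U)) (D : ℕ → Set U), A.Finite → Exh Δ D → (∀ i, s i ∈ R) →
    (∀ g : U ≃[L] U, Nx L A g → (∀ i, g (s i) ∈ R) → g '' R = R) →
    (∀ Z, Zc L A R s X Z → ∀ k, ∃ Z', Zc L A R s X Z' ∧ Ek L A Δ D k (range s) Z Z' ∧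
      ∃ k', ¬ Ek L A Δ D k' (range s) Z Z') →
    ∀ (Z S C : Set U) (O : ℕ → Set U) (j k : ℕ), Zc L A R s X Z → S.Finite → range s ⊆ S → S ⊆ Z →
    ∃ (Z' S' : Set U) (k' : ℕ), Zc L A R s X Z' ∧ S'.Finite ∧ S ⊆ S' ∧ S' ⊆ Z' ∧ k < k' ∧
      Ek L A Δ D (k + 1) S Z Z' ∧ ¬ Ek L A Δ D k' (range s) Z' C ∧
      (∀ y ∈ Z, ∀ u ∈ D (k + 1), Cj1 L (Nx L A) u y → ∃ x ∈ S', Cj1 L (Nx L A) u x ∧
        Eg L (Nx L A) A (Δ (k + 1)) (D (k + 1)) k (Option ↥S) Z (ov (fun x : ↥S => x.1) y) Z'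
          (ov (fun x : ↥S => x.1) x)) ∧
      ∀ i ≤ j, (∃ C' : Set U, C'.Finite ∧ C'.Definable₁ L (O i)) → (O i).Nonempty → O i ⊆ R →
        (∀ g : U ≃[L] U, Nx L (A ∪ S) g → ∀ x ∈ O i, g x ∈ O i) → (O i ∩ S').Nonempty

/-- [HEN] isolated theories of tuples.
HYPS: GEQ, GIN, GRP, SNE, PRT, HN0, HN1.
PROOF.  `X = N ∩ R`, `Y = N' ∩ R`, `ŝ = range s`; `Zc` = `Zc L A R s X`.  `Exh Δ D` (HN0 (0)).
CLAIM: there are `Z` in `Zc` and `k` such that for all `Z'` in `Zc`: `Ek k ŝ Z Z' → ∀ k', Ek k' ŝ Z Z'`.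
The claim gives the theorem: `K` from HN0 (6) for `k`, `S = ∅`, `T = ŝ`; for `X' = X` or `X' = Y`: `EqS A Z X'`, so `Ek K ∅ Z X'` (HN0 (8)): `g` in `Nx A`, `ŝ ⊆ g '' X'`,
`Ek k ŝ Z (g '' X')`.  `g⁻¹ s` is in `X' ⊆ R`, so `g⁻¹ '' R = R`, and `g '' X' = (g '' N) ∩ R` is in `Zc` (`EqS A X' (g '' X')`: HN0 (5), (8)).  So
`EqT (Nx A) A Z s (g '' X') s` (HN0 (7)), and with `t = g⁻¹ s`: `EqT X' t (g '' X') s` (GIN (1)).  Compose for `X` and `Y`.
Proof of the claim: suppose not.  `c` from `Ctx.cpt` for `A ∪ ŝ`, `R`: `C n = c n ∩ R`.  `O` = an enumeration of the sets `Orb B' v ∩ Pq (A ∪ ŝ) v`, `B'` finite, `v ∈ U`.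
HN1: a sequence `(Z j, S j, k j)`, `Z 0 = X`, `S 0 = ŝ`, `k 0 = 0`, step `j` with `C := C j`.  `Zω = ⋃ S j ⊆ R`.
(i) PRT for `B = A ∪ ŝ`, `Z := Zω`: `a ⊆ S l` for some `l`; `O i` the given set, `j ≥ i, l`: it meets `S (j + 1)`.  So `N₁ = Zω ∪ Rᶜ` is a model, `Zω = N₁ ∩ R`.
(ii) For all `n` and `j` with `n ≤ k j + 1`: `Eg (Nx A) A (Δ (k j + 1)) (D (k j + 1)) n (S j) (Z j) val Zω val`.  Induction on `n`; `At` is clear (`val` on both sides).
Forth: `y ∈ Z j`, `Cj1 u y`: HN1: `x ∈ S (j + 1)`, `Eg .. (k j) (Option (S j)) (Z j) (ov y) (Z (j + 1)) (ov x)`; the claim for `n`, `j + 1` (restricted to `Option (S j)` and to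
`Δ (k j + 1)`, `D (k j + 1)`); compose (`n + 1 ≤ k j + 1`).  Back: `x ∈ Zω`, `Cj1 u x`, `x ∈ S l`, `l > j`; `Ek (k j + 1) (S j) (Z j) (Z l)` (compose the steps, HN0 (4)):
the move `x ∈ Z l` gives `y ∈ Z j`, `Cj1 u y`, `Eg .. (k j) (Option (S j)) (Z j) (ov y) (Z l) (ov x)`; the claim for `n`, `l`; compose.
(iii) So `Ek (k j) (S j) (Z j) Zω` for all `j`, `k j ≥ j`: `EqS A X Zω` (HN0 (8), `Z j` in `Zc`), so `Zω` is in `Zc`; and not `Ek (k (j + 1)) ŝ Zω (C j)`.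
(iv) `SmN (A ∪ ŝ) Zω (C n)` for some `n` (`Cpt`), so (SNE) `EqT (Nx A) A Zω s (C n) s`, `Ek (k (n + 1)) ŝ Zω (C n)` (HN0 (7)): contradiction. -/
def St_HEN : Prop :=
  ∀ (L : FirstOrder.Language.{0, 0}) (U : Type) [L.Structure U], Ctx L U → ∀ (A R N N' : Set U) (m : ℕ)
    (s : Fin m → U), A.Finite → (∀ i, s i ∈ R) → Bq L (A ∪ range s) R →
    (∀ g : U ≃[L] U, Nx L A g → (∀ i, g (s i) ∈ R) → g '' R = R) →
    Md L (A ∪ range s) N → Md L (A ∪ range s) N' → EqS L A (N ∩ R) (N' ∩ R) →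
    ∃ t t' : Fin m → U, (∀ i, t i ∈ N ∩ R) ∧ (∀ i, t' i ∈ N' ∩ R) ∧ Cj L (Nx L A) s t ∧ Cj L (Nx L A) s t' ∧
      EqT L (Nx L A) A (N ∩ R) t (N' ∩ R) t'

end Pool.Agent.MTC
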