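import Pool.Agent.MTC.StA

/-!
# MTC: statements of part B (helper23): parts which are determined by their theory

Conventions: see `StA.lean`.  `hX : Ctx L U` gives `mon`, `npf`, `fin` (`FinN`), `cpt` (all unions of pieces have countably many
parts).  OFQ (3): unions of pieces over `A` are unions of pieces over every finite `A' ⊇ A`.
-/

set_option autoImplicit false
set_option linter.unusedVariables false

namespace Pool.Agent.MTC

open FirstOrder.Language Set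
open scoped FirstOrder
open Pool.Agent.WOM (tp Mon IsEl IsoM CtU Fx Orb Isd)
open Pool.Agent.PMC (Sm Md NPf)
open Pool.Agent.MNO (Dp FE Sq Nx SmN FE1 FinN)
open Pool.Agent.TPC (Bq Pq Sub Fcp Lin Fre Iv Kl Inr Lab Clu Rgd Ist Cpt)

/-- [STP] from the bases `A ∪ t` to the base `A`.
HYPS: GEQ, GIN, GRP, ADD, HEN.
PROOF.  `t₀` in `M ∩ Q` with `s ~_A t₀`.  (1) `EqS A (M ∩ Q) (M' ∩ Q)` and GIN (3), (2) for `b = t₀`: `t₀'` in `M' ∩ Q` with `t₀ ~_A t₀'`; `g` in `Nx A` with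
`g t₀' = t₀`.  `M₁ = g '' M'`: `Md (A ∪ range t₀) M₁`, `g '' (M' ∩ Q) = M₁ ∩ Q` (`Bq.inv`), `EqS A (M ∩ Q) (M₁ ∩ Q)` (GIN (1), GEQ (3)).
(2) HEN for `R = Q`, `s := t₀`, `N := M`, `N' := M₁` (OFQ (3); `h '' Q = Q` for `h` in `Nx A`): `t`, `t'` with `EqT (Nx A) A (M ∩ Q) t (M₁ ∩ Q) t'`; `h` in `Nx A` with
`h t' = t` (`t ~_A t₀ ~_A t'`), `M₂ = h '' M₁`: `EqT (Nx A) A (M ∩ Q) t (M₂ ∩ Q) t` (GIN (1)).  (3) ADD: `k` in `Nx A`, `k t = t`, `EqS (A ∪ range t) (M ∩ Q) (k '' (M₂ ∩ Q))`;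
`M₃ = k '' M₂`, `k '' (M₂ ∩ Q) = M₃ ∩ Q`, `Md (A ∪ range t) M`, `M₃`.  (4) `Mar (A ∪ range t) Q`: `SmN (A ∪ range t) (M ∩ Q) (M₃ ∩ Q)`, so `SmN A`; and
`SmN A (M' ∩ Q) (M₃ ∩ Q)` (the image under an automorphism in `Nx A`). -/
def St_STP : Prop :=
  ∀ (L : FirstOrder.Language.{0, 0}) (U : Type) [L.Structure U], Ctx L U → ∀ (A Q : Set U) (m : ℕ)
    (s : Fin m → U), A.Finite → Bq L A Q →
    (∀ t : Fin m → U, Cj L (Nx L A) s t → (∀ i, t i ∈ Q) → Mar L (A ∪ range t) Q) →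
    ∀ M M' : Set U, Md L A M → Md L A M' → EqS L A (M ∩ Q) (M' ∩ Q) →
    (∃ t : Fin m → U, Cj L (Nx L A) s t ∧ ∀ i, t i ∈ M ∩ Q) → SmN L A (M ∩ Q) (M' ∩ Q)

/-- [MCA] calculus of `Mar`.
HYPS: GEQ, RSQ, RPM, GCJ.
PROOF.  (1) For `z ∈ Q`: `Pq A z ⊆ Q`, `EqS A (M ∩ Pq A z) (M' ∩ Pq A z)` (RSQ (2), `Bq.inv`), so `SmN A` of these; SMQ (6) (`TPC.q_SMQ`).
(2) `EqS A (M ∩ Q) (M' ∩ Q)`; `M₁ = (M ∩ Q) ∪ Qᶜ`, `M₁'` in the same way are models (UNQ over `A` with FCP: `m z = M` for `z ∈ Q`, `univ` otherwise), contain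
`A ∪ W`, `M₁ ∩ Q = M ∩ Q`; RPM: `EqS (A ∪ W)`; `Mar (A ∪ W) Q`: `SmN (A ∪ W)`, so `SmN A`.
(3) `M ∩ {x}` is `{x}` or `∅`; if `x ∈ M` the game for `D = {x}` gives `y ∈ M' ∩ {x}` (and conversely): the two sets are equal; `SmN A X X`.
(4) clear (SMQ (2), (3)).  (5) GCJ for `g⁻¹`: `M, M'` models over `g '' A`: `g⁻¹ '' (M ∩ g '' Q) = (g⁻¹ '' M) ∩ Q`; `SmN A` of the images under `g⁻¹` gives
`SmN (g '' A)` (`nx_conj`). -/
def St_MCA : Prop :=
  ∀ (L : FirstOrder.Language.{0, 0}) (U : Type) [L.Structure U], Ctx L U →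
    (∀ A Q : Set U, A.Finite → Bq L A Q → (∀ z ∈ Q, Mar L A (Pq L A z)) → Mar L A Q) ∧
    (∀ A W Q : Set U, A.Finite → W.Finite → Bq L A Q → Disjoint W Q → Mar L (A ∪ W) Q → Mar L A Q) ∧
    (∀ (A : Set U) (x : U), A.Finite → Mar L A {x}) ∧
    (∀ (A : Set U) (z : U), A.Finite → Rgd L A z → Mar L A (Pq L A z)) ∧
    ∀ (A Q : Set U) (g : U ≃[L] U), A.Finite → Mar L A Q → Mar L (g '' A) (g '' Q)

/-- [BGM] calculus of `BigM`.
HYPS: MCA.
PROOF.  As `TPC/BGC.lean`.  (1) ALQ (8).  (2) `Pq A' z' ⊆ Pq A z' = Pq A z` (ALQ (10), (8)).  (3) `B`, `z'` from `BigM A z`; `Pq B z' ⊆ Pq A z` misses `W`; NNQ: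
`Pq (B ∪ W) z' = Pq B z'`, MCA (2) for `B`, `W`; `z' ∈ Pq (A ∪ W) z = Pq A z` (NNQ).  (4) MCA (5) for `g⁻¹`, IMQ (2).  (5) `B = A`, `z' = z`.
(6) `z ∈ A`: `Pq A z = {z}` (`{z}` is a union of pieces over `A`), so `z' = z ∈ B`, `Pq B z = {z}`; MCA (3). -/
def St_BGM : Prop :=
  ∀ (L : FirstOrder.Language.{0, 0}) (U : Type) [L.Structure U], Ctx L U → ∀ (A : Set U) (z : U), A.Finite →
    (∀ z' ∈ Pq L A z, BigM L A z → BigM L A z') ∧
    (∀ A' : Set U, A'.Finite → A ⊆ A' → ∀ z' ∈ Pq L A z, BigM L A' z' → BigM L A z) ∧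
    (∀ W : Set U, W.Finite → Disjoint W (Pq L A z) → BigM L A z → BigM L (A ∪ W) z) ∧
    (∀ g : U ≃[L] U, BigM L A z → BigM L (g '' A) (g z)) ∧
    (¬ BigM L A z → Mar L A (Pq L A z)) ∧
    (z ∈ A → ¬ BigM L A z)

/-- [B3M] isolated tuples.
HYPS: STP, MCA, BGM.
PROOF.  `B`, `z₀` from `BigM A z`: `A ⊆ B`, `z₀ ∈ Pq A z`, not `Mar B R` for `R = Pq B z₀ ⊆ Pq A z`.  Suppose that no `z' ∈ Pq A z` satisfies
`BigM (A ∪ range u) z'`.  `TPC.z_IST` (3): `k` in `Nx A` with `u' = k ∘ u` isolated over `B`.  Let `v : Fin m → U` be the part of `u'` in `R` (an enumeration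
`f : Fin m → Fin n` of `{i | u' i ∈ R}`; isolated over `B`, IST (8)).  We show `Mar B R`: STP for `B`, `R`, `s = v`: if `M, M'` are models over `B`, IST (2)
gives `g` in `Nx B` with `g v` in `M` (and in `R`).  It remains to show `Mar (B ∪ range t) R` for `t = g v`, `g` in `Nx B`.  `u'' = g ∘ u'`,
`C = B ∪ range u'' = (B ∪ range t) ∪ W`, `W` = the `u'' i` with `u' i ∉ R`, disjoint from `R` (`Bq.inv`).  MCA (2): it is enough to show `Mar C R`; MCA (1):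
`Mar C (Pq C z')` for `z' ∈ R` (OFQ (3): `Bq C R`).  `h = g ∘ k` is in `Nx A`, `h⁻¹ z' ∈ Pq A z` (`Bq.inv`), so not `BigM (A ∪ range u) (h⁻¹ z')`, so not
`BigM (A ∪ range u'') z'` (BGM (4); `h '' (A ∪ range u) = A ∪ range u''`), so not `BigM C z'` (BGM (2), `z' ∈ Pq .. z'`), BGM (5).  (Compare `TPC/BG3.lean`.) -/
def St_B3M : Prop :=
  ∀ (L : FirstOrder.Language.{0, 0}) (U : Type) [L.Structure U], Ctx L U → ∀ (A : Set U) (z : U) (n : ℕ)
    (u : Fin n → U), A.Finite → BigM L A z → Ist L A u → ∃ z' ∈ Pq L A z, BigM L (A ∪ range u) z'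

/-- [LNM] linear pieces are determined by their theory.
HYPS: GEQ, GIN, RSQ.
PROOF.  `X = M ∩ P`, `X' = M' ∩ P`.  Put `T M x z :⇔ SmN A (Iv P lt M x x) (Iv P lt univ z z)`.  Copy `TPC/LCL.lean` (its `key`): if
(a) `LCL_D lt X X' (T M) (T M')`: there is a `z` which is the label of the first cluster of `X` and of the first cluster of `X'`, or neither
has a first cluster; (b) the same for `fun a b => lt b a`; (c) `(∃ p q ∈ X, lt p q) ↔ (∃ p q ∈ X', lt p q)`, then `SmN A X X'` (LCL with LNW, LNI, RCH: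
`TPC.q_LNW`, `q_LNI`, `q_RCH`, as in `TPC/LXT.lean`).
(1) For `x ∈ X` LNW (for `M0 = univ`) gives `SmN A (Iv P lt M x x) (Iv P lt univ z z)`, `z ∈ P`; the bijection maps `x` to `g x`, `g` in `Nx A`, in the cluster
of `z`, so `SmN A (Iv P lt M x x) (Iv P lt univ x x)` (compose with `g⁻¹`, `fxE`, `fxl`): `T M x x`; so `T M' x' x` for all `x' ∈ X'` with `x' ~_A x`.
(2) For `x, y ∈ P` with `lt x y`, `x', y' ∈ P` with `lt x' y'`, `x ~_A x'`, `y ~_A y'`: `(x, y) ~_A (x', y')` (`Lin.ort`); and `lt` is invariant (`fxl`).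
(3) Let `x ∈ X` be in the first cluster (`∀ y ∈ X, ¬ lt y x`).  The game for `D = {x}`, `Δ = ∅` or small, gives `x' ∈ X'`, `x' ~_A x`; more precisely for every
`Δ`, `D ∋ x` and `n` such that the rest of the game is still won.  Claim: `x'` is in the first cluster of `X'` (for suitable `Δ`, `D`, `n`): otherwise `lt y' x'`
for some `y' ∈ X'`, and by LNI there is `z' ∈ X'` with `lt y' z'`, `lt z' x'` and the label of `x`, so (the similarity maps a point of the cluster of `z'` to `x`) a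
point `y₁ ∈ X'` with `y₁ ~_A x`, `lt y₁ x'`.  Choose `a, b ∈ P`, `a ~_A x ~_A b`, `lt a b` (`gap`), `(a, b)` in `Δ`, `x ∈ D`, `n = 2`: the answer `y ∈ X` to `y₁` has
`(y, x) ~_A (y₁, x') ~_A (a, b)`, so `lt y x`: contradiction.  So (a) (with (1)), and by symmetry (b) (the order reversed), also from `X'` to `X`.
(c) if `p, q ∈ X`, `lt p q`, the game with `Δ ∋ (p, q)` gives `p', q' ∈ X'` with `(p', q') ~_A (p, q)`. -/
def St_LNM : Prop :=
  ∀ (L : FirstOrder.Language.{0, 0}) (U : Type) [L.Structure U], Ctx L U → ∀ (A P : Set U)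
    (lt : U → U → Prop), Lin L A P lt → Mar L A P

/-- [NIM] nice pieces.
HYPS: STP, MCA, LNM.
PROOF.  Induction on `n`.  `n = 0`: MCA (3), LNM.  `n + 1`: if `Nic n A x`: induction.  Otherwise `P = Pq A x`; let `y ∈ P`, `A' = insert y A`.  For `z ∈ P`:
`Inr A y z` gives `Rgd A' z` (`TPC.z_RIG` / `q_RIG`), so `Mar A' (Pq A' z)` (MCA (4)); `Nic n A' z`: induction.  `Bq A' P` (OFQ (3)), MCA (1): `Mar A' P`.
Let `EqS A (M ∩ P) (M' ∩ P)`.  If `M ∩ P = ∅` then `M' ∩ P = ∅` (a point `y` of it, the game for `D = {y}`).  If `y ∈ M ∩ P`: STP for `m = 1`, `s = (y)`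
(`A ∪ range (t) = insert (t 0) A`, `t 0 ∈ P`). -/
def St_NIM : Prop :=
  ∀ (L : FirstOrder.Language.{0, 0}) (U : Type) [L.Structure U], Ctx L U → ∀ (n : ℕ) (A : Set U) (x : U),
    A.Finite → Nic L n A x → Mar L A (Pq L A x)

/-! ### Free unions of clusters: `P ⊆ E` is a union of pieces, `Kl P cl M p` = the points of `M ∩ P` in the cluster of `p` -/

/-- [KLB] basic facts.
HYPS: none.
PROOF.  (1) `Clu L A (Kl E cl univ p) p`; KBQ (`TPC.z_KBQ`): `Bq (insert p A) (Kl E cl univ p)`; `Bq (insert p A) P` (OFQ (3)); the intersection (ALQ (3)).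
(2) `Bq.inv` for `P`, `Fre.fxc` (`Nx A ⊆ Fx A`).  (3) `sym`, `tra`.  (4) clear.  (5) (2) and (3).  (6) `Fre.ort` for `S = {x}`, `W = {y}`. -/
def St_KLB : Prop :=
  ∀ (L : FirstOrder.Language.{0, 0}) (U : Type) [L.Structure U], Mon L U → ∀ (A E P : Set U)
    (cl : U → U → Prop), Fre L A E cl → Bq L A P → P ⊆ E →
    (∀ p ∈ P, Bq L (insert p A) (Kl P cl univ p)) ∧
    (∀ (g : U ≃[L] U) (M : Set U), ∀ p ∈ P, Nx L A g → g '' Kl P cl M p = Kl P cl (g '' M) (g p)) ∧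
    (∀ (M : Set U), ∀ p ∈ P, ∀ q ∈ P, cl p q → Kl P cl M p = Kl P cl M q) ∧
    (∀ (M : Set U) (p : U), M ∩ Kl P cl univ p = Kl P cl M p) ∧
    (∀ (g : U ≃[L] U), ∀ p ∈ P, Nx L A g → g p ∈ Kl P cl univ p → g '' Kl P cl univ p = Kl P cl univ p) ∧
    ∀ x ∈ E, ∀ y ∈ E, ∀ x' ∈ E, ∀ y' ∈ E, ¬ cl x y → ¬ cl x' y' → Cj1 L (Nx L A) x x' → Cj1 L (Nx L A) y y' →
      Cj L (Nx L A) ![x, y] ![x', y']

/-- [KMA] clusters are determined by their theory.
HYPS: GEQ, GIN, GRP, ADD, HEN, MCA, KLB.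
PROOF.  `K = Kl P cl M p`, `K' = Kl P cl M' p'`.  (1) The move `p ∈ K` (`D = {p}`): `p'' ∈ K'` with `p'' ~_A p`; `K' = Kl P cl M' p''` (KLB (3)); `g` in `Nx A`, `g p'' = p`: replace
`M'`, `K'` by `g '' M'`, `g '' K' = Kl P cl (g '' M') p` (KLB (2), GIN (1); similar to `K'`).  So let `p' = p`.
(2) `R = Kl P cl univ p`; HEN for `s = (p)`, `R`, `N = M`, `N' = M'` (KLB (1), (4), (5); `A ∪ range (p) = insert p A`): `t ∈ K`, `t' ∈ K'`, `t ~_A t'`,
`EqT (Nx A) A K t K' t'`; `h` in `Nx A`, `h t' = t`: `K₂ = h '' K' = Kl P cl (h '' M') t`, `K = Kl P cl M t`; `EqT (Nx A) A K t K₂ t`.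
(3) ADD: `k` in `Nx A`, `k t = t`, `EqS (A ∪ {t}) K (k '' K₂)`, `k '' K₂ = Kl P cl M₃ t`, `M₃ = k '' (h '' M')`.  `R' = Kl P cl univ t`, `K = M ∩ R'`, `k '' K₂ = M₃ ∩ R'`.
(4) `Mar (insert t A) R'`: MCA (1) and `Clm` (`z ∈ R'`: `z ∈ E`, `cl t z`).  So `SmN (insert t A) K (k '' K₂)`, `SmN A K K'`. -/
def St_KMA : Prop :=
  ∀ (L : FirstOrder.Language.{0, 0}) (U : Type) [L.Structure U], Ctx L U → ∀ (A E P : Set U)
    (cl : U → U → Prop), Fre L A E cl → Bq L A P → P ⊆ E → Clm L A E cl →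
    ∀ (M M' : Set U) (p p' : U), Md L A M → Md L A M' → p ∈ M → p ∈ P → p' ∈ M' → p' ∈ P →
    EqS L A (Kl P cl M p) (Kl P cl M' p') → SmN L A (Kl P cl M p) (Kl P cl M' p')

/-- [ATK] atomic clusters.
HYPS: KLB.
PROOF.  `g₀` in `Nx A` with `g₀ p = p'`.  Back and forth (`MNO.thm_BAG`) with the finite relations `r` such that some `g` in `Nx A` has `g p = p'` and
`g x = y` for `(x, y) ∈ r`.  Forth: `r`, `g`, `b ∈ K`; `s` = the tuple of `p` and the first coordinates (in `K`); `(s, b)` is isolated over `A`, so `b` is isolated over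
`A ∪ range s` (IST (4)), so `g b` over `A ∪ range (g s) ⊆ M'` (IST (7)); IST (2): `h` in `Nx (A ∪ range (g s))` with `h (g b) ∈ M'`; `h (g b) ∈ P`, `cl p' (h (g b))`
(`h p' = p'`): in `K'`; `h ∘ g`.  Back: the same with the roles exchanged. -/
def St_ATK : Prop :=
  ∀ (L : FirstOrder.Language.{0, 0}) (U : Type) [L.Structure U], Ctx L U → ∀ (A E P : Set U)
    (cl : U → U → Prop), Fre L A E cl → Bq L A P → P ⊆ E →
    ∀ (M M' : Set U) (p p' : U), Md L A M → Md L A M' → p ∈ M → p ∈ P → p' ∈ M' → p' ∈ P →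
    Cj1 L (Nx L A) p p' → AtC L A (Kl P cl M p) → AtC L A (Kl P cl M' p') →
    SmN L A (Kl P cl M p) (Kl P cl M' p')

/-- [FPF] infinitely many labels do not all have finite multiplicity (`TPC.q_FIF` for the parts in `P`).
HYPS: none.
PROOF.  For a model `N` let `N~ = (N ∩ P) ∪ Pᶜ` (a model: UNQ with FCP, `Bq A P`).  `q_FIF` for `E`, `M0~`, `N n~`, `p n`: the sets `Kl E cl (N n~) (p n)` are pairwise
not similar, as a similarity would restrict to the parts in `P` (`SMQ` (4); `Kl E cl N~ p ∩ P = Kl P cl N p`).  So for some `n` the set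
`Lab A E cl M0~ (Kl E cl (N n~) (p n))` is infinite.  For `K'` in it: `K' = Kl E cl M0~ z`, `K' ∩ P` is similar to `Kl P cl (N n) (p n)`, so it is nonempty (contains the
image `z'` of `p n`), `K' ∩ P = Kl P cl M0 z'`, and `K'` is determined by `K' ∩ P` (it is the cluster of `z'` in `M0~`): so the set
`Lab A P cl M0 (Kl P cl (N n) (p n))` is infinite. -/
def St_FPF : Prop :=
  ∀ (L : FirstOrder.Language.{0, 0}) (U : Type) [L.Structure U], Ctx L U → ∀ (A E P : Set U)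
    (cl : U → U → Prop), Fre L A E cl → Bq L A P → P ⊆ E → ∀ M0 : Set U, Md L A M0 →
    ∀ (N : ℕ → Set U) (p : ℕ → U), (∀ n, Md L A (N n) ∧ p n ∈ N n ∧ p n ∈ P) →
    (∀ n m, n ≠ m → ¬ SmN L A (Kl P cl (N n) (p n)) (Kl P cl (N m) (p m))) →
    ¬ ∀ n, (Lab L A P cl M0 (Kl P cl (N n) (p n))).Finite

/-- [FNL] finitely many labels are not atomic.
HYPS: FPF.
PROOF.  `M0` from `TPC.z_PMT` over `A`: all tuples of `M0` are isolated over `A`.  Suppose that for every finite family there is a further one; choose recursively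
(or: let `𝒦` be the set of the pairs `(N, p)` with `Kl P cl N p` not atomic, modulo similarity; if it is infinite take an injective sequence; compare `FCT_fin` in
`TPC/FCT.lean`) `(N n, p n)` with `Kl P cl (N n) (p n)` not `AtC` and pairwise not similar.  FPF: for some `n` the set `Lab A P cl M0 (Kl P cl (N n) (p n))` is infinite,
so nonempty: `Kl P cl (N n) (p n)` is similar to `Kl P cl M0 z ⊆ M0`, so all its tuples are isolated over `A` (IST (7) for automorphisms in `Nx A`):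
contradiction.  If the set of labels is finite choose representatives. -/
def St_FNL : Prop :=
  ∀ (L : FirstOrder.Language.{0, 0}) (U : Type) [L.Structure U], Ctx L U → ∀ (A E P : Set U)
    (cl : U → U → Prop), Fre L A E cl → Bq L A P → P ⊆ E →
    ∃ (r : ℕ) (N : Fin r → Set U) (p : Fin r → U),
      (∀ j, Md L A (N j) ∧ p j ∈ N j ∧ p j ∈ P ∧ ¬ AtC L A (Kl P cl (N j) (p j))) ∧
      (∀ i j, i ≠ j → ¬ SmN L A (Kl P cl (N i) (p i)) (Kl P cl (N j) (p j))) ∧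
      ∀ (M : Set U) (q : U), Md L A M → q ∈ M → q ∈ P → AtC L A (Kl P cl M q) ∨
        ∃ j, SmN L A (Kl P cl (N j) (p j)) (Kl P cl M q)

/-- [RCL] restriction of a game to clusters.
HYPS: GEQ, KLB.
PROOF.  `p ∈ P`.  For every `u ∈ D ∩ P` choose `b_u ∈ E` with `b_u ~_A u` (`u` itself moved by `Fre.inf` for `D = {p}`) and `¬ cl p b_u`; `Δ' = Δ ∪ {⟨1, 1, (p, b_u)⟩ | u ∈ D ∩ P}`.
Induction on `n` (all `α`, `a`, `v`, `w`).  `At`: `Δ ⊆ Δ'`.  Forth: `x ∈ Kl P cl X (v a)`, `Cj1 u x`, so `u ∈ P`: `y ∈ Y`, `Cj1 u y`, `y ∈ P`, `Eg .. Δ' .. (ov v x) (ov w y)`.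
`cl (w a) y`: otherwise `(w a, y) ~_A (p, b_u)` (KLB (6)), so by `At` `(v a, x) ~_A (p, b_u)`, so `¬ cl (v a) x` (`fxc`): contradiction.  Induction for `Option α`,
`some a`.  Back: the same. -/
def St_RCL : Prop :=
  ∀ (L : FirstOrder.Language.{0, 0}) (U : Type) [L.Structure U], Mon L U → ∀ (A E P : Set U)
    (cl : U → U → Prop), Fre L A E cl → Bq L A P → P ⊆ E →
    ∀ (Δ : Set (Atm U)) (D : Set U) (p : U), Δ.Finite → D.Finite → p ∈ P →
    ∃ Δ' : Set (Atm U), Δ'.Finite ∧ Δ ⊆ Δ' ∧ ∀ (n : ℕ) (α : Type) (a : α) (X Y : Set U) (v w : α → U),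
      Cj1 L (Nx L A) p (v a) → Cj1 L (Nx L A) p (w a) → Eg L (Nx L A) A Δ' D n α X v Y w →
      Eg L (Nx L A) A Δ D n α (Kl P cl X (v a)) v (Kl P cl Y (w a)) w

/-- [MUL] multiplicities.
HYPS: GEQ, GIN, SNE, KMA, ATK, FNL, RCL.
PROOF.  FNL: `(N j, p j)`, `j < r₀`, `K_j = Kl P cl (N j) (p j)`; choose a tuple `τ_j` in `K_j` which is not isolated over `A`.
(1) There are finite `Δ`, `D` and `n` such that `¬ Eg (Nx A) A Δ D n Empty K_i ∅ K_j ∅` for `i ≠ j` (KMA: not `EqS`; GEQ (4)), and `Δ ∋ τ_j` (as `⟨k_j, 0, τ_j⟩`), `D ⊇ range τ_j`,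
`n ≥ k_j` for all `j`.  (2) If `K, K'` satisfy `Eg .. Δ D n Empty K ∅ K' ∅` and `τ_j` is (up to `~_A`) realised in `K` then also in `K'` (GIN (3), (2)); then `K'` is not `AtC`.
(3) CLAIM: if `K = Kl P cl M q`, `K' = Kl P cl M' q'`, `q ~_A q'`, `Eg .. Δ D n Empty K ∅ K' ∅` then `SmN A K K'`.  If `K` is not `AtC`: `SmN A K_j K` for some `j` (FNL), so
`K` realises `τ_j`, so `K'` does; `K'` is not `AtC`, `SmN A K_i K'` for some `i`; `Eg .. K_j K`, `K K'`, `K' K_i` (SNE): `i = j`.  In the same way if `K'` is not `AtC`.  If both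
are `AtC`: ATK.
(4) Let `q : Fin r → U` be as in the hypothesis.  All `Kl P cl M (q i)` are similar to `Kl P cl M p`, so we may replace `q i` by a point of its cluster with
`q i ~_A p`.  RCL for `Δ, D, p`: `Δ'`.  `EqS A (M ∩ P) (M' ∩ P)` for `Δ' ∪ {⟨r, 0, q⟩, ⟨1, 0, (p)⟩}`, `D ∪ range q`, `n + r`: `q'` in `M' ∩ P` with
`Eg .. Δ' .. n (Empty ⊕ Fin r) (M ∩ P) q (M' ∩ P) q'`, `q ~_A q'` (GIN (3), (2)), so `¬ cl (q' i) (q' j)` for `i ≠ j` (`fxc`).  RCL for `a = i`: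
`Eg .. Δ D n .. (Kl P cl (M ∩ P) (q i)) q (Kl P cl (M' ∩ P) (q' i)) q'`, restrict to `Empty` (GEQ (5)), `Kl P cl (M ∩ P) x = Kl P cl M x`; the claim (3). -/
def St_MUL : Prop :=
  ∀ (L : FirstOrder.Language.{0, 0}) (U : Type) [L.Structure U], Ctx L U → ∀ (A E P : Set U)
    (cl : U → U → Prop), Fre L A E cl → Bq L A P → P ⊆ E → Clm L A E cl →
    ∀ M M' : Set U, Md L A M → Md L A M' → EqS L A (M ∩ P) (M' ∩ P) →
    ∀ (p : U) (r : ℕ) (q : Fin r → U), p ∈ M → p ∈ P →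
    (∀ i, q i ∈ M ∧ q i ∈ P ∧ SmN L A (Kl P cl M p) (Kl P cl M (q i))) → (∀ i j, i ≠ j → ¬ cl (q i) (q j)) →
    ∃ q' : Fin r → U, (∀ i, q' i ∈ M' ∧ q' i ∈ P ∧ SmN L A (Kl P cl M p) (Kl P cl M' (q' i))) ∧
      ∀ i j, i ≠ j → ¬ cl (q' i) (q' j)

/-- [FGL] gluing.
HYPS: none.
PROOF.  Adapt `FCT_bij`, `FCT_pts`, `FCT_sim`, `FCT_equiv` in `TPC/FCT.lean` (with `Kl P cl`, `Lab L A P cl` instead of `Kl E cl`, `Lab L A E cl`; the labels are the
classes of `SmN A` on the sets `Kl P cl M p`, `Kl P cl M' p'`): equal multiplicities give a bijection of the clusters of `M ∩ P` and `M' ∩ P` such that corresponding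
ones are similar; glue the similarities (`TPC.q_FOB` (4), for points of `P ⊆ E`). -/
def St_FGL : Prop :=
  ∀ (L : FirstOrder.Language.{0, 0}) (U : Type) [L.Structure U], Mon L U → ∀ (A E P : Set U)
    (cl : U → U → Prop), Fre L A E cl → Bq L A P → P ⊆ E → ∀ M M' : Set U,
    (∀ p ∈ M, p ∈ P → (Lab L A P cl M (Kl P cl M p)).encard = (Lab L A P cl M' (Kl P cl M p)).encard) →
    (∀ p ∈ M', p ∈ P → (Lab L A P cl M (Kl P cl M' p)).encard = (Lab L A P cl M' (Kl P cl M' p)).encard) →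
    SmN L A (M ∩ P) (M' ∩ P)

/-- [FRN] free unions are determined by their theory.
HYPS: GEQ, MUL, FGL, KLB.
PROOF.  FGL.  Let `p ∈ M ∩ P`, `K = Kl P cl M p`.  For `r : ℕ`: `Lab A P cl M K` has at least `r` elements iff there is `q : Fin r → U` with `q i ∈ M ∩ P`,
`SmN A K (Kl P cl M (q i))`, `¬ cl (q i) (q j)` for `i ≠ j` (KLB (3); `Lab` is the set of these clusters), and the same for `M'`.  MUL: `≤`; and MUL for `M'`, `M`, and
`p' = ` some `q' 0` (a cluster of `M'` similar to `K`; if `r > 0`): `≥` (SMQ (2), (3)).  If the multiplicity in `M'` is at least 1 then there is such a `p'`;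
the multiplicity in `M` is at least 1.  `Set.encard` are equal if for all `r : ℕ` `r ≤ encard ↔ r ≤ encard'`.  For `p ∈ M' ∩ P` the same with the roles exchanged
(`EqS` is symmetric). -/
def St_FRN : Prop :=
  ∀ (L : FirstOrder.Language.{0, 0}) (U : Type) [L.Structure U], Ctx L U → ∀ (A E P : Set U)
    (cl : U → U → Prop), Fre L A E cl → Bq L A P → P ⊆ E → Clm L A E cl → Mar L A P

end Pool.Agent.MTC
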