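import Pool.Agent.MTC.StB
import Pool.Agent.TPY.Asm3
import Pool.Agent.TPY.ALL3

/-!
# MTC: statements of part V (helper23): structure theory in the countably saturated `V` and the runs of NOBIG

As `TPY/StW.lean`; `i : U → V` an elementary embedding.  `TPY.w_XXX` (`TPY/Asm3.lean`), `TPY.m_XXX` (`TPY/ALLM.lean`, `ALLR.lean`; `m_RNB`: NOBIG) and
`TPC.z_XXX` are unconditional.
-/

set_option autoImplicit false
set_option linter.unusedVariables false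

namespace Pool.Agent.MTC

open FirstOrder.Language Set
open scoped FirstOrder
open Pool.Agent.WOM (tp Mon IsEl IsoM CtU Fx Orb Isd)
open Pool.Agent.PMC (Sm Md NPf)
open Pool.Agent.MNO (Dp FE Sq Nx SmN FE1 FinN)
open Pool.Agent.TPC (Bq Pq Sub Fcp Lin Fre Iv Kl Inr Lab Clu Rgd Ist Cpt)
open Pool.Agent.TPY (Cz Tq Pc BF s1 LinV FreV InrV Gd En TS NF Ind pre LQ Edd IsoV IsoP Emb NBV)

section defs

variable (L : FirstOrder.Language.{0, 0}) {V : Type} [L.Structure V]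

/-- nice pieces without free unions (`TPY.NiceV`) -/
def NiceW : ℕ → Set V → V → Prop
  | 0, A, x => Pc L A x = {x} ∨ ∃ lt, LinV L A (Pc L A x) lt
  | n + 1, A, x => NiceW n A x ∨
      ∀ y ∈ Pc L A x, ∀ z ∈ Pc L A x, InrV L A y z ∨ NiceW n (insert y A) z

/-- the piece of `z` over `A` is contained in a free union over `A` all of whose points have the type over `A` of some point of
the piece -/
def FrW (A : Set V) (z : V) (E : Set V) (cl : V → V → Prop) : Prop :=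
  FreV L A E cl ∧ Pc L A z ⊆ E ∧ ∀ y ∈ E, ∃ x ∈ Pc L A z, Tq L A (s1 x) (s1 y)

/-- what is needed about the ended pieces (`TPY.OutE`, refined) -/
def OutW (A : Set V) (z : V) : Prop :=
  ∀ B : Set V, B.Finite → A ⊆ B → ∀ z' ∈ Pc L A z,
    (∃ n, NiceW L n B z') ∨ (∃ E cl, FrW L B z' E cl) ∨ Pc L B z' = {z'} ∨
    (∃ (H E : Set V) (lt : V → V → Prop) (y : V), LinV L H E lt ∧ y ∈ E ∧
      ∀ v ∈ Pc L B z', v ∈ E ∧ ¬ lt y v ∧ ¬ lt v y) ∨
    ∃ (E : Set V) (cl : V → V → Prop) (b : V), FreV L A E cl ∧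
      (∀ y ∈ E, ∃ x ∈ Pc L A z, Tq L A (s1 x) (s1 y)) ∧ b ∈ B ∧ b ∈ E ∧ z' ∈ E ∧ cl b z'

/-- `TPY.BigH` with `b0` and with `Edd` in `b1` -/
structure BigW (A₀ : Set V) (big : Set V → V → Prop) : Prop where
  inv : ∀ (n : ℕ) (a a' : Fin n → V) (z z' : V), A₀ ⊆ range a →
    Tq L A₀ (Sum.elim a (s1 z)) (Sum.elim a' (s1 z')) → big (range a) z → big (range a') z'
  pc : ∀ (A : Set V) (z z' : V), A.Finite → A₀ ⊆ A → z' ∈ Pc L A z → big A z → big A z'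
  b0 : ∀ (A : Set V) (z : V), A.Finite → A₀ ⊆ A → z ∈ A → ¬ big A z
  b1 : ∀ (A : Set V) (z : V), A.Finite → A₀ ⊆ A → Edd L A z → ¬ big A z
  b3 : ∀ (A : Set V) (z : V) (n : ℕ) (u : Fin n → V), A.Finite → A₀ ⊆ A → (∀ k, u k ∈ Pc L A z) → IsoV L A u →
    big A z → ∃ z' ∈ Pc L A z, big (A ∪ range u) z'
  b4 : ∀ (A A' : Set V) (z z' : V), A'.Finite → A₀ ⊆ A → A ⊆ A' → z' ∈ Pc L A z → big A' z' → big A z
  b5 : ∀ (A W : Set V) (z : V), A.Finite → A₀ ⊆ A → W.Finite → Disjoint W (Pc L A z) → big A z → big (A ∪ W) z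

/-- the notion `BigM` of `U` in `V` (as `TPY.BigV`) -/
def BigMV (U : Type) [L.Structure U] (A : Set V) (z : V) : Prop :=
  ∃ (j : U → V) (A' : Set U) (z' : U), Emb L j ∧ A'.Finite ∧ j '' A' = A ∧ j z' = z ∧ BigM L A' z'

end defs

/-- [NLW] ends of type L are nice without free unions.
HYPS: none.
PROOF.  Port of `TPY/NI2.lean` and `TPY/NIL.lean`: the third alternative of `NiceV` (free unions) is never used there.  Replace `NiceV` by `NiceW` (and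
`Or.inr (Or.inl h)` by `Or.inr h` at level `0`); all other hypotheses are `TPY.f_LIN`, `TPY.f_LQF`, `TPY.f_INR`, `TPY.thm_LOH` (`TPY/S1.lean`).  (1) is NI2, (2) is
NIL. -/
def St_NLW : Prop :=
  ∀ (L : FirstOrder.Language.{0, 0}) (U : Type) [L.Structure U], Cz L U →
    (∀ (A P : Set U) (lt : U → U → Prop), LQ L A P lt → ∀ z ∈ P, NiceW L 2 A z) ∧
    ∀ (r : ((Fin 1 → U) → Prop) → Prop) (A : Set U), A.Finite → Gd L A r →
    ∀ N : ℕ, (∀ x : ℕ → U, Ind L A r N x → NF L (A ∪ pre x N) r) → ∀ z ∈ En L A r, NiceW L (N + 2) A z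

/-- [OUW] ended pieces satisfy `OutW`.
HYPS: NLW.
PROOF.  Port of `TPY/S1.lean` (`thm_NEN`, `thm_S1`) and `TPY/OUT.lean`.  `Pc A z = En A r` (`TPY.edd_en`).  NEN: type S: `FrW` with `E = TE L A r`, `cl = Cl0 L A`
(`frx`, `fr_pc`; the points of `TE L A r` have the type of a point of `En`); type L: NLW (2).  S1: the same proof; its `NiceV` cases are NEN over `B` (here:
`NiceW` or `FrW`), `z' ∈ B` (singleton), and `f_NI2` (NLW (1)). -/
def St_OUW : Prop :=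
  ∀ (L : FirstOrder.Language.{0, 0}) (V : Type) [L.Structure V], Cz L V → ∀ (A : Set V) (z : V), A.Finite →
    Edd L A z → OutW L A z

/-- [BGW] NOBIG for `BigW`.
HYPS: none.
PROOF.  Port of `TPY/BGH.lean` (`bg_of`): `Bg` and `B3`; `TPY.m_RNB`. -/
def St_BGW : Prop :=
  ∀ (L : FirstOrder.Language.{0, 0}) (V : Type) [L.Structure V], Cz L V → IsoP L V →
    ∀ (A₀ : Set V) (big : Set V → V → Prop), A₀.Finite → BigW L A₀ big →
    ∀ (A : Set V) (z : V), A.Finite → A₀ ⊆ A → ¬ big A z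

/-- [CXT] the context.
HYPS: none.
PROOF.  `NBV L V`: `TPY.nbv_of hC (thm_OUT) (m_RNB ..)`, `IsoP`: `(TPY.w_ISV ..).2` (as in `ct_of'`, `TPY/Asm3.lean`).  `FinN L U`: `TPY.w_RU1`.  As in the proof of
`TPY/RU3.lean` (with `w_BGV`, `w_B1V`, `w_RU2`): no `Big L ∅ z`; by the definition of `Big` (`B := B`, `z' ∈ Pq ∅ z'`, `z := z'`): `Cpt L B (Pq L B z)` for all finite `B` and
all `z`.  For a union `Q` of pieces over `B`: CPT (3) (`TPC.q_CPT`) with NRQ (`TPC.q_NRQ`). -/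
def St_CXT : Prop :=
  ∀ (L : FirstOrder.Language.{0, 0}) (U V : Type) [L.Structure U] [L.Structure V] (i : U → V),
    Cz L V → Emb L i → Mon L U → NPf L U → Ctx L U ∧ IsoP L V

/-- [BMV] calculus of `BigMV`.
HYPS: BGM, B3M.
PROOF.  As `TPY/BGV.lean`, with BGM, B3M for BGC, BG3 (`TPY.w_EMV`, `TPY.w_ISV`).  (7): `j` with `A`, `z` in the range; (1); BGM (6). -/
def St_BMV : Prop :=
  ∀ (L : FirstOrder.Language.{0, 0}) (U V : Type) [L.Structure U] [L.Structure V] (i : U → V),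
    Cz L V → Emb L i → Ctx L U →
    (∀ (j : U → V) (A : Set U) (z : U), Emb L j → A.Finite → (BigMV L U (j '' A) (j z) ↔ BigM L A z)) ∧
    (∀ (n : ℕ) (a a' : Fin n → V) (z z' : V), Tq L (∅ : Set V) (Sum.elim a (s1 z)) (Sum.elim a' (s1 z')) →
      BigMV L U (range a) z → BigMV L U (range a') z') ∧
    (∀ (A : Set V) (z z' : V), A.Finite → z' ∈ Pc L A z → BigMV L U A z → BigMV L U A z') ∧
    (∀ (A A' : Set V) (z z' : V), A'.Finite → A ⊆ A' → z' ∈ Pc L A z → BigMV L U A' z' → BigMV L U A z) ∧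
    (∀ (A W : Set V) (z : V), A.Finite → W.Finite → Disjoint W (Pc L A z) → BigMV L U A z →
      BigMV L U (A ∪ W) z) ∧
    (∀ (A : Set V) (z : V) (n : ℕ) (u : Fin n → V), A.Finite → IsoV L A u → BigMV L U A z →
      ∃ z' ∈ Pc L A z, BigMV L U (A ∪ range u) z') ∧
    ∀ (A : Set V) (z : V), A.Finite → z ∈ A → ¬ BigMV L U A z

/-- [B1W] ended pieces which are big.
HYPS: MCA, NIM.
PROOF.  As `TPY/B1V.lean`.  `BigMV A z`: `j`, `A'`, `z0` and `BigM A' z0`: `B1`, `z1 ∈ Pq A' z0`, not `Mar B1 (Pq B1 z1)`.  `j z1 ∈ Pc A z` (`pc_emb`); `OutW` for `B = j '' B1`,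
`j z1`.  `NiceW n`: `Nic n B1 z1` (port of `nice_of`, `TPY/Brg4.lean`), NIM.  `FrW`: the second alternative.  Singleton: `pq_pre`, MCA (3).  In a cluster of a
linear piece: `Rgd B1 z1` (`b1v_lin` of `TPY/B1V.lean`, `TPC.z_LRG`), MCA (4).  The last case: the first alternative. -/
def St_B1W : Prop :=
  ∀ (L : FirstOrder.Language.{0, 0}) (U V : Type) [L.Structure U] [L.Structure V] (i : U → V),
    Cz L V → Emb L i → Ctx L U → ∀ (A : Set V) (z : V), A.Finite → OutW L A z → BigMV L U A z →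
    ∃ (j : U → V) (B1 : Set U) (z1 : U), Emb L j ∧ B1.Finite ∧ A ⊆ j '' B1 ∧ j z1 ∈ Pc L A z ∧
      ¬ Mar L B1 (Pq L B1 z1) ∧
      ((∃ (b1 : U) (E : Set V) (cl : V → V → Prop), FreV L A E cl ∧
        (∀ y ∈ E, ∃ x ∈ Pc L A z, Tq L A (s1 x) (s1 y)) ∧ b1 ∈ B1 ∧ j b1 ∈ E ∧ j z1 ∈ E ∧ cl (j b1) (j z1)) ∨
      ∃ (E : Set V) (cl : V → V → Prop), FrW L (j '' B1) (j z1) E cl)

/-- [R2W] run 2: no big piece inside a cluster of a free union.
HYPS: BGW, OUW, BMV, B1W, MCA, FRN.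
PROOF.  As `TPY/RU2.lean`.  BGW for `A₀ = insert x H`, `big A z := z ∈ E ∧ cl x z ∧ BigMV A z` (KPV = `TPY.w_KPV`).  `b1`: OUW, B1W: `j`, `B1`, `z1`.  `x' = j⁻¹ x ∈ B1`.
First alternative: exactly as in RU2: `TPC.z_NFR`: `Rgd B1 z1`, MCA (4): contradiction.
Second alternative: `E₁`, `cl₁` over `j '' B1`.  `E₁` is contained in the cluster of `x`: `y ∈ E₁` has the type over `j '' B1 ⊇ insert x H` of some
`u ∈ Pc (j '' B1) (j z1) ⊆ Pc A (j z1) = Pc A z`, KPV (1) for `u`, KPV (2).  In `U` (`fre_of`): `E' = j⁻¹ E₁`, `cl' = cl₁ ∘ j`: `Fre B1 E' cl'`, `Pq B1 z1 ⊆ E'` (`pq_pre`).  `Clm B1 E' cl'`: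
`TPC.z_NFR` (for `H' := B1`, `E'`; `∀ v ∈ E', v ∈ j⁻¹ E ∧ cl x v`): `Rgd B z`, MCA (4).  FRN for `P = Pq B1 z1` (`Bq`: ALQ (5)): `Mar B1 P`: contradiction. -/
def St_R2W : Prop :=
  ∀ (L : FirstOrder.Language.{0, 0}) (U V : Type) [L.Structure U] [L.Structure V] (i : U → V),
    Cz L V → Emb L i → Ctx L U → IsoP L V →
    ∀ (H E : Set V) (cl : V → V → Prop) (x : V), FreV L H E cl → x ∈ E → ∀ (A : Set V) (z : V), A.Finite →
    insert x H ⊆ A → z ∈ E → cl x z → ¬ BigMV L U A z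

/-- [R3W] run 3.
HYPS: BGW, OUW, BMV, B1W, BGM, FRN, R2W.
PROOF.  As `TPY/RU3.lean`.  BGW for `A₀ = ∅`, `big = BigMV`.  `b1`: OUW, B1W: `j`, `B1`, `z1`.  First alternative: `BigM B1 z1` (`B := B1`, `z' := z1`), `BigMV (j '' B1) (j z1)` (BMV (1)):
against R2W for `(A, E, cl)`, `x = j b1`, `j '' B1 ⊇ insert (j b1) A`.  Second alternative: `E' = j⁻¹ E₁`, `cl' = cl₁ ∘ j`: `Fre B1 E' cl'` (`fre_of`), `Pq B1 z1 ⊆ E'`;
`Clm B1 E' cl'`: `B ⊇ B1` finite, `b ∈ B`, `b, z ∈ E'`, `cl' b z`: R2W for `(j '' B1, E₁, cl₁)`, `x = j b`, `A := j '' B ⊇ insert (j b) (j '' B1)`, `j z`: not `BigMV (j '' B) (j z)`, so not `BigM B z`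
(BMV (1)), BGM (5): `Mar B (Pq B z)`.  FRN: `Mar B1 (Pq B1 z1)`: contradiction.  So no `BigMV ∅ (i z)`, no `BigM ∅ z`. -/
def St_R3W : Prop :=
  ∀ (L : FirstOrder.Language.{0, 0}) (U V : Type) [L.Structure U] [L.Structure V] (i : U → V),
    Cz L V → Emb L i → Ctx L U → IsoP L V → ∀ z : U, ¬ BigM L (∅ : Set U) z

end Pool.Agent.MTC
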