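import Pool.Agent.MTC.L1
import Pool.Agent.MTC.StV

/-!
# MTC: statements of part L (helper23): the fragment `L_1(T)` and the main theorem
-/

set_option autoImplicit false
set_option linter.unusedVariables false

namespace Pool.Agent.MTC

open FirstOrder.Language Set
open scoped FirstOrder
open Pool.Agent.WOM (tp Mon IsEl IsoM CtU Fx Orb Isd CtT PerfT ThS)
open Pool.Agent.PMC (Sm Md NPf)
open Pool.Agent.MNO (Dp FE Sq Nx SmN FE1 FinN)
open Pool.Agent.TPC (Bq Pq Ist Cpt)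

/-- `S` and `S'` satisfy the same sentences of `L_1(T)` -/
def L1E (L : FirstOrder.Language.{0, 0}) (T : L.Theory) (S S' : L.Structure ℕ) : Prop :=
  ∀ φ : L1F L 0, L1F.Of T φ → (@L1F.Sat L ℕ S 0 φ Fin.elim0 ↔ @L1F.Sat L ℕ S' 0 φ Fin.elim0)

/-- `f` is an elementary embedding of the structure `S` on `ℕ` in `U` -/
def ElN (L : FirstOrder.Language.{0, 0}) {U : Type} [L.Structure U] (S : L.Structure ℕ) (f : ℕ → U) : Prop :=
  ∀ (n : ℕ) (a : Fin n → ℕ), @tp L ℕ S n a = tp (L := L) (f ∘ a)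

/-- [EQF] the second kind of atoms is first order.
HYPS: GRP, FNS.
PROOF.  `s = (a, b)`, `a : Fin l → U`, `b : Fin m → U`.  `TPC.z_FNT` for `A = range a`, `t = b`: `F`, `FE (range a) F`, such that for `b'` conjugate to `b` over
`range a`: `F b b' → b ~_(range a) b'` (`~_A`: `Cj (Nx A)`).  `dp_fam0` (`FE.dfn`): `F u u' ↔ Ψ (a, u, u')` with `Dp ∅ Ψ`; `dp_form0` or `dp_form` for a formula `ψ` with the
variables `(Fin l ⊕ Fin m) ⊕ Fin m`.  Let `(v, w) = g (a, b)`, `(v, w') = g' (a, b)` (automorphisms).  `Ψ (v, w, w')` iff `Ψ (a, b, g⁻¹ w')` iff `F b (g⁻¹ w')`, and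
`g⁻¹ w' = g⁻¹ g' b` is conjugate to `b` over `range a`.  If this holds: `b ~_(range a) g⁻¹ w'`, so `w ~_(range v) w'` (`nx_conj`).  If `w ~_(range v) w'` then
`b ~_(range a) g⁻¹ w'`, so `F b (g⁻¹ w')` (`nx_sq`; `FE`). -/
def St_EQF : Prop :=
  ∀ (L : FirstOrder.Language.{0, 0}) (U : Type) [L.Structure U], Mon L U → FinN L U → ∀ (l m : ℕ)
    (s : Fin l ⊕ Fin m → U), ∃ ψ : L.Formula ((Fin l ⊕ Fin m) ⊕ Fin m), ∀ (v : Fin l → U) (w w' : Fin m → U),
    Cj L (Fx L (∅ : Set U)) s (Sum.elim v w) → Cj L (Fx L (∅ : Set U)) s (Sum.elim v w') →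
    (ψ.Realize (Sum.elim (Sum.elim v w) w') ↔ Cj L (Nx L (∅ ∪ range v)) w w')

/-- [HIN] the theory in `L_1(T)` determines the games for the group of all automorphisms.
HYPS: GEQ, EQF.
PROOF.  `G = Fx L ∅`.  `U` is countable and infinite, so it is isomorphic to a structure on `ℕ`, a model of `T`: for every tuple `s : Fin k → U` the set `tp s` is a
complete type of `T` in the sense of `L1F.Of`; and for tuples `t, s` of `U`: `Cj G s t ↔ tp s = tp t ↔ ∀ φ ∈ tp s, φ.Realize t` (`Mon.hom`; `tp s` is complete).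
CLAIM: for all finite `Δ, D` and all `n`, `k` there is a finite set `Λ` of formulas `φ : L1F L k`, `φ.Of T`, such that for all `S, S'`, `f, f'` (`ElN`) and `v, v' : Fin k → ℕ`: if
`S ⊨ φ(v) ↔ S' ⊨ φ(v')` for all `φ ∈ Λ` then `Eg G ∅ Δ D n (Fin k) (range f) (f ∘ v) (range f') (f' ∘ v')`.
Atoms: for `δ ∈ Δ`, `i`, `j`: `typ _ (tp δ.2.2)` (reindex `Fin l ⊕ Fin m` to `Fin (l + m)`), applied to `(v i, v j)`; for `j'`: the formula `ψ` of EQF for `δ.2.2`, applied to
`(v i, v j, v j')` (`fo`, relabel); `f` is elementary (`ElN`).  Finitely many.  `n + 1`: `Λ₁` for `n`, `k + 1`.  For `u ∈ D` and every subset `I ⊆ Λ₁`: the formula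
`∃ x_k (tp u (x_k) ∧ ⋀_(φ ∈ I) φ ∧ ⋀_(φ ∈ Λ₁ \ I) ¬ φ)`.  Together with the formulas for `Δ` (and those for `n`).  Forth: `x = f c`, `Cj1 G u x`: `I` = the set of the `φ ∈ Λ₁` true
for `(v, c)`; so there is `c'` with the same truth values for `(v', c')`, `Cj1 G u (f' c')`; the claim for `n` and `(v, c)`, `(v', c')`; `Fin.snoc` and `ov` are related by
`Option (Fin k) ≃ Fin (k + 1)`, GEQ (5).  `k = 0`: reindex `Empty → Fin 0`. -/
def St_HIN : Prop :=
  ∀ (L : FirstOrder.Language.{0, 0}) (U : Type) [L.Structure U], Mon L U → FinN L U → ∀ T : L.Theory, U ⊨ T →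
    ∀ (S S' : L.Structure ℕ) (f f' : ℕ → U), ElN L S f → ElN L S' f' → L1E L T S S' →
    EqT L (Fx L (∅ : Set U)) ∅ (range f) (Empty.elim : Empty → U) (range f') (Empty.elim : Empty → U)

/-- [FNM] the theory of a submodel determines it.
HYPS: GRP, LMG, MCA, BGM, GEQ.
PROOF.  LMG for `G = Fx L ∅`, `C = ∅` (GRP (2), (6)): an automorphism `g` with `EqS ∅ M (g '' M')`.  `Mar ∅ univ`: MCA (1), BGM (5) (ALQ (1): `Bq ∅ univ`).  `M = M ∩ univ`:
`SmN ∅ M (g '' M')` (the image of a model is a model: `Md ∅ (g '' M')`), SMQ (7): `IsoM M (g '' M')`; `IsoM (g '' M') M'` by `g`; `IsoM` is transitive. -/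
def St_FNM : Prop :=
  ∀ (L : FirstOrder.Language.{0, 0}) (U : Type) [L.Structure U], Ctx L U → (∀ z : U, ¬ BigM L (∅ : Set U) z) →
    ∀ M M' : Set U, IsEl L M → IsEl L M' →
    EqT L (Fx L (∅ : Set U)) ∅ M (Empty.elim : Empty → U) M' (Empty.elim : Empty → U) → IsoM L M M'

/-- the hypothesis (`TPY.NipO`) and the conclusion: if there is no perfect family of models then there are countably many models,
and every model on `ℕ` is determined up to isomorphism by its theory in `L_1(T)` -/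
def St_LFN : Prop :=
  ∀ (L : FirstOrder.Language.{0, 0}), Countable L.Symbols → ∀ T : L.Theory,
    (∀ S : L.Structure ℕ, @FirstOrder.Language.Theory.Model L ℕ S T → @Pool.Agent.TPY.NipO L ℕ S) →
    (CtT L T ∧ ∀ S S' : L.Structure ℕ, @FirstOrder.Language.Theory.Model L ℕ S T →
      @FirstOrder.Language.Theory.Model L ℕ S' T → L1E L T S S' →
      Nonempty (@FirstOrder.Language.Equiv L ℕ ℕ S S')) ∨ PerfT L T

/-- [LFN] the main theorem.
HYPS: CXT, R3W, HIN, FNM.
PROOF.  `TPY.all_T6`: `CtT ∨ PerfT`.  Let `PerfT L T` be false, so `CtT L T`.  Let `S, S'` be as in the statement.  `ThS L S = ThS L S'` (sentences of `L_1(T)` of the form `fo`).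
`PerfT L (ThS L S)` is false (a perfect family of models of `ThS L S` consists of models of `T`, as in the proof of `T6_of`, `TPY/Asm3.lean`, or `thm_INC`).  As in
`T6_of`: `U`, `V`, `j : U → V` with `Mon L U`, `NPf L U`, `Cz L V`, `Emb j`, `U ⊨ ThS L S`.  CXT: `Ctx L U`, `IsoP L V`; R3W.  `WOM.thm_EMB`: `f, f'` for `S`, `S'`; HIN (`U ⊨ T`), FNM:
`IsoM (range f) (range f')`; so `S ≅ S'` (as in `WOM.thm_TRC`). -/
def St_LFN0 : Prop := St_LFN

end Pool.Agent.MTC
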